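import Pool.Agent.Lib_MP_0bab5c_s.ParC
import Pool.Agent.Lib_MP_0bab5c_t.TTwin

/-! # Home vertices, general constant -/

namespace LCS

open Finset LCX LCX.Full
open scoped Classical

variable {V J U : Type} [Fintype V] [Fintype J] [Fintype U]

theorem exists_arcC {G P : SimpleGraph V} (hGP : G ≤ P) {C k eta d0 e1 tau s q er : ℝ} {r0 : ℕ}
    (par : ParC C k eta d0 e1 tau s q er r0) {m : ℕ} {E : Fin m → Finset V}
    (hP : Clean P k C d0 e1 E) (hcuts : SmallCuts P k C) {x z : V} (hxz : x ≠ z) :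
    (∃ B, CutC G E C k d0 e1 tau x z B) ∨ ∃ B, CutC G E C k d0 e1 tau z x B := by
  have hd1 : d0 ≤ 1 / 2 := by
    have h1 := par.a1
    have h2 := par.heta1
    have h3 : 0 ≤ 3 * tau / e1 := div_nonneg (by linarith [par.htau]) par.he1.le
    linarith
  have hk : 0 < k := by linarith [par.hk]
  have key : ∀ a b : V, (∃ A, IsCut P k (C * k) a b A) → ∃ B, CutC G E C k d0 e1 tau a b B := by
    rintro a b ⟨A, hA⟩
    obtain ⟨B, hB⟩ := trim P k C d0 e1 tau E hP hk par.hd0.le hd1 par.he1 par.htau par.htau1 a b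
      A hA
    exact ⟨B, TrimCut.mono hGP hB⟩
  rcases hcuts x z hxz with h | h
  · exact Or.inl (key x z h)
  · exact Or.inr (key z x h)

theorem ParC.hK {C k eta d0 e1 tau s q er : ℝ} {r0 : ℕ}
    (par : ParC C k eta d0 e1 tau s q er r0) :
    (1 + d0 + 3 * tau / e1) * k ≤ (1 + eta) * k := by
  have hk : 0 < k := by linarith [par.hk]
  have h1 := mul_le_mul_of_nonneg_right par.a1 hk.le
  linarith

theorem ParC.hs1 {C k eta d0 e1 tau s q er : ℝ} {r0 : ℕ}
    (par : ParC C k eta d0 e1 tau s q er r0) : s ≤ 1 := by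
  have h1 := par.a4
  have h2 := par.heta1
  have h3 := par.her
  linarith

theorem ParC.her1 {C k eta d0 e1 tau s q er : ℝ} {r0 : ℕ}
    (par : ParC C k eta d0 e1 tau s q er r0) : er ≤ 1 / 4 := by
  have h1 := par.a4
  have h2 := par.heta1
  have h3 := par.hs
  linarith

/-- A cell that is not poor is not split. -/
theorem not_poorC {G P : SimpleGraph V} (hGP : G ≤ P) {C k eta d0 e1 tau s q er : ℝ} {r0 : ℕ}
    (par : ParC C k eta d0 e1 tau s q er r0) {m : ℕ} {E : Fin m → Finset V}
    (hP : Clean P k C d0 e1 E) {cell : J → Finset V} {hm : J → Fin m}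
    {phi : U → V} {adj : J → J → Prop} {hadj : U → J → Prop}
    (h : Red G k er s E cell hm phi adj hadj)
    (hnear : ∀ u j, hadj u j → phi u ∈ cn P E (hm j)) {x z : V} {B : Finset V}
    (hB : CutC G E C k d0 e1 tau x z B) (j : J) (hj : ¬ Poor k eta cell adj hadj j) :
    ((B ∩ cell j).card : ℝ) < s * wt cell j ∨
      ((cell j \ (B ∪ bd G B)).card : ℝ) < s * wt cell j :=
  not_split hGP hP h hnear (by linarith [par.hk]) (by linarith [par.hC]) par.hs1 par.her.le
    par.her1 par.a8 par.hK hB.1.2.2.2.1 j hj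

/-- Few exceptional vertices in a cell. -/
theorem home_exceptionalC {G P : SimpleGraph V} (hGP : G ≤ P) {C k eta d0 e1 tau s q er : ℝ}
    {r0 : ℕ} (par : ParC C k eta d0 e1 tau s q er r0) {m : ℕ} {E : Fin m → Finset V}
    (hP : Clean P k C d0 e1 E) (hcuts : SmallCuts P k C) {cell : J → Finset V} {hm : J → Fin m}
    {phi : U → V} {adj : J → J → Prop} {hadj : U → J → Prop}
    (h : Red G k er s E cell hm phi adj hadj) (M : ℕ)
    (hM : ∀ i, (univ.filter (fun j => hm j = i)).card ≤ M) (j : J) :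
    ((cell j).filter (fun x => ¬ FT G E cell ((1 + d0 + 3 * tau / e1) * k) (C * k) (tau * k) q
      x)).card ≤ (⌊1 / q⌋₊ + 1) ^ (M * ⌊(C + 1) / e1⌋₊) := by
  have hk : 0 < k := lt_of_lt_of_le one_pos par.hk
  have he1 := par.he1
  have hq := par.hq
  have hs1 : s ≤ 1 := par.hs1
  have her1 : er < 1 := by linarith [par.her1]
  have hwt : ∀ l, 0 < wt cell l := fun l => by
    unfold wt
    exact_mod_cast h.cpos l
  set R : Finset J := univ.filter (fun l => adj j l) with hR
  have hhome : ∀ l ∈ R, hm l ∈ univ.filter (fun i' => ∃ x ∈ E (hm j), ∃ y ∈ E i', P.Adj x y) := by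
    intro l hl
    have hl' : adj j l := (mem_filter.1 hl).2
    have h1 := h.full j l hl' (cell j) (Subset.refl _) (by
      have h2 : s * wt cell j ≤ 1 * wt cell j := mul_le_mul_of_nonneg_right hs1 (hwt j).le
      rw [one_mul] at h2
      exact h2)
    have h3 : ∃ y ∈ cell l, ∃ x ∈ cell j, G.Adj x y := by
      by_contra hcon
      push Not at hcon
      have h4 : (cell l).filter (fun y => ∀ x ∈ cell j, ¬ G.Adj x y) = cell l := by
        refine filter_true_of_mem ?_
        intro y hy x hx
        exact hcon y hy x hx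
      rw [h4] at h1
      have h5 : er * wt cell l < 1 * wt cell l := mul_lt_mul_of_pos_right her1 (hwt l)
      unfold wt at h1 h5
      linarith
    obtain ⟨y, hy, x, hx, hxy⟩ := h3
    exact mem_filter.2 ⟨mem_univ _, x, h.sub j hx, y, h.sub l hy, hGP hxy⟩
  have hdeg := home_home_degree hP hk he1 (hm j)
  have hdeg2 : (univ.filter (fun i' => ∃ x ∈ E (hm j), ∃ y ∈ E i', P.Adj x y)).card ≤
      ⌊(C + 1) / e1⌋₊ := Nat.le_floor hdeg
  have hRc : R.card ≤ M * ⌊(C + 1) / e1⌋₊ := by
    refine (card_le_mul_card_image_of_maps_to hhome M ?_).trans (Nat.mul_le_mul_left _ hdeg2)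
    intro i' _
    refine le_trans (card_le_card ?_) (hM i')
    intro l hl
    exact mem_filter.2 ⟨mem_univ _, (mem_filter.1 hl).2⟩
  have hkey := few_exceptional (cell j)
    (fun x z => ∃ B, CutC G E C k d0 e1 tau x z B)
    (fun x _ z _ hxz => exists_arcC hGP par hP hcuts hxz) R
    (fun x l => ⌊((nb G x ∩ cell l).card : ℝ) / (q * wt cell l)⌋₊) ⌊1 / q⌋₊ (by
      intro x _ l _
      refine floor_bound (Nat.cast_nonneg _) ?_ hq (hwt l)
      unfold wt
      exact_mod_cast card_le_card inter_subset_right)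
  have hkey2 : ((cell j).filter (fun x => ∀ z ∈ cell j, x ≠ z → (∀ l ∈ R,
      ⌊((nb G x ∩ cell l).card : ℝ) / (q * wt cell l)⌋₊ =
      ⌊((nb G z ∩ cell l).card : ℝ) / (q * wt cell l)⌋₊) →
        ¬ ∃ B, CutC G E C k d0 e1 tau x z B)).card ≤ (⌊1 / q⌋₊ + 1) ^ R.card := by
    refine le_trans (le_of_eq (congrArg card (Finset.ext fun x => ?_))) hkey
    simp only [mem_filter]
  refine le_trans (card_le_card ?_) (hkey2.trans (Nat.pow_le_pow_right (Nat.succ_pos _) hRc))
  intro x hx
  obtain ⟨hx1, hx2⟩ := mem_filter.1 hx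
  refine mem_filter.2 ⟨hx1, ?_⟩
  intro z hz hxz hval harc'
  apply hx2
  obtain ⟨B, hB⟩ := harc'
  refine ⟨z, B, hB, ?_⟩
  intro l
  by_cases hl : adj j l
  · exact floor_close (Nat.cast_nonneg _) (Nat.cast_nonneg _) hq (hwt l)
      (hval l (mem_filter.2 ⟨mem_univ _, hl⟩))
  · have h0 : nb G x ∩ cell l = ∅ := by
      rw [eq_empty_iff_forall_notMem]
      intro y hy
      obtain ⟨hy1, hy2⟩ := mem_inter.1 hy
      exact hl (h.ex j l x hx1 y hy2 (mem_filter.1 hy1).2)
    rw [h0, card_empty, Nat.cast_zero]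
    have h1 : (0 : ℝ) ≤ ((nb G z ∩ cell l).card : ℝ) := Nat.cast_nonneg _
    have h2 : 0 ≤ q * wt cell l := (mul_pos hq (hwt l)).le
    linarith

/-- the home vertices of one cell -/
theorem cell_sumC {G P : SimpleGraph V} (hGP : G ≤ P) {C k eta d0 e1 tau s q er : ℝ}
    {r0 : ℕ} (par : ParC C k eta d0 e1 tau s q er r0) {m : ℕ} {E : Fin m → Finset V}
    (hP : Clean P k C d0 e1 E) (hcuts : SmallCuts P k C) {cell : J → Finset V}
    {hm : J → Fin m} {phi : U → V} {adj : J → J → Prop} {hadj : U → J → Prop}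
    (h : Red G k er s E cell hm phi adj hadj)
    (hnear : ∀ u j, hadj u j → phi u ∈ cn P E (hm j)) (M : ℕ)
    (hM : ∀ i, (univ.filter (fun j => hm j = i)).card ≤ M) (i : J) :
    ∑ x ∈ cell i, ((nb G x).card : ℝ) ≤ wt cell i * (k + 3 * eta * k) +
      ∑ l ∈ univ.filter (fun l => Poor k eta cell adj hadj l ∧ adj i l),
        ∑ x ∈ cell i, rr G E cell ((1 + d0 + 3 * tau / e1) * k) (C * k) (tau * k) q x l +
      (C + 1) * k * (((⌊1 / q⌋₊ + 1) ^ (M * ⌊(C + 1) / e1⌋₊) : ℕ) : ℝ) := by
  have hk : 0 < k := by linarith [par.hk]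
  have hC : 0 < C := by linarith [par.hC]
  have heta := par.heta
  set K : ℝ := (1 + d0 + 3 * tau / e1) * k with hK
  have hKle : K ≤ (1 + eta) * k := par.hK
  set exc := (cell i).filter (fun x => ¬ FT G E cell K (C * k) (tau * k) q x) with hexc
  have hcard : (exc.card : ℝ) ≤ (((⌊1 / q⌋₊ + 1) ^ (M * ⌊(C + 1) / e1⌋₊) : ℕ) : ℝ) := by
    exact_mod_cast home_exceptionalC hGP par hP hcuts h M hM i
  have hx : ∀ x ∈ cell i, ((nb G x).card : ℝ) ≤ (k + 3 * eta * k) +
      ∑ l ∈ univ.filter (fun l => Poor k eta cell adj hadj l ∧ adj i l),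
        rr G E cell K (C * k) (tau * k) q x l +
      (if FT G E cell K (C * k) (tau * k) q x then 0 else (C + 1) * k) := by
    intro x hx
    by_cases ht : FT G E cell K (C * k) (tau * k) q x
    · rw [if_pos ht]
      have h1 := twin_deg h par.hs.le ht.choose_spec.choose_spec.1 par.hq.le
        (Poor k eta cell adj hadj)
        (fun j hj => not_poorC hGP par hP h hnear ht.choose_spec.choose_spec.1 j hj)
        ht.choose_spec.choose_spec.2
      have h2 : ∀ l, rr G E cell K (C * k) (tau * k) q x l =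
          rq G cell x ht.choose_spec.choose l := by
        intro l
        unfold rr
        rw [dif_pos ht]
      have h3 : ∑ l ∈ univ.filter (fun l => Poor k eta cell adj hadj l),
          rq G cell x ht.choose_spec.choose l ≤
          ∑ l ∈ univ.filter (fun l => Poor k eta cell adj hadj l ∧ adj i l),
          rr G E cell K (C * k) (tau * k) q x l := by
        simp only [h2]
        rw [← filter_filter]
        refine (sum_filter_of_ne ?_).ge
        intro l _ hl
        by_contra hadjl
        apply hl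
        have h0 : nb G x ∩ cell l = ∅ := by
          rw [eq_empty_iff_forall_notMem]
          intro y hy
          obtain ⟨hy1, hy2⟩ := mem_inter.1 hy
          exact hadjl (h.ex i l x hx y hy2 (mem_filter.1 hy1).2)
        unfold rq
        rw [h0, card_empty, Nat.cast_zero]
        exact max_eq_left (sub_nonpos.2 (Nat.cast_nonneg _))
      have h4 := metw_le hGP hP h hk hC.le par.he1 x
      have h5 : (s + q) * metw cell (nb G x) ≤ eta * k := by
        have e1' : (s + q) * metw cell (nb G x) ≤ (2 * s + q) * ((C + 1) / e1 * C * k) := by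
          apply mul_le_mul (by linarith [par.hs]) h4
          · unfold metw
            exact sum_nonneg fun l _ => Nat.cast_nonneg _
          · linarith [par.hs, par.hq]
        have e2' := mul_le_mul_of_nonneg_right par.a3 hk.le
        linarith
      have h6 := par.a7
      linarith
    · rw [if_neg ht]
      have h1 : ((nb G x).card : ℝ) ≤ (C + 1) * k := by
        refine le_trans ?_ (hP.deg x)
        exact_mod_cast card_le_card (nbG_le hGP x)
      have h2 : 0 ≤ ∑ l ∈ univ.filter (fun l => Poor k eta cell adj hadj l ∧ adj i l),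
          rr G E cell K (C * k) (tau * k) q x l :=
        sum_nonneg (fun l _ => rr_nonneg _ _ _ _ _ _ _ _ _)
      have h3 : 0 ≤ k + 3 * eta * k := by positivity
      linarith
  have h1 := sum_le_sum hx
  rw [sum_add_distrib, sum_add_distrib, sum_const, nsmul_eq_mul, sum_comm] at h1
  have h2 : ∑ x ∈ cell i, (if FT G E cell K (C * k) (tau * k) q x then 0 else (C + 1) * k) =
      (C + 1) * k * (exc.card : ℝ) := by
    have h3 : ∀ x, (if FT G E cell K (C * k) (tau * k) q x then (0 : ℝ) else (C + 1) * k) =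
        if ¬ FT G E cell K (C * k) (tau * k) q x then (C + 1) * k else 0 := by
      intro x
      by_cases ht : FT G E cell K (C * k) (tau * k) q x
      · rw [if_pos ht, if_neg (not_not.2 ht)]
      · rw [if_neg ht, if_pos ht]
    simp only [h3]
    rw [← sum_filter, sum_const, nsmul_eq_mul, mul_comm]
  rw [h2] at h1
  have h3 : (C + 1) * k * (exc.card : ℝ) ≤
      (C + 1) * k * (((⌊1 / q⌋₊ + 1) ^ (M * ⌊(C + 1) / e1⌋₊) : ℕ) : ℝ) :=
    mul_le_mul_of_nonneg_left hcard (by positivity)
  unfold wt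
  linarith

end LCS
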