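import Pool.Agent.Lib_MP_0bab5c_t.TLow

/-!
# Cliques and hubs: cuts with several cliques on one side

As in `Pool/Agent/Lib_MP_0bab5c_t/TLow.lean`, but two hubs `h ≠ h'` may be separated by a set `R` of
cliques that are not joined to `h'`: the neighbours of `h` outside `R` together with the other hubs
that are joined to `R` are at most `k` vertices.
-/

namespace Pool.Agent.LC0bab.Part

open Finset
open scoped Classical

section part

variable {N B H : Type} (T : H → N → Finset B) (k r : ℕ)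
variable [Fintype N] [Fintype B] [Fintype H]

/-- Two hubs. -/
lemma hub_hub2 (h h' : H) (hne : h ≠ h') (R : Finset N) (hR : ∀ ν ∈ R, T h' ν = ∅)
    (hk : (∑ μ ∈ univ \ R, (T h μ).card) +
      ((univ.filter (fun g => ∃ ν ∈ R, (T g ν).Nonempty)).erase h).card ≤ k) :
    kappa (GT T k r) (.inr (.inl h)) (.inr (.inl h')) ≤ k := by
  unfold kappa
  rw [if_neg (by simp)]
  set S1 : Finset (Wt N B H k r) := (univ \ R).biUnion (fun μ =>
    (T h μ).map ⟨fun b => .inl (μ, b), fun a b hab => by simpa using hab⟩) with hS1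
  set S2 : Finset (Wt N B H k r) :=
    ((univ.filter (fun g => ∃ ν ∈ R, (T g ν).Nonempty)).erase h).map
    ⟨fun g => .inr (.inl g), fun a b hab => by simpa using hab⟩ with hS2
  have hm1 : ∀ v, v ∈ S1 ↔ ∃ μ, μ ∉ R ∧ ∃ b ∈ T h μ, (Sum.inl (μ, b) : Wt N B H k r) = v := by
    intro v
    simp [hS1]
  have hm2 : ∀ v, v ∈ S2 ↔ ∃ g, g ≠ h ∧ (∃ ν ∈ R, (T g ν).Nonempty) ∧
      (Sum.inr (Sum.inl g) : Wt N B H k r) = v := by
    intro v
    rw [hS2, mem_map]
    simp only [mem_erase, mem_filter, mem_univ, true_and, Function.Embedding.coeFn_mk, and_assoc]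
  have hc1 : S1.card ≤ ∑ μ ∈ univ \ R, (T h μ).card := by
    refine card_biUnion_le.trans (sum_le_sum fun μ _ => ?_)
    rw [card_map]
  have hc2 : S2.card = ((univ.filter (fun g => ∃ ν ∈ R, (T g ν).Nonempty)).erase h).card :=
    card_map _
  have hsep : Sep (GT T k r) (.inr (.inl h)) (.inr (.inl h')) (S1 ∪ S2) := by
    refine sep_of_region {v | v = .inr (.inl h) ∨ ∃ ν ∈ R, ∃ b, v = .inl (ν, b)} (Or.inl rfl)
      ?_ _ ?_ ?_ ?_
    · rintro (h1 | ⟨ν, _, b, h1⟩)
      · simp only [Sum.inr.injEq, Sum.inl.injEq] at h1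
        exact hne h1.symm
      · simp at h1
    · rintro a (rfl | ⟨ν, hν, b, rfl⟩) v hav hv
      · rcases v with ⟨μ, c⟩ | g
        · rw [adj_hl] at hav
          rw [mem_union, hm1]
          refine Or.inl ⟨μ, ?_, c, hav, rfl⟩
          intro hμ
          exact hv (Or.inr ⟨μ, hμ, c, rfl⟩)
        · simp at hav
      · rcases v with ⟨μ, c⟩ | g | g
        · rw [adj_ll] at hav
          obtain ⟨h1, -⟩ := hav
          have h1' : ν = μ := h1
          subst h1'
          exact absurd (Or.inr ⟨ν, hν, c, rfl⟩) hv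
        · rw [adj_lh] at hav
          rw [mem_union, hm2]
          refine Or.inr ⟨g, ?_, ⟨ν, hν, b, hav⟩, rfl⟩
          rintro rfl
          exact hv (Or.inl rfl)
        · simp at hav
    · rw [mem_union, hm1, hm2]
      rintro (⟨μ, _, b, _, h1⟩ | ⟨g, h1, _, h2⟩)
      · simp at h1
      · simp only [Sum.inr.injEq, Sum.inl.injEq] at h2
        exact h1 h2
    · rw [mem_union, hm1, hm2]
      rintro (⟨μ, _, b, _, h1⟩ | ⟨g, h1, ⟨ν, hν, h3⟩, h2⟩)
      · simp at h1
      · simp only [Sum.inr.injEq, Sum.inl.injEq] at h2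
        rw [h2, hR ν hν] at h3
        exact not_nonempty_empty h3
  exact (sepNum_le hsep).trans ((card_union_le _ _).trans (by omega))

/-- The maximum local connectivity of the graph. -/
theorem kappaBar_GT2 (hk : 1 ≤ k)
    (hdeg : ∀ (ν : N) (β : B),
      Fintype.card B + (univ.filter (fun h => β ∈ T h ν)).card ≤ k + 1)
    (hsep : ∀ h h' : H, h ≠ h' → ∃ R : Finset N, (∀ ν ∈ R, T h' ν = ∅) ∧
      (∑ μ ∈ univ \ R, (T h μ).card) +
        ((univ.filter (fun g => ∃ ν ∈ R, (T g ν).Nonempty)).erase h).card ≤ k) :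
    kappaBar (GT T k r) = k := by
  have hl : ∀ p : N × B, (univ.filter ((GT T k r).Adj (.inl p))).card ≤ k := by
    intro p
    rw [deg_l]
    have h1 := hdeg p.1 p.2
    have h2 : 0 < Fintype.card B := Fintype.card_pos_iff.2 ⟨p.2⟩
    omega
  have hr : ∀ a : Fin (k + 1) ⊕ Fin r,
      (univ.filter ((GT T k r).Adj (.inr (.inr a)))).card ≤ k := by
    rintro (a | a)
    · rw [deg_c]
    · rw [deg_i]; omega
  apply kappaBar_eq
  · intro x y hxy
    rcases x with p | h | a
    · exact (kappa_le_deg hxy).trans (hl p)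
    · rcases y with q | h' | b
      · rw [kappa_comm]
        exact (kappa_le_deg hxy.symm).trans (hl q)
      · have hne : h ≠ h' := fun hh => hxy (by rw [hh])
        obtain ⟨R, h1, h2⟩ := hsep h h' hne
        exact hub_hub2 T k r h h' hne R h1 h2
      · rw [kappa_comm]
        exact (kappa_le_deg hxy.symm).trans (hr b)
    · exact (kappa_le_deg hxy).trans (hr a)
  · have hab : (⟨0, by omega⟩ : Fin (k + 1)) ≠ ⟨1, by omega⟩ := by simp
    have hxy : (Sum.inr (Sum.inr (Sum.inl ⟨0, by omega⟩)) : Wt N B H k r) ≠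
        Sum.inr (Sum.inr (Sum.inl ⟨1, by omega⟩)) := by
      intro hh
      simp only [Sum.inr.injEq, Sum.inl.injEq] at hh
      exact hab hh
    refine ⟨_, _, hxy, ?_⟩
    have key := le_kappa_of_adj (G := GT T k r) (x := .inr (.inr (.inl ⟨0, by omega⟩)))
      (y := .inr (.inr (.inl ⟨1, by omega⟩))) (by simp)
      (((univ.erase (⟨0, by omega⟩ : Fin (k + 1))).erase ⟨1, by omega⟩).map
        ⟨fun a => (.inr (.inr (.inl a)) : Wt N B H k r), fun a b hab => by simpa using hab⟩)
      ?_ _ (sep_nbhd hxy)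
    · rw [card_map, card_erase_of_mem, card_erase_of_mem (mem_univ _), card_univ,
        Fintype.card_fin] at key
      · omega
      · simp
    · intro c hc
      rw [mem_map] at hc
      obtain ⟨a, ha, rfl⟩ := hc
      rw [mem_erase, mem_erase] at ha
      simp only [Function.Embedding.coeFn_mk, adj_cc]
      exact ⟨fun hh => ha.2.1 hh.symm, ha.1⟩

theorem le_f_part2 (hk : 1 ≤ k)
    (hdeg : ∀ (ν : N) (β : B),
      Fintype.card B + (univ.filter (fun h => β ∈ T h ν)).card ≤ k + 1)
    (hsep : ∀ h h' : H, h ≠ h' → ∃ R : Finset N, (∀ ν ∈ R, T h' ν = ∅) ∧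
      (∑ μ ∈ univ \ R, (T h μ).card) +
        ((univ.filter (fun g => ∃ ν ∈ R, (T g ν).Nonempty)).erase h).card ≤ k) :
    Fintype.card N * Fintype.card B * (Fintype.card B - 1) + 2 * ∑ h, ∑ ν, (T h ν).card ≤
      2 * f (Fintype.card N * Fintype.card B + (Fintype.card H + (k + 1 + r))) k := by
  have h1 := two_edges T k r
  have h2 := le_f (GT T k r) (n := Fintype.card (Wt N B H k r)) rfl
    (kappaBar_GT2 T k r hk hdeg hsep) le_rfl
  have h3 : Fintype.card (Wt N B H k r) =
      Fintype.card N * Fintype.card B + (Fintype.card H + (k + 1 + r)) := by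
    simp only [Fintype.card_sum, Fintype.card_prod, Fintype.card_fin]
  rw [h3] at h2
  have h4 : 0 ≤ (k + 1) * k := Nat.zero_le _
  omega

end part

end Pool.Agent.LC0bab.Part
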