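import Pool.Agent.Lib_MP_0bab5c_s.LowA

/-!
# Polynomial designs of hubs

Cliques `(l, c, y)`, `l < L`, `c < M`, `y ∈ ZMod q` (`q` prime, `M ≤ q`), each on `X` vertices.
Hubs `(l, i, a)`, `i < d`, `a ∈ ZMod q`; the polynomial of the hub has the constant coefficient `a`
and the other coefficients given by `i`; the hub is attached to the `M` cliques `(l, c, value at c)`.
In the clique it is joined to the `z` with `(z + i T) mod X < T`.
-/

namespace Pool.Agent.LC0bab.Pol

open Finset Polynomial
open scoped Classical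

/-- the polynomial with given coefficients -/
noncomputable def pl {q s : ℕ} (v : Fin (s + 1) → ZMod q) : (ZMod q)[X] :=
  ∑ j, C (v j) * X ^ (j : ℕ)

lemma pl_coeff {q s : ℕ} (v : Fin (s + 1) → ZMod q) (j : Fin (s + 1)) :
    (pl v).coeff (j : ℕ) = v j := by
  unfold pl
  rw [finsetSum_coeff]
  simp only [coeff_C_mul, coeff_X_pow]
  rw [sum_eq_single j]
  · simp
  · intro b _ hb
    rw [if_neg, mul_zero]
    exact fun h => hb (Fin.ext h.symm)
  · intro h
    exact absurd (mem_univ j) h

lemma pl_degree {q s : ℕ} (v : Fin (s + 1) → ZMod q) : (pl v).degree < ((s + 1 : ℕ) : WithBot ℕ) :=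
  degree_sum_fin_lt v

/-- Two different polynomials agree in at most `s` of the points `0, ..., M - 1`. -/
lemma agree {q s M : ℕ} [Fact q.Prime] (hM : M ≤ q) (v v' : Fin (s + 1) → ZMod q) (h : v ≠ v') :
    (univ.filter (fun c : Fin M => (pl v).eval ((c : ℕ) : ZMod q) =
      (pl v').eval ((c : ℕ) : ZMod q))).card ≤ s := by
  by_contra hcon
  push Not at hcon
  apply h
  set A := univ.filter (fun c : Fin M => (pl v).eval ((c : ℕ) : ZMod q) =
      (pl v').eval ((c : ℕ) : ZMod q)) with hA
  have hinj : Set.InjOn (fun c : Fin M => ((c : ℕ) : ZMod q)) A := by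
    intro a _ b _ hab
    have h1 : ((a : ℕ) : ZMod q) = ((b : ℕ) : ZMod q) := hab
    rw [ZMod.natCast_eq_natCast_iff'] at h1
    rw [Nat.mod_eq_of_lt (lt_of_lt_of_le a.2 hM), Nat.mod_eq_of_lt (lt_of_lt_of_le b.2 hM)] at h1
    exact Fin.ext h1
  have hle : ((s + 1 : ℕ) : WithBot ℕ) ≤ (A.card : WithBot ℕ) := by exact_mod_cast hcon
  have heq : pl v = pl v' := Polynomial.eq_of_degrees_lt_of_eval_index_eq A hinj
    (lt_of_lt_of_le (pl_degree v) hle) (lt_of_lt_of_le (pl_degree v') hle)
    (fun c hc => (mem_filter.1 hc).2)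
  funext j
  rw [← pl_coeff v j, ← pl_coeff v' j, heq]

/-- The value is the constant coefficient plus something that depends on the others only. -/
lemma pl_cons {q s : ℕ} (a : ZMod q) (w : Fin s → ZMod q) (x : ZMod q) :
    (pl (Fin.cons a w : Fin (s + 1) → ZMod q)).eval x =
      a + ∑ j : Fin s, w j * x ^ ((j : ℕ) + 1) := by
  unfold pl
  rw [eval_finsetSum, Fin.sum_univ_succ]
  simp

section cyc

/-- positions of hub number `i` -/
def att (X T i : ℕ) : Finset (Fin X) := univ.filter (fun z => ((z : ℕ) + i * T) % X < T)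

lemma att_card {X T : ℕ} (hX : 0 < X) (hT : T ≤ X) (i : ℕ) : (att X T i).card = T := by
  have : NeZero X := ⟨by omega⟩
  have h1 : (att X T i) = (univ.filter (fun z : Fin X => (z : ℕ) < T)).map
      (Equiv.subRight (Fin.ofNat X (i * T))).toEmbedding := by
    ext z
    simp only [att, mem_filter, mem_univ, true_and, mem_map_equiv, Equiv.subRight_symm_apply]
    rw [Fin.val_add, Fin.val_ofNat, Nat.add_mod_mod]
  rw [h1, card_map]
  have h2 : (univ.filter (fun z : Fin X => (z : ℕ) < T)) =
      (univ : Finset (Fin T)).map (Fin.castLEEmb hT) := by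
    ext z
    simp only [mem_filter, mem_univ, true_and, mem_map, Fin.castLEEmb_apply]
    constructor
    · intro hz
      exact ⟨⟨z, hz⟩, Fin.ext rfl⟩
    · rintro ⟨a, rfl⟩
      simp
  rw [h2, card_map, card_univ, Fintype.card_fin]

/-- Every position is used by few hubs. -/
lemma att_count {X T d : ℕ} (hX : 0 < X) (z : Fin X) :
    (univ.filter (fun i : Fin d => z ∈ att X T i)).card ≤ (X + d * T) / X + 1 := by
  have h1 : (univ.filter (fun i : Fin d => z ∈ att X T i)).card ≤
      (range ((X + d * T) / X + 1)).card := by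
    apply card_le_card_of_injOn (fun i : Fin d => ((z : ℕ) + (i : ℕ) * T) / X)
    · intro i _
      simp only [coe_range, Set.mem_Iio]
      refine Nat.lt_succ_of_le (Nat.div_le_div_right ?_)
      have h1 : (i : ℕ) * T ≤ d * T := Nat.mul_le_mul_right _ i.2.le
      have h2 := z.2
      omega
    · intro i hi i' hi' heq
      simp only [coe_filter, mem_univ, true_and, Set.mem_setOf_eq, att, mem_filter] at hi hi'
      simp only at heq
      have key : ∀ a b : ℕ, ((z : ℕ) + a * T) % X < T → ((z : ℕ) + b * T) % X < T →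
          ((z : ℕ) + a * T) / X = ((z : ℕ) + b * T) / X → ¬ a < b := by
        intro a b ha hb he hab
        have e1 := Nat.div_add_mod ((z : ℕ) + a * T) X
        have e2 := Nat.div_add_mod ((z : ℕ) + b * T) X
        rw [he] at e1
        have e3 : (a + 1) * T ≤ b * T := Nat.mul_le_mul_right _ hab
        have e4 : (a + 1) * T = a * T + T := by ring
        omega
      have k1 := key i i' hi hi' heq
      have k2 := key i' i hi' hi heq.symm
      exact Fin.ext (by omega)
  rwa [card_range] at h1

end cyc

end Pool.Agent.LC0bab.Pol
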