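import Pool.Agent.Lib_MP_0bab5c_s.LowB

/-! # Polynomial designs of hubs: the lower bound with all parameters -/

namespace Pool.Agent.LC0bab.Pol

open Finset Polynomial
open scoped Classical
open Pool.Agent.LC0bab.Part

section

variable {L M q X T d s : ℕ} (e : Fin d → (Fin s → ZMod q))

/-- Cliques. -/
abbrev Nd (L M q : ℕ) : Type := Fin L × (Fin M × ZMod q)

/-- Hubs. -/
abbrev Hd (L d q : ℕ) : Type := Fin L × (Fin d × ZMod q)

/-- The coefficients of a hub. -/
def cf (h : Hd L d q) : Fin (s + 1) → ZMod q := Fin.cons h.2.2 (e h.2.1)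

/-- The clique of the hub in the column `c`. -/
noncomputable def vl (h : Hd L d q) (c : Fin M) : ZMod q := (pl (cf e h)).eval ((c : ℕ) : ZMod q)

/-- The attachments. -/
noncomputable def TH (X T : ℕ) (h : Hd L d q) (ν : Nd L M q) : Finset (Fin X) :=
  if h.1 = ν.1 ∧ vl e h ν.2.1 = ν.2.2 then att X T h.2.1 else ∅

lemma mem_TH {h : Hd L d q} {ν : Nd L M q} {b : Fin X} :
    b ∈ TH e X T h ν ↔ (h.1 = ν.1 ∧ vl e h ν.2.1 = ν.2.2) ∧ b ∈ att X T h.2.1 := by
  unfold TH
  split_ifs with hh
  · simp [hh]
  · simp [hh]

/-- A hub is determined by its copy, its number and its clique in a column. -/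
lemma hub_unique {g h : Hd L d q} (c : Fin M) (h1 : g.1 = h.1) (h2 : g.2.1 = h.2.1)
    (h3 : vl e g c = vl e h c) : g = h := by
  obtain ⟨l, i, a⟩ := g
  obtain ⟨l', i', a'⟩ := h
  simp only at h1 h2
  subst h1
  subst h2
  unfold vl cf at h3
  simp only [pl_cons] at h3
  have : a = a' := add_right_cancel h3
  rw [this]

lemma card_TH (hX : 0 < X) (hT : T ≤ X) [NeZero q] (h : Hd L d q) (ν : Nd L M q) :
    (TH e X T h ν).card = if h.1 = ν.1 ∧ vl e h ν.2.1 = ν.2.2 then T else 0 := by
  unfold TH
  split_ifs
  · exact att_card hX hT _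
  · rfl

lemma sum_TH (hX : 0 < X) (hT : T ≤ X) [NeZero q] (h : Hd L d q) :
    ∑ ν : Nd L M q, (TH e X T h ν).card = M * T := by
  simp only [card_TH e hX hT]
  rw [Fintype.sum_prod_type, sum_eq_single h.1]
  · rw [Fintype.sum_prod_type]
    have : ∀ c : Fin M, ∑ y : ZMod q, (if h.1 = h.1 ∧ vl e h c = y then T else 0) = T := by
      intro c
      rw [sum_eq_single (vl e h c)]
      · simp
      · intro b _ hb
        rw [if_neg]
        rintro ⟨_, h'⟩
        exact hb h'.symm
      · intro h'
        exact absurd (mem_univ _) h'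
    rw [sum_congr rfl (fun c _ => this c), sum_const, card_univ, Fintype.card_fin, smul_eq_mul]
  · intro b _ hb
    apply sum_eq_zero
    intro x _
    rw [if_neg]
    rintro ⟨h', _⟩
    exact hb h'.symm
  · intro h'
    exact absurd (mem_univ _) h'

/-- Few columns in which two hubs share their cliques. -/
lemma share [Fact q.Prime] (he : Function.Injective e) (hM : M ≤ q) {h h' : Hd L d q}
    (hne : h ≠ h') :
    (univ.filter (fun c : Fin M => h.1 = h'.1 ∧ vl e h c = vl e h' c)).card ≤ s := by
  by_cases h1 : h.1 = h'.1
  · have hcf : cf e h ≠ cf e h' := by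
      intro hh
      apply hne
      have e1 : h.2.2 = h'.2.2 := by
        have := congrFun hh 0
        simpa [cf] using this
      have e2 : h.2.1 = h'.2.1 := by
        apply he
        funext j
        have := congrFun hh j.succ
        simpa [cf] using this
      exact Prod.ext h1 (Prod.ext e2 e1)
    refine le_trans (card_le_card ?_) (agree hM _ _ hcf)
    intro c hc
    rw [mem_filter] at hc ⊢
    exact ⟨mem_univ _, hc.2.2⟩
  · rw [filter_false_of_mem, card_empty]
    · exact Nat.zero_le _
    · rintro c _ ⟨h2, _⟩
      exact h1 h2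

/-- The lower bound with all parameters. -/
theorem low_design [Fact q.Prime] (he : Function.Injective e) (k r : ℕ) (hk : 1 ≤ k)
    (hM : M ≤ q) (hsM : s ≤ M) (hX : 0 < X) (hT : T ≤ X)
    (h1 : X + ((X + d * T) / X + 1) ≤ k + 1) (h2 : s * T + (M - s) * (d - 1) ≤ k) :
    L * (M * q) * X * (X - 1) + 2 * (L * (d * q) * (M * T)) ≤
      2 * f (L * (M * q) * X + (L * (d * q) + (k + 1 + r))) k := by
  have hN : Fintype.card (Nd L M q) = L * (M * q) := by
    simp only [Fintype.card_prod, Fintype.card_fin, ZMod.card]
  have hH : Fintype.card (Hd L d q) = L * (d * q) := by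
    simp only [Fintype.card_prod, Fintype.card_fin, ZMod.card]
  have hS : ∑ h : Hd L d q, ∑ ν : Nd L M q, (TH e X T h ν).card = L * (d * q) * (M * T) := by
    simp only [sum_TH e hX hT, sum_const, card_univ, smul_eq_mul]
    rw [hH]
  have key := le_f_part2 (TH (L := L) (M := M) e X T) k r hk ?_ ?_
  · rw [hN, hH, hS, Fintype.card_fin] at key
    exact key
  · rintro ⟨l, c, y⟩ z
    rw [Fintype.card_fin]
    have hcount : (univ.filter (fun h : Hd L d q => z ∈ TH e X T h (l, c, y))).card ≤
        (univ.filter (fun i : Fin d => z ∈ att X T i)).card := by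
      apply card_le_card_of_injOn (fun h : Hd L d q => h.2.1)
      · intro h hh
        rw [mem_coe, mem_filter] at hh ⊢
        exact ⟨mem_univ _, ((mem_TH e).1 hh.2).2⟩
      · intro g hg h hh heq
        rw [mem_coe, mem_filter] at hg hh
        have e1 := ((mem_TH e).1 hg.2).1
        have e2 := ((mem_TH e).1 hh.2).1
        exact hub_unique e c (e1.1.trans e2.1.symm) heq (e1.2.trans e2.2.symm)
    refine le_trans (Nat.add_le_add_left ?_ _) h1
    refine le_trans ?_ (hcount.trans (att_count (d := d) (T := T) hX z))
    apply le_of_eq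
    refine congrArg card (Finset.ext fun g' => ?_)
    simp only [mem_filter]
  · intro h h' hne
    -- the columns on the side of `h`
    have hc := share (M := M) e he hM hne
    set Bad := univ.filter (fun c : Fin M => h.1 = h'.1 ∧ vl e h c = vl e h' c) with hBad
    have hcomp : M - s ≤ (univ \ Bad).card := by
      rw [card_sdiff_of_subset (subset_univ _), card_univ, Fintype.card_fin]
      omega
    obtain ⟨C, hCsub, hCcard⟩ := exists_subset_card_eq hcomp
    set emb : Fin M ↪ Nd L M q := ⟨fun c => (h.1, c, vl e h c), fun a b hab => by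
      simp only [Prod.mk.injEq] at hab
      exact hab.2.1⟩ with hemb
    refine ⟨C.map emb, ?_, ?_⟩
    · intro ν hν
      rw [mem_map] at hν
      obtain ⟨c, hcC, rfl⟩ := hν
      have hcb : c ∉ Bad := (mem_sdiff.1 (hCsub hcC)).2
      unfold TH
      rw [if_neg]
      rintro ⟨e1, e2⟩
      apply hcb
      rw [hBad, mem_filter]
      exact ⟨mem_univ _, e1.symm, e2.symm⟩
    · have hsum1 : ∑ μ ∈ univ \ C.map emb, (TH e X T h μ).card = s * T := by
        have e1 := sum_sdiff (f := fun μ => (TH e X T h μ).card) (subset_univ (C.map emb))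
        rw [sum_TH e hX hT] at e1
        have e2 : ∑ μ ∈ C.map emb, (TH e X T h μ).card = (M - s) * T := by
          rw [sum_map]
          have : ∀ c ∈ C, (TH e X T h (emb c)).card = T := by
            intro c _
            rw [card_TH e hX hT, if_pos]
            exact ⟨rfl, rfl⟩
          rw [sum_congr rfl this, sum_const, smul_eq_mul, hCcard]
        rw [e2] at e1
        have e3 : M * T = s * T + (M - s) * T := by
          rw [← Nat.add_mul]
          congr 1
          omega
        omega
      have hsum2 : ((univ.filter (fun g => ∃ ν ∈ C.map emb, (TH e X T g ν).Nonempty)).erase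
          h).card ≤ (M - s) * (d - 1) := by
        have hsub : (univ.filter (fun g => ∃ ν ∈ C.map emb, (TH e X T g ν).Nonempty)).erase h ⊆
            C.biUnion (fun c => univ.filter (fun g : Hd L d q => g ≠ h ∧ g.1 = h.1 ∧
              vl e g c = vl e h c)) := by
          intro g hg
          rw [mem_erase, mem_filter] at hg
          obtain ⟨hgh, _, ν, hν, hne'⟩ := hg
          rw [mem_map] at hν
          obtain ⟨c, hcC, rfl⟩ := hν
          rw [mem_biUnion]
          refine ⟨c, hcC, ?_⟩
          rw [mem_filter]
          obtain ⟨b, hb⟩ := hne'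
          have e1 := ((mem_TH e).1 hb).1
          exact ⟨mem_univ _, hgh, e1.1, e1.2⟩
        refine (card_le_card hsub).trans (card_biUnion_le.trans ?_)
        have : ∀ c ∈ C, (univ.filter (fun g : Hd L d q => g ≠ h ∧ g.1 = h.1 ∧
              vl e g c = vl e h c)).card ≤ d - 1 := by
          intro c _
          have e1 : (univ.erase h.2.1 : Finset (Fin d)).card = d - 1 := by
            rw [card_erase_of_mem (mem_univ _), card_univ, Fintype.card_fin]
          rw [← e1]
          apply card_le_card_of_injOn (fun g : Hd L d q => g.2.1)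
          · intro g hg
            rw [mem_coe, mem_filter] at hg
            rw [mem_coe, mem_erase]
            refine ⟨fun h3 => hg.2.1 ?_, mem_univ _⟩
            exact hub_unique e c hg.2.2.1 h3 hg.2.2.2
          · intro g hg g' hg' heq
            rw [mem_coe, mem_filter] at hg hg'
            exact hub_unique e c (hg.2.2.1.trans hg'.2.2.1.symm) heq
              (hg.2.2.2.trans hg'.2.2.2.symm)
        refine (sum_le_card_nsmul _ _ _ this).trans ?_
        rw [smul_eq_mul, hCcard]
      refine le_trans (Nat.add_le_add (le_of_eq ?_) (le_trans (le_of_eq ?_) hsum2)) h2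
      · rw [← hsum1]
        refine sum_congr (Finset.ext fun g' => ?_) (fun _ _ => rfl)
        simp only [mem_sdiff]
      · refine congrArg card (Finset.ext fun g' => ?_)
        simp only [mem_erase, mem_filter]

end

end Pool.Agent.LC0bab.Pol
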