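import Pool.Agent.Lib_MP_0bab5c_s.LowC

/-! # Polynomial designs of hubs: the numerical part of the lower bound

`f n k ≥ (1 / 2 + 1 / (2 (4 s - 1) (4 s + 1))) k n` for `n ≥ C k ^ (1 + 1 / s)`.
-/

namespace Pool.Agent.LC0bab.Pol

open Finset

/-- The size of the cliques, as a proportion of `k`. -/
theorem exists_x {a : ℝ} (ha0 : 0 < a) (ha1 : a ≤ 3 / 64) :
    ∃ x : ℝ, 19 / 20 ≤ x ∧ x < 1 ∧ x * (1 - x) = a ∧ x < 1 - a := by
  set r : ℝ := √(1 - 4 * a) with hr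
  have hr0 : 0 ≤ r := Real.sqrt_nonneg _
  have hr2 : r * r = 1 - 4 * a := Real.mul_self_sqrt (by linarith)
  have hr1 : r < 1 := by nlinarith
  have hr9 : 9 / 10 ≤ r := by
    by_contra hcon
    push Not at hcon
    nlinarith
  refine ⟨(1 + r) / 2, by linarith, by linarith, by nlinarith, by nlinarith⟩

theorem arith1 {k X T d a x σ : ℝ} (hσ : 2 ≤ σ) (ha : a = 3 / (16 * σ ^ 2)) (hx1 : 19 / 20 ≤ x)
    (hx2 : x < 1) (hx3 : x * (1 - x) = a) (hk : 12 ≤ k) (hX1 : x * k - 3 ≤ X)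
    (hX2 : X ≤ x * k - 2) (hT2 : T ≤ 3 * k / (4 * σ)) (hT0 : 0 ≤ T) (hd0 : 0 ≤ d)
    (hd2 : d ≤ k / (4 * σ)) : d * T ≤ X * (k - X - 1) := by
  have h1 : d * T ≤ k / (4 * σ) * (3 * k / (4 * σ)) :=
    mul_le_mul hd2 hT2 hT0 (by positivity)
  have h2 : k / (4 * σ) * (3 * k / (4 * σ)) = a * k ^ 2 := by
    rw [ha]
    field_simp
    ring
  rw [h2] at h1
  obtain ⟨y, hy⟩ : ∃ y, y = x * k - X := ⟨_, rfl⟩
  have hXy : X = x * k - y := by linarith
  have hy1 : 2 ≤ y := by linarith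
  have hy2 : y ≤ 3 := by linarith
  have h3 : X * (k - X - 1) = x * (1 - x) * k ^ 2 + y * (2 * x - 1) * k - y ^ 2 - X := by
    rw [hXy]
    ring
  rw [h3, hx3]
  have h4 : 2 * (9 / 10) * k ≤ y * (2 * x - 1) * k := by
    have : 2 * (9 / 10) ≤ y * (2 * x - 1) := mul_le_mul hy1 (by linarith) (by norm_num) (by linarith)
    exact mul_le_mul_of_nonneg_right this (by linarith)
  have h5 : y ^ 2 ≤ 9 := by nlinarith
  have h6 : X ≤ k := by nlinarith
  linarith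

theorem arith2 {k X T d a x σ κ g D : ℝ} (hσ : 2 ≤ σ) (ha : a = 3 / (16 * σ ^ 2))
    (hx1 : 19 / 20 ≤ x) (hx2 : x < 1) (hx3 : x * (1 - x) = a) (hk4 : 4 * σ ≤ k)
    (hX1 : x * k - 3 ≤ X) (hX2 : X ≤ x * k - 2) (hT1 : 3 * k / (4 * σ) - 1 ≤ T)
    (hd1 : k / (4 * σ) - 1 ≤ d) (hd2 : d ≤ k / (4 * σ))
    (hD : D = 2 * σ * x + 1 / (4 * σ)) (hκ : κ * D = 1 / (8 * σ) - g / 2) (hκ0 : 0 ≤ κ)
    (hkg : 2 * (8 * σ + 4) ≤ g * k) :
    (1 + κ) * k * (2 * σ * X + d) ≤ 2 * σ * (X * (X - 1)) + 4 * σ * (d * T) := by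
  have hk0 : 0 < k := by linarith
  have hd0 : 0 ≤ k / (4 * σ) - 1 := by
    rw [sub_nonneg, le_div_iff₀ (by positivity)]
    linarith
  have hT0 : 0 ≤ 3 * k / (4 * σ) - 1 := by
    rw [sub_nonneg, le_div_iff₀ (by positivity)]
    linarith
  -- lower bound for `d T`
  have h1 : (k / (4 * σ) - 1) * (3 * k / (4 * σ) - 1) ≤ d * T :=
    mul_le_mul hd1 hT1 hT0 (hd0.trans hd1)
  have h2 : (k / (4 * σ) - 1) * (3 * k / (4 * σ) - 1) = a * k ^ 2 - k / σ + 1 := by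
    rw [ha]
    field_simp
    ring
  -- lower bound for `X (X - 1)`
  obtain ⟨y, hy⟩ : ∃ y, y = x * k - X := ⟨_, rfl⟩
  have hXy : X = x * k - y := by linarith
  have hy1 : 2 ≤ y := by linarith
  have hy2 : y ≤ 3 := by linarith
  have h3 : X * (X - 1) = k * X - (x * (1 - x) * k ^ 2 + (y + 1) * x * k - y * (1 - x) * k -
      y * (y + 1)) := by
    rw [hXy]
    ring
  have h4 : k * X - a * k ^ 2 - 4 * k ≤ X * (X - 1) := by
    rw [h3, hx3]
    have e1 : (y + 1) * x * k ≤ 4 * k := by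
      have : (y + 1) * x ≤ 4 * 1 := mul_le_mul (by linarith) hx2.le (by linarith) (by norm_num)
      have := mul_le_mul_of_nonneg_right this hk0.le
      linarith
    have e2 : 0 ≤ y * (1 - x) * k := mul_nonneg (mul_nonneg (by linarith) (by linarith)) hk0.le
    have e3 : 0 ≤ y * (y + 1) := mul_nonneg (by linarith) (by linarith)
    linarith
  have h5 : 2 * σ * (k * X - a * k ^ 2 - 4 * k) ≤ 2 * σ * (X * (X - 1)) :=
    mul_le_mul_of_nonneg_left h4 (by linarith)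
  have h6 : 4 * σ * (a * k ^ 2 - k / σ) ≤ 4 * σ * (d * T) :=
    mul_le_mul_of_nonneg_left (by linarith) (by linarith)
  have h7 : 4 * σ * (a * k ^ 2 - k / σ) = 4 * σ * a * k ^ 2 - 4 * k := by
    field_simp
  have h8 : k * (2 * σ * X + d) ≤ 2 * σ * (k * X) + k ^ 2 / (4 * σ) := by
    have : k * d ≤ k * (k / (4 * σ)) := mul_le_mul_of_nonneg_left hd2 hk0.le
    have e : k * (k / (4 * σ)) = k ^ 2 / (4 * σ) := by ring
    linarith
  have h9 : 2 * σ * a * k ^ 2 - k ^ 2 / (4 * σ) = k ^ 2 / (8 * σ) := by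
    rw [ha]
    field_simp
    ring
  have h10 : 2 * σ * X + d ≤ D * k := by
    rw [hD]
    have e1 : 2 * σ * X ≤ 2 * σ * (x * k) := mul_le_mul_of_nonneg_left (by linarith) (by linarith)
    have e2 : (2 * σ * x + 1 / (4 * σ)) * k = 2 * σ * (x * k) + k / (4 * σ) := by ring
    linarith
  have h11 : κ * k * (2 * σ * X + d) ≤ κ * k * (D * k) :=
    mul_le_mul_of_nonneg_left h10 (mul_nonneg hκ0 hk0.le)
  have h12 : κ * k * (D * k) = k ^ 2 / (8 * σ) - g / 2 * k ^ 2 := by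
    have : κ * k * (D * k) = κ * D * k ^ 2 := by ring
    rw [this, hκ]
    ring
  have h13 : (8 * σ + 4) * k ≤ g / 2 * k ^ 2 := by nlinarith
  have h14 : (1 + κ) * k * (2 * σ * X + d) = k * (2 * σ * X + d) + κ * k * (2 * σ * X + d) := by
    ring
  rw [h14]
  linarith

end Pool.Agent.LC0bab.Pol
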