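import Pool.Agent.Lib_MP_0bab5c_s.LowD

/-! # The lower bound `f n k ≥ (1 / 2 + 1 / (2 (4 s - 1) (4 s + 1))) k n` -/

namespace Pool.Agent.LC0bab.Pol

open Finset

/-- One block of the construction. -/
theorem block (s : ℕ) (hs : 2 ≤ s) : ∃ κ D : ℝ, 1 / ((4 * (s : ℝ) - 1) * (4 * s + 1)) < κ ∧ 0 < D ∧
    ∃ k0 : ℕ, ∀ k : ℕ, k0 ≤ k → ∀ Q : ℕ, k ≤ Q ^ s → 2 * s ≤ Q →
      ∃ n0 e0 : ℕ, 0 < n0 ∧ (n0 : ℝ) ≤ 2 * Q * D * k ∧ (1 + κ) * k * n0 ≤ e0 ∧
        ∀ L r : ℕ, L * e0 ≤ 2 * f (L * n0 + (k + 1 + r)) k := by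
  set σ : ℝ := (s : ℝ) with hσdef
  have hσ : 2 ≤ σ := by rw [hσdef]; exact_mod_cast hs
  have hσ0 : 0 < σ := by linarith
  obtain ⟨a, ha⟩ : ∃ a : ℝ, a = 3 / (16 * σ ^ 2) := ⟨_, rfl⟩
  have ha0 : 0 < a := by rw [ha]; positivity
  have ha1 : a ≤ 3 / 64 := by
    rw [ha]
    apply div_le_div_of_nonneg_left (by norm_num) (by norm_num)
    nlinarith
  obtain ⟨x, hx1, hx2, hx3, hx4⟩ := exists_x ha0 ha1
  obtain ⟨D, hD⟩ : ∃ D : ℝ, D = 2 * σ * x + 1 / (4 * σ) := ⟨_, rfl⟩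
  have hD0 : 0 < D := by
    rw [hD]
    have : 0 < x := by linarith
    positivity
  obtain ⟨κ0, hκ0⟩ : ∃ κ0 : ℝ, κ0 = 1 / ((4 * σ - 1) * (4 * σ + 1)) := ⟨_, rfl⟩
  have hκ0pos : 0 < κ0 := by
    rw [hκ0]
    apply one_div_pos.2
    nlinarith
  -- the gap
  obtain ⟨g, hg⟩ : ∃ g : ℝ, g = 1 / (8 * σ) - κ0 * D := ⟨_, rfl⟩
  have hg0 : 0 < g := by
    have h1 : κ0 * D * (8 * σ * ((4 * σ - 1) * (4 * σ + 1))) = 16 * σ ^ 2 * x + 2 := by
      have h0 : (4 * σ - 1) * (4 * σ + 1) ≠ 0 := by nlinarith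
      have h0' : κ0 * ((4 * σ - 1) * (4 * σ + 1)) = 1 := by
        rw [hκ0]
        exact one_div_mul_cancel h0
      have h0'' : κ0 * D * (8 * σ * ((4 * σ - 1) * (4 * σ + 1))) =
          κ0 * ((4 * σ - 1) * (4 * σ + 1)) * (8 * σ * D) := by ring
      rw [h0'', h0', hD, one_mul]
      field_simp
      ring
    have h2 : 1 / (8 * σ) * (8 * σ * ((4 * σ - 1) * (4 * σ + 1))) = 16 * σ ^ 2 - 1 := by
      field_simp
      ring
    have h3 : 16 * σ ^ 2 * x + 2 < 16 * σ ^ 2 - 1 := by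
      have h4 : 16 * σ ^ 2 * x < 16 * σ ^ 2 * (1 - a) := mul_lt_mul_of_pos_left hx4 (by positivity)
      have h5 : 16 * σ ^ 2 * (1 - a) = 16 * σ ^ 2 - 3 := by
        rw [ha]
        field_simp
      linarith
    have h6 : 0 < 8 * σ * ((4 * σ - 1) * (4 * σ + 1)) := by
      apply mul_pos (by linarith)
      nlinarith
    have h7 : κ0 * D < 1 / (8 * σ) := by
      by_contra hcon
      push Not at hcon
      have := mul_le_mul_of_nonneg_right hcon h6.le
      linarith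
    linarith
  obtain ⟨κ, hκ⟩ : ∃ κ : ℝ, κ = κ0 + g / (2 * D) := ⟨_, rfl⟩
  have hκκ0 : κ0 < κ := by
    rw [hκ]
    have : 0 < g / (2 * D) := by positivity
    linarith
  have hκD : κ * D = 1 / (8 * σ) - g / 2 := by
    have : κ * D = κ0 * D + g / 2 := by
      rw [hκ]
      field_simp
    rw [this]
    linarith
  refine ⟨κ, D, ?_, hD0, ⌈2 * (8 * σ + 4) / g⌉₊ + 12 * s + 12, fun k hk Q hQ1 hQ2 => ?_⟩
  · rw [← hκ0]
    exact hκκ0
  have hk1 : 12 * s + 12 ≤ k := by omega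
  have hkr : 12 * σ + 12 ≤ (k : ℝ) := by rw [hσdef]; exact_mod_cast hk1
  have hkpos : (0 : ℝ) < k := by linarith
  have hkg : 2 * (8 * σ + 4) ≤ g * k := by
    have h1 : 2 * (8 * σ + 4) / g ≤ k := by
      refine (Nat.le_ceil _).trans ?_
      exact_mod_cast (by omega : ⌈2 * (8 * σ + 4) / g⌉₊ ≤ k)
    rw [div_le_iff₀ hg0] at h1
    linarith
  -- the prime
  obtain ⟨q, hq, hq1, hq2⟩ := Nat.exists_prime_lt_and_le_two_mul Q (by omega)
  have : Fact q.Prime := ⟨hq⟩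
  -- parameters
  obtain ⟨d, hd⟩ : ∃ d : ℕ, d = k / (4 * s) := ⟨_, rfl⟩
  obtain ⟨T, hT⟩ : ∃ T : ℕ, T = 3 * k / (4 * s) := ⟨_, rfl⟩
  obtain ⟨X, hX⟩ : ∃ X : ℕ, X = ⌊x * k⌋₊ - 2 := ⟨_, rfl⟩
  have hspos : 0 < 4 * s := by omega
  have hd2 : (d : ℝ) ≤ k / (4 * σ) := by
    rw [hd]
    refine (Nat.cast_div_le).trans ?_
    push_cast
    rfl
  have hT2 : (T : ℝ) ≤ 3 * k / (4 * σ) := by
    rw [hT]
    refine (Nat.cast_div_le).trans ?_
    push_cast
    rfl
  have hd1 : k / (4 * σ) - 1 ≤ (d : ℝ) := by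
    have h1 : k < (d + 1) * (4 * s) := by
      rw [hd, mul_comm]
      exact Nat.lt_mul_div_succ k hspos
    have h2 : (k : ℝ) < (d + 1) * (4 * σ) := by rw [hσdef]; exact_mod_cast h1
    rw [sub_le_iff_le_add, div_le_iff₀ (by positivity)]
    exact h2.le
  have hT1 : 3 * k / (4 * σ) - 1 ≤ (T : ℝ) := by
    have h1 : 3 * k < (T + 1) * (4 * s) := by
      rw [hT, mul_comm (_ + 1)]
      exact Nat.lt_mul_div_succ _ hspos
    have h2 : 3 * (k : ℝ) < (T + 1) * (4 * σ) := by rw [hσdef]; exact_mod_cast h1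
    rw [sub_le_iff_le_add, div_le_iff₀ (by positivity)]
    exact h2.le
  have hxk : 0 ≤ x * k := by
    have : 0 ≤ x := by linarith
    positivity
  have hfl : 4 ≤ ⌊x * (k : ℝ)⌋₊ := by
    apply Nat.le_floor
    push_cast
    nlinarith
  have hXr : (X : ℝ) = (⌊x * (k : ℝ)⌋₊ : ℝ) - 2 := by
    rw [hX, Nat.cast_sub (by omega)]
    norm_num
  have hX1 : x * k - 3 ≤ (X : ℝ) := by
    rw [hXr]
    have := Nat.lt_floor_add_one (x * (k : ℝ))
    linarith
  have hX2 : (X : ℝ) ≤ x * k - 2 := by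
    rw [hXr]
    have := Nat.floor_le hxk
    linarith
  have hXpos : 0 < X := by omega
  have hTX : T ≤ X := by
    have h1 : (T : ℝ) ≤ X := by
      have h2 : 3 * (k : ℝ) / (4 * σ) ≤ 3 * k / 8 := by
        apply div_le_div_of_nonneg_left (by positivity) (by norm_num)
        linarith
      nlinarith
    exact_mod_cast h1
  -- the coefficient vectors
  have hcard : Fintype.card (Fin d) ≤ Fintype.card (Fin s → ZMod q) := by
    rw [Fintype.card_fin, Fintype.card_fun, ZMod.card, Fintype.card_fin]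
    have h1 : Q ^ s ≤ q ^ s := Nat.pow_le_pow_left hq1.le s
    have h2 : d ≤ k := by rw [hd]; exact Nat.div_le_self _ _
    omega
  obtain ⟨e⟩ := Function.Embedding.nonempty_of_card_le hcard
  -- the two conditions
  have ha1' := arith1 hσ ha hx1 hx2 hx3 (by linarith) hX1 hX2 hT2 (Nat.cast_nonneg _)
    (Nat.cast_nonneg _) hd2
  have hXk : X + 1 ≤ k := by
    have : (X : ℝ) + 1 ≤ k := by nlinarith
    exact_mod_cast this
  have hc1 : X + ((X + d * T) / X + 1) ≤ k + 1 := by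
    have h1 : d * T ≤ X * (k - X - 1) := by
      have h2 : ((k - X - 1 : ℕ) : ℝ) = (k : ℝ) - X - 1 := by
        rw [Nat.sub_sub, Nat.cast_sub hXk]
        push_cast
        ring
      have h3 : ((d * T : ℕ) : ℝ) ≤ ((X * (k - X - 1) : ℕ) : ℝ) := by
        rw [Nat.cast_mul, Nat.cast_mul, h2]
        exact ha1'
      exact_mod_cast h3
    have h2 : (X + d * T) / X ≤ 1 + (k - X - 1) := by
      rw [Nat.add_div_left _ hXpos]
      have : d * T / X ≤ k - X - 1 := by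
        apply Nat.div_le_of_le_mul
        exact h1
      omega
    omega
  have hc2 : s * T + (2 * s - s) * (d - 1) ≤ k := by
    have h1 : 4 * s * d ≤ k := by
      rw [hd]
      exact Nat.mul_div_le _ _
    have h2 : 4 * s * T ≤ 3 * k := by
      rw [hT]
      exact Nat.mul_div_le _ _
    have h3 : 2 * s - s = s := by omega
    rw [h3]
    have h4 : s * (d - 1) ≤ s * d := Nat.mul_le_mul_left _ (Nat.sub_le _ _)
    have h5 : 4 * s * d = 4 * (s * d) := by ring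
    have h6 : 4 * s * T = 4 * (s * T) := by ring
    omega
  refine ⟨2 * s * q * X + d * q, 2 * s * q * X * (X - 1) + 2 * (d * q * (2 * s * T)), ?_, ?_, ?_, ?_⟩
  · have : 0 < 2 * s * q * X := by
      have := hq.pos
      positivity
    omega
  · -- size
    have h1 : 2 * σ * (X : ℝ) + d ≤ D * k := by
      rw [hD]
      have e1 : 2 * σ * (X : ℝ) ≤ 2 * σ * (x * k) :=
        mul_le_mul_of_nonneg_left (by linarith) (by linarith)
      have e2 : (2 * σ * x + 1 / (4 * σ)) * (k : ℝ) = 2 * σ * (x * k) + k / (4 * σ) := by ring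
      linarith
    have h2 : (q : ℝ) ≤ 2 * Q := by exact_mod_cast hq2
    have h3 : (((2 * s * q * X + d * q : ℕ)) : ℝ) = q * (2 * σ * X + d) := by
      push_cast
      rw [hσdef]
      ring
    rw [h3]
    have h4 : (q : ℝ) * (2 * σ * X + d) ≤ 2 * Q * (D * k) :=
      mul_le_mul h2 h1 (by positivity) (by positivity)
    linarith
  · -- edges
    have h1 := arith2 hσ ha hx1 hx2 hx3 (by linarith) hX1 hX2 hT1 hd1 hd2 hD hκD
      (hκ0pos.trans hκκ0).le hkg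
    have h2 : ((X - 1 : ℕ) : ℝ) = (X : ℝ) - 1 := by
      rw [Nat.cast_sub hXpos]
      norm_num
    have h3 : (((2 * s * q * X + d * q : ℕ)) : ℝ) = q * (2 * σ * X + d) := by
      push_cast
      rw [hσdef]
      ring
    have h4 : ((2 * s * q * X * (X - 1) + 2 * (d * q * (2 * s * T)) : ℕ) : ℝ) =
        q * (2 * σ * (X * (X - 1)) + 4 * σ * (d * T)) := by
      push_cast
      rw [h2, hσdef]
      ring
    rw [h3, h4]
    have h5 := mul_le_mul_of_nonneg_left h1 (Nat.cast_nonneg (α := ℝ) q)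
    linarith
  · intro L r
    have key := low_design (L := L) (M := 2 * s) (q := q) (X := X) (T := T) (d := d) (s := s)
      e e.injective k r (by omega) (by omega) (by omega) hXpos hTX hc1 hc2
    have h1 : L * (2 * s * q * X + d * q) + (k + 1 + r) =
        L * (2 * s * q) * X + (L * (d * q) + (k + 1 + r)) := by ring
    have h2 : L * (2 * s * q * X * (X - 1) + 2 * (d * q * (2 * s * T))) =
        L * (2 * s * q) * X * (X - 1) + 2 * (L * (d * q) * (2 * s * T)) := by ring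
    rw [h1, h2]
    exact key

/-- **Lower bound.** For `s ≥ 2` and `n ≥ C k ^ (1 + 1 / s)` the maximum size is at least
`(1 / 2 + 1 / (2 (4 s - 1) (4 s + 1))) k n`. -/
theorem low_s (s : ℕ) (hs : 2 ≤ s) : ∃ C : ℝ, 0 < C ∧ ∃ k0 : ℕ, ∀ k : ℕ, k0 ≤ k → ∀ n : ℕ,
    C * (k : ℝ) ^ (1 + 1 / (s : ℝ)) ≤ n →
      (1 / 2 + 1 / (2 * (4 * (s : ℝ) - 1) * (4 * s + 1))) * k * n ≤ f n k := by
  obtain ⟨κ, D, hκ, hD, k1, hb⟩ := block s hs
  set σ : ℝ := (s : ℝ) with hσdef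
  have hσ : 2 ≤ σ := by rw [hσdef]; exact_mod_cast hs
  set κ0 : ℝ := 1 / ((4 * σ - 1) * (4 * σ + 1)) with hκ0
  have hκ0pos : 0 < κ0 := by
    rw [hκ0]
    apply one_div_pos.2
    nlinarith
  have hgap : 0 < κ - κ0 := by linarith
  have hκpos : 0 < κ := by linarith
  set C : ℝ := (1 + κ) * (2 + 2 * (2 + 2 * σ) * D) / (κ - κ0) with hC
  have hCpos : 0 < C := by positivity
  refine ⟨C, hCpos, k1 + 1, fun k hk n hn => ?_⟩
  have hk1 : 1 ≤ k := by omega
  have hkr : (1 : ℝ) ≤ k := by exact_mod_cast hk1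
  have hkpos : (0 : ℝ) < k := by linarith
  -- `Q`
  set y : ℝ := (k : ℝ) ^ (1 / σ) with hy
  have hy1 : 1 ≤ y := Real.one_le_rpow hkr (by positivity)
  have hys : y ^ s = k := by
    rw [hy, ← Real.rpow_natCast, ← Real.rpow_mul hkpos.le, ← hσdef, one_div,
      inv_mul_cancel₀ (by linarith), Real.rpow_one]
  have hpow : (k : ℝ) ^ (1 + 1 / σ) = k * y := by
    rw [Real.rpow_add hkpos, Real.rpow_one]
  rw [hpow] at hn
  set Q : ℕ := ⌈y⌉₊ + 2 * s with hQ
  have hQ1 : k ≤ Q ^ s := by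
    have h1 : y ≤ (Q : ℝ) := by
      rw [hQ]
      push_cast
      have := Nat.le_ceil y
      have h2 : (0 : ℝ) ≤ 2 * (s : ℝ) := by positivity
      linarith
    have h2 : (k : ℝ) ≤ (Q : ℝ) ^ s := by
      rw [← hys]
      exact pow_le_pow_left₀ (by linarith) h1 s
    exact_mod_cast h2
  have hQ2 : (Q : ℝ) ≤ (2 + 2 * σ) * y := by
    rw [hQ]
    push_cast
    have h1 : (⌈y⌉₊ : ℝ) < y + 1 := Nat.ceil_lt_add_one (by linarith)
    have h2 : σ ≤ σ * y := by nlinarith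
    rw [← hσdef]
    linarith
  obtain ⟨n0, e0, hn0, hn0r, he0, hL⟩ := hb k (by omega) Q hQ1 (by omega)
  have hn0r' : (n0 : ℝ) ≤ 2 * (2 + 2 * σ) * D * (k * y) := by
    have h1 : 2 * (Q : ℝ) * D * k ≤ 2 * ((2 + 2 * σ) * y) * D * k := by
      have : 2 * (Q : ℝ) ≤ 2 * ((2 + 2 * σ) * y) := by linarith
      have := mul_le_mul_of_nonneg_right this (mul_pos hD hkpos).le
      linarith
    linarith
  -- the size
  have hky : (k : ℝ) ≤ k * y := by nlinarith
  have hkey : (1 + κ) * ((k : ℝ) + 1 + n0) ≤ (κ - κ0) * n := by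
    have h1 : (k : ℝ) + 1 + n0 ≤ (2 + 2 * (2 + 2 * σ) * D) * (k * y) := by
      have : (2 + 2 * (2 + 2 * σ) * D) * (k * y) = 2 * (k * y) + 2 * (2 + 2 * σ) * D * (k * y) := by
        ring
      rw [this]
      linarith
    have h2 : (1 + κ) * ((k : ℝ) + 1 + n0) ≤ (1 + κ) * ((2 + 2 * (2 + 2 * σ) * D) * (k * y)) :=
      mul_le_mul_of_nonneg_left h1 (by linarith)
    have h3 : (1 + κ) * ((2 + 2 * (2 + 2 * σ) * D) * (k * y)) = (κ - κ0) * (C * (k * y)) := by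
      rw [hC]
      field_simp
    have h4 : (κ - κ0) * (C * (k * y)) ≤ (κ - κ0) * n := mul_le_mul_of_nonneg_left hn hgap.le
    linarith
  have hnk : k + 1 ≤ n := by
    have h1 : (k : ℝ) + 1 + n0 ≤ n := by
      by_contra hcon
      push Not at hcon
      have h2 : (κ - κ0) * (n : ℝ) ≤ (1 + κ) * n := by
        apply mul_le_mul_of_nonneg_right _ (Nat.cast_nonneg _)
        linarith
      have h3 : (1 + κ) * (n : ℝ) < (1 + κ) * ((k : ℝ) + 1 + n0) :=
        mul_lt_mul_of_pos_left hcon (by linarith)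
      linarith
    have h2 : (0 : ℝ) ≤ n0 := Nat.cast_nonneg _
    have h3 : ((k + 1 : ℕ) : ℝ) ≤ n := by push_cast; linarith
    exact_mod_cast h3
  set L : ℕ := (n - (k + 1)) / n0 with hLdef
  set r : ℕ := (n - (k + 1)) % n0 with hrdef
  have hdm : n0 * L + r = n - (k + 1) := Nat.div_add_mod _ _
  have hrlt : r < n0 := Nat.mod_lt _ hn0
  have hn' : L * n0 + (k + 1 + r) = n := by
    rw [mul_comm L n0]
    omega
  have hfin := hL L r
  rw [hn'] at hfin
  have hfinr : (L : ℝ) * e0 ≤ 2 * f n k := by exact_mod_cast hfin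
  have h1 : (L : ℝ) * ((1 + κ) * k * n0) ≤ L * e0 := mul_le_mul_of_nonneg_left he0
    (Nat.cast_nonneg _)
  have h2 : (n : ℝ) - (k + 1) - n0 ≤ L * n0 := by
    have h3 : n ≤ L * n0 + (k + 1) + n0 := by omega
    have h4 : (n : ℝ) ≤ L * n0 + (k + 1) + n0 := by exact_mod_cast h3
    linarith
  have h3 : (1 + κ) * k * ((n : ℝ) - (k + 1) - n0) ≤ (1 + κ) * k * (L * n0) :=
    mul_le_mul_of_nonneg_left h2 (by positivity)
  have h4 : (1 + κ0) * k * (n : ℝ) ≤ (1 + κ) * k * ((n : ℝ) - (k + 1) - n0) := by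
    have := mul_le_mul_of_nonneg_left hkey hkpos.le
    linarith
  have h5 : (1 / 2 + 1 / (2 * (4 * σ - 1) * (4 * σ + 1))) * k * n = (1 + κ0) * k * n / 2 := by
    have : 1 / (2 * (4 * σ - 1) * (4 * σ + 1)) = κ0 / 2 := by
      rw [hκ0, mul_assoc, div_div]
      congr 1
      ring
    rw [this]
    ring
  rw [h5]
  linarith

end Pool.Agent.LC0bab.Pol
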