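import Pool.Agent.Lib_MP_0bab5c_s.TDef

/-! # Transition range, upper side: what is proved about a hub

`r` is the number of classes that one twin handles at the same time (`n <= delta k^(1+1/(r-1))`),
`K` the bound for the excess, `F` the penalised boundary.
-/

namespace LCS

open Finset LCX
open scoped Classical

variable {J U : Type} [Fintype J] [Fintype U]

/-- what the core needs from a hub `u` of degree `D` (after subtracting requests and errors): the
classes of `s` are big, every `r` of them have total excess at most `g`; the classes of `s2` are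
small (`p a <= K`) and pay the hub everything. -/
def HubOKs (iota : Type) (r : ℕ) (K k : ℝ) (w : J → ℝ) (hadj : U → J → Prop)
    (F : Finset J → ℝ) (u : U) (D : ℝ) : Prop :=
  ∃ (s s2 : Finset iota) (Z : iota → Finset J) (p x : iota → ℝ) (g : ℝ),
    0 ≤ g ∧ Disjoint s s2 ∧
    (∀ a ∈ s ∪ s2, ∀ c ∈ s ∪ s2, a ≠ c → Disjoint (Z a) (Z c)) ∧
    (∀ a ∈ s ∪ s2, 0 ≤ p a ∧ F (Z a) ≤ p a * k ∧ 0 ≤ x a ∧
      k * x a ≤ ∑ j ∈ (Z a).filter (fun j => hadj u j), w j) ∧
    (∀ S ⊆ s, S.card ≤ r → ∑ a ∈ S, x a ≤ g) ∧ (∀ a ∈ s2, p a ≤ K) ∧ ∑ a ∈ s, p a ≤ 1 - g ∧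
    D ≤ k + k * (∑ a ∈ s, x a + ∑ a ∈ s2, x a - g)

/-- the penalty with weight `0`, as in `HubOKt` -/
theorem HubOKs.toT {H iota : Type} {r r0 : ℕ} {K k theta rho : ℝ} {w : J → ℝ}
    {adj : J → J → Prop} {hadj : U → J → Prop} {hm : J → H} {u : U} {D : ℝ}
    (hr0 : theta * rho = (r0 : ℝ))
    (h : HubOKs iota r K k w hadj
      (fun A => beta w adj hadj A + theta * pen (fun _ => (0 : ℝ)) hm rho A) u D) :
    HubOKt iota r K k w adj hadj hm r0 u D := by
  obtain ⟨s, s2, Z, p, x, g, h1, h2, h3, h4, h5, h6, h7, h8⟩ := h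
  refine ⟨s, s2, Z, p, x, g, h1, h2, h3, ?_, h5, h6, h7, h8⟩
  intro a ha
  obtain ⟨g1, g2, g3, g4⟩ := h4 a ha
  refine ⟨g1, ?_, g3, g4⟩
  refine le_trans (le_of_eq ?_) g2
  unfold FF pen
  simp only [sum_const_zero]
  rw [← hr0]
  ring

end LCS
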