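import Pool.Agent.Lib_MP_0bab5c_s.SGraphC
import Pool.Agent.Lib_MP_0bab5c_s.SCrit
import Pool.Agent.Lib_MP_0bab5c_x.XClean
import Pool.Agent.Lib_MP_0bab5c_x.XCells
import Pool.Agent.Lib_MP_0bab5c_co.Kappa

/-! # The upper bound in the transition range

`small_cuts_bound_s`: all constants depend on `r`, `eps` and the bound `C` for the cuts. The
penalty: `r0 = floor (thm tau k)`, `theta = r0 / (tau k)`, between `thm / 2` and `thm`. The number
of exceptional hubs is at most `1 + m ^ r * X2`, where `m <= n / (d0 k)`, which is small compared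
with `n` if `n ^ (r - 1) <= del k ^ r`.
-/

namespace LCS

open Finset LCX
open scoped Classical

/-- the constants for given `eta` and `C` -/
theorem exists_par (C eta : ℝ) (hC : 1 ≤ C) (heta : 0 < eta) (heta1 : eta ≤ 1 / 1000) :
    ∃ d0 e1 tau s er thm : ℝ, 0 < d0 ∧ d0 ≤ 1 ∧ 0 < e1 ∧ 0 < tau ∧ 0 < s ∧ s ≤ 1 ∧ 0 < er ∧
      er ≤ 1 / 4 ∧ 0 < thm ∧ 2 * e1 * (C + 1) / d0 = eta ∧
      ∀ k theta : ℝ, 1 ≤ k → 1 ≤ eta * k → 0 < theta → theta ≤ thm →
        ParS C k eta d0 e1 tau s s er theta := by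
  obtain ⟨d0, hd0⟩ : ∃ d0 : ℝ, d0 = eta / 2 := ⟨_, rfl⟩
  have h1 : 0 < d0 := by rw [hd0]; positivity
  have h1' : d0 ≤ 1 := by rw [hd0]; linarith
  obtain ⟨e1, he1⟩ : ∃ e1 : ℝ, e1 = eta * d0 / (2 * (C + 1)) := ⟨_, rfl⟩
  have h2 : 0 < e1 := by rw [he1]; positivity
  have h2' : e1 ≤ 1 := by
    rw [he1, div_le_one (by positivity)]
    have : eta * d0 ≤ 1 * 1 := mul_le_mul (by linarith) h1' h1.le (by norm_num)
    linarith
  obtain ⟨tau, htau⟩ : ∃ tau : ℝ, tau = eta * e1 / 6 := ⟨_, rfl⟩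
  have h3 : 0 < tau := by rw [htau]; positivity
  have h3' : tau ≤ e1 / 6 := by
    have : eta * e1 ≤ 1 * e1 := mul_le_mul_of_nonneg_right (by linarith) h2.le
    rw [htau]
    linarith
  obtain ⟨s, hs⟩ : ∃ s : ℝ, s = eta * e1 / (100 * (C + 1) ^ 2) := ⟨_, rfl⟩
  have h4 : 0 < s := by rw [hs]; positivity
  have hC2 : 4 ≤ (C + 1) ^ 2 := by nlinarith
  have hC3 : C + 1 ≤ (C + 1) ^ 2 := by nlinarith
  have hC4 : C * (C + 1) ≤ (C + 1) ^ 2 := by nlinarith
  have hs1 : s * (100 * (C + 1) ^ 2) = eta * e1 := by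
    rw [hs]
    exact div_mul_cancel₀ _ (by positivity)
  have hee : eta * e1 ≤ eta := by
    have : eta * e1 ≤ eta * 1 := mul_le_mul_of_nonneg_left h2' heta.le
    linarith
  have h4' : 400 * s ≤ eta := by
    have : s * (100 * 4) ≤ s * (100 * (C + 1) ^ 2) := mul_le_mul_of_nonneg_left (by linarith) h4.le
    linarith
  have h4'' : 100 * ((C + 1) * s) ≤ eta := by
    have : s * (100 * (C + 1)) ≤ s * (100 * (C + 1) ^ 2) :=
      mul_le_mul_of_nonneg_left (by linarith) h4.le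
    linarith
  obtain ⟨er, her⟩ : ∃ er : ℝ, er = eta * tau / (100 * (C + 1)) := ⟨_, rfl⟩
  have h5 : 0 < er := by rw [her]; positivity
  have her1 : er * (100 * (C + 1)) = eta * tau := by
    rw [her]
    exact div_mul_cancel₀ _ (by positivity)
  have het : eta * tau ≤ eta := by
    have : eta * tau ≤ eta * 1 := mul_le_mul_of_nonneg_left (by linarith) heta.le
    linarith
  have h5' : 200 * er ≤ eta := by
    have : er * (100 * 2) ≤ er * (100 * (C + 1)) := mul_le_mul_of_nonneg_left (by linarith) h5.le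
    linarith
  have h5'' : 100 * ((C + 1) * er) ≤ eta := by linarith
  obtain ⟨thm, hthm⟩ : ∃ thm : ℝ, thm = eta * s / (100 * (C + 1)) := ⟨_, rfl⟩
  have h6 : 0 < thm := by rw [hthm]; positivity
  have hthm1 : thm * (100 * (C + 1)) = eta * s := by
    rw [hthm]
    exact div_mul_cancel₀ _ (by positivity)
  refine ⟨d0, e1, tau, s, er, thm, h1, h1', h2, h3, h4, by linarith, h5, by linarith, h6, ?_, ?_⟩
  · rw [he1]
    field_simp
  · intro k theta hk hek hth hth2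
    refine ⟨hC, hk, heta, heta1, h1, h2, h3, by linarith, by linarith, h4, h4, h5, hth, ?_, ?_, ?_,
      ?_, ?_, ?_, hek, ?_, ?_, ?_, ?_⟩
    · have : 3 * tau / e1 = eta / 2 := by
        rw [htau]
        field_simp
        ring
      rw [this, hd0]
      linarith
    · have e : thm * (C / s + (C + 1)) ≤ eta := by
        have e1' : thm * (C / s + (C + 1)) = eta * (C + (C + 1) * s) / (100 * (C + 1)) := by
          rw [hthm]
          field_simp
        rw [e1', div_le_iff₀ (by positivity)]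
        have : C + (C + 1) * s ≤ 100 * (C + 1) := by nlinarith
        exact mul_le_mul_of_nonneg_left this heta.le
      refine le_trans (mul_le_mul_of_nonneg_right hth2 ?_) e
      positivity
    · have e : (2 * s + s) * ((C + 1) / e1 * C) = 3 * s * (C * (C + 1)) / e1 := by ring
      rw [e, div_le_iff₀ h2, ← hs1]
      have : s * (C * (C + 1)) ≤ s * (C + 1) ^ 2 := mul_le_mul_of_nonneg_left hC4 h4.le
      have h0 : 0 ≤ s * (C + 1) ^ 2 := by positivity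
      linarith
    · linarith
    · have e : er * (C / tau + 1) = eta * (C + tau) / (100 * (C + 1)) := by
        rw [her]
        field_simp
      rw [e, div_le_iff₀ (by positivity)]
      exact mul_le_mul_of_nonneg_left (by linarith) heta.le
    · linarith
    · linarith
    · linarith
    · have e : (2 * (C + 1) + 1) * s = 2 * ((C + 1) * s) + s := by ring
      rw [e]
      linarith
    · have e : (4 * (C + 1) + 2) * er = 4 * ((C + 1) * er) + 2 * er := by ring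
      rw [e]
      linarith

/-- `m ^ r` is small compared with `n` -/
theorem pow_count (r : ℕ) (hr : 2 ≤ r) {del d0 k n m : ℝ} (hdel : 0 < del) (hdel1 : del ≤ 1)
    (hd0 : 0 < d0) (hk : 0 < k) (hn : 0 ≤ n) (hm : 0 ≤ m) (hmn : d0 * k * m ≤ n)
    (hnk : n ≤ del * k ^ (1 + 1 / ((r : ℝ) - 1))) : d0 ^ r * m ^ r ≤ del * n := by
  obtain ⟨t, rfl⟩ : ∃ t : ℕ, r = t + 2 := ⟨r - 2, by omega⟩
  have e1 : (((t + 2 : ℕ) : ℝ) - 1) = ((t + 1 : ℕ) : ℝ) := by push_cast; ring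
  rw [e1] at hnk
  have ht : (0 : ℝ) < ((t + 1 : ℕ) : ℝ) := by exact_mod_cast Nat.succ_pos t
  -- `n ^ (t+1) <= del k ^ (t+2)`
  have h1 : n ^ (t + 1) ≤ del * k ^ (t + 2) := by
    have h2 : n ^ (t + 1) ≤ (del * k ^ (1 + 1 / ((t + 1 : ℕ) : ℝ))) ^ (t + 1) :=
      pow_le_pow_left₀ hn hnk (t + 1)
    have h3 : (k ^ (1 + 1 / ((t + 1 : ℕ) : ℝ))) ^ (t + 1) = k ^ (t + 2) := by
      rw [← Real.rpow_natCast, ← Real.rpow_mul hk.le, ← Real.rpow_natCast]
      congr 1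
      field_simp
      push_cast
      ring
    rw [mul_pow, h3] at h2
    refine h2.trans (mul_le_mul_of_nonneg_right ?_ (by positivity))
    exact pow_le_of_le_one hdel.le hdel1 (by omega)
  have h4 : (d0 * k * m) ^ (t + 2) ≤ n ^ (t + 2) := pow_le_pow_left₀ (by positivity) hmn _
  have h5 : n ^ (t + 2) ≤ del * k ^ (t + 2) * n := by
    rw [pow_succ]
    exact mul_le_mul_of_nonneg_right h1 hn
  have h6 : (d0 * k * m) ^ (t + 2) = k ^ (t + 2) * (d0 ^ (t + 2) * m ^ (t + 2)) := by ring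
  rw [h6] at h4
  have h7 : k ^ (t + 2) * (d0 ^ (t + 2) * m ^ (t + 2)) ≤ k ^ (t + 2) * (del * n) := by
    refine (h4.trans h5).trans (le_of_eq (by ring))
  exact le_of_mul_le_mul_left h7 (by positivity)

theorem small_cuts_bound_s (r : ℕ) (hr : 2 ≤ r) (s0 : ℕ) (hs0 : 1 ≤ s0) (eps : ℝ)
    (heps : 0 < eps) : ∃ del : ℝ, 0 < del ∧ ∃ k0 : ℕ, ∀ k : ℕ, k0 ≤ k →
    ∀ (V : Type) [Fintype V] (G : SimpleGraph V), SmallCuts G k s0 → k ≤ Fintype.card V →
      (Fintype.card V : ℝ) ≤ del * (k : ℝ) ^ (1 + 1 / ((r : ℝ) - 1)) →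
      ∑ v, ((nb G v).card : ℝ) ≤ (1 + Kr r + eps) * k * (Fintype.card V : ℝ) := by
  have hKr := Kr_pos hr
  obtain ⟨C, hCs⟩ : ∃ C : ℝ, C = (s0 : ℝ) := ⟨_, rfl⟩
  have hC : 1 ≤ C := by rw [hCs]; exact_mod_cast hs0
  -- eta
  obtain ⟨A, hA⟩ : ∃ A : ℝ, A = 20 / Kr r + 1000 := ⟨_, rfl⟩
  have hA0 : 1000 ≤ A := by
    have : 0 < 20 / Kr r := by positivity
    rw [hA]; linarith
  obtain ⟨eta, heta_def⟩ : ∃ eta : ℝ, eta = min eps 1 / A := ⟨_, rfl⟩
  have hm0 : 0 < min eps 1 := lt_min heps one_pos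
  have heta : 0 < eta := by rw [heta_def]; positivity
  have hetaA : A * eta = min eps 1 := by
    rw [heta_def]
    exact mul_div_cancel₀ _ (by positivity)
  have heta1 : eta ≤ 1 / 1000 := by
    have h1 : 1000 * eta ≤ A * eta := mul_le_mul_of_nonneg_right hA0 heta.le
    have h2 : min eps 1 ≤ 1 := min_le_right _ _
    linarith
  have hetaeps : A * eta ≤ eps := by
    rw [hetaA]
    exact min_le_left _ _
  obtain ⟨d0, e1, tau, s, er, thm, hd0, hd01, he1, htau, hs, hs1, her, her1, hthm, hloss1, hpar⟩ :=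
    exists_par C eta hC heta heta1
  obtain ⟨M, hMpos, hM⟩ := exists_red C d0 e1 s er eta hC hd0 he1 hs hs1 her her1 heta
  obtain ⟨N, hN⟩ : ∃ N : ℕ, 4 / (thm * tau) ≤ N := ⟨_, Nat.le_ceil _⟩
  obtain ⟨dl, hdl_def⟩ : ∃ dl : ℝ, dl = eta / (3 * ((N : ℝ) + 1) ^ 2) := ⟨_, rfl⟩
  have hNpos : (0 : ℝ) < (N : ℝ) + 1 := by positivity
  have hdl : 0 < dl := by rw [hdl_def]; positivity
  have hN2 : 3 * dl * (N : ℝ) ^ 2 ≤ eta := by
    have h1 : (N : ℝ) ^ 2 ≤ ((N : ℝ) + 1) ^ 2 :=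
      pow_le_pow_left₀ (Nat.cast_nonneg _) (by linarith) 2
    have h2 : 3 * dl * (N : ℝ) ^ 2 ≤ 3 * dl * ((N : ℝ) + 1) ^ 2 :=
      mul_le_mul_of_nonneg_left h1 (by positivity)
    have h3 : 3 * dl * ((N : ℝ) + 1) ^ 2 = eta := by
      rw [hdl_def]
      field_simp
    linarith
  obtain ⟨D, hD⟩ : ∃ D : ℕ, (C + 1) * ((C + 1) / e1 + 1) / dl ≤ D := ⟨_, Nat.le_ceil _⟩
  obtain ⟨X1, hX1⟩ : ∃ X1 : ℕ, X1 = M * (⌊1 / s⌋₊ + 1) ^ (M * ⌊(C + 1) / e1⌋₊) := ⟨_, rfl⟩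
  obtain ⟨X2, hX2⟩ : ∃ X2 : ℕ, X2 = 2 ^ (r * (D + 1) ^ N) *
      (⌊1 / s⌋₊ + 1) ^ (M * (r * (D + 1) ^ N)) := ⟨_, rfl⟩
  -- the final `del`
  obtain ⟨del, hdel_def⟩ : ∃ del : ℝ,
      del = min 1 (eta * d0 ^ r / (4 * (C + 1) * ((X2 : ℝ) + 1))) := ⟨_, rfl⟩
  have hdel : 0 < del := by
    rw [hdel_def]
    refine lt_min one_pos ?_
    positivity
  have hdel1 : del ≤ 1 := by rw [hdel_def]; exact min_le_left _ _
  have hdel2 : 4 * (C + 1) * ((X2 : ℝ) + 1) * del ≤ eta * d0 ^ r := by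
    have h1 : del ≤ eta * d0 ^ r / (4 * (C + 1) * ((X2 : ℝ) + 1)) := by
      rw [hdel_def]; exact min_le_right _ _
    rw [le_div_iff₀ (by positivity)] at h1
    linarith
  refine ⟨del, hdel, ⌈1 / eta⌉₊ + ⌈4 * (C + 1) / eta⌉₊ +
    ⌈4 * (C + 1) * (X1 : ℝ) / (d0 * eta)⌉₊ + ⌈1 / (thm * tau)⌉₊ + 1,
    fun k hk V _ G hcuts hVk hVn => ?_⟩
  have hk1 : (1 : ℝ) ≤ k := by exact_mod_cast (by omega : 1 ≤ k)
  have hkpos : (0 : ℝ) < k := by linarith
  have hk2 : 1 / eta ≤ k := by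
    refine (Nat.le_ceil _).trans ?_
    exact_mod_cast (by omega : ⌈1 / eta⌉₊ ≤ k)
  have hk3 : 4 * (C + 1) / eta ≤ k := by
    refine (Nat.le_ceil _).trans ?_
    exact_mod_cast (by omega : ⌈4 * (C + 1) / eta⌉₊ ≤ k)
  have hk4 : 4 * (C + 1) * (X1 : ℝ) / (d0 * eta) ≤ k := by
    refine (Nat.le_ceil _).trans ?_
    exact_mod_cast (by omega : ⌈4 * (C + 1) * (X1 : ℝ) / (d0 * eta)⌉₊ ≤ k)
  have hk5 : 1 / (thm * tau) ≤ k := by
    refine (Nat.le_ceil _).trans ?_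
    exact_mod_cast (by omega : ⌈1 / (thm * tau)⌉₊ ≤ k)
  have hek : 1 ≤ eta * k := by
    rw [div_le_iff₀ heta] at hk2
    linarith
  have hVkr : (k : ℝ) ≤ (Fintype.card V : ℝ) := by exact_mod_cast hVk
  have hV0 : (0 : ℝ) ≤ (Fintype.card V : ℝ) := Nat.cast_nonneg _
  -- the penalty
  have htt : 0 < thm * tau := mul_pos hthm htau
  have hx1 : 1 ≤ thm * tau * k := by
    rw [div_le_iff₀ htt] at hk5
    linarith
  obtain ⟨r0, hr0_def⟩ : ∃ r0 : ℕ, r0 = ⌊thm * tau * k⌋₊ := ⟨_, rfl⟩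
  have hr0le : (r0 : ℝ) ≤ thm * tau * k := by
    rw [hr0_def]
    exact Nat.floor_le (by positivity)
  have hr0ge : thm * tau * k / 2 ≤ (r0 : ℝ) := by
    have h1 : thm * tau * k < (r0 : ℝ) + 1 := by
      rw [hr0_def]
      exact Nat.lt_floor_add_one _
    have h2 : (1 : ℝ) ≤ (r0 : ℝ) := by
      have : 1 ≤ r0 := by
        rw [hr0_def]
        exact Nat.le_floor (by exact_mod_cast hx1)
      exact_mod_cast this
    linarith
  have htk : 0 < tau * k := mul_pos htau hkpos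
  obtain ⟨theta, hth_def⟩ : ∃ theta : ℝ, theta = (r0 : ℝ) / (tau * k) := ⟨_, rfl⟩
  have hthr : theta * (tau * k) = (r0 : ℝ) := by
    rw [hth_def]
    exact div_mul_cancel₀ _ htk.ne'
  have hth1 : theta ≤ thm := by
    rw [hth_def, div_le_iff₀ htk]
    linarith
  have hth2 : thm / 2 ≤ theta := by
    rw [hth_def, le_div_iff₀ htk]
    linarith
  have hth : 0 < theta := by linarith
  have par := hpar k theta hk1 hek hth hth1
  have hN1 : 2 / (theta * tau) ≤ N := by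
    refine le_trans ?_ hN
    rw [div_le_div_iff₀ (mul_pos hth htau) htt]
    have : thm / 2 * tau ≤ theta * tau := mul_le_mul_of_nonneg_right hth2 htau.le
    linarith
  rw [← hCs] at hcuts
  obtain ⟨P, m, E, _, hP, hPcuts, hloss⟩ := cleaning G k C d0 e1 hk1 hC hd0 he1 hcuts
  obtain ⟨G', J, U, instJ, instU, cell, hm, phi, adj, hadj, hGP, hred, hnear, hMc, hloss2⟩ :=
    hM V P k m E hk1 hP
  have hcount := home_count hP
  have hpow := pow_count r hr hdel hdel1 hd0 hkpos hV0 (Nat.cast_nonneg m) hcount hVn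
  have hbig : (C + 1) * ((m * M * (⌊1 / s⌋₊ + 1) ^ (M * ⌊(C + 1) / e1⌋₊) : ℕ) : ℝ) +
      (C + 1) * ((1 + m ^ r * 2 ^ (r * (D + 1) ^ N) *
        (⌊1 / s⌋₊ + 1) ^ (M * (r * (D + 1) ^ N)) : ℕ) : ℝ) ≤ eta * (Fintype.card V : ℝ) := by
    have h1 : m * M * (⌊1 / s⌋₊ + 1) ^ (M * ⌊(C + 1) / e1⌋₊) = m * X1 := by
      rw [hX1]
      ring
    have h2 : 1 + m ^ r * 2 ^ (r * (D + 1) ^ N) *
        (⌊1 / s⌋₊ + 1) ^ (M * (r * (D + 1) ^ N)) = 1 + m ^ r * X2 := by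
      rw [hX2]
      ring
    rw [h1, h2]
    push_cast
    have hCp : 0 < C + 1 := by linarith
    have h3 : 4 * (C + 1) * (X1 : ℝ) ≤ k * (d0 * eta) := by
      rwa [div_le_iff₀ (by positivity)] at hk4
    have h4 : 4 * (C + 1) * (X1 : ℝ) * m ≤ k * (d0 * eta) * m :=
      mul_le_mul_of_nonneg_right h3 (Nat.cast_nonneg _)
    have h5 : eta * (d0 * k * m) ≤ eta * (Fintype.card V : ℝ) :=
      mul_le_mul_of_nonneg_left hcount heta.le
    have h6 : 4 * (C + 1) ≤ eta * (Fintype.card V : ℝ) := by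
      rw [div_le_iff₀ heta] at hk3
      have : eta * (k : ℝ) ≤ eta * (Fintype.card V : ℝ) :=
        mul_le_mul_of_nonneg_left hVkr heta.le
      linarith
    have h7 : 4 * (C + 1) * ((X2 : ℝ) + 1) * (d0 ^ r * (m : ℝ) ^ r) ≤
        eta * d0 ^ r * (Fintype.card V : ℝ) := by
      calc 4 * (C + 1) * ((X2 : ℝ) + 1) * (d0 ^ r * (m : ℝ) ^ r) ≤
          4 * (C + 1) * ((X2 : ℝ) + 1) * (del * (Fintype.card V : ℝ)) :=
            mul_le_mul_of_nonneg_left hpow (by positivity)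
        _ = 4 * (C + 1) * ((X2 : ℝ) + 1) * del * (Fintype.card V : ℝ) := by ring
        _ ≤ _ := mul_le_mul_of_nonneg_right hdel2 hV0
    have hd : 0 < d0 ^ r := by positivity
    have h8 : 4 * (C + 1) * ((X2 : ℝ) + 1) * (m : ℝ) ^ r ≤ eta * (Fintype.card V : ℝ) := by
      refine le_of_mul_le_mul_left ?_ hd
      calc d0 ^ r * (4 * (C + 1) * ((X2 : ℝ) + 1) * (m : ℝ) ^ r) =
          4 * (C + 1) * ((X2 : ℝ) + 1) * (d0 ^ r * (m : ℝ) ^ r) := by ring
        _ ≤ _ := h7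
        _ = _ := by ring
    have h9 : 0 ≤ (C + 1) * (m : ℝ) ^ r := by positivity
    have e1' : (C + 1) * (m * (X1 : ℝ)) + (C + 1) * (1 + (m : ℝ) ^ r * X2) =
        (4 * (C + 1) * (X1 : ℝ) * m + 4 * (C + 1) +
          (4 * (C + 1) * ((X2 : ℝ) + 1) * (m : ℝ) ^ r - 4 * ((C + 1) * (m : ℝ) ^ r))) / 4 := by
      ring
    rw [e1']
    linarith
  have hmain := graph_bound_s r hr hGP par r0 hthr hP hPcuts hred hnear M hMc dl hdl D N hD
    hN1 hN2 hbig
  have hl1 : 2 * e1 * (C + 1) / d0 * k * (Fintype.card V : ℝ) =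
      eta * k * (Fintype.card V : ℝ) := by
    rw [hloss1]
  rw [hl1] at hloss
  have hl2 : 2 * (Fintype.card V : ℝ) ≤ 2 * (eta * k * (Fintype.card V : ℝ)) := by
    have := mul_le_mul_of_nonneg_right hek hV0
    linarith
  have hl3 : A * eta * (k * (Fintype.card V : ℝ)) ≤ eps * (k * (Fintype.card V : ℝ)) :=
    mul_le_mul_of_nonneg_right hetaeps (by positivity)
  have hl4 : 0 ≤ eta * k * (Fintype.card V : ℝ) := by positivity
  have hl5 : A * eta * (k * (Fintype.card V : ℝ)) =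
      (20 / Kr r + 60) * eta * k * (Fintype.card V : ℝ) +
        940 * (eta * k * (Fintype.card V : ℝ)) := by
    rw [hA]
    ring
  have hl6 : (1 + Kr r + eps) * k * (Fintype.card V : ℝ) =
      (1 + Kr r) * k * (Fintype.card V : ℝ) + eps * (k * (Fintype.card V : ℝ)) := by ring
  rw [hl6]
  linarith

/-- **The upper bound in the transition range.** -/
theorem upper_s (r : ℕ) (hr : 2 ≤ r) (eps : ℝ) (heps : 0 < eps) :
    ∃ del : ℝ, 0 < del ∧ ∃ k0 : ℕ, ∀ k : ℕ, k0 ≤ k → ∀ n : ℕ,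
      (n : ℝ) ≤ del * (k : ℝ) ^ (1 + 1 / ((r : ℝ) - 1)) →
      (Pool.Agent.LC0bab.f n k : ℝ) ≤ (1 / 2 + Kr r / 2 + eps) * k * n := by
  have hKr := Kr_pos hr
  -- the bound for the cuts
  obtain ⟨s0, hs0⟩ : ∃ s0 : ℕ, (1 + Kr r + 2 * (2 * eps)) / (Kr r + 2 * eps) + 2 ≤ s0 :=
    ⟨_, Nat.le_ceil _⟩
  have hpos : 0 < Kr r + 2 * eps := by linarith
  have hq0 : 0 ≤ (1 + Kr r + 2 * (2 * eps)) / (Kr r + 2 * eps) := by positivity
  have hs02 : 2 ≤ s0 := by
    have : (2 : ℝ) ≤ s0 := by linarith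
    exact_mod_cast this
  have hs01 : 1 + Kr r + 2 * (2 * eps) ≤ (Kr r + 2 * eps) * s0 := by
    have h1 : (1 + Kr r + 2 * (2 * eps)) / (Kr r + 2 * eps) ≤ s0 := by linarith
    rw [div_le_iff₀ hpos] at h1
    linarith
  obtain ⟨k1, _, h1⟩ := exists_critical3 (Kr r) (2 * eps) hKr.le (by linarith) s0 hs01 hs02
  obtain ⟨del, hdel, k2, h2⟩ := small_cuts_bound_s r hr s0 (by omega) (eps / 2) (by linarith)
  refine ⟨del, hdel, k1 + k2 + 1, fun k hk n hn => Pool.Agent.LC0bab.f_le (by positivity)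
    (fun V _ G hn' hRC => ?_)⟩
  by_contra hcon
  push Not at hcon
  obtain ⟨V', _, G', hc, hVk, hVn, hdeg⟩ := h1 k (by omega) V G Finset.univ hRC (by
    rw [Finset.card_univ, hn']
    have : (1 + Kr r + 2 * eps) * (k : ℝ) * n = 2 * ((1 / 2 + Kr r / 2 + eps) * k * n) := by
      ring
    rw [this]
    exact hcon)
  rw [Finset.card_univ, hn'] at hVn
  have hVnr : (Fintype.card V' : ℝ) ≤ (n : ℝ) := by exact_mod_cast hVn
  have h3 := h2 k (by omega) V' G' hc hVk (hVnr.trans hn)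
  have hkpos : (0 : ℝ) < k := by exact_mod_cast (by omega : 0 < k)
  have hVkr : (k : ℝ) ≤ (Fintype.card V' : ℝ) := by exact_mod_cast hVk
  have hVpos : (0 : ℝ) < (Fintype.card V' : ℝ) := by linarith
  have h4 : 0 < eps * (k * (Fintype.card V' : ℝ)) := by positivity
  nlinarith

end LCS
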