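import Pool.Agent.Lib_MP_0bab5c_x.XPar

/-! # The constants, with a general size bound `C` for the cuts

As `Lib_MP_0bab5c_x.XPar`, where `C = 16`.
-/

namespace LCS

open Finset LCX
open scoped Classical

structure ParS (C k eta d0 e1 tau s q er theta : ℝ) : Prop where
  hC : 1 ≤ C
  hk : 1 ≤ k
  heta : 0 < eta
  heta1 : eta ≤ 1 / 1000
  hd0 : 0 < d0
  he1 : 0 < e1
  htau : 0 < tau
  htau1 : 2 * tau ≤ e1
  htau2 : tau ≤ 1
  hs : 0 < s
  hq : 0 < q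
  her : 0 < er
  hth : 0 < theta
  a1 : d0 + 3 * tau / e1 ≤ eta
  a2 : theta * (C / s + (C + 1)) ≤ eta
  a3 : (2 * s + q) * ((C + 1) / e1 * C) ≤ eta
  a4 : 4 * (s + er) ≤ eta
  a5 : er * (C / tau + 1) ≤ eta
  a6 : 35 * s ≤ eta
  a7 : 1 ≤ eta * k
  a8 : 70 * er ≤ eta
  a9 : q ≤ eta
  b6 : (2 * (C + 1) + 1) * s ≤ eta
  b8 : (4 * (C + 1) + 2) * er ≤ eta

/-- the cuts used -/
def CutS {V : Type} [Fintype V] (G : SimpleGraph V) {m : ℕ} (E : Fin m → Finset V)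
    (C k d0 e1 tau : ℝ) (x z : V) (B : Finset V) : Prop :=
  TrimCut G E ((1 + d0 + 3 * tau / e1) * k) (C * k) (tau * k) x z B

end LCS
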