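import Pool.Agent.Lib_MP_0bab5c_x.XMu

/-! # The inequalities for hubs, with a general penalty weight

As in `Lib_MP_0bab5c_x.XMu`, the weight in the penalty is a function `w0` with `0 <= w0 <= wt`
(later `w0 = 0`: only the number of homes is penalised).
-/

namespace LCS

open Finset LCX
open scoped Classical

variable {V J U : Type} [Fintype V] [Fintype J] [Fintype U]

theorem pen_le_w {H : Type} (w0 w : J → ℝ) (hw : ∀ j, w0 j ≤ w j) (hm : J → H) (rho : ℝ)
    (A : Finset J) : pen w0 hm rho A ≤ pen w hm rho A := by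
  unfold pen
  have h1 : ∑ j ∈ A, w0 j ≤ ∑ j ∈ A, w j := sum_le_sum fun j _ => hw j
  linarith

theorem pen_big_w (w0 : J → ℝ) (_hw0 : ∀ j, 0 ≤ w0 j) {G : SimpleGraph V} {k er s : ℝ} {m : ℕ}
    {E : Fin m → Finset V} {cell : J → Finset V} (hw1 : ∀ j, w0 j ≤ wt cell j)
    {hm : J → Fin m} {phi : U → V} {adj : J → J → Prop}
    {hadj : U → J → Prop} (h : Red G k er s E cell hm phi adj hadj) (hs : 0 < s)
    {K L T : ℝ} (hT : 0 < T) {x z : V} {B : Finset V} (hB : TrimCut G E K L T x z B)
    (rho : ℝ) (hrho : 0 ≤ rho) :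
    pen w0 hm rho (big s cell B) ≤ L / s + rho * (L / T + 1) :=
  (pen_le_w w0 (wt cell) hw1 hm rho _).trans (pen_big h hs hT hB rho hrho)

/-- the twin inequality of a class `Z` of `Qu` -/
theorem hub_class_ineq_w (w0 : J → ℝ) (hw0 : ∀ j, 0 ≤ w0 j) {G : SimpleGraph V} {k er s : ℝ} {m : ℕ} {E : Fin m → Finset V}
    {cell : J → Finset V} {hm : J → Fin m} {phi : U → V} {adj : J → J → Prop}
    {hadj : U → J → Prop} (h : Red G k er s E cell hm phi adj hadj)
    (hw1 : ∀ j, w0 j ≤ wt cell j) (hk : 0 ≤ k) (hs : 0 < s) (her : 0 ≤ er) (hser : s + er ≤ 1 / 2) {K L T : ℝ} (hT : 0 < T) {x z : V}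
    {B : Finset V} (hB : TrimCut G E K L T x z B) (q : ℝ) (hq : 0 ≤ q) (poor : J → Prop)
    (hpoor : ∀ j, ¬ poor j → ((B ∩ cell j).card : ℝ) < s * wt cell j ∨
      ((cell j \ (B ∪ bd G B)).card : ℝ) < s * wt cell j)
    (theta rho : ℝ) (hth : 0 ≤ theta) (hrho : 0 ≤ rho) (Qu : Finset J)
    (hmin : ∀ A : Finset J,
      bb cell phi adj hadj x (nb G x) Qu + theta * pen w0 hm rho Qu ≤
      bb cell phi adj hadj x (nb G x) A + theta * pen w0 hm rho A)
    (Z : Finset J)
    (hz : ∀ l ∈ Z,
      ((nb G x ∩ cell l).card : ℝ) ≤ ((nb G z ∩ cell l).card : ℝ) + q * wt cell l) :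
    ∑ j ∈ Z, ((nb G x ∩ cell j).card : ℝ) +
      (∑ l ∈ bdJ adj Z, ((nb G x ∩ cell l).card : ℝ) +
        (((bdU hadj Z).filter (fun u => phi u ∈ nb G x)).card : ℝ)) ≤
    K - (bb cell phi adj hadj x (nb G x) Qu + theta * pen w0 hm rho Qu) +
      (beta (wt cell) adj hadj Z + theta * pen w0 hm rho Z) +
      ∑ l ∈ Z.filter (fun l => poor l ∧ (nb G x ∩ cell l).Nonempty), rq G cell x B l +
      (theta * (L / s + rho * (L / T + 1)) + (2 * s + q) * metw cell (nb G x) + 1 +
        2 * (s + er) * K + s * beta (wt cell) adj hadj Z + er * k * (L / T + 1)) := by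
  have hxB : x ∈ B := hB.1.1
  have hw : ∀ j, 0 ≤ wt cell j := fun j => Nat.cast_nonneg _
  have h1 := twin h hk hs her hser hT hB (nb G x) (Or.inr rfl) q hq poor hpoor Z hz
  have h2 := hmin (big s cell B ∪ Z)
  have h3 := xmu_pen_union_le w0 hw0 hm rho hrho (big s cell B) Z
  have h4 := pen_big_w w0 hw0 hw1 h hs hT hB rho hrho
  have h5 : ∑ l ∈ Z.filter (fun l => poor l), rq G cell x B l =
      ∑ l ∈ Z.filter (fun l => poor l ∧ (nb G x ∩ cell l).Nonempty), rq G cell x B l := by
    symm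
    apply Finset.sum_subset
    · intro l hl
      rw [Finset.mem_filter] at hl ⊢
      exact ⟨hl.1, hl.2.1⟩
    · intro l hl hl2
      rw [Finset.mem_filter] at hl hl2
      have h6 : ¬ (nb G x ∩ cell l).Nonempty := fun hn => hl2 ⟨hl.1, hl.2, hn⟩
      rw [Finset.not_nonempty_iff_eq_empty] at h6
      unfold rq
      rw [h6, Finset.card_empty]
      apply max_eq_left
      have : (0 : ℝ) ≤ ((bd G B ∩ cell l).card : ℝ) := Nat.cast_nonneg _
      push_cast
      linarith
  have h6 : theta * pen w0 hm rho (big s cell B ∪ Z) ≤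
      theta * (L / s + rho * (L / T + 1)) + theta * pen w0 hm rho Z := by
    rw [← mul_add]
    apply mul_le_mul_of_nonneg_left _ hth
    linarith
  rw [h5] at h1
  linarith

/-- the minimum is at most about `K` -/
theorem hub_min_le_w (w0 : J → ℝ) (hw0 : ∀ j, 0 ≤ w0 j) {G : SimpleGraph V} {k er s : ℝ} {m : ℕ} {E : Fin m → Finset V}
    {cell : J → Finset V} {hm : J → Fin m} {phi : U → V} {adj : J → J → Prop}
    {hadj : U → J → Prop} (h : Red G k er s E cell hm phi adj hadj)
    (hw1 : ∀ j, w0 j ≤ wt cell j) (hk : 0 ≤ k) (hs : 0 < s) (her : 0 ≤ er) (hser : s + er ≤ 1 / 2) {K L T : ℝ} (hT : 0 < T) {x z : V}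
    {B : Finset V} (hB : TrimCut G E K L T x z B)
    (theta rho : ℝ) (hth : 0 ≤ theta) (hrho : 0 ≤ rho) (Qu : Finset J)
    (hmin : ∀ A : Finset J,
      bb cell phi adj hadj x (nb G x) Qu + theta * pen w0 hm rho Qu ≤
      bb cell phi adj hadj x (nb G x) A + theta * pen w0 hm rho A) :
    bb cell phi adj hadj x (nb G x) Qu + theta * pen w0 hm rho Qu ≤
    K + (theta * (L / s + rho * (L / T + 1)) + s * metw cell (nb G x) + 2 * (s + er) * K +
      er * k * (L / T + 1)) := by
  have hxB : x ∈ B := hB.1.1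
  have hK : ((bd G B).card : ℝ) ≤ K := hB.1.2.2.2.1
  have h1 := master h hk hs her hser hT hB (nb G x) (xmu_nb_subset G hxB) ∅
  have h2 := hmin (big s cell B)
  have h4 := pen_big_w w0 hw0 hw1 h hs hT hB rho hrho
  have h6 : theta * pen w0 hm rho (big s cell B) ≤
      theta * (L / s + rho * (L / T + 1)) := mul_le_mul_of_nonneg_left h4 hth
  have hb : bdJ adj (∅ : Finset J) = ∅ := by
    unfold bdJ
    ext l
    simp
  have hb2 : bdU hadj (∅ : Finset J) = ∅ := by
    unfold bdU
    ext l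
    simp
  have hb3 : beta (wt cell) adj hadj ∅ = 0 := by
    unfold beta
    rw [hb, hb2]
    simp
  rw [hb, hb2, hb3, Finset.union_empty] at h1
  simp only [Finset.sum_empty, Finset.filter_empty, Finset.card_empty, Nat.cast_zero, add_zero,
    mul_zero] at h1
  have h7 : 2 * (s + er) * ((bd G B).card : ℝ) ≤ 2 * (s + er) * K :=
    mul_le_mul_of_nonneg_left hK (by linarith)
  linarith

/-- degree of a hub in terms of the classes: `good` classes (those with a neighbour of `x`) and a
rest `R`, with `R + sum p <= mu + error`. -/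
theorem hub_degree_w (w0 : J → ℝ) (hw0 : ∀ j, 0 ≤ w0 j) {G P : SimpleGraph V} (hGP : G ≤ P) {k er s : ℝ} {m : ℕ}
    {E : Fin m → Finset V}
    {cell : J → Finset V} {hm : J → Fin m} {phi : U → V} {adj : J → J → Prop}
    {hadj : U → J → Prop} (h : Red G k er s E cell hm phi adj hadj)
    (hnear : ∀ u j, hadj u j → phi u ∈ cn P E (hm j)) (hs : 0 < s) (hs1 : s ≤ 1)
    (her : 0 ≤ er) (her1 : er ≤ 1 / 4) (x : V) (Qu : Finset J) (cl : Fin m → Fin m)
    (dd : ℝ) (hdd : 0 ≤ dd) (hcl : ∀ i ∈ Qu.image hm, ∀ i' ∈ Qu.image hm, cl i ≠ cl i' →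
      (((cn P E i) ∩ (cn P E i')).card : ℝ) ≤ dd)
    (theta rho : ℝ) (hth : 0 ≤ theta) (hrho : 0 ≤ rho) :
    ∃ R : ℝ, 0 ≤ R ∧
      ((nb G x).card : ℝ) ≤
        ∑ a ∈ univ.filter (fun a : Fin m => ∃ j ∈ Qu, cl (hm j) = a ∧ (nb G x ∩ cell j).Nonempty),
          (∑ j ∈ Qu.filter (fun j => cl (hm j) = a), ((nb G x ∩ cell j).card : ℝ) +
          (∑ l ∈ bdJ adj (Qu.filter (fun j => cl (hm j) = a)), ((nb G x ∩ cell l).card : ℝ) +
            (((bdU hadj (Qu.filter (fun j => cl (hm j) = a))).filter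
              (fun u => phi u ∈ nb G x)).card : ℝ))) + R ∧
      R + ∑ a ∈ univ.filter (fun a : Fin m => ∃ j ∈ Qu, cl (hm j) = a ∧
          (nb G x ∩ cell j).Nonempty),
        (beta (wt cell) adj hadj (Qu.filter (fun j => cl (hm j) = a)) +
          theta * pen w0 hm rho (Qu.filter (fun j => cl (hm j) = a))) ≤
      bb cell phi adj hadj x (nb G x) Qu + theta * pen w0 hm rho Qu +
        (1 + 3 * dd * ((Qu.image hm).card : ℝ) ^ 2) := by
  set Good : Finset (Fin m) := univ.filter
    (fun a : Fin m => ∃ j ∈ Qu, cl (hm j) = a ∧ (nb G x ∩ cell j).Nonempty) with hGood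
  set Zc : Fin m → Finset J := fun a => Qu.filter (fun j => cl (hm j) = a) with hZc
  set al : J → ℝ := fun l => ((nb G x ∩ cell l).card : ℝ) with hal
  have hal0 : ∀ l, 0 ≤ al l := fun l => Nat.cast_nonneg _
  have hw : ∀ j, 0 ≤ wt cell j := fun j => Nat.cast_nonneg _
  have halw : ∀ l, al l ≤ wt cell l := fun l => by
    simp only [hal, wt]
    exact_mod_cast Finset.card_le_card Finset.inter_subset_right
  set X1 : Finset J := univ.filter (fun l => l ∉ Qu ∧ ∀ a ∈ Good, l ∉ bdJ adj (Zc a)) with hX1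
  set X2 : Finset U := univ.filter
    (fun u => phi u ∈ nb G x ∧ ∀ a ∈ Good, u ∉ bdU hadj (Zc a)) with hX2
  set Bad : Finset (Fin m) := ((Qu.image hm).image cl).filter (fun a => a ∉ Good) with hBad
  have hgoodall : ∀ a ∈ Good, a ∈ (Qu.image hm).image cl := by
    intro a ha
    rw [hGood, Finset.mem_filter] at ha
    obtain ⟨_, j, hj, hja, _⟩ := ha
    rw [Finset.mem_image]
    exact ⟨hm j, Finset.mem_image_of_mem _ hj, hja⟩
  refine ⟨∑ l ∈ X1, al l + (X2.card : ℝ), ?_, ?_, ?_⟩
  · have : 0 ≤ ∑ l ∈ X1, al l := Finset.sum_nonneg (fun l _ => hal0 l)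
    have h2 : (0 : ℝ) ≤ (X2.card : ℝ) := Nat.cast_nonneg _
    linarith
  · -- decomposition of the neighbourhood
    have h1 : ((nb G x).card : ℝ) ≤ ∑ l, al l +
        ((univ.filter (fun u : U => phi u ∈ nb G x)).card : ℝ) := by
      have hsub : nb G x ⊆ (univ.biUnion (fun l => nb G x ∩ cell l)) ∪
          ((univ.filter (fun u : U => phi u ∈ nb G x)).image phi) := by
        intro v hv
        rw [Finset.mem_union, Finset.mem_biUnion, Finset.mem_image]
        by_cases hv2 : ∀ i, v ∉ E i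
        · right
          obtain ⟨u, hu⟩ := (h.hub v).2 hv2
          refine ⟨u, ?_, hu⟩
          rw [Finset.mem_filter, hu]
          exact ⟨Finset.mem_univ _, hv⟩
        · left
          push Not at hv2
          obtain ⟨i, hi⟩ := hv2
          obtain ⟨j, hj⟩ := h.cover v i hi
          exact ⟨j, Finset.mem_univ _, Finset.mem_inter.2 ⟨hv, hj⟩⟩
      have hc : (nb G x).card ≤ (∑ l, (nb G x ∩ cell l).card) +
          (univ.filter (fun u : U => phi u ∈ nb G x)).card := by
        calc (nb G x).card ≤ _ := Finset.card_le_card hsub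
          _ ≤ _ := Finset.card_union_le _ _
          _ ≤ _ := Nat.add_le_add Finset.card_biUnion_le Finset.card_image_le
      have hc2 : ((nb G x).card : ℝ) ≤ (((∑ l, (nb G x ∩ cell l).card) +
          (univ.filter (fun u : U => phi u ∈ nb G x)).card : ℕ) : ℝ) := by exact_mod_cast hc
      push_cast at hc2
      exact hc2
    have h2 : ∑ l, al l ≤ ∑ a ∈ Good, (∑ j ∈ Zc a, al j + ∑ l ∈ bdJ adj (Zc a), al l) +
        ∑ l ∈ X1, al l := by
      have e1 : ∑ l, al l = ∑ l ∈ univ.filter (fun l => al l ≠ 0), al l := by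
        rw [Finset.sum_filter_ne_zero]
      have e2 : ∑ l ∈ univ.filter (fun l => al l ≠ 0), al l =
          ∑ l ∈ (univ.filter (fun l => al l ≠ 0)).filter (fun l => l ∈ X1), al l +
          ∑ l ∈ (univ.filter (fun l => al l ≠ 0)).filter (fun l => ¬ l ∈ X1), al l := by
        rw [Finset.sum_filter_add_sum_filter_not]
      have e3 : ∑ l ∈ (univ.filter (fun l => al l ≠ 0)).filter (fun l => l ∈ X1), al l ≤
          ∑ l ∈ X1, al l := by
        apply Finset.sum_le_sum_of_subset_of_nonneg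
        · intro l hl
          exact (Finset.mem_filter.1 hl).2
        · intro l _ _
          exact hal0 l
      have e4 : ∑ l ∈ (univ.filter (fun l => al l ≠ 0)).filter (fun l => ¬ l ∈ X1), al l ≤
          ∑ a ∈ Good, ∑ l ∈ Zc a ∪ bdJ adj (Zc a), al l := by
        apply xmu_sum_cover_le al hal0
        intro l hl
        rw [Finset.mem_filter, Finset.mem_filter] at hl
        obtain ⟨⟨_, hl1⟩, hl2⟩ := hl
        by_cases hlQ : l ∈ Qu
        · refine ⟨cl (hm l), ?_, ?_⟩
          · rw [hGood, Finset.mem_filter]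
            refine ⟨Finset.mem_univ _, l, hlQ, rfl, ?_⟩
            rw [Finset.nonempty_iff_ne_empty]
            intro he
            apply hl1
            simp only [hal]
            rw [he]
            simp
          · rw [Finset.mem_union]
            left
            simp only [hZc]
            rw [Finset.mem_filter]
            exact ⟨hlQ, rfl⟩
        · rw [hX1, Finset.mem_filter] at hl2
          push Not at hl2
          obtain ⟨a, ha, hla⟩ := hl2 (Finset.mem_univ _) hlQ
          exact ⟨a, ha, Finset.mem_union_right _ hla⟩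
      have e5 : ∑ a ∈ Good, ∑ l ∈ Zc a ∪ bdJ adj (Zc a), al l ≤
          ∑ a ∈ Good, (∑ j ∈ Zc a, al j + ∑ l ∈ bdJ adj (Zc a), al l) := by
        apply Finset.sum_le_sum
        intro a _
        have := Finset.sum_union_inter (s₁ := Zc a) (s₂ := bdJ adj (Zc a)) (f := al)
        have h2 : 0 ≤ ∑ j ∈ Zc a ∩ bdJ adj (Zc a), al j := Finset.sum_nonneg (fun j _ => hal0 j)
        linarith
      linarith
    have h3 : ((univ.filter (fun u : U => phi u ∈ nb G x)).card : ℝ) ≤
        ∑ a ∈ Good, (((bdU hadj (Zc a)).filter (fun u => phi u ∈ nb G x)).card : ℝ) +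
        (X2.card : ℝ) := by
      have e1 : ((univ.filter (fun u : U => phi u ∈ nb G x)).card : ℝ) =
          (((univ.filter (fun u : U => phi u ∈ nb G x)).filter (fun u => u ∈ X2)).card : ℝ) +
          (((univ.filter (fun u : U => phi u ∈ nb G x)).filter (fun u => ¬ u ∈ X2)).card : ℝ) := by
        rw [← Nat.cast_add, Finset.card_filter_add_card_filter_not]
      have e2 : (((univ.filter (fun u : U => phi u ∈ nb G x)).filter (fun u => u ∈ X2)).card : ℝ)
          ≤ (X2.card : ℝ) := by
        have : (univ.filter (fun u : U => phi u ∈ nb G x)).filter (fun u => u ∈ X2) ⊆ X2 :=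
          fun u hu => (Finset.mem_filter.1 hu).2
        exact_mod_cast Finset.card_le_card this
      have e3 : (((univ.filter (fun u : U => phi u ∈ nb G x)).filter
          (fun u => ¬ u ∈ X2)).card : ℝ) ≤
          ∑ a ∈ Good, (((bdU hadj (Zc a)).filter (fun u => phi u ∈ nb G x)).card : ℝ) := by
        apply xmu_card_cover_le
        intro u hu
        rw [Finset.mem_filter, Finset.mem_filter] at hu
        obtain ⟨⟨_, hu1⟩, hu2⟩ := hu
        rw [hX2, Finset.mem_filter] at hu2
        push Not at hu2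
        obtain ⟨a, ha, hua⟩ := hu2 (Finset.mem_univ _) hu1
        exact ⟨a, ha, Finset.mem_filter.2 ⟨hua, hu1⟩⟩
      linarith
    have h4 : ∑ a ∈ Good, (∑ j ∈ Zc a, al j + (∑ l ∈ bdJ adj (Zc a), al l +
        (((bdU hadj (Zc a)).filter (fun u => phi u ∈ nb G x)).card : ℝ))) =
        ∑ a ∈ Good, (∑ j ∈ Zc a, al j + ∑ l ∈ bdJ adj (Zc a), al l) +
        ∑ a ∈ Good, (((bdU hadj (Zc a)).filter (fun u => phi u ∈ nb G x)).card : ℝ) := by
      rw [← Finset.sum_add_distrib]
      apply Finset.sum_congr rfl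
      intro a _
      ring
    rw [h4]
    linarith
  · have hsep := separation hGP h hnear hs hs1 her her1 Qu cl dd hdd hcl
    have hpc := pen_classes w0 hm rho Qu cl
    have hsplit : ∀ f : Fin m → ℝ, ∑ a ∈ (Qu.image hm).image cl, f a =
        ∑ a ∈ Good, f a + ∑ a ∈ Bad, f a := by
      intro f
      rw [hBad, ← Finset.sum_filter_add_sum_filter_not ((Qu.image hm).image cl)
        (fun a => a ∈ Good)]
      congr 1
      apply Finset.sum_congr _ (fun _ _ => rfl)
      ext a
      rw [Finset.mem_filter]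
      exact ⟨fun ha => ha.2, fun ha => ⟨hgoodall a ha, ha⟩⟩
    rw [hsplit] at hsep hpc
    have hpen0 : ∀ A : Finset J, 0 ≤ pen w0 hm rho A := by
      intro A
      unfold pen
      exact add_nonneg (Finset.sum_nonneg (fun j _ => hw0 j))
        (mul_nonneg hrho (Nat.cast_nonneg _))
    have hpB : 0 ≤ ∑ a ∈ Bad, pen w0 hm rho (Qu.filter (fun j => cl (hm j) = a)) :=
      Finset.sum_nonneg (fun a _ => hpen0 _)
    have hpG : theta * ∑ a ∈ Good, pen w0 hm rho (Zc a) ≤
        theta * pen w0 hm rho Qu := by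
      apply mul_le_mul_of_nonneg_left _ hth
      simp only [hZc]
      linarith
    have e0 : ∑ a ∈ Good, (beta (wt cell) adj hadj (Zc a) +
        theta * pen w0 hm rho (Zc a)) =
        ∑ a ∈ Good, beta (wt cell) adj hadj (Zc a) +
        theta * ∑ a ∈ Good, pen w0 hm rho (Zc a) := by
      rw [Finset.sum_add_distrib, Finset.mul_sum]
    -- the bad classes
    have eB : ∑ a ∈ Bad, beta (wt cell) adj hadj (Zc a) =
        ∑ a ∈ Bad, ∑ l ∈ bdJ adj (Zc a), wt cell l +
        ∑ a ∈ Bad, ((bdU hadj (Zc a)).card : ℝ) := by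
      rw [← Finset.sum_add_distrib]
      rfl
    have hclass : ∀ j ∈ Qu, cl (hm j) ∉ Good → cl (hm j) ∈ Bad := by
      intro j hj hjg
      rw [hBad, Finset.mem_filter]
      exact ⟨Finset.mem_image_of_mem _ (Finset.mem_image_of_mem _ hj), hjg⟩
    have e1 : ∑ l ∈ X1, al l ≤
        ∑ l ∈ univ.filter (fun l => l ∉ Qu ∧ l ∉ bdJ adj Qu), al l +
        ∑ a ∈ Bad, ∑ l ∈ bdJ adj (Zc a), wt cell l := by
      have f1 : ∑ l ∈ X1, al l = ∑ l ∈ X1.filter (fun l => l ∈ bdJ adj Qu), al l +
          ∑ l ∈ X1.filter (fun l => ¬ l ∈ bdJ adj Qu), al l := by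
        rw [Finset.sum_filter_add_sum_filter_not]
      have f2 : ∑ l ∈ X1.filter (fun l => ¬ l ∈ bdJ adj Qu), al l ≤
          ∑ l ∈ univ.filter (fun l => l ∉ Qu ∧ l ∉ bdJ adj Qu), al l := by
        apply Finset.sum_le_sum_of_subset_of_nonneg
        · intro l hl
          rw [Finset.mem_filter, hX1, Finset.mem_filter] at hl
          rw [Finset.mem_filter]
          exact ⟨Finset.mem_univ _, hl.1.2.1, hl.2⟩
        · intro l _ _
          exact hal0 l
      have f3 : ∑ l ∈ X1.filter (fun l => l ∈ bdJ adj Qu), al l ≤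
          ∑ l ∈ X1.filter (fun l => l ∈ bdJ adj Qu), wt cell l :=
        Finset.sum_le_sum (fun l _ => halw l)
      have f4 : ∑ l ∈ X1.filter (fun l => l ∈ bdJ adj Qu), wt cell l ≤
          ∑ a ∈ Bad, ∑ l ∈ bdJ adj (Zc a), wt cell l := by
        apply xmu_sum_cover_le (wt cell) hw
        intro l hl
        rw [Finset.mem_filter, hX1, Finset.mem_filter] at hl
        obtain ⟨⟨_, hl1, hl2⟩, hl3⟩ := hl
        unfold bdJ at hl3
        rw [Finset.mem_filter] at hl3
        obtain ⟨_, _, j, hj, hjl⟩ := hl3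
        have hmem : l ∈ bdJ adj (Zc (cl (hm j))) := by
          unfold bdJ
          rw [Finset.mem_filter]
          refine ⟨Finset.mem_univ _, ?_, j, ?_, hjl⟩
          · intro hh
            exact hl1 (Finset.mem_filter.1 hh).1
          · exact Finset.mem_filter.2 ⟨hj, rfl⟩
        have hng : cl (hm j) ∉ Good := fun hg => hl2 _ hg hmem
        exact ⟨cl (hm j), hclass j hj hng, hmem⟩
      linarith
    set Y2 : Finset U := univ.filter (fun u => phi u ∈ nb G x ∧ u ∉ bdU hadj Qu) with hY2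
    have e2 : (X2.card : ℝ) ≤ (Y2.card : ℝ) + ∑ a ∈ Bad, ((bdU hadj (Zc a)).card : ℝ) := by
      have f1 : (X2.card : ℝ) = ((X2.filter (fun u => u ∈ bdU hadj Qu)).card : ℝ) +
          ((X2.filter (fun u => ¬ u ∈ bdU hadj Qu)).card : ℝ) := by
        rw [← Nat.cast_add, Finset.card_filter_add_card_filter_not]
      have f2 : ((X2.filter (fun u => ¬ u ∈ bdU hadj Qu)).card : ℝ) ≤ (Y2.card : ℝ) := by
        have : X2.filter (fun u => ¬ u ∈ bdU hadj Qu) ⊆ Y2 := by
          intro u hu
          rw [Finset.mem_filter, hX2, Finset.mem_filter] at hu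
          rw [hY2, Finset.mem_filter]
          exact ⟨Finset.mem_univ _, hu.1.2.1, hu.2⟩
        exact_mod_cast Finset.card_le_card this
      have f3 : ((X2.filter (fun u => u ∈ bdU hadj Qu)).card : ℝ) ≤
          ∑ a ∈ Bad, ((bdU hadj (Zc a)).card : ℝ) := by
        apply xmu_card_cover_le
        intro u hu
        rw [Finset.mem_filter, hX2, Finset.mem_filter] at hu
        obtain ⟨⟨_, hu1, hu2⟩, hu3⟩ := hu
        unfold bdU at hu3
        rw [Finset.mem_filter] at hu3
        obtain ⟨_, j, hj, hju⟩ := hu3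
        have hmem : u ∈ bdU hadj (Zc (cl (hm j))) := by
          unfold bdU
          rw [Finset.mem_filter]
          exact ⟨Finset.mem_univ _, j, Finset.mem_filter.2 ⟨hj, rfl⟩, hju⟩
        have hng : cl (hm j) ∉ Good := fun hg => hu2 _ hg hmem
        exact ⟨cl (hm j), hclass j hj hng, hmem⟩
      linarith
    have e3 : ((bdU hadj Qu).card : ℝ) + (Y2.card : ℝ) ≤
        ((univ.filter (fun u : U => phi u ≠ x ∧ (u ∈ bdU hadj Qu ∨ phi u ∈ nb G x))).card : ℝ) +
        1 := by
      have f1 : (bdU hadj Qu).card + Y2.card = (bdU hadj Qu ∪ Y2).card := by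
        rw [Finset.card_union_of_disjoint]
        rw [Finset.disjoint_left]
        intro u hu hu2
        rw [hY2, Finset.mem_filter] at hu2
        exact hu2.2.2 hu
      have f2 : bdU hadj Qu ∪ Y2 ⊆
          (univ.filter (fun u : U => phi u ≠ x ∧ (u ∈ bdU hadj Qu ∨ phi u ∈ nb G x))) ∪
          (univ.filter (fun u : U => phi u = x)) := by
        intro u hu
        rw [Finset.mem_union, Finset.mem_filter, Finset.mem_filter]
        by_cases hx : phi u = x
        · exact Or.inr ⟨Finset.mem_univ _, hx⟩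
        · left
          refine ⟨Finset.mem_univ _, hx, ?_⟩
          rw [Finset.mem_union] at hu
          rcases hu with hu | hu
          · exact Or.inl hu
          · rw [hY2, Finset.mem_filter] at hu
            exact Or.inr hu.2.1
      have f3 : (univ.filter (fun u : U => phi u = x)).card ≤ 1 := by
        rw [Finset.card_le_one]
        intro u hu u' hu'
        rw [Finset.mem_filter] at hu hu'
        exact h.inj (hu.2.trans hu'.2.symm)
      have f4 : (bdU hadj Qu).card + Y2.card ≤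
          (univ.filter (fun u : U => phi u ≠ x ∧ (u ∈ bdU hadj Qu ∨ phi u ∈ nb G x))).card + 1 := by
        rw [f1]
        calc _ ≤ _ := Finset.card_le_card f2
          _ ≤ _ := Finset.card_union_le _ _
          _ ≤ _ := Nat.add_le_add_left f3 _
      exact_mod_cast f4
    have e4 : bb cell phi adj hadj x (nb G x) Qu = ∑ l ∈ bdJ adj Qu, wt cell l +
        ∑ l ∈ univ.filter (fun l => l ∉ Qu ∧ l ∉ bdJ adj Qu), al l +
        ((univ.filter (fun u : U => phi u ≠ x ∧ (u ∈ bdU hadj Qu ∨ phi u ∈ nb G x))).card : ℝ) :=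
      rfl
    have e5 : beta (wt cell) adj hadj Qu = ∑ l ∈ bdJ adj Qu, wt cell l +
        ((bdU hadj Qu).card : ℝ) := rfl
    have hsep2 : ∑ a ∈ Good, beta (wt cell) adj hadj (Zc a) +
        ∑ a ∈ Bad, beta (wt cell) adj hadj (Zc a) ≤
        beta (wt cell) adj hadj Qu + 3 * dd * ((Qu.image hm).card : ℝ) ^ 2 := hsep
    have e6 : (∑ l ∈ X1, al l + (X2.card : ℝ)) + ∑ a ∈ Good, (beta (wt cell) adj hadj (Zc a) +
        theta * pen w0 hm rho (Zc a)) ≤
      bb cell phi adj hadj x (nb G x) Qu + theta * pen w0 hm rho Qu +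
        (1 + 3 * dd * ((Qu.image hm).card : ℝ) ^ 2) := by
      rw [e0, e4]
      rw [eB] at hsep2
      rw [e5] at hsep2
      linarith
    exact e6

end LCS
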