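import Pool.Agent.Lib_MP_0bab5c_s.SExc
import Pool.Agent.Lib_MP_0bab5c_s.SMu

/-! # Home vertices, with a general penalty weight -/

namespace LCS

open Finset LCX
open scoped Classical

variable {V J U : Type} [Fintype V] [Fintype J] [Fintype U]

/-- the penalty is subadditive -/
private theorem pen_union {J H : Type} [Fintype J] (w : J → ℝ) (hw : ∀ j, 0 ≤ w j) (hm : J → H)
    (rho : ℝ) (hrho : 0 ≤ rho) (A B : Finset J) :
    pen w hm rho (A ∪ B) ≤ pen w hm rho A + pen w hm rho B := by
  unfold pen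
  have h1 : ∑ j ∈ A ∪ B, w j ≤ ∑ j ∈ A, w j + ∑ j ∈ B, w j := by
    rw [← sum_union_inter]
    have : 0 ≤ ∑ j ∈ A ∩ B, w j := sum_nonneg fun j _ => hw j
    linarith
  have h2 : (((A ∪ B).image hm).card : ℝ) ≤ ((A.image hm).card : ℝ) + ((B.image hm).card : ℝ) := by
    rw [image_union]
    exact_mod_cast card_union_le _ _
  have h3 := mul_le_mul_of_nonneg_left h2 hrho
  rw [mul_add] at h3
  linarith

/-- `Qi` minimises `beta + theta pen` among the sets containing the cell `i`. -/
theorem home_ineq_w (w0 : J → ℝ) (hw0 : ∀ j, 0 ≤ w0 j) {G : SimpleGraph V} {k er s : ℝ} {m : ℕ} {E : Fin m → Finset V}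
    {cell : J → Finset V} {hm : J → Fin m} {phi : U → V} {adj : J → J → Prop}
    {hadj : U → J → Prop} (h : Red G k er s E cell hm phi adj hadj)
    (hw1 : ∀ j, w0 j ≤ wt cell j) (hk : 0 ≤ k) (hs : 0 < s) (her : 0 ≤ er) (hser : s + er ≤ 1 / 2) {K L T : ℝ} (hT : 0 < T) {x z : V}
    {B : Finset V} (hB : TrimCut G E K L T x z B) (q : ℝ) (hq : 0 ≤ q) (poor : J → Prop)
    (hpoor : ∀ j, ¬ poor j → ((B ∩ cell j).card : ℝ) < s * wt cell j ∨
      ((cell j \ (B ∪ bd G B)).card : ℝ) < s * wt cell j)
    (hz : ∀ l, ((nb G x ∩ cell l).card : ℝ) ≤ ((nb G z ∩ cell l).card : ℝ) + q * wt cell l)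
    (theta rho : ℝ) (hth : 0 ≤ theta) (hrho : 0 ≤ rho) (i : J) (hx : x ∈ cell i)
    (Qi : Finset J) (hi : i ∈ Qi)
    (hmin : ∀ A : Finset J, i ∈ A → beta (wt cell) adj hadj Qi + theta * pen w0 hm rho Qi ≤
      beta (wt cell) adj hadj A + theta * pen w0 hm rho A) :
    ((nb G x).card : ℝ) ≤ K + ∑ l ∈ univ.filter (fun l => poor l ∧ adj i l), rq G cell x B l +
      (theta * (L / s + rho * (L / T + 1)) + (2 * s + q) * metw cell (nb G x) + 1 +
        2 * (s + er) * K + s * beta (wt cell) adj hadj Qi + er * k * (L / T + 1)) := by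
  have hwt : ∀ l, 0 ≤ wt cell l := fun l => Nat.cast_nonneg _
  have htw := twin h hk hs her hser hT hB ∅ (Or.inl rfl) q hq poor hpoor Qi (fun l _ => hz l)
  have hpb := pen_big_w w0 hw0 hw1 h hs hT hB rho hrho
  -- `x` lies in a home
  have hxu : ∀ u : U, phi u ≠ x := by
    intro u hu
    exact (h.hub x).1 ⟨u, hu⟩ (hm i) (h.sub i hx)
  -- `bb` is `beta`
  have hbb : bb cell phi adj hadj x ∅ (big s cell B ∪ Qi) =
      beta (wt cell) adj hadj (big s cell B ∪ Qi) := by
    unfold bb beta
    have e1 : ∑ l ∈ univ.filter (fun l => l ∉ big s cell B ∪ Qi ∧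
        l ∉ bdJ adj (big s cell B ∪ Qi)), (((∅ : Finset V) ∩ cell l).card : ℝ) = 0 := by
      refine sum_eq_zero fun l _ => ?_
      rw [empty_inter, card_empty, Nat.cast_zero]
    have e2 : univ.filter (fun u : U => phi u ≠ x ∧
        (u ∈ bdU hadj (big s cell B ∪ Qi) ∨ phi u ∈ (∅ : Finset V))) =
        bdU hadj (big s cell B ∪ Qi) := by
      ext u
      rw [mem_filter]
      constructor
      · rintro ⟨_, _, h1 | h1⟩
        · exact h1
        · exact absurd h1 (notMem_empty _)
      · intro h1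
        exact ⟨mem_univ _, hxu u, Or.inl h1⟩
    rw [e1, e2, add_zero]
  -- minimality
  have hmin1 := hmin (big s cell B ∪ Qi) (mem_union_right _ hi)
  have hpen := pen_union w0 hw0 hm rho hrho (big s cell B) Qi
  have hmin2 : beta (wt cell) adj hadj Qi ≤ beta (wt cell) adj hadj (big s cell B ∪ Qi) +
      theta * (L / s + rho * (L / T + 1)) := by
    have h1 : theta * pen w0 hm rho (big s cell B ∪ Qi) ≤
        theta * (L / s + rho * (L / T + 1)) + theta * pen w0 hm rho Qi := by
      rw [← mul_add]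
      exact mul_le_mul_of_nonneg_left (hpen.trans (add_le_add_left hpb _)) hth
    linarith
  -- all the neighbours of `x`
  have hN : nb G x ⊆ (Qi.biUnion (fun j => nb G x ∩ cell j) ∪
      (bdJ adj Qi).biUnion (fun l => nb G x ∩ cell l)) ∪
      ((bdU hadj Qi).filter (fun u => phi u ∈ nb G x)).image phi := by
    intro y hy
    have hxy : G.Adj x y := (mem_filter.1 hy).2
    by_cases hyE : ∀ i, y ∉ E i
    · obtain ⟨u, rfl⟩ := (h.hub y).2 hyE
      refine mem_union_right _ (mem_image.2 ⟨u, mem_filter.2 ⟨?_, hy⟩, rfl⟩)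
      exact mem_filter.2 ⟨mem_univ _, i, hi, h.hex u i x hx hxy.symm⟩
    · push Not at hyE
      obtain ⟨i', hy'⟩ := hyE
      obtain ⟨l, hl⟩ := h.cover y i' hy'
      have hadjl : adj i l := h.ex i l x hx y hl hxy
      refine mem_union_left _ ?_
      by_cases hlQ : l ∈ Qi
      · exact mem_union_left _ (mem_biUnion.2 ⟨l, hlQ, mem_inter.2 ⟨hy, hl⟩⟩)
      · exact mem_union_right _ (mem_biUnion.2 ⟨l, mem_filter.2 ⟨mem_univ _, hlQ, i, hi, hadjl⟩,
          mem_inter.2 ⟨hy, hl⟩⟩)
  have hNc : ((nb G x).card : ℝ) ≤ ∑ j ∈ Qi, ((nb G x ∩ cell j).card : ℝ) +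
      ∑ l ∈ bdJ adj Qi, ((nb G x ∩ cell l).card : ℝ) +
      (((bdU hadj Qi).filter (fun u => phi u ∈ nb G x)).card : ℝ) := by
    have h1 : (nb G x).card ≤ ∑ j ∈ Qi, (nb G x ∩ cell j).card +
        ∑ l ∈ bdJ adj Qi, (nb G x ∩ cell l).card +
        ((bdU hadj Qi).filter (fun u => phi u ∈ nb G x)).card := by
      refine (card_le_card hN).trans ((card_union_le _ _).trans (Nat.add_le_add
        ((card_union_le _ _).trans (Nat.add_le_add card_biUnion_le card_biUnion_le))
        card_image_le))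
    exact_mod_cast h1
  -- the requests
  have hrq0 : ∀ l, 0 ≤ rq G cell x B l := fun l => le_max_left _ _
  have hrq : ∑ l ∈ Qi.filter (fun l => poor l), rq G cell x B l ≤
      ∑ l ∈ univ.filter (fun l => poor l ∧ adj i l), rq G cell x B l := by
    have h1 : ∑ l ∈ Qi.filter (fun l => poor l), rq G cell x B l =
        ∑ l ∈ (Qi.filter (fun l => poor l)).filter (fun l => adj i l), rq G cell x B l := by
      symm
      refine sum_filter_of_ne fun l _ hne => ?_
      by_contra hc
      apply hne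
      have h2 : nb G x ∩ cell l = ∅ := by
        rw [eq_empty_iff_forall_notMem]
        intro y hy
        obtain ⟨hy1, hy2⟩ := mem_inter.1 hy
        exact hc (h.ex i l x hx y hy2 (mem_filter.1 hy1).2)
      unfold rq
      rw [h2, card_empty, Nat.cast_zero, zero_sub]
      exact max_eq_left (neg_nonpos.2 (Nat.cast_nonneg _))
    rw [h1]
    refine sum_le_sum_of_subset_of_nonneg ?_ fun l _ _ => hrq0 l
    intro l hl
    rw [mem_filter, mem_filter] at hl
    exact mem_filter.2 ⟨mem_univ _, hl.1.2, hl.2⟩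
  rw [hbb] at htw
  linarith


private theorem pen_single {J H : Type} [Fintype J] (w : J → ℝ) (hm : J → H) (rho : ℝ) (i : J) :
    pen w hm rho {i} = w i + rho := by
  unfold pen
  rw [sum_singleton, image_singleton, card_singleton, Nat.cast_one, mul_one]

theorem home_main_w (w0 : J → ℝ) (hw0 : ∀ j, 0 ≤ w0 j) {G P : SimpleGraph V} (hGP : G ≤ P) {C k eta d0 e1 tau s q er theta : ℝ}
    (par : ParS C k eta d0 e1 tau s q er theta) {m : ℕ} {E : Fin m → Finset V}
    (hP : Clean P k C d0 e1 E) {cell : J → Finset V} {hm : J → Fin m}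
    {phi : U → V} {adj : J → J → Prop} {hadj : U → J → Prop}
    (h : Red G k er s E cell hm phi adj hadj) (hw1 : ∀ j, w0 j ≤ wt cell j)
    (hnear : ∀ u j, hadj u j → phi u ∈ cn P E (hm j)) {x z : V} {B : Finset V}
    (hB : CutS G E C k d0 e1 tau x z B)
    (hz : ∀ l, ((nb G x ∩ cell l).card : ℝ) ≤ ((nb G z ∩ cell l).card : ℝ) + q * wt cell l)
    (i : J) (hx : x ∈ cell i) (Qi : Finset J) (hi : i ∈ Qi)
    (hmin : ∀ A : Finset J, i ∈ A →
      beta (wt cell) adj hadj Qi + theta * pen w0 hm (tau * k) Qi ≤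
      beta (wt cell) adj hadj A + theta * pen w0 hm (tau * k) A) :
    ((nb G x).card : ℝ) ≤ k + ∑ l ∈ univ.filter (fun l => Poor k eta cell adj hadj l ∧ adj i l),
      rq G cell x B l + 7 * eta * k := by
  have hk1 : (1 : ℝ) ≤ k := par.hk
  have hk : 0 < k := lt_of_lt_of_le one_pos hk1
  have hs := par.hs
  have hq := par.hq
  have her := par.her
  have hth := par.hth
  have htau := par.htau
  have he1 := par.he1
  have heta1 := par.heta1
  have hs1 : s ≤ 1 := by
    have h1 := par.a6
    linarith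
  have her1 : er ≤ 1 / 4 := by
    have h1 := par.a8
    linarith
  have hT : 0 < tau * k := mul_pos htau hk
  have hwt : ∀ l, 0 ≤ wt cell l := fun l => Nat.cast_nonneg _
  have hmain := home_ineq_w w0 hw0 h hw1 hk.le hs her.le (by linarith [par.a4]) hT hB q hq.le
    (Poor k eta cell adj hadj) (fun j hj => not_poor_s hGP par hP h hnear hB j hj) hz theta (tau * k)
    hth.le hT.le i hx Qi hi hmin
  have hC := par.hC
  have hLT : C * k / (tau * k) = C / tau := mul_div_mul_right _ _ hk.ne'
  have hLs : C * k / s = C / s * k := by ring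
  rw [hLT, hLs] at hmain
  have hmet := metw_le hGP hP h hk (by linarith) he1 x
  -- the boundary of `Qi`
  have hbi : beta (wt cell) adj hadj {i} ≤ 2 * (C + 1) * k := by
    refine le_trans ?_ (sig_le hGP hP h hnear hk (by linarith) hs1 her1 i)
    unfold beta sig
    refine add_le_add (sum_le_sum_of_subset_of_nonneg ?_ fun l _ _ => hwt l) ?_
    · intro l hl
      obtain ⟨_, j, hj, hjl⟩ := (mem_filter.1 hl).2
      rw [mem_singleton] at hj
      subst hj
      exact mem_filter.2 ⟨mem_univ _, hjl⟩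
    · have hsub : bdU hadj {i} ⊆ univ.filter (fun u : U => hadj u i) := by
        intro u hu
        obtain ⟨j, hj, hju⟩ := (mem_filter.1 hu).2
        rw [mem_singleton] at hj
        subst hj
        exact mem_filter.2 ⟨mem_univ _, hju⟩
      exact_mod_cast card_le_card hsub
  have hpi : pen w0 hm (tau * k) {i} ≤ (C / s + (C + 1)) * k := by
    rw [pen_single]
    have h1 : w0 i ≤ C * k := by
      refine (hw1 i).trans (le_trans ?_ (hP.high (hm i)))
      unfold wt
      exact_mod_cast card_le_card (h.sub i)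
    have h2 : tau * k ≤ 1 * k := mul_le_mul_of_nonneg_right par.htau2 hk.le
    have h3 : 0 ≤ C / s * k := mul_nonneg (div_nonneg (by linarith) hs.le) hk.le
    have h4 : (C / s + (C + 1)) * k = C / s * k + C * k + k := by ring
    rw [h4]
    linarith
  have hpen0 : 0 ≤ pen w0 hm (tau * k) Qi := by
    unfold pen
    exact add_nonneg (sum_nonneg fun j _ => hw0 j) (mul_nonneg hT.le (Nat.cast_nonneg _))
  have ha2 : theta * ((C / s + (C + 1)) * k) ≤ eta * k := by
    have h1 := mul_le_mul_of_nonneg_right par.a2 hk.le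
    rw [mul_assoc] at h1
    exact h1
  have hek : eta * k ≤ k := by
    have h1 : eta * k ≤ 1 * k := mul_le_mul_of_nonneg_right (by linarith) hk.le
    rw [one_mul] at h1
    exact h1
  have hbQ : beta (wt cell) adj hadj Qi ≤ (2 * (C + 1) + 1) * k := by
    have h1 := hmin {i} (mem_singleton_self i)
    have h2 : 0 ≤ theta * pen w0 hm (tau * k) Qi := mul_nonneg hth.le hpen0
    have h3 := mul_le_mul_of_nonneg_left hpi hth.le
    linarith
  -- the seven error terms
  have t1 : (1 + d0 + 3 * tau / e1) * k ≤ k + eta * k := by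
    have h1 := mul_le_mul_of_nonneg_right par.a1 hk.le
    have h2 : (1 + d0 + 3 * tau / e1) * k = k + (d0 + 3 * tau / e1) * k := by ring
    rw [h2]
    linarith
  have t2 : theta * (C / s * k + tau * k * (C / tau + 1)) ≤ eta * k := by
    refine le_trans (mul_le_mul_of_nonneg_left ?_ hth.le) ha2
    have h1 : tau * k * (C / tau + 1) = C * k + tau * k := by
      field_simp
    have h2 : tau * k ≤ 1 * k := mul_le_mul_of_nonneg_right par.htau2 hk.le
    rw [h1]
    have h4 : (C / s + (C + 1)) * k = C / s * k + C * k + k := by ring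
    rw [h4]
    linarith
  have t3 : (2 * s + q) * metw cell (nb G x) ≤ eta * k := by
    have h1 := mul_le_mul_of_nonneg_left hmet (by linarith : (0 : ℝ) ≤ 2 * s + q)
    have h2 := mul_le_mul_of_nonneg_right par.a3 hk.le
    rw [mul_assoc] at h2
    exact h1.trans h2
  have t5 : 2 * (s + er) * ((1 + d0 + 3 * tau / e1) * k) ≤ eta * k := by
    have h1 : (1 + d0 + 3 * tau / e1) * k ≤ 2 * k := by linarith
    have h2 := mul_le_mul_of_nonneg_left h1 (by linarith : (0 : ℝ) ≤ 2 * (s + er))
    have h3 := mul_le_mul_of_nonneg_right par.a4 hk.le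
    have h4 : 2 * (s + er) * (2 * k) = 4 * (s + er) * k := by ring
    rw [h4] at h2
    exact h2.trans h3
  have t6 : s * beta (wt cell) adj hadj Qi ≤ eta * k := by
    have h1 := mul_le_mul_of_nonneg_left hbQ hs.le
    have h2 := mul_le_mul_of_nonneg_right par.b6 hk.le
    have h3 : s * ((2 * (C + 1) + 1) * k) = (2 * (C + 1) + 1) * s * k := by ring
    rw [h3] at h1
    exact h1.trans h2
  have t7 : er * k * (C / tau + 1) ≤ eta * k := by
    have h2 := mul_le_mul_of_nonneg_right par.a5 hk.le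
    have h3 : er * k * (C / tau + 1) = er * (C / tau + 1) * k := by ring
    rw [h3]
    exact h2
  have t4 := par.a7
  linarith

end LCS
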