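import Pool.Agent.Lib_MP_0bab5c_x.XGraphA
import Pool.Agent.Lib_MP_0bab5c_s.SHome

/-! # Assembly: arcs, home vertices of a cell, number of homes of the set of a hub (general `C`) -/

namespace LCS

open Finset LCX
open scoped Classical

variable {V J U : Type} [Fintype V] [Fintype J] [Fintype U]

theorem exists_arc_s {G P : SimpleGraph V} (hGP : G ≤ P) {C k eta d0 e1 tau s q er theta : ℝ}
    (par : ParS C k eta d0 e1 tau s q er theta) {m : ℕ} {E : Fin m → Finset V}
    (hP : Clean P k C d0 e1 E) (hcuts : SmallCuts P k C) {x z : V} (hxz : x ≠ z) :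
    (∃ B, CutS G E C k d0 e1 tau x z B) ∨ ∃ B, CutS G E C k d0 e1 tau z x B := by
  have hd1 : d0 ≤ 1 / 2 := by
    have h1 := par.a1
    have h2 := par.heta1
    have h3 : 0 ≤ 3 * tau / e1 := div_nonneg (by linarith [par.htau]) par.he1.le
    linarith
  have hk : 0 < k := by linarith [par.hk]
  have key : ∀ a b : V, (∃ A, IsCut P k (C * k) a b A) → ∃ B, CutS G E C k d0 e1 tau a b B := by
    rintro a b ⟨A, hA⟩
    obtain ⟨B, hB⟩ := trim P k C d0 e1 tau E hP hk par.hd0.le hd1 par.he1 par.htau par.htau1 a b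
      A hA
    exact ⟨B, TrimCut.mono hGP hB⟩
  rcases hcuts x z hxz with h | h
  · exact Or.inl (key x z h)
  · exact Or.inr (key z x h)

/-- `x` can be cut from `z` by a trimmed cut -/
def ArcS (G : SimpleGraph V) {m : ℕ} (E : Fin m → Finset V) (C k d0 e1 tau : ℝ) (x z : V) : Prop :=
  ∃ B, CutS G E C k d0 e1 tau x z B

/-- a vertex that has a twin with a cut -/
def HasTwinS (G : SimpleGraph V) {m : ℕ} (E : Fin m → Finset V) (cell : J → Finset V)
    (C k d0 e1 tau q : ℝ) (x : V) : Prop :=
  ∃ z B, CutS G E C k d0 e1 tau x z B ∧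
    ∀ l, ((nb G x ∩ cell l).card : ℝ) ≤ ((nb G z ∩ cell l).card : ℝ) + q * wt cell l

/-- requests of home vertices -/
noncomputable def reqS (G : SimpleGraph V) {m : ℕ} (E : Fin m → Finset V) (cell : J → Finset V)
    (C k d0 e1 tau q : ℝ) (x : V) (l : J) : ℝ :=
  if h : HasTwinS G E cell C k d0 e1 tau q x then rq G cell x h.choose_spec.choose l else 0

theorem reqS_nonneg (G : SimpleGraph V) {m : ℕ} (E : Fin m → Finset V) (cell : J → Finset V)
    (C k d0 e1 tau q : ℝ) (x : V) (l : J) : 0 ≤ reqS G E cell C k d0 e1 tau q x l := by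
  unfold reqS
  split_ifs
  · exact le_max_left _ _
  · exact le_rfl

theorem reqS_le (G : SimpleGraph V) {m : ℕ} (E : Fin m → Finset V) (cell : J → Finset V)
    (C k d0 e1 tau : ℝ) {q : ℝ} (hq : 0 ≤ q) (x : V) (l : J) :
    ((nb G x ∩ cell l).card : ℝ) + reqS G E cell C k d0 e1 tau q x l ≤ (1 + q) * wt cell l := by
  unfold reqS
  split_ifs with h
  · exact rq_le h.choose_spec.choose_spec.1 hq l (h.choose_spec.choose_spec.2 l)
  · have h1 : ((nb G x ∩ cell l).card : ℝ) ≤ wt cell l := by
      unfold wt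
      exact_mod_cast card_le_card inter_subset_right
    have h2 : 0 ≤ wt cell l := Nat.cast_nonneg _
    nlinarith [mul_nonneg hq h2]

theorem ParS.pen_le {C k eta d0 e1 tau s q er theta : ℝ} (par : ParS C k eta d0 e1 tau s q er theta) :
    theta * (C * k / s + tau * k * (C * k / (tau * k) + 1)) ≤ eta * k := by
  have hk : 0 < k := by linarith [par.hk]
  have ht := par.htau
  have hs := par.hs
  have h1 : C * k / s + tau * k * (C * k / (tau * k) + 1) = k * (C / s + C + tau) := by
    field_simp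
    ring
  rw [h1]
  have h2 : theta * (k * (C / s + C + tau)) ≤ k * (theta * (C / s + (C + 1))) := by
    have h3 : theta * (C / s + C + tau) ≤ theta * (C / s + (C + 1)) :=
      mul_le_mul_of_nonneg_left (by linarith [par.htau2]) par.hth.le
    nlinarith
  have h3 : k * (theta * (C / s + (C + 1))) ≤ k * eta := mul_le_mul_of_nonneg_left par.a2 hk.le
  linarith

theorem ParS.er_le {C k eta d0 e1 tau s q er theta : ℝ} (par : ParS C k eta d0 e1 tau s q er theta) :
    er * k * (C * k / (tau * k) + 1) ≤ eta * k := by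
  have hk : 0 < k := by linarith [par.hk]
  have ht := par.htau
  have h1 : C * k / (tau * k) = C / tau := by
    field_simp
  rw [h1]
  have := mul_le_mul_of_nonneg_left par.a5 hk.le
  linarith

/-- the home vertices of one cell -/
theorem cell_sum_w (w0 : J → ℝ) (hw0 : ∀ j, 0 ≤ w0 j) {G P : SimpleGraph V} (hGP : G ≤ P) {C k eta d0 e1 tau s q er theta : ℝ}
    (par : ParS C k eta d0 e1 tau s q er theta) {m : ℕ} {E : Fin m → Finset V}
    (hP : Clean P k C d0 e1 E) (hcuts : SmallCuts P k C) {cell : J → Finset V}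
    {hm : J → Fin m} {phi : U → V} {adj : J → J → Prop} {hadj : U → J → Prop}
    (h : Red G k er s E cell hm phi adj hadj) (hw1 : ∀ j, w0 j ≤ wt cell j)
    (hnear : ∀ u j, hadj u j → phi u ∈ cn P E (hm j)) (M : ℕ)
    (hM : ∀ i, (univ.filter (fun j => hm j = i)).card ≤ M)
    (Q : J → Finset J) (hQ : ∀ j, j ∈ Q j)
    (hQmin : ∀ (j : J) (A : Finset J), j ∈ A →
      beta (wt cell) adj hadj (Q j) + theta * pen w0 hm (tau * k) (Q j) ≤
      beta (wt cell) adj hadj A + theta * pen w0 hm (tau * k) A) (i : J) :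
    ∑ x ∈ cell i, ((nb G x).card : ℝ) ≤ wt cell i * (k + 7 * eta * k) +
      ∑ l ∈ univ.filter (fun l => Poor k eta cell adj hadj l ∧ adj i l),
        ∑ x ∈ cell i, reqS G E cell C k d0 e1 tau q x l +
      (C + 1) * k * (((⌊1 / q⌋₊ + 1) ^ (M * ⌊(C + 1) / e1⌋₊) : ℕ) : ℝ) := by
  have hk : 0 < k := by linarith [par.hk]
  have hC := par.hC
  have hCk : 0 ≤ (C + 1) * k := mul_nonneg (by linarith) hk.le
  have hb : 0 ≤ 7 * eta * k := by
    have := par.heta
    positivity
  set exc := (cell i).filter (fun x => ¬ HasTwinS G E cell C k d0 e1 tau q x) with hexc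
  have hcard : (exc.card : ℝ) ≤ (((⌊1 / q⌋₊ + 1) ^ (M * ⌊(C + 1) / e1⌋₊) : ℕ) : ℝ) := by
    have h1 := home_exceptional_s hGP par hP h M hM (ArcS G E C k d0 e1 tau)
      (fun x z hxz => exists_arc_s hGP par hP hcuts hxz) i
    have h2 : exc.card ≤ (⌊1 / q⌋₊ + 1) ^ (M * ⌊(C + 1) / e1⌋₊) := by
      refine le_trans (card_le_card ?_) h1
      intro x hx
      rw [hexc, mem_filter] at hx
      refine mem_filter.2 ⟨hx.1, fun hcon => hx.2 ?_⟩
      obtain ⟨z, _, _, hz, B, hB⟩ := hcon
      exact ⟨z, B, hB, hz⟩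
    exact_mod_cast h2
  have hx : ∀ x ∈ cell i, ((nb G x).card : ℝ) ≤ (k + 7 * eta * k) +
      ∑ l ∈ univ.filter (fun l => Poor k eta cell adj hadj l ∧ adj i l),
        reqS G E cell C k d0 e1 tau q x l +
      (if HasTwinS G E cell C k d0 e1 tau q x then 0 else (C + 1) * k) := by
    intro x hx
    by_cases ht : HasTwinS G E cell C k d0 e1 tau q x
    · rw [if_pos ht]
      have h1 := home_main_w w0 hw0 hGP par hP h hw1 hnear ht.choose_spec.choose_spec.1
        ht.choose_spec.choose_spec.2 i hx (Q i) (hQ i) (hQmin i)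
      have h2 : ∀ l, reqS G E cell C k d0 e1 tau q x l = rq G cell x ht.choose_spec.choose l := by
        intro l
        unfold reqS
        rw [dif_pos ht]
      simp only [h2]
      linarith
    · rw [if_neg ht]
      have h1 : ((nb G x).card : ℝ) ≤ (C + 1) * k := by
        refine le_trans ?_ (hP.deg x)
        exact_mod_cast card_le_card (nbG_le hGP x)
      have h2 : 0 ≤ ∑ l ∈ univ.filter (fun l => Poor k eta cell adj hadj l ∧ adj i l),
          reqS G E cell C k d0 e1 tau q x l := sum_nonneg (fun l _ => reqS_nonneg _ _ _ _ _ _ _ _ _ _ _)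
      linarith
  have h1 := sum_le_sum hx
  rw [sum_add_distrib, sum_add_distrib, sum_const, nsmul_eq_mul, sum_comm] at h1
  have h2 : ∑ x ∈ cell i, (if HasTwinS G E cell C k d0 e1 tau q x then 0 else (C + 1) * k) =
      (C + 1) * k * (exc.card : ℝ) := by
    have h3 : ∀ x, (if HasTwinS G E cell C k d0 e1 tau q x then (0 : ℝ) else (C + 1) * k) =
        if ¬ HasTwinS G E cell C k d0 e1 tau q x then (C + 1) * k else 0 := by
      intro x
      by_cases ht : HasTwinS G E cell C k d0 e1 tau q x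
      · rw [if_pos ht, if_neg (not_not.2 ht)]
      · rw [if_neg ht, if_pos ht]
    simp only [h3]
    rw [← sum_filter, sum_const, nsmul_eq_mul, mul_comm]
  rw [h2] at h1
  have h3 : (C + 1) * k * (exc.card : ℝ) ≤ (C + 1) * k * (((⌊1 / q⌋₊ + 1) ^ (M * ⌊(C + 1) / e1⌋₊) : ℕ) : ℝ) :=
    mul_le_mul_of_nonneg_left hcard (by linarith)
  unfold wt
  linarith


/-- the penalised minimum of a hub with a cut is at most `2 k`, so its set has few homes -/
theorem few_homes_w (w0 : J → ℝ) (hw0 : ∀ j, 0 ≤ w0 j) {G P : SimpleGraph V} (hGP : G ≤ P) {C k eta d0 e1 tau s q er theta : ℝ}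
    (par : ParS C k eta d0 e1 tau s q er theta) {m : ℕ} {E : Fin m → Finset V}
    (hP : Clean P k C d0 e1 E) {cell : J → Finset V} {hm : J → Fin m}
    {phi : U → V} {adj : J → J → Prop} {hadj : U → J → Prop}
    (h : Red G k er s E cell hm phi adj hadj) (hw1 : ∀ j, w0 j ≤ wt cell j) {x z : V} {B : Finset V}
    (hB : CutS G E C k d0 e1 tau x z B) (Qu : Finset J)
    (hmin : ∀ A : Finset J,
      bb cell phi adj hadj x (nb G x) Qu + theta * pen w0 hm (tau * k) Qu ≤
      bb cell phi adj hadj x (nb G x) A + theta * pen w0 hm (tau * k) A) :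
    ((Qu.image hm).card : ℝ) ≤ 2 / (theta * tau) := by
  have hk : 0 < k := by linarith [par.hk]
  have heta := par.heta
  have hTk : 0 < tau * k := mul_pos par.htau hk
  have hs := par.hs
  have her := par.her
  have hsmall : s + er ≤ 1 / 2 := by
    have := par.a4
    have := par.heta1
    linarith
  have h1 := hub_min_le_w w0 hw0 h hw1 hk.le par.hs par.her.le hsmall hTk hB theta (tau * k) par.hth.le hTk.le
    Qu hmin
  have h2 := par.pen_le
  have h3 := par.er_le
  have h4 : metw cell (nb G x) ≤ (C + 1) / e1 * C * k :=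
    metw_le hGP hP h hk (by linarith [par.hC]) par.he1 x
  have h5 : s * metw cell (nb G x) ≤ eta * k := by
    have h6 : s * metw cell (nb G x) ≤ s * ((C + 1) / e1 * C * k) :=
      mul_le_mul_of_nonneg_left h4 par.hs.le
    have h7 : s * ((C + 1) / e1 * C * k) = s * ((C + 1) / e1 * C) * k := by
      ring
    have h8 : s * ((C + 1) / e1 * C) ≤ (2 * s + q) * ((C + 1) / e1 * C) := by
      apply mul_le_mul_of_nonneg_right
      · linarith [par.hq]
      · exact mul_nonneg (div_nonneg (by linarith [par.hC]) par.he1.le) (by linarith [par.hC])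
    have h9 := mul_le_mul_of_nonneg_right (h8.trans par.a3) hk.le
    linarith
  have hK : (1 + d0 + 3 * tau / e1) * k ≤ (1 + eta) * k :=
    mul_le_mul_of_nonneg_right (by linarith [par.a1]) hk.le
  have hK0 : 0 ≤ (1 + d0 + 3 * tau / e1) := by
    have := div_nonneg (mul_nonneg (by norm_num : (0 : ℝ) ≤ 3) par.htau.le) par.he1.le
    linarith [par.hd0]
  have h6 : 2 * (s + er) * ((1 + d0 + 3 * tau / e1) * k) ≤ eta * k := by
    have h7 : (1 + d0 + 3 * tau / e1) * k ≤ 2 * k := by
      have := par.heta1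
      nlinarith
    have h8 : 2 * (s + er) * ((1 + d0 + 3 * tau / e1) * k) ≤ 2 * (s + er) * (2 * k) :=
      mul_le_mul_of_nonneg_left h7 (by linarith)
    have h9 := mul_le_mul_of_nonneg_right par.a4 hk.le
    nlinarith
  have h7 : bb cell phi adj hadj x (nb G x) Qu + theta * pen w0 hm (tau * k) Qu ≤
      2 * k := by
    have := par.heta1
    nlinarith
  have h8 : 0 ≤ bb cell phi adj hadj x (nb G x) Qu := by
    unfold bb wt
    positivity
  have h9 : tau * k * ((Qu.image hm).card : ℝ) ≤ pen w0 hm (tau * k) Qu := by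
    rw [pen_eq]
    have h0 : 0 ≤ ∑ j ∈ Qu, w0 j := sum_nonneg (fun j _ => hw0 j)
    linarith
  have h10 : theta * (tau * k * ((Qu.image hm).card : ℝ)) ≤ 2 * k :=
    (mul_le_mul_of_nonneg_left h9 par.hth.le).trans (by linarith)
  rw [le_div_iff₀ (mul_pos par.hth par.htau)]
  have h11 : k * (((Qu.image hm).card : ℝ) * (theta * tau)) ≤ k * 2 := by
    have e : k * (((Qu.image hm).card : ℝ) * (theta * tau)) =
      theta * (tau * k * ((Qu.image hm).card : ℝ)) := by ring
    rw [e]
    linarith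
  exact le_of_mul_le_mul_left h11 hk

end LCS
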