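import Mathlib

/-! # From the twin inequalities of a hub to the form used in the core (real numbers only)

Everything is divided by `k`. If `mu + e2 >= 1` take no classes and `g = 0`; otherwise
`g = 1 - mu - e2` and `x a = max 0 (t a + y a - p a - q a - (e1 + e2))`.
-/

namespace LCS

open Finset
open scoped Classical

theorem hub_numeric_s {A : Type} (r : ℕ) (hr : 1 ≤ r) (s : Finset A) (D mu R e1 e2 : ℝ)
    (t y p q T : A → ℝ) (he1 : 0 ≤ e1) (he2 : 0 ≤ e2) (hR : 0 ≤ R)
    (hq : ∀ a ∈ s, 0 ≤ q a) (hT0 : ∀ a ∈ s, 0 ≤ T a)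
    (h1 : ∀ S ⊆ s, S.card ≤ r → S.Nonempty →
      ∑ a ∈ S, (t a + y a) ≤ 1 - mu + ∑ a ∈ S, p a + ∑ a ∈ S, q a + e1)
    (h2 : D ≤ ∑ a ∈ s, (t a + y a) + R) (h3 : R + ∑ a ∈ s, p a ≤ mu + e2)
    (hy : ∀ a ∈ s, y a ≤ p a) (hT : ∀ a ∈ s, t a ≤ T a) (hmu : mu ≤ 1 + e2) :
    ∃ (s' : Finset A) (x : A → ℝ) (g : ℝ), s' ⊆ s ∧ 0 ≤ g ∧ (∀ a ∈ s', 0 ≤ x a ∧ x a ≤ T a) ∧
      (∀ S ⊆ s', S.card ≤ r → ∑ a ∈ S, x a ≤ g) ∧ ∑ a ∈ s', p a ≤ 1 - g ∧
      D ≤ 1 + (∑ a ∈ s', x a - g) + ∑ a ∈ s, q a + ((s.card : ℝ) + 2) * (e1 + 2 * e2) := by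
  have hcard : (0 : ℝ) ≤ (s.card : ℝ) := Nat.cast_nonneg _
  have hce1 : 0 ≤ (s.card : ℝ) * e1 := mul_nonneg hcard he1
  have hce2 : 0 ≤ (s.card : ℝ) * e2 := mul_nonneg hcard he2
  -- single classes
  have h0 : ∀ a ∈ s, t a + y a ≤ 1 - mu + p a + q a + e1 := by
    intro a ha
    have := h1 {a} (singleton_subset_iff.2 ha) (by rw [card_singleton]; exact hr)
      (singleton_nonempty a)
    simpa using this
  by_cases hc : 1 ≤ mu + e2
  · refine ⟨∅, fun _ => 0, 0, empty_subset _, le_refl _, ?_, ?_, ?_, ?_⟩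
    · intro a ha
      simp at ha
    · intro S hS _
      rw [subset_empty.1 hS]
      simp
    · simp
    · have hsum : ∑ a ∈ s, (t a + y a) ≤ ∑ a ∈ s, (p a + q a + (e1 + e2)) := by
        apply sum_le_sum
        intro a ha
        have := h0 a ha
        linarith
      simp only [sum_add_distrib, sum_const, nsmul_eq_mul] at hsum h2
      rw [sum_empty]
      nlinarith
  · push Not at hc
    have hg : 0 ≤ 1 - mu - e2 := by linarith
    set x : A → ℝ := fun a => max 0 (t a + y a - p a - q a - (e1 + e2)) with hx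
    have hx0 : ∀ a, 0 ≤ x a := fun a => le_max_left _ _
    refine ⟨s, x, 1 - mu - e2, Subset.refl _, hg, ?_, ?_, ?_, ?_⟩
    · intro a ha
      refine ⟨hx0 a, max_le (hT0 a ha) ?_⟩
      have h4 := hy a ha
      have h5 := hT a ha
      have h6 := hq a ha
      linarith
    · intro S hS hSr
      set S' : Finset A := S.filter (fun a => 0 < x a) with hS'
      have e1' : ∑ a ∈ S, x a = ∑ a ∈ S', x a := by
        rw [hS', sum_filter]
        refine sum_congr rfl fun a _ => ?_
        split_ifs with h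
        · rfl
        · exact le_antisymm (not_lt.1 h) (hx0 a)
      rw [e1']
      rcases S'.eq_empty_or_nonempty with hemp | hne
      · rw [hemp, sum_empty]
        exact hg
      · have h4 := h1 S' ((filter_subset _ _).trans hS) ((card_filter_le _ _).trans hSr) hne
        have h5 : ∑ a ∈ S', x a = ∑ a ∈ S', (t a + y a - p a - q a - (e1 + e2)) := by
          refine sum_congr rfl fun a ha => ?_
          have h6 := (mem_filter.1 ha).2
          rw [hx] at h6 ⊢
          simp only at h6 ⊢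
          rcases max_cases 0 (t a + y a - p a - q a - (e1 + e2)) with h7 | h7
          · rw [h7.1] at h6
            exact absurd h6 (lt_irrefl _)
          · exact h7.1
        rw [h5]
        have h6 : (1 : ℝ) ≤ (S'.card : ℝ) := by exact_mod_cast card_pos.2 hne
        have h7 : 0 ≤ ((S'.card : ℝ) - 1) * (e1 + e2) :=
          mul_nonneg (by linarith) (by linarith)
        simp only [sum_sub_distrib, sum_add_distrib, sum_const, nsmul_eq_mul] at h4 ⊢
        linarith
    · linarith
    · have hsum : ∑ a ∈ s, (t a + y a) ≤ ∑ a ∈ s, (x a + p a + q a + (e1 + e2)) := by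
        apply sum_le_sum
        intro a ha
        have h7 : t a + y a - p a - q a - (e1 + e2) ≤ x a := le_max_right _ _
        linarith
      simp only [sum_add_distrib, sum_const, nsmul_eq_mul] at hsum h2
      nlinarith

end LCS
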