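import Pool.Agent.Lib_MP_0bab5c_x.XMu

/-! # Unions of classes

`cls hm Q cl S` are the cells of `Q` whose class is in `S`. For separated classes the sums over the
classes of `S` of the boundary, the penalty, the neighbours in the class and in its boundary are,
up to a small error, the corresponding quantities of the union. For the neighbours in the boundary:
the part of the boundary outside the neighbourhood is subadditive, and `separation`.
-/

namespace LCS

open Finset LCX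
open scoped Classical

variable {V J U : Type} [Fintype V] [Fintype J] [Fintype U]

/-- cells of the classes of `S` -/
noncomputable def cls {m : ℕ} (hm : J → Fin m) (Q : Finset J) (cl : Fin m → Fin m)
    (S : Finset (Fin m)) : Finset J := Q.filter (fun j => cl (hm j) ∈ S)

theorem mem_cls {m : ℕ} {hm : J → Fin m} {Q : Finset J} {cl : Fin m → Fin m}
    {S : Finset (Fin m)} {j : J} : j ∈ cls hm Q cl S ↔ j ∈ Q ∧ cl (hm j) ∈ S := by
  unfold cls
  exact mem_filter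

theorem cls_filter {m : ℕ} (hm : J → Fin m) (Q : Finset J) (cl : Fin m → Fin m)
    (S : Finset (Fin m)) (a : Fin m) (ha : a ∈ S) :
    (cls hm Q cl S).filter (fun j => cl (hm j) = a) = Q.filter (fun j => cl (hm j) = a) := by
  ext j
  simp only [mem_filter, mem_cls]
  constructor
  · rintro ⟨⟨h1, _⟩, h2⟩
    exact ⟨h1, h2⟩
  · rintro ⟨h1, h2⟩
    exact ⟨⟨h1, by rw [h2]; exact ha⟩, h2⟩

theorem cls_image {m : ℕ} (hm : J → Fin m) (Q : Finset J) (cl : Fin m → Fin m)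
    (S : Finset (Fin m)) (hS : ∀ a ∈ S, ∃ j ∈ Q, cl (hm j) = a) :
    ((cls hm Q cl S).image hm).image cl = S := by
  ext a
  simp only [mem_image, mem_cls]
  constructor
  · rintro ⟨i, ⟨j, ⟨_, h1⟩, rfl⟩, rfl⟩
    exact h1
  · intro ha
    obtain ⟨j, hj, hja⟩ := hS a ha
    exact ⟨hm j, ⟨j, ⟨hj, by rw [hja]; exact ha⟩, rfl⟩, hja⟩

theorem cls_sum {m : ℕ} (hm : J → Fin m) (Q : Finset J) (cl : Fin m → Fin m)
    (S : Finset (Fin m)) (f : J → ℝ) :
    ∑ j ∈ cls hm Q cl S, f j = ∑ a ∈ S, ∑ j ∈ Q.filter (fun j => cl (hm j) = a), f j := by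
  have hmaps : ∀ j ∈ cls hm Q cl S, cl (hm j) ∈ S := fun j hj => (mem_cls.1 hj).2
  rw [← sum_fiberwise_of_maps_to hmaps]
  refine sum_congr rfl fun a ha => ?_
  rw [cls_filter hm Q cl S a ha]

/-- boundary plus penalty of the union is at most the sum -/
theorem cls_beta_pen {m : ℕ} (w w0 : J → ℝ) (hw : ∀ j, 0 ≤ w j) (hm : J → Fin m)
    (adj : J → J → Prop) (hadj : U → J → Prop) (theta rho : ℝ) (Q : Finset J)
    (cl : Fin m → Fin m) (S : Finset (Fin m)) (hS : ∀ a ∈ S, ∃ j ∈ Q, cl (hm j) = a) :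
    beta w adj hadj (cls hm Q cl S) + theta * pen w0 hm rho (cls hm Q cl S) ≤
    ∑ a ∈ S, (beta w adj hadj (Q.filter (fun j => cl (hm j) = a)) +
      theta * pen w0 hm rho (Q.filter (fun j => cl (hm j) = a))) := by
  have h1 := pen_classes w0 hm rho (cls hm Q cl S) cl
  rw [cls_image hm Q cl S hS] at h1
  have h2 : ∑ a ∈ S, pen w0 hm rho ((cls hm Q cl S).filter (fun j => cl (hm j) = a)) =
      ∑ a ∈ S, pen w0 hm rho (Q.filter (fun j => cl (hm j) = a)) :=
    sum_congr rfl fun a ha => by rw [cls_filter hm Q cl S a ha]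
  have h3 : ∑ l ∈ bdJ adj (cls hm Q cl S), w l ≤
      ∑ a ∈ S, ∑ l ∈ bdJ adj (Q.filter (fun j => cl (hm j) = a)), w l := by
    apply xmu_sum_cover_le w hw
    intro l hl
    obtain ⟨_, h4, j, hj, hjl⟩ := mem_filter.1 hl
    obtain ⟨hj1, hj2⟩ := mem_cls.1 hj
    refine ⟨cl (hm j), hj2, mem_filter.2 ⟨mem_univ _, ?_, j, mem_filter.2 ⟨hj1, rfl⟩, hjl⟩⟩
    intro h5
    obtain ⟨h6, h7⟩ := mem_filter.1 h5
    exact h4 (mem_cls.2 ⟨h6, by rw [h7]; exact hj2⟩)
  have h5 : ((bdU hadj (cls hm Q cl S)).card : ℝ) ≤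
      ∑ a ∈ S, ((bdU hadj (Q.filter (fun j => cl (hm j) = a))).card : ℝ) := by
    apply xmu_card_cover_le
    intro u hu
    obtain ⟨_, j, hj, hju⟩ := mem_filter.1 hu
    obtain ⟨hj1, hj2⟩ := mem_cls.1 hj
    exact ⟨cl (hm j), hj2, mem_filter.2 ⟨mem_univ _, j, mem_filter.2 ⟨hj1, rfl⟩, hju⟩⟩
  rw [sum_add_distrib, ← mul_sum, ← h2, h1]
  unfold beta
  rw [sum_add_distrib]
  linarith

/-- neighbours in the boundaries of the classes -/
theorem cls_bd {G P : SimpleGraph V} (hGP : G ≤ P) {k er s : ℝ} {m : ℕ} {E : Fin m → Finset V}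
    {cell : J → Finset V} {hm : J → Fin m} {phi : U → V} {adj : J → J → Prop}
    {hadj : U → J → Prop} (h : Red G k er s E cell hm phi adj hadj)
    (hnear : ∀ u j, hadj u j → phi u ∈ cn P E (hm j)) (hs : 0 < s) (hs1 : s ≤ 1)
    (her : 0 ≤ er) (her1 : er ≤ 1 / 4) (Q : Finset J) (cl : Fin m → Fin m) (dd : ℝ)
    (hdd : 0 ≤ dd) (hcl : ∀ i ∈ Q.image hm, ∀ i' ∈ Q.image hm, cl i ≠ cl i' →
      (((cn P E i) ∩ (cn P E i')).card : ℝ) ≤ dd)
    (S : Finset (Fin m)) (hS : ∀ a ∈ S, ∃ j ∈ Q, cl (hm j) = a) (N : Finset V) :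
    ∑ a ∈ S, (∑ l ∈ bdJ adj (Q.filter (fun j => cl (hm j) = a)), ((N ∩ cell l).card : ℝ) +
      (((bdU hadj (Q.filter (fun j => cl (hm j) = a))).filter (fun u => phi u ∈ N)).card : ℝ)) ≤
    (∑ l ∈ bdJ adj (cls hm Q cl S), ((N ∩ cell l).card : ℝ) +
      (((bdU hadj (cls hm Q cl S)).filter (fun u => phi u ∈ N)).card : ℝ)) +
      3 * dd * ((Q.image hm).card : ℝ) ^ 2 := by
  have hsub : cls hm Q cl S ⊆ Q := filter_subset _ _
  have himg : (cls hm Q cl S).image hm ⊆ Q.image hm := image_subset_image hsub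
  have hsep := separation hGP h hnear hs hs1 her her1 (cls hm Q cl S) cl dd hdd
    (fun i hi i' hi' => hcl i (himg hi) i' (himg hi'))
  rw [cls_image hm Q cl S hS] at hsep
  have hsep2 : ∑ a ∈ S, beta (wt cell) adj hadj (Q.filter (fun j => cl (hm j) = a)) ≤
      beta (wt cell) adj hadj (cls hm Q cl S) + 3 * dd * ((Q.image hm).card : ℝ) ^ 2 := by
    have h1 : ∑ a ∈ S, beta (wt cell) adj hadj
        ((cls hm Q cl S).filter (fun j => cl (hm j) = a)) =
        ∑ a ∈ S, beta (wt cell) adj hadj (Q.filter (fun j => cl (hm j) = a)) :=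
      sum_congr rfl fun a ha => by rw [cls_filter hm Q cl S a ha]
    rw [h1] at hsep
    have h2 : ((((cls hm Q cl S).image hm).card : ℝ)) ≤ ((Q.image hm).card : ℝ) := by
      exact_mod_cast card_le_card himg
    have h3 : ((((cls hm Q cl S).image hm).card : ℝ)) ^ 2 ≤ ((Q.image hm).card : ℝ) ^ 2 :=
      pow_le_pow_left₀ (Nat.cast_nonneg _) h2 2
    have h4 : 3 * dd * ((((cls hm Q cl S).image hm).card : ℝ)) ^ 2 ≤
        3 * dd * ((Q.image hm).card : ℝ) ^ 2 := mul_le_mul_of_nonneg_left h3 (by linarith)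
    linarith
  -- the part outside `N`
  have hspl : ∀ Z : Finset J, beta (wt cell) adj hadj Z =
      (∑ l ∈ bdJ adj Z, ((N ∩ cell l).card : ℝ) +
        (((bdU hadj Z).filter (fun u => phi u ∈ N)).card : ℝ)) +
      (∑ l ∈ bdJ adj Z, (wt cell l - ((N ∩ cell l).card : ℝ)) +
        (((bdU hadj Z).filter (fun u => ¬ phi u ∈ N)).card : ℝ)) := by
    intro Z
    unfold beta
    have h1 : ((bdU hadj Z).card : ℝ) = (((bdU hadj Z).filter (fun u => phi u ∈ N)).card : ℝ) +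
        (((bdU hadj Z).filter (fun u => ¬ phi u ∈ N)).card : ℝ) := by
      rw [← Nat.cast_add, card_filter_add_card_filter_not]
    rw [sum_sub_distrib, h1]
    ring
  have hW : ∀ l, 0 ≤ wt cell l - ((N ∩ cell l).card : ℝ) := by
    intro l
    have : ((N ∩ cell l).card : ℝ) ≤ wt cell l := by
      unfold wt
      exact_mod_cast card_le_card inter_subset_right
    linarith
  have h3 : ∑ l ∈ bdJ adj (cls hm Q cl S), (wt cell l - ((N ∩ cell l).card : ℝ)) ≤
      ∑ a ∈ S, ∑ l ∈ bdJ adj (Q.filter (fun j => cl (hm j) = a)),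
        (wt cell l - ((N ∩ cell l).card : ℝ)) := by
    apply xmu_sum_cover_le (fun l => wt cell l - ((N ∩ cell l).card : ℝ)) hW
    intro l hl
    obtain ⟨_, h4, j, hj, hjl⟩ := mem_filter.1 hl
    obtain ⟨hj1, hj2⟩ := mem_cls.1 hj
    refine ⟨cl (hm j), hj2, mem_filter.2 ⟨mem_univ _, ?_, j, mem_filter.2 ⟨hj1, rfl⟩, hjl⟩⟩
    intro h5
    obtain ⟨h6, h7⟩ := mem_filter.1 h5
    exact h4 (mem_cls.2 ⟨h6, by rw [h7]; exact hj2⟩)
  have h5 : (((bdU hadj (cls hm Q cl S)).filter (fun u => ¬ phi u ∈ N)).card : ℝ) ≤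
      ∑ a ∈ S, (((bdU hadj (Q.filter (fun j => cl (hm j) = a))).filter
        (fun u => ¬ phi u ∈ N)).card : ℝ) := by
    apply xmu_card_cover_le
    intro u hu
    obtain ⟨hu1, hu2⟩ := mem_filter.1 hu
    obtain ⟨_, j, hj, hju⟩ := mem_filter.1 hu1
    obtain ⟨hj1, hj2⟩ := mem_cls.1 hj
    exact ⟨cl (hm j), hj2, mem_filter.2
      ⟨mem_filter.2 ⟨mem_univ _, j, mem_filter.2 ⟨hj1, rfl⟩, hju⟩, hu2⟩⟩
  have h6 : ∑ a ∈ S, beta (wt cell) adj hadj (Q.filter (fun j => cl (hm j) = a)) =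
      ∑ a ∈ S, (∑ l ∈ bdJ adj (Q.filter (fun j => cl (hm j) = a)), ((N ∩ cell l).card : ℝ) +
        (((bdU hadj (Q.filter (fun j => cl (hm j) = a))).filter
          (fun u => phi u ∈ N)).card : ℝ)) +
      (∑ a ∈ S, ∑ l ∈ bdJ adj (Q.filter (fun j => cl (hm j) = a)),
        (wt cell l - ((N ∩ cell l).card : ℝ)) +
      ∑ a ∈ S, (((bdU hadj (Q.filter (fun j => cl (hm j) = a))).filter
        (fun u => ¬ phi u ∈ N)).card : ℝ)) := by
    rw [← sum_add_distrib, ← sum_add_distrib]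
    exact sum_congr rfl fun a _ => hspl _
  have h7 := hspl (cls hm Q cl S)
  linarith

end LCS
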