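import Pool.Agent.Lib_MP_0bab5c_s.SGraphA
import Pool.Agent.Lib_MP_0bab5c_s.SHubMain

/-! # All hubs, `r` classes at a time

Exceptional hubs: those without a twin for the cells of the homes of some `T` contained in the
union of `r` balls. There are at most `m ^ r * 2 ^ (r b)` sets `T`, and few exceptional hubs each.
-/

namespace LCS

open Finset LCX
open scoped Classical

variable {V J U : Type} [Fintype V] [Fintype J] [Fintype U]

/-- enumeration of a set of at most `r` elements -/
theorem exists_enum {A : Type} (r : ℕ) (S : Finset A) (hS : S.card ≤ r) (hne : S.Nonempty) :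
    ∃ g : Fin r → A, (∀ c, g c ∈ S) ∧ ∀ a ∈ S, ∃ c, g c = a := by
  obtain ⟨a0, ha0⟩ := hne
  have h1 : Fintype.card {a // a ∈ S} ≤ Fintype.card (Fin r) := by
    rw [Fintype.card_coe, Fintype.card_fin]
    exact hS
  obtain ⟨e⟩ := Function.Embedding.nonempty_of_card_le h1
  have : Nonempty {a // a ∈ S} := ⟨⟨a0, ha0⟩⟩
  refine ⟨fun c => (Function.invFun e c).1, fun c => (Function.invFun e c).2, ?_⟩
  intro a ha
  exact ⟨e ⟨a, ha⟩, congrArg Subtype.val (Function.leftInverse_invFun e.injective ⟨a, ha⟩)⟩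

theorem hubs_all_s (w0 : J → ℝ) (hw0 : ∀ j, 0 ≤ w0 j) (r : ℕ) (hr : 1 ≤ r) (K : ℝ)
    (hK0 : 0 < K) {G P : SimpleGraph V} (hGP : G ≤ P) {C k eta d0 e1 tau s q er theta : ℝ}
    (par : ParS C k eta d0 e1 tau s q er theta) {m : ℕ} {E : Fin m → Finset V}
    (hP : Clean P k C d0 e1 E) (hcuts : SmallCuts P k C) {cell : J → Finset V}
    {hm : J → Fin m} {phi : U → V} {adj : J → J → Prop} {hadj : U → J → Prop}
    (h : Red G k er s E cell hm phi adj hadj) (hw1 : ∀ j, w0 j ≤ wt cell j)
    (hnear : ∀ u j, hadj u j → phi u ∈ cn P E (hm j)) (M : ℕ)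
    (hM : ∀ i, (univ.filter (fun j => hm j = i)).card ≤ M)
    (del : ℝ) (hdel : 0 < del) (D N : ℕ) (hD : (C + 1) * ((C + 1) / e1 + 1) / del ≤ D)
    (hN1 : 2 / (theta * tau) ≤ N) (hN2 : 3 * del * (N : ℝ) ^ 2 ≤ eta) :
    ∃ (qU : U → J → ℝ) (eU : U → ℝ), (∀ u j, 0 ≤ qU u j) ∧
      (∀ u j, qU u j ≠ 0 → Poor k eta cell adj hadj j ∧ hadj u j) ∧
      (∀ u j, ((nb G (phi u) ∩ cell j).card : ℝ) + qU u j ≤ (1 + q) * wt cell j) ∧
      (∀ u, 0 ≤ eU u) ∧
      (∀ u, HubOKs (Fin m) r K k (wt cell) hadj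
        (fun A => beta (wt cell) adj hadj A + theta * pen w0 hm (tau * k) A) u
        (((nb G (phi u)).card : ℝ) - ∑ j, qU u j - eU u)) ∧
      ∑ u, eU u ≤ (20 / K + 40) * eta * k * (Fintype.card U : ℝ) +
        (C + 1) * k * ((1 + m ^ r * 2 ^ (r * (D + 1) ^ N) *
          (⌊1 / q⌋₊ + 1) ^ (M * (r * (D + 1) ^ N)) : ℕ) : ℝ) := by
  have hk : 0 < k := by linarith [par.hk]
  have heta := par.heta
  have hCk : 0 ≤ (C + 1) * k := mul_nonneg (by linarith [par.hC]) hk.le
  -- classes
  set R : Fin m → Fin m → Prop :=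
    fun i i' => del * k ≤ (((cn P E i) ∩ (cn P E i')).card : ℝ) with hR
  have hRs : ∀ i i', R i i' → R i' i := by
    intro i i' hii
    simp only [hR] at hii ⊢
    rw [inter_comm]
    exact hii
  have hRD : ∀ i, (univ.filter (R i)).card ≤ D := by
    intro i
    have h1 := overlap_degree hP hk (by linarith [par.hC]) par.he1 del hdel i
    have h2 : (((univ.filter (R i)).card : ℕ) : ℝ) ≤ D := h1.trans hD
    exact_mod_cast h2
  obtain ⟨ball, hball, hcls⟩ := exists_classes R hRs D N hRD
  -- minimisers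
  have hex : ∀ u : U, ∃ Qu : Finset J, ∀ A : Finset J,
      bb cell phi adj hadj (phi u) (nb G (phi u)) Qu +
        theta * pen w0 hm (tau * k) Qu ≤
      bb cell phi adj hadj (phi u) (nb G (phi u)) A + theta * pen w0 hm (tau * k) A := by
    intro u
    obtain ⟨Qu, _, hQu⟩ := exists_min_image (univ : Finset (Finset J))
      (fun A => bb cell phi adj hadj (phi u) (nb G (phi u)) A +
        theta * pen w0 hm (tau * k) A) ⟨∅, mem_univ _⟩
    exact ⟨Qu, fun A => hQu A (mem_univ _)⟩
  choose Qu hQu using hex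
  -- exceptional hubs
  set goodT : U → Finset (Fin m) → Prop := fun u T => ∃ z B, CutS G E C k d0 e1 tau (phi u) z B ∧
    ∀ l, hm l ∈ T → ((nb G (phi u) ∩ cell l).card : ℝ) ≤
      ((nb G z ∩ cell l).card : ℝ) + q * wt cell l with hgoodT
  set bad : Finset U := univ.filter (fun u => ¬ goodT u ∅) ∪
    univ.biUnion (fun f : Fin r → Fin m => (univ.biUnion (fun c => ball (f c))).powerset.biUnion
      (fun T => univ.filter (fun u => ¬ goodT u T))) with hbad
  have hballs : ∀ f : Fin r → Fin m, (univ.biUnion (fun c => ball (f c))).card ≤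
      r * (D + 1) ^ N := by
    intro f
    refine (card_biUnion_le_card_mul _ _ ((D + 1) ^ N) (fun c _ => hball (f c))).trans
      (le_of_eq (by rw [card_univ, Fintype.card_fin]))
  have hcount : ∀ T : Finset (Fin m), (univ.filter (fun u => ¬ goodT u T)).card ≤
      (⌊1 / q⌋₊ + 1) ^ (M * T.card) := by
    intro T
    have h1 := hub_exceptional_s par h M hM (ArcS G E C k d0 e1 tau)
      (fun x z hxz => exists_arc_s hGP par hP hcuts hxz) T
    refine le_trans (card_le_card ?_) h1
    intro u hu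
    rw [mem_filter] at hu
    refine mem_filter.2 ⟨hu.1, fun hcon => hu.2 ?_⟩
    obtain ⟨z, _, hz, B, hB⟩ := hcon
    exact ⟨z, B, hB, hz⟩
  have hbadcard : bad.card ≤
      1 + m ^ r * 2 ^ (r * (D + 1) ^ N) * (⌊1 / q⌋₊ + 1) ^ (M * (r * (D + 1) ^ N)) := by
    have h0 : (univ.filter (fun u => ¬ goodT u ∅)).card ≤ 1 := by
      have := hcount ∅
      simpa using this
    have h1 : (univ.biUnion (fun f : Fin r → Fin m =>
        (univ.biUnion (fun c => ball (f c))).powerset.biUnion
        (fun T => univ.filter (fun u => ¬ goodT u T)))).card ≤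
        m ^ r * (2 ^ (r * (D + 1) ^ N) * (⌊1 / q⌋₊ + 1) ^ (M * (r * (D + 1) ^ N))) := by
      refine (card_biUnion_le_card_mul _ _ _ (fun f _ => ?_)).trans
        (le_of_eq (by rw [card_univ, Fintype.card_fun, Fintype.card_fin, Fintype.card_fin]))
      refine (card_biUnion_le_card_mul _ _ ((⌊1 / q⌋₊ + 1) ^ (M * (r * (D + 1) ^ N)))
        (fun T hT => ?_)).trans ?_
      · refine (hcount T).trans ?_
        apply Nat.pow_le_pow_right (Nat.succ_pos _)
        apply Nat.mul_le_mul_left
        exact (card_le_card (mem_powerset.1 hT)).trans (hballs f)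
      · rw [card_powerset]
        apply Nat.mul_le_mul_right
        exact Nat.pow_le_pow_right (by norm_num) (hballs f)
    have h2 := card_union_le (univ.filter (fun u => ¬ goodT u ∅))
      (univ.biUnion (fun f : Fin r → Fin m =>
        (univ.biUnion (fun c => ball (f c))).powerset.biUnion
        (fun T => univ.filter (fun u => ¬ goodT u T))))
    rw [← mul_assoc] at h1
    calc bad.card ≤ _ := h2
      _ ≤ _ := Nat.add_le_add h0 h1
  -- good hubs
  have hgood : ∀ u, u ∉ bad → ∃ qu : J → ℝ, (∀ j, 0 ≤ qu j) ∧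
      (∀ j, qu j ≠ 0 → Poor k eta cell adj hadj j ∧ hadj u j) ∧
      (∀ j, ((nb G (phi u) ∩ cell j).card : ℝ) + qu j ≤ (1 + q) * wt cell j) ∧
      HubOKs (Fin m) r K k (wt cell) hadj
        (fun A => beta (wt cell) adj hadj A + theta * pen w0 hm (tau * k) A) u
        (((nb G (phi u)).card : ℝ) - ∑ j, qu j - (20 / K + 40) * eta * k) := by
    intro u hu
    have hg0 : goodT u ∅ := by
      by_contra hcon
      exact hu (mem_union_left _ (mem_filter.2 ⟨mem_univ _, hcon⟩))
    have hgT : ∀ f : Fin r → Fin m, ∀ T ⊆ univ.biUnion (fun c => ball (f c)), goodT u T := by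
      intro f T hT
      by_contra hcon
      exact hu (mem_union_right _ (mem_biUnion.2 ⟨f, mem_univ _, mem_biUnion.2
        ⟨T, mem_powerset.2 hT, mem_filter.2 ⟨mem_univ _, hcon⟩⟩⟩))
    obtain ⟨z0, B0, hB0, _⟩ := hg0
    have hfew := few_homes_w w0 hw0 hGP par hP h hw1 hB0 (Qu u) (hQu u)
    have hfewN : ((Qu u).image hm).card ≤ N := by
      have : ((((Qu u).image hm).card : ℕ) : ℝ) ≤ N := hfew.trans hN1
      exact_mod_cast this
    obtain ⟨cl, hcl1, hcl2, hcl3⟩ := hcls _ hfewN
    refine hub_main_s w0 hw0 r hr K hK0 hGP par hP h hw1 hnear u (Qu u) (hQu u) cl (del * k)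
      (mul_nonneg hdel.le hk.le) ?_ ?_ ?_
    · intro i hi i' hi' hii
      by_contra hcon
      exact hii (hcl2 i hi i' hi' (not_le.1 hcon).le)
    · have h1 : (((Qu u).image hm).card : ℝ) ≤ N := by exact_mod_cast hfewN
      have h2 : (((Qu u).image hm).card : ℝ) ^ 2 ≤ (N : ℝ) ^ 2 :=
        pow_le_pow_left₀ (Nat.cast_nonneg _) h1 2
      have h3 : 3 * (del * k) * (((Qu u).image hm).card : ℝ) ^ 2 ≤
          3 * (del * k) * (N : ℝ) ^ 2 :=
        mul_le_mul_of_nonneg_left h2 (by positivity)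
      have h4 := mul_le_mul_of_nonneg_right hN2 hk.le
      nlinarith
    · intro A hAr hA
      rcases A.eq_empty_or_nonempty with hemp | hne
      · refine ⟨z0, B0, hB0, fun l _ hl => ?_⟩
        rw [hemp] at hl
        exact absurd hl (notMem_empty _)
      · have hA' : ∀ a : Fin m, ∃ i, a ∈ A → i ∈ (Qu u).image hm ∧ cl i = a := by
          intro a
          by_cases ha : a ∈ A
          · obtain ⟨j, hj, hja, _⟩ := hA a ha
            exact ⟨hm j, fun _ => ⟨mem_image_of_mem _ hj, hja⟩⟩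
          · exact ⟨a, fun h => absurd h ha⟩
        choose i0 hi0 using hA'
        obtain ⟨g, hg1, hg2⟩ := exists_enum r A hAr hne
        obtain ⟨z, B, hB, hz⟩ := hgT (fun c => i0 (g c))
          (((Qu u).image hm).filter (fun i => cl i ∈ A)) (by
            intro i hi
            obtain ⟨hi1, hi2⟩ := mem_filter.1 hi
            obtain ⟨c, hc⟩ := hg2 (cl i) hi2
            obtain ⟨h1, h2⟩ := hi0 (g c) (hg1 c)
            exact mem_biUnion.2 ⟨c, mem_univ _, hcl3 (i0 (g c)) h1 i hi1 (by rw [h2, hc])⟩)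
        refine ⟨z, B, hB, fun l hl hla => hz l ?_⟩
        exact mem_filter.2 ⟨mem_image_of_mem _ hl, hla⟩
  -- all hubs
  have hall : ∀ u, ∃ qu : J → ℝ, (∀ j, 0 ≤ qu j) ∧
      (∀ j, qu j ≠ 0 → Poor k eta cell adj hadj j ∧ hadj u j) ∧
      (∀ j, ((nb G (phi u) ∩ cell j).card : ℝ) + qu j ≤ (1 + q) * wt cell j) ∧
      HubOKs (Fin m) r K k (wt cell) hadj
        (fun A => beta (wt cell) adj hadj A + theta * pen w0 hm (tau * k) A) u
        (((nb G (phi u)).card : ℝ) - ∑ j, qu j -
          ((20 / K + 40) * eta * k + if u ∈ bad then (C + 1) * k else 0)) := by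
    intro u
    by_cases hu : u ∈ bad
    · refine ⟨fun _ => 0, fun _ => le_rfl, fun j hj => absurd rfl hj, fun j => ?_, ?_⟩
      · have h1 : ((nb G (phi u) ∩ cell j).card : ℝ) ≤ wt cell j := by
          unfold wt
          exact_mod_cast card_le_card inter_subset_right
        have h2 : 0 ≤ wt cell j := Nat.cast_nonneg _
        nlinarith [mul_nonneg par.hq.le h2]
      · rw [if_pos hu]
        have h1 : ((nb G (phi u)).card : ℝ) ≤ (C + 1) * k := by
          refine le_trans ?_ (hP.deg (phi u))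
          exact_mod_cast card_le_card (nbG_le hGP (phi u))
        refine ⟨∅, ∅, fun _ => ∅, fun _ => 0, fun _ => 0, 0, le_rfl, disjoint_empty_left _,
          ?_, ?_, ?_, ?_, ?_, ?_⟩
        · intro a ha
          simp at ha
        · intro a ha
          simp at ha
        · intro A hA _
          rw [subset_empty.1 hA]
          simp
        · intro a ha
          simp at ha
        · simp
        · simp only [sum_const_zero]
          have : 0 ≤ (20 / K + 40) * eta * k := by positivity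
          nlinarith
    · rw [if_neg hu, add_zero]
      exact hgood u hu
  choose qU hq1 hq2 hq3 hq4 using hall
  refine ⟨qU, fun u => (20 / K + 40) * eta * k + if u ∈ bad then (C + 1) * k else 0, hq1, hq2, hq3,
    ?_, hq4, ?_⟩
  · intro u
    have : 0 ≤ (20 / K + 40) * eta * k := by positivity
    show 0 ≤ (20 / K + 40) * eta * k + if u ∈ bad then (C + 1) * k else 0
    split_ifs <;> linarith
  · rw [sum_add_distrib, sum_const, nsmul_eq_mul, card_univ, ← sum_filter, sum_const,
      nsmul_eq_mul, filter_mem_eq_inter, univ_inter]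
    have h1 : (bad.card : ℝ) ≤
        ((1 + m ^ r * 2 ^ (r * (D + 1) ^ N) *
          (⌊1 / q⌋₊ + 1) ^ (M * (r * (D + 1) ^ N)) : ℕ) : ℝ) := by
      exact_mod_cast hbadcard
    have h2 := mul_le_mul_of_nonneg_left h1 (by linarith : 0 ≤ (C + 1) * k)
    linarith

end LCS
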