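import Pool.Agent.Lib_MP_0bab5c_s.TClass

/-! # The abstract core for the transition range -/

namespace LCS

open Finset LCX
open scoped Classical

variable {J U H : Type} [Fintype J] [Fintype U]

/-- what the cell `l` pays -/
theorem pay_cell {iota : Type} (k K : ℝ) (hk : 0 < k) (hK : 0 ≤ K) (a E : ℝ → ℝ)
    (ha0 : ∀ p, 0 ≤ a p)
    (ha : ∀ p p', p ≤ p' → a p' ≤ a p) (hE0 : ∀ p, 0 ≤ E p)
    (hE : ∀ p p', 0 < p → p ≤ p' → E p' ≤ E p)
    (hR : ∀ q P, 0 < q → q ≤ P → E P + (P - q) * a P ≤ K / q)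
    (W : J → ℕ) (hW : ∀ j, 0 < W j) (adj : J → J → Prop) (hadj : U → J → Prop)
    (hm : J → H) (r0 : ℕ) (Q : J → Finset J) (hQ : ∀ j, j ∈ Q j)
    (hQQ : ∀ j l, l ∈ Q j → Q l ⊆ Q j)
    (hmin : ∀ j A, j ∈ A → FF (fun j => (W j : ℝ)) adj hadj hm r0 (Q j) ≤
      FF (fun j => (W j : ℝ)) adj hadj hm r0 A)
    (b : J → ℝ) (hb : ∀ j, K * k ≤ b j)
    (cs : U → Finset iota) (Z : U → iota → Finset J) (p : U → iota → ℝ)
    (hdis : ∀ u, ∀ x ∈ cs u, ∀ y ∈ cs u, x ≠ y → Disjoint (Z u x) (Z u y))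
    (hF : ∀ u, ∀ x ∈ cs u, FF (fun j => (W j : ℝ)) adj hadj hm r0 (Z u x) ≤ p u x * k) (l : J) :
    ∑ u, ∑ x ∈ (cs u).filter (fun x => l ∈ Z u x),
      payc W adj hadj hm r0 Q k a E b u (payers hadj Q u (Z u x)) (p u x) l ≤ (W l : ℝ) * b l := by
  have hWR : ∀ j, (0 : ℝ) < (W j : ℝ) := fun j => by exact_mod_cast hW j
  have hW0 : ∀ j, (0 : ℝ) ≤ (W j : ℝ) := fun j => Nat.cast_nonneg _
  have hKk : 0 ≤ K * k := mul_nonneg hK hk.le
  have hb0 : ∀ j, 0 ≤ b j := fun j => hKk.trans (hb j)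
  set F : ℝ := FF (fun j => (W j : ℝ)) adj hadj hm r0 (Q l) with hFdef
  have hF0 : 0 ≤ F := FF_nonneg _ hW0 adj hadj hm r0 (Q l)
  -- at most one class
  have hone : ∀ u, ∀ x ∈ cs u, l ∈ Z u x → (cs u).filter (fun x => l ∈ Z u x) = {x} := by
    intro u x hx hl
    ext y
    rw [mem_filter, mem_singleton]
    constructor
    · rintro ⟨hy, hly⟩
      by_contra hne
      exact disjoint_left.1 (hdis u y hy x hx hne) hly hl
    · rintro rfl
      exact ⟨hx, hl⟩
  have hzero : ∀ u, (¬ ∃ x ∈ cs u, l ∈ Z u x) → (cs u).filter (fun x => l ∈ Z u x) = ∅ := by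
    intro u hu
    rw [eq_empty_iff_forall_notMem]
    intro x hx
    rw [mem_filter] at hx
    exact hu ⟨x, hx.1, hx.2⟩
  -- hubs in the boundary
  have hbd : ∀ u ∈ bdU hadj (Q l), ∑ x ∈ (cs u).filter (fun x => l ∈ Z u x),
      payc W adj hadj hm r0 Q k a E b u (payers hadj Q u (Z u x)) (p u x) l ≤
      (W l : ℝ) * (b l / F) := by
    intro u hu
    by_cases h : ∃ x ∈ cs u, l ∈ Z u x
    · obtain ⟨x, hx, hlx⟩ := h
      rw [hone u x hx hlx, sum_singleton]
      unfold payc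
      rw [if_pos hu]
    · rw [hzero u h, sum_empty]
      exact mul_nonneg (hW0 l) (div_nonneg (hb0 l) hF0)
  -- the others
  have hother : ∑ u ∈ univ.filter (fun u => u ∉ bdU hadj (Q l)),
      ∑ x ∈ (cs u).filter (fun x => l ∈ Z u x),
        payc W adj hadj hm r0 Q k a E b u (payers hadj Q u (Z u x)) (p u x) l ≤
      (W l : ℝ) * ((∑ v ∈ bdJ adj (Q l), (W v : ℝ)) * (K * k / F)) := by
    set Hs : Finset U := (univ.filter (fun u => u ∉ bdU hadj (Q l))).filter
      (fun u => ∃ x ∈ cs u, l ∈ Z u x) with hHs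
    have hch : ∀ u ∈ Hs, ∃ x, x ∈ cs u ∧ l ∈ Z u x := by
      intro u hu
      obtain ⟨x, hx, hlx⟩ := (mem_filter.1 hu).2
      exact ⟨x, hx, hlx⟩
    have hsplit : ∑ u ∈ univ.filter (fun u => u ∉ bdU hadj (Q l)),
        ∑ x ∈ (cs u).filter (fun x => l ∈ Z u x),
          payc W adj hadj hm r0 Q k a E b u (payers hadj Q u (Z u x)) (p u x) l =
        ∑ u ∈ Hs, ∑ x ∈ (cs u).filter (fun x => l ∈ Z u x),
          payc W adj hadj hm r0 Q k a E b u (payers hadj Q u (Z u x)) (p u x) l := by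
      rw [hHs]
      refine (sum_filter_of_ne ?_).symm
      intro u _ hne
      by_contra hc
      apply hne
      rw [hzero u hc, sum_empty]
    rw [hsplit]
    rcases Hs.eq_empty_or_nonempty with hemp | hne
    · rw [hemp, sum_empty]
      exact mul_nonneg (hW0 l) (mul_nonneg (sum_nonneg (fun v _ => hW0 v)) (div_nonneg hKk hF0))
    obtain ⟨u0, hu0⟩ := hne
    obtain ⟨x0, _, _⟩ := hch u0 hu0
    have : Nonempty iota := ⟨x0⟩
    choose! ch hch1 hch2 using hch
    have hloc := loc_ineq k K hk a E ha0 ha hE0 hE hR W hW adj hadj hm r0 Q hQ hQQ hmin l Hs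
      (fun u => p u (ch u)) (fun u => TT adj Q (payers hadj Q u (Z u (ch u))) l)
      (fun u hu => (mem_filter.1 (mem_filter.1 hu).1).2)
      (fun u hu => (hmin l _ (hch2 u hu)).trans (hF u _ (hch1 u hu)))
      (fun u hu v hv => by
        unfold TT at hv
        rw [mem_filter] at hv
        obtain ⟨hv1, hv2, hv3⟩ := hv
        rw [payers, mem_filter] at hv1
        obtain ⟨hvZ, j, hj, _, huj⟩ := hv1
        refine ⟨hv2, hv3, ?_, (hmin v _ hvZ).trans (hF u _ (hch1 u hu))⟩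
        simp only [bdU, mem_filter, mem_univ, true_and]
        exact ⟨j, hj, huj⟩)
    have hterm : ∀ u ∈ Hs, ∑ x ∈ (cs u).filter (fun x => l ∈ Z u x),
        payc W adj hadj hm r0 Q k a E b u (payers hadj Q u (Z u x)) (p u x) l =
        (W l : ℝ) * min ((∑ v ∈ TT adj Q (payers hadj Q u (Z u (ch u))) l, (W v : ℝ)) / k *
          a (p u (ch u))) (E (p u (ch u))) := by
      intro u hu
      rw [hone u (ch u) (hch1 u hu) (hch2 u hu), sum_singleton]
      unfold payc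
      rw [if_neg (mem_filter.1 (mem_filter.1 hu).1).2]
    rw [sum_congr rfl hterm, ← mul_sum]
    exact mul_le_mul_of_nonneg_left hloc (hW0 l)
  -- together
  have h1 := sum_filter_add_sum_filter_not (univ : Finset U) (fun u => u ∈ bdU hadj (Q l))
    (fun u => ∑ x ∈ (cs u).filter (fun x => l ∈ Z u x),
      payc W adj hadj hm r0 Q k a E b u (payers hadj Q u (Z u x)) (p u x) l)
  rw [← h1]
  have h2 : (univ : Finset U).filter (fun u => u ∈ bdU hadj (Q l)) = bdU hadj (Q l) := by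
    ext u; simp
  rw [h2]
  have h3 := sum_le_sum hbd
  rw [sum_const, nsmul_eq_mul] at h3
  have h4 : K * k / F ≤ b l / F := div_le_div_of_nonneg_right (hb l) hF0
  have h5 : (∑ v ∈ bdJ adj (Q l), (W v : ℝ)) * (K * k / F) ≤
      (∑ v ∈ bdJ adj (Q l), (W v : ℝ)) * (b l / F) :=
    mul_le_mul_of_nonneg_left h4 (sum_nonneg (fun v _ => hW0 v))
  have h6 : (∑ v ∈ bdJ adj (Q l), (W v : ℝ)) * (b l / F) +
      ((bdU hadj (Q l)).card : ℝ) * (b l / F) ≤ b l := by
    have h7 := beta_le_FF (fun j => (W j : ℝ)) adj hadj hm r0 (Q l)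
    rw [← hFdef] at h7
    unfold beta at h7
    rw [← add_mul]
    have h8 := mul_le_mul_of_nonneg_right h7 (div_nonneg (hb0 l) hF0)
    refine h8.trans ?_
    by_cases hF' : F = 0
    · rw [hF', zero_mul]
      exact hb0 l
    · rw [mul_div_cancel₀ _ hF']
  have h9 := mul_le_mul_of_nonneg_left (add_le_add_left h5 0) (hW0 l)
  have h10 := mul_le_mul_of_nonneg_left h6 (hW0 l)
  have h11 : (W l : ℝ) * ((∑ v ∈ bdJ adj (Q l), (W v : ℝ)) * (K * k / F)) ≤
      (W l : ℝ) * ((∑ v ∈ bdJ adj (Q l), (W v : ℝ)) * (b l / F)) :=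
    mul_le_mul_of_nonneg_left h5 (hW0 l)
  have h12 : (W l : ℝ) * ((∑ v ∈ bdJ adj (Q l), (W v : ℝ)) * (b l / F) +
      ((bdU hadj (Q l)).card : ℝ) * (b l / F)) =
      (W l : ℝ) * ((∑ v ∈ bdJ adj (Q l), (W v : ℝ)) * (b l / F)) +
      ((bdU hadj (Q l)).card : ℝ) * ((W l : ℝ) * (b l / F)) := by ring
  rw [h12] at h10
  linarith

/-- the balance of one hub -/
theorem hub_balance_t {iota : Type} (r : ℕ) (hr : 2 ≤ r) (k : ℝ) (hk : 0 < k)
    (W : J → ℕ) (hW : ∀ j, 0 < W j)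
    (adj : J → J → Prop) (hsymm : ∀ i j, adj i j → adj j i) (hadj : U → J → Prop)
    (hm : J → H) (r0 : ℕ)
    (Q : J → Finset J) (hQ : ∀ j, j ∈ Q j) (hQQ : ∀ j l, l ∈ Q j → Q l ⊆ Q j)
    (hmin : ∀ j A, j ∈ A → FF (fun j => (W j : ℝ)) adj hadj hm r0 (Q j) ≤
      FF (fun j => (W j : ℝ)) adj hadj hm r0 A) (u : U)
    (s s2 : Finset iota) (Z : iota → Finset J) (p x : iota → ℝ) (g : ℝ)
    (hss : Disjoint s s2)
    (hZ : ∀ a ∈ s ∪ s2, 0 ≤ p a ∧ FF (fun j => (W j : ℝ)) adj hadj hm r0 (Z a) ≤ p a * k ∧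
      0 ≤ x a ∧ k * x a ≤ ∑ j ∈ (Z a).filter (fun j => hadj u j), (W j : ℝ))
    (hxg : ∀ S ⊆ s, S.card ≤ r → ∑ a ∈ S, x a ≤ g) (hp2 : ∀ a ∈ s2, p a ≤ Kr r)
    (hsum : ∑ a ∈ s, p a ≤ 1 - g) :
    k * (∑ a ∈ s, x a + ∑ a ∈ s2, x a - g) ≤ Kr r * k +
      ∑ a ∈ s ∪ s2, ∑ l ∈ Z a, payc W adj hadj hm r0 Q k (aa r) (EE (Kr r) r)
        (fun j => Kr r * k + max 0 (k - sigma (fun j => (W j : ℝ)) adj hadj j)) u
        (payers hadj Q u (Z a)) (p a) l := by
  have hR : (2 : ℝ) ≤ (r : ℝ) := by exact_mod_cast hr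
  obtain ⟨hK0, _, _⟩ := Kconst (r : ℝ) hR
  have hKe : Kr r = 1 / (4 * (r : ℝ) * (4 * (r : ℝ) - 1)) := rfl
  rw [← hKe] at hK0
  have hW0 : ∀ j, (0 : ℝ) ≤ (W j : ℝ) := fun j => Nat.cast_nonneg _
  set T : iota → ℝ := fun a => (∑ l ∈ payers hadj Q u (Z a), (W l : ℝ)) / k with hT
  have hTx : ∀ a ∈ s ∪ s2, x a ≤ T a := by
    intro a ha
    obtain ⟨_, _, _, h⟩ := hZ a ha
    rw [hT]
    simp only
    rw [le_div_iff₀ hk]
    refine le_trans (le_of_eq (mul_comm _ _)) (h.trans ?_)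
    refine sum_le_sum_of_subset_of_nonneg ?_ (fun l _ _ => hW0 l)
    intro j hj
    rw [mem_filter] at hj
    rw [payers, mem_filter]
    exact ⟨hj.1, j, hQ j, hj.1, hj.2⟩
  have hN := numeric_t r hr s s2 hss p x T g (fun a ha => (hZ a ha).1)
    (fun a ha => (hZ a ha).2.2.1) hTx
    (fun a ha hx => by
      obtain ⟨h1, h2, h3, h4⟩ := hZ a ha
      have hxpos : 0 < x a := lt_of_le_of_ne h3 (Ne.symm hx)
      have h5 : 0 < ∑ j ∈ (Z a).filter (fun j => hadj u j), (W j : ℝ) :=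
        lt_of_lt_of_le (mul_pos hk hxpos) h4
      have h6 : ((Z a).filter (fun j => hadj u j)).Nonempty := by
        by_contra hc
        rw [not_nonempty_iff_eq_empty] at hc
        rw [hc, sum_empty] at h5
        exact lt_irrefl _ h5
      obtain ⟨j, hj⟩ := h6
      rw [mem_filter] at hj
      have h7 : u ∈ bdU hadj (Z a) := by
        simp only [bdU, mem_filter, mem_univ, true_and]
        exact ⟨j, hj.1, hj.2⟩
      have h8 := one_le_FF (fun j => (W j : ℝ)) hW0 adj hadj hm r0 (Z a) u h7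
      by_contra hc
      have h9 : p a * k ≤ 0 := mul_nonpos_of_nonpos_of_nonneg (not_lt.1 hc) hk.le
      linarith) hxg hp2 hsum
  have hpay : ∀ a ∈ s ∪ s2, k * Fn (Kr r) (aa r) (EE (Kr r) r) (p a) (T a) ≤
      ∑ l ∈ Z a, payc W adj hadj hm r0 Q k (aa r) (EE (Kr r) r)
        (fun j => Kr r * k + max 0 (k - sigma (fun j => (W j : ℝ)) adj hadj j)) u
        (payers hadj Q u (Z a)) (p a) l := by
    intro a ha
    exact pay_class_t k (Kr r) hk hK0.le (aa r) (EE (Kr r) r) (aa_nonneg _) (EE_nonneg _ _)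
      (EE_anti _ _ hK0.le (by linarith)) (hR_t _ _ hR hKe) W hW adj hsymm hadj hm r0 Q hQ hQQ
      hmin _ (fun j => rfl) u (Z a) (p a) (hZ a ha).2.1
  have h1 := mul_le_mul_of_nonneg_left hN hk.le
  have h2 := sum_le_sum hpay
  rw [mul_add, mul_sum] at h1
  linarith

theorem core_t {iota : Type} (r : ℕ) (hr : 2 ≤ r) (k eta : ℝ) (hk : 0 < k) (heta : 0 ≤ eta)
    (heta1 : eta ≤ 1) (W : J → ℕ) (w : J → ℝ) (hW : ∀ j, w j = (W j : ℝ)) (hw : ∀ j, 0 < w j)
    (adj : J → J → Prop) (hsymm : ∀ i j, adj i j → adj j i) (hadj : U → J → Prop)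
    (hm : J → H) (r0 : ℕ)
    (Q : J → Finset J) (hQ : ∀ j, j ∈ Q j) (hQQ : ∀ j l, l ∈ Q j → Q l ⊆ Q j)
    (hmin : ∀ j A, j ∈ A → FF w adj hadj hm r0 (Q j) ≤ FF w adj hadj hm r0 A)
    (dJ : J → J → ℝ) (hdJ0 : ∀ i j, 0 ≤ dJ i j) (hdJ1 : ∀ i j, dJ i j ≤ 1)
    (hdsymm : ∀ i j, dJ i j = dJ j i)
    (dU : U → J → ℝ) (hdU0 : ∀ u j, 0 ≤ dU u j) (hdU1 : ∀ u j, dU u j ≤ 1)
    (DJ : J → ℝ) (DU : U → ℝ) (eJ fJ : J → ℝ) (eU : U → ℝ)
    (heJ : ∀ j, 0 ≤ eJ j) (hfJ : ∀ j, 0 ≤ fJ j) (heU : ∀ u, 0 ≤ eU u)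
    (hDJ : ∀ j, DJ j ≤ ∑ l ∈ univ.filter (adj j), dJ j l * w l +
      ∑ u ∈ univ.filter (fun u => hadj u j), dU u j + eJ j)
    (poor : J → Prop)
    (hpoor : ∀ j, poor j → ∑ l ∈ univ.filter (adj j), w l +
      ((univ.filter (fun u => hadj u j)).card : ℝ) ≤ (1 + eta) * k)
    (qJ : J → J → ℝ) (qU : U → J → ℝ) (hqJ0 : ∀ i j, 0 ≤ qJ i j) (hqU0 : ∀ u j, 0 ≤ qU u j)
    (hqJ : ∀ i j, qJ i j ≠ 0 → k < DJ i ∧ ¬ poor i ∧ poor j ∧ adj i j)
    (hqJ1 : ∀ i j, adj i j → dJ i j * w j + qJ i j ≤ (1 + eta) * w j)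
    (hqU : ∀ u j, qU u j ≠ 0 → poor j ∧ hadj u j)
    (hqU1 : ∀ u j, hadj u j → dU u j * w j + qU u j ≤ (1 + eta) * w j)
    (H1 : ∀ i, ¬ poor i → k < DJ i → DJ i ≤ k + ∑ j, qJ i j + fJ i)
    (H2 : ∀ u, HubOKt iota r (Kr r) k w adj hadj hm r0 u (DU u - ∑ j, qU u j - eU u)) :
    ∑ j, w j * DJ j + ∑ u, DU u ≤
      (1 + Kr r) * k * (∑ j, w j + (Fintype.card U : ℝ)) +
        ∑ j, w j * (eJ j + fJ j + 3 * eta * k) + ∑ u, eU u := by
  have hwW : w = fun j => (W j : ℝ) := funext hW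
  have hWpos : ∀ j, 0 < W j := fun j => by
    have := hw j
    rw [hW j] at this
    exact_mod_cast this
  have hR : (2 : ℝ) ≤ (r : ℝ) := by exact_mod_cast hr
  obtain ⟨hK0, _, _⟩ := Kconst (r : ℝ) hR
  have hKe : Kr r = 1 / (4 * (r : ℝ) * (4 * (r : ℝ) - 1)) := rfl
  rw [← hKe] at hK0
  have hetak : 0 ≤ eta * k := mul_nonneg heta hk.le
  -- the balance of the cells
  have HJ : ∀ j, w j * DJ j + (∑ i, w i * qJ i j + ∑ u, qU u j) ≤
      w j * (k - max 0 (k - sigma w adj hadj j) + (eJ j + fJ j + 3 * eta * k) +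
        ∑ l, qJ j l) := by
    intro j
    have hqs : 0 ≤ ∑ l, qJ j l := sum_nonneg (fun l _ => hqJ0 j l)
    set σ := sigma w adj hadj j with hσ
    have hσ' : σ = ∑ l ∈ univ.filter (adj j), w l +
        ((univ.filter (fun u => hadj u j)).card : ℝ) := rfl
    by_cases hpj : poor j
    · have h1 : ∑ i, w i * qJ i j ≤ ∑ l ∈ univ.filter (adj j),
          w l * ((1 + eta) * w j - dJ j l * w j) := by
        rw [sum_filter]
        refine sum_le_sum (fun i _ => ?_)
        by_cases hij : adj j i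
        · rw [if_pos hij]
          have := hqJ1 i j (hsymm _ _ hij)
          rw [hdsymm i j] at this
          exact mul_le_mul_of_nonneg_left (by linarith) (hw i).le
        · rw [if_neg hij]
          have : qJ i j = 0 := by
            by_contra hne
            exact hij (hsymm _ _ (hqJ i j hne).2.2.2)
          rw [this, mul_zero]
      have h2 : ∑ u, qU u j ≤ ∑ u ∈ univ.filter (fun u => hadj u j),
          ((1 + eta) * w j - dU u j * w j) := by
        rw [sum_filter]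
        refine sum_le_sum (fun u _ => ?_)
        by_cases huj : hadj u j
        · rw [if_pos huj]
          linarith [hqU1 u j huj]
        · rw [if_neg huj]
          have : qU u j = 0 := by
            by_contra hne
            exact huj (hqU u j hne).2
          rw [this]
      have h3 : ∑ l ∈ univ.filter (adj j), w l * ((1 + eta) * w j - dJ j l * w j) +
          ∑ u ∈ univ.filter (fun u => hadj u j), ((1 + eta) * w j - dU u j * w j) =
          w j * ((1 + eta) * σ - (∑ l ∈ univ.filter (adj j), dJ j l * w l +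
            ∑ u ∈ univ.filter (fun u => hadj u j), dU u j)) := by
        have e1 : ∑ l ∈ univ.filter (adj j), w l * ((1 + eta) * w j - dJ j l * w j) =
            w j * (1 + eta) * ∑ l ∈ univ.filter (adj j), w l -
              w j * ∑ l ∈ univ.filter (adj j), dJ j l * w l := by
          rw [mul_sum, mul_sum, ← sum_sub_distrib]
          exact sum_congr rfl (fun l _ => by ring)
        have e2 : ∑ u ∈ univ.filter (fun u => hadj u j), ((1 + eta) * w j - dU u j * w j) =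
            w j * (1 + eta) * ((univ.filter (fun u => hadj u j)).card : ℝ) -
              w j * ∑ u ∈ univ.filter (fun u => hadj u j), dU u j := by
          rw [sum_sub_distrib, sum_const, nsmul_eq_mul, mul_sum]
          congr 1
          · ring
          · exact sum_congr rfl (fun l _ => by ring)
        rw [e1, e2, hσ']
        ring
      have h4 : w j * DJ j ≤ w j * (∑ l ∈ univ.filter (adj j), dJ j l * w l +
          ∑ u ∈ univ.filter (fun u => hadj u j), dU u j + eJ j) :=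
        mul_le_mul_of_nonneg_left (hDJ j) (hw j).le
      have h5 : (1 + eta) * σ + eJ j ≤ k - max 0 (k - σ) + (eJ j + fJ j + 3 * eta * k) +
          ∑ l, qJ j l := by
        have h6 : σ ≤ (1 + eta) * k := hpoor j hpj
        have h7 : eta * σ ≤ eta * ((1 + eta) * k) := mul_le_mul_of_nonneg_left h6 heta
        have h8 : eta * (eta * k) ≤ 1 * (eta * k) := mul_le_mul_of_nonneg_right heta1 hetak
        have h9 := hfJ j
        rcases max_cases 0 (k - σ) with ⟨h, _⟩ | ⟨h, _⟩ <;> rw [h] <;> nlinarith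
      have h6 := mul_le_mul_of_nonneg_left h5 (hw j).le
      have h7 : w j * ((1 + eta) * σ - (∑ l ∈ univ.filter (adj j), dJ j l * w l +
            ∑ u ∈ univ.filter (fun u => hadj u j), dU u j)) +
          w j * (∑ l ∈ univ.filter (adj j), dJ j l * w l +
          ∑ u ∈ univ.filter (fun u => hadj u j), dU u j + eJ j) = w j * ((1 + eta) * σ + eJ j) := by
        ring
      linarith
    · have h1 : ∑ i, w i * qJ i j = 0 := by
        refine sum_eq_zero (fun i _ => ?_)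
        have : qJ i j = 0 := by
          by_contra hne
          exact hpj (hqJ i j hne).2.2.1
        rw [this, mul_zero]
      have h2 : ∑ u, qU u j = 0 := by
        refine sum_eq_zero (fun u _ => ?_)
        by_contra hne
        exact hpj (hqU u j hne).1
      have h3 : DJ j ≤ σ + eJ j := by
        have e1 : ∑ l ∈ univ.filter (adj j), dJ j l * w l ≤ ∑ l ∈ univ.filter (adj j), w l :=
          sum_le_sum (fun l _ => mul_le_of_le_one_left (hw l).le (hdJ1 j l))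
        have e2 : ∑ u ∈ univ.filter (fun u => hadj u j), dU u j ≤
            ((univ.filter (fun u => hadj u j)).card : ℝ) := by
          refine (sum_le_sum (fun u _ => hdU1 u j)).trans (le_of_eq ?_)
          rw [sum_const, nsmul_eq_mul, mul_one]
        linarith [hDJ j]
      rw [h1, h2, add_zero, add_zero]
      refine mul_le_mul_of_nonneg_left ?_ (hw j).le
      have h9 := hfJ j
      have h10 := heJ j
      rcases le_or_gt (DJ j) k with hle | hgt
      · rcases max_cases 0 (k - σ) with ⟨h, _⟩ | ⟨h, _⟩ <;> rw [h] <;> nlinarith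
      · have := H1 j hpj hgt
        rcases max_cases 0 (k - σ) with ⟨h, _⟩ | ⟨h, _⟩ <;> rw [h] <;> nlinarith
  -- the hubs
  subst hwW
  set b : J → ℝ := fun j => Kr r * k + max 0 (k - sigma (fun j => (W j : ℝ)) adj hadj j) with hb
  choose s s2 Z p x g hg hss hdis hZ hxg hp2 hsum hD using H2
  have hU : ∀ u, DU u ≤ (1 + Kr r) * k + ∑ a ∈ s u ∪ s2 u, ∑ l ∈ Z u a,
      payc W adj hadj hm r0 Q k (aa r) (EE (Kr r) r) b u (payers hadj Q u (Z u a)) (p u a) l +
      ∑ j, qU u j + eU u := by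
    intro u
    have := hub_balance_t r hr k hk W hWpos adj hsymm hadj hm r0 Q hQ hQQ hmin u (s u) (s2 u)
      (Z u) (p u) (x u) (g u) (hss u) (hZ u) (hxg u) (hp2 u) (hsum u)
    rw [← hb] at this
    have := hD u
    linarith
  have hU' := sum_le_sum (fun u (_ : u ∈ (univ : Finset U)) => hU u)
  rw [sum_add_distrib, sum_add_distrib, sum_add_distrib, sum_const, nsmul_eq_mul, card_univ] at hU'
  have hinc : ∑ u, ∑ a ∈ s u ∪ s2 u, ∑ l ∈ Z u a,
      payc W adj hadj hm r0 Q k (aa r) (EE (Kr r) r) b u (payers hadj Q u (Z u a)) (p u a) l ≤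
      ∑ l, (W l : ℝ) * b l := by
    have e1 : ∑ u, ∑ a ∈ s u ∪ s2 u, ∑ l ∈ Z u a,
        payc W adj hadj hm r0 Q k (aa r) (EE (Kr r) r) b u (payers hadj Q u (Z u a)) (p u a) l =
        ∑ l, ∑ u, ∑ a ∈ (s u ∪ s2 u).filter (fun a => l ∈ Z u a),
        payc W adj hadj hm r0 Q k (aa r) (EE (Kr r) r) b u (payers hadj Q u (Z u a)) (p u a) l := by
      rw [sum_comm]
      refine sum_congr rfl (fun u _ => ?_)
      have e2 : ∀ l, ∑ a ∈ (s u ∪ s2 u).filter (fun a => l ∈ Z u a),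
          payc W adj hadj hm r0 Q k (aa r) (EE (Kr r) r) b u (payers hadj Q u (Z u a)) (p u a) l =
          ∑ a ∈ s u ∪ s2 u, if l ∈ Z u a then
            payc W adj hadj hm r0 Q k (aa r) (EE (Kr r) r) b u (payers hadj Q u (Z u a)) (p u a) l
            else 0 := fun l => sum_filter _ _
      rw [sum_congr rfl (fun l _ => e2 l), sum_comm]
      refine sum_congr rfl (fun a _ => ?_)
      rw [← sum_filter]
      congr 1
      ext l
      simp
    rw [e1]
    refine sum_le_sum (fun l _ => ?_)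
    exact pay_cell k (Kr r) hk hK0.le (aa r) (EE (Kr r) r) (aa_nonneg _)
      (aa_anti _ (by linarith)) (EE_nonneg _ _) (EE_anti _ _ hK0.le (by linarith))
      (hR_t _ _ hR hKe) W hWpos adj hadj hm r0 Q hQ hQQ hmin b
      (fun j => le_add_of_nonneg_right (le_max_left _ _))
      (fun u => s u ∪ s2 u) Z p hdis (fun u a ha => (hZ u a ha).2.1) l
  have hJ' := sum_le_sum (fun j (_ : j ∈ (univ : Finset J)) => HJ j)
  rw [sum_add_distrib, sum_add_distrib] at hJ'
  have hq1 : ∑ j, ∑ i, (W i : ℝ) * qJ i j = ∑ j, (W j : ℝ) * ∑ l, qJ j l := by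
    rw [sum_comm]
    exact sum_congr rfl (fun i _ => by rw [mul_sum])
  have hq2 : ∑ j, ∑ u, qU u j = ∑ u, ∑ j, qU u j := sum_comm
  have hs : ∑ j, (W j : ℝ) * (k - max 0 (k - sigma (fun j => (W j : ℝ)) adj hadj j) +
      (eJ j + fJ j + 3 * eta * k) + ∑ l, qJ j l) =
      (1 + Kr r) * k * ∑ j, (W j : ℝ) - ∑ j, (W j : ℝ) * b j +
        ∑ j, (W j : ℝ) * (eJ j + fJ j + 3 * eta * k) + ∑ j, (W j : ℝ) * ∑ l, qJ j l := by
    rw [mul_sum, ← sum_sub_distrib, ← sum_add_distrib, ← sum_add_distrib]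
    refine sum_congr rfl (fun j _ => ?_)
    rw [hb]
    ring
  rw [hs, hq1, hq2] at hJ'
  linarith

end LCS
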