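import Pool.Agent.Lib_MP_0bab5c_x.XGraphC
import Pool.Agent.Lib_MP_0bab5c_s.SGraphB
import Pool.Agent.Lib_MP_0bab5c_s.TCore

/-! # The bound for one graph

`w0 = 0`, `theta * (tau * k) = r0` is a natural number, so that the penalised boundary is `FF`.
-/

namespace LCS

open Finset LCX
open scoped Classical

variable {V J U : Type} [Fintype V] [Fintype J] [Fintype U]

theorem Kr_pos {r : ℕ} (hr : 2 ≤ r) : 0 < Kr r := by
  have h : (2 : ℝ) ≤ r := by exact_mod_cast hr
  unfold Kr
  have h2 : 0 < 4 * (r : ℝ) - 1 := by linarith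
  positivity

theorem FF_eq {H : Type} (w : J → ℝ) (adj : J → J → Prop) (hadj : U → J → Prop) (hm : J → H)
    {r0 : ℕ} {theta rho : ℝ} (hr0 : theta * rho = (r0 : ℝ)) (A : Finset J) :
    FF w adj hadj hm r0 A =
      beta w adj hadj A + theta * pen (fun _ => (0 : ℝ)) hm rho A := by
  unfold FF pen
  simp only [sum_const_zero]
  rw [← hr0]
  ring

private theorem gc_mul_div {a b : ℝ} (h : a ≠ 0) : a * (b / a) = b := by
  field_simp

private theorem gc_one {a e k B c : ℝ} (h : a ≠ 0) :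
    a * (0 + (7 * e * k + c * k * B / a) + 3 * (2 * e) * k) = 13 * e * k * a + c * k * B := by
  field_simp
  ring

private theorem gc_two {a b c : ℝ} (h : b ≠ 0) : c / a = c / (a * b) * b := by
  rw [div_mul_eq_mul_div, mul_div_mul_right _ _ h]

private theorem gc_three {a e k B S c : ℝ} (h : a ≠ 0) :
    (k + S / a + (7 * e * k + c * k * B / a)) * a = a * (k + 7 * e * k) + S + c * k * B := by
  field_simp
  ring

theorem graph_bound_s (r : ℕ) (hr : 2 ≤ r) {G P : SimpleGraph V} (hGP : G ≤ P)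
    {C k eta d0 e1 tau s q er theta : ℝ}
    (par : ParS C k eta d0 e1 tau s q er theta) (r0 : ℕ) (hr0 : theta * (tau * k) = (r0 : ℝ))
    {m : ℕ} {E : Fin m → Finset V}
    (hP : Clean P k C d0 e1 E) (hcuts : SmallCuts P k C) {cell : J → Finset V}
    {hm : J → Fin m} {phi : U → V} {adj : J → J → Prop} {hadj : U → J → Prop}
    (h : Red G k er s E cell hm phi adj hadj)
    (hnear : ∀ u j, hadj u j → phi u ∈ cn P E (hm j)) (M : ℕ)
    (hM : ∀ i, (univ.filter (fun j => hm j = i)).card ≤ M)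
    (del : ℝ) (hdel : 0 < del) (D N : ℕ) (hD : (C + 1) * ((C + 1) / e1 + 1) / del ≤ D)
    (hN1 : 2 / (theta * tau) ≤ N) (hN2 : 3 * del * (N : ℝ) ^ 2 ≤ eta)
    (hbig : (C + 1) * ((m * M * (⌊1 / q⌋₊ + 1) ^ (M * ⌊(C + 1) / e1⌋₊) : ℕ) : ℝ) +
      (C + 1) * ((1 + m ^ r * 2 ^ (r * (D + 1) ^ N) *
        (⌊1 / q⌋₊ + 1) ^ (M * (r * (D + 1) ^ N)) : ℕ) : ℝ) ≤ eta * (Fintype.card V : ℝ)) :
    ∑ v, ((nb G v).card : ℝ) ≤ (1 + Kr r) * k * (Fintype.card V : ℝ) +
      (20 / Kr r + 60) * eta * k * (Fintype.card V : ℝ) := by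
  have hk : 0 < k := by linarith [par.hk]
  have heta := par.heta
  have heta1 := par.heta1
  have hTk : 0 ≤ tau * k := (mul_pos par.htau hk).le
  have hC := par.hC
  have hC1 : 0 ≤ C + 1 := by linarith
  have hw : ∀ j, 0 < wt cell j := fun j => by
    unfold wt
    exact_mod_cast h.cpos j
  have hw0 : ∀ j, 0 ≤ wt cell j := fun j => (hw j).le
  have hKr := Kr_pos hr
  obtain ⟨w0, hw00⟩ : ∃ w0 : J → ℝ, w0 = fun _ => 0 := ⟨_, rfl⟩
  have hz0 : ∀ j, 0 ≤ w0 j := fun j => by rw [hw00]
  have hz1 : ∀ j, w0 j ≤ wt cell j := fun j => by rw [hw00]; exact hw0 j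
  obtain ⟨Q, hQ1, hQ2, hQ3⟩ := exists_closure
    (fun A => beta (wt cell) adj hadj A + theta * pen w0 hm (tau * k) A) (by
      intro A B
      have h1 := beta_submod (wt cell) hw0 adj hadj A B
      have h2 := pen_submod w0 hz0 hm (tau * k) hTk A B
      have h3 := mul_le_mul_of_nonneg_left h2 par.hth.le
      rw [mul_add, mul_add] at h3
      linarith)
  obtain ⟨qU, eU, hqU0, hqU2, hqU3, heU0, hHub, heUs⟩ := hubs_all_s w0 hz0 r (by omega) (Kr r) hKr
    hGP par hP hcuts h hz1 hnear M hM del hdel D N hD hN1 hN2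
  have hHub2 : ∀ u, HubOKt (Fin m) r (Kr r) k (wt cell) adj hadj hm r0 u
      (((nb G (phi u)).card : ℝ) - ∑ j, qU u j - eU u) := by
    intro u
    have h1 := hHub u
    rw [hw00] at h1
    exact h1.toT hr0
  clear hHub
  obtain ⟨X2, hX2⟩ : ∃ X2 : ℕ, X2 = 1 + m ^ r * 2 ^ (r * (D + 1) ^ N) *
      (⌊1 / q⌋₊ + 1) ^ (M * (r * (D + 1) ^ N)) := ⟨_, rfl⟩
  rw [← hX2] at heUs hbig
  clear hX2
  set Bd : ℝ := (((⌊1 / q⌋₊ + 1) ^ (M * ⌊(C + 1) / e1⌋₊) : ℕ) : ℝ) with hBd
  have hBd0 : 0 ≤ Bd := Nat.cast_nonneg _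
  set DJ : J → ℝ := fun j => (∑ x ∈ cell j, ((nb G x).card : ℝ)) / wt cell j with hDJ
  have hwDJ : ∀ j, wt cell j * DJ j = ∑ x ∈ cell j, ((nb G x).card : ℝ) := by
    intro j
    exact gc_mul_div (hw j).ne'
  set rs : J → J → ℝ := fun i j => ∑ x ∈ cell i, reqS G E cell C k d0 e1 tau q x j with hrs
  have hrs0 : ∀ i j, 0 ≤ rs i j := fun i j => sum_nonneg (fun x _ => reqS_nonneg _ _ _ _ _ _ _ _ _ _ _)
  have hrs1 : ∀ i j, aJ G cell i j + rs i j ≤ wt cell i * ((1 + q) * wt cell j) := by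
    intro i j
    rw [hrs]
    unfold aJ
    simp only
    rw [← sum_add_distrib]
    refine (sum_le_card_nsmul _ _ ((1 + q) * wt cell j) (fun x _ =>
      reqS_le G E cell C k d0 e1 tau par.hq.le x j)).trans (le_of_eq (nsmul_eq_mul _ _))
  set qJ : J → J → ℝ := fun i j =>
    if (k < DJ i ∧ ¬ Poor k eta cell adj hadj i ∧ Poor k eta cell adj hadj j ∧ adj i j) then
      rs i j / wt cell i else 0 with hqJ
  have hqJ0 : ∀ i j, 0 ≤ qJ i j := by
    intro i j
    rw [hqJ]
    simp only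
    split_ifs
    · exact div_nonneg (hrs0 i j) (hw0 i)
    · exact le_rfl
  have hcore := core_t (iota := Fin m) r hr k (2 * eta) hk (by linarith) (by linarith)
    (fun j => (cell j).card) (wt cell) (fun j => rfl) hw adj
    h.symm hadj hm r0 Q hQ1 hQ3 (fun j A hA => by
      rw [FF_eq (wt cell) adj hadj hm hr0, FF_eq (wt cell) adj hadj hm hr0, ← hw00]
      exact hQ2 j A hA) (fun i j => aJ G cell i j / (wt cell i * wt cell j)) ?_ ?_ ?_
    (fun u j => ((nb G (phi u) ∩ cell j).card : ℝ) / wt cell j) ?_ ?_ DJ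
    (fun u => ((nb G (phi u)).card : ℝ)) (fun _ => 0)
    (fun j => 7 * eta * k + (C + 1) * k * Bd / wt cell j) eU ?_ ?_ heU0 ?_
    (Poor k eta cell adj hadj) (fun j hj => hj) qJ qU hqJ0 hqU0 ?_ ?_ hqU2 ?_ ?_
    hHub2
  · -- conclusion
    have e1' : ∑ j, wt cell j * DJ j + ∑ u, ((nb G (phi u)).card : ℝ) =
        ∑ v, ((nb G v).card : ℝ) := by
      rw [sum_split h]
      congr 1
      exact sum_congr rfl (fun j _ => hwDJ j)
    rw [e1'] at hcore
    have e2' := card_split h
    rw [← e2'] at hcore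
    have e3 : ∑ j, wt cell j * (0 + (7 * eta * k + (C + 1) * k * Bd / wt cell j) +
        3 * (2 * eta) * k) = 13 * eta * k * ∑ j, wt cell j +
          (C + 1) * k * Bd * (Fintype.card J : ℝ) := by
      rw [mul_sum]
      have : (C + 1) * k * Bd * (Fintype.card J : ℝ) = ∑ j : J, (C + 1) * k * Bd := by
        rw [sum_const, card_univ, nsmul_eq_mul]
        ring
      rw [this, ← sum_add_distrib]
      refine sum_congr rfl (fun j _ => ?_)
      exact gc_one (hw j).ne'
    rw [e3] at hcore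
    have e4 : (Fintype.card J : ℝ) ≤ m * M := by exact_mod_cast card_cells hm M hM
    have e5 : (C + 1) * k * Bd * (Fintype.card J : ℝ) ≤ (C + 1) * k * Bd * (m * M) :=
      mul_le_mul_of_nonneg_left e4 (by positivity)
    have e6 : ∑ j, wt cell j ≤ (Fintype.card V : ℝ) := by
      rw [e2']
      have : (0 : ℝ) ≤ (Fintype.card U : ℝ) := Nat.cast_nonneg _
      linarith
    have e7 : (Fintype.card U : ℝ) ≤ (Fintype.card V : ℝ) := by
      rw [e2']
      have : (0 : ℝ) ≤ ∑ j, wt cell j := sum_nonneg (fun j _ => hw0 j)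
      linarith
    have hek : 0 < eta * k := mul_pos heta hk
    have e8 : 13 * eta * k * ∑ j, wt cell j ≤ 13 * eta * k * (Fintype.card V : ℝ) :=
      mul_le_mul_of_nonneg_left e6 (by positivity)
    have e9 : (20 / Kr r + 40) * eta * k * (Fintype.card U : ℝ) ≤
        (20 / Kr r + 40) * eta * k * (Fintype.card V : ℝ) :=
      mul_le_mul_of_nonneg_left e7 (by positivity)
    have e10 := mul_le_mul_of_nonneg_left hbig hk.le
    have e11 : ((m * M * (⌊1 / q⌋₊ + 1) ^ (M * ⌊(C + 1) / e1⌋₊) : ℕ) : ℝ) = Bd * (m * M) := by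
      rw [hBd]
      push_cast
      ring
    rw [e11] at e10
    have e12 : 0 ≤ eta * k * (Fintype.card V : ℝ) := by positivity
    have e13 : k * ((C + 1) * (Bd * (m * M)) + (C + 1) * (X2 : ℝ)) =
        (C + 1) * k * Bd * (m * M) + (C + 1) * k * (X2 : ℝ) := by
      ring
    rw [e13] at e10
    have e14 : (20 / Kr r + 60) * eta * k * (Fintype.card V : ℝ) =
        (20 / Kr r + 40) * eta * k * (Fintype.card V : ℝ) +
          20 * (eta * k * (Fintype.card V : ℝ)) := by ring
    rw [e14]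
    linarith
  · intro i j
    exact div_nonneg (aJ_nonneg _ _ _ _) (mul_nonneg (hw0 i) (hw0 j))
  · intro i j
    rw [div_le_one (mul_pos (hw i) (hw j))]
    exact aJ_le G cell i j
  · intro i j
    rw [aJ_symm, mul_comm]
  · intro u j
    exact div_nonneg (Nat.cast_nonneg _) (hw0 j)
  · intro u j
    rw [div_le_one (hw j)]
    unfold wt
    exact_mod_cast card_le_card inter_subset_right
  · intro j
    exact le_rfl
  · intro j
    have := hw j
    positivity
  · intro j
    rw [hDJ]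
    simp only
    rw [deg_cell h j, add_div, sum_div, sum_div, add_zero]
    apply le_of_eq
    congr 1
    refine sum_congr rfl (fun l _ => ?_)
    exact gc_two (hw l).ne'
  · intro i j hij
    by_contra hcon
    apply hij
    rw [hqJ]
    simp only
    rw [if_neg hcon]
  · intro i j hij
    have h1 := (hw i)
    have h2 := (hw j)
    have e1' : aJ G cell i j / (wt cell i * wt cell j) * wt cell j = aJ G cell i j / wt cell i :=
      (gc_two h2.ne').symm
    have e2' : qJ i j ≤ rs i j / wt cell i := by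
      rw [hqJ]
      simp only
      split_ifs
      · exact le_rfl
      · exact div_nonneg (hrs0 i j) h1.le
    have e3 : aJ G cell i j / wt cell i + rs i j / wt cell i ≤ (1 + q) * wt cell j := by
      rw [← add_div, div_le_iff₀ h1]
      have := hrs1 i j
      linarith
    have e4 : (1 + q) * wt cell j ≤ (1 + 2 * eta) * wt cell j :=
      mul_le_mul_of_nonneg_right (by linarith [par.a9]) h2.le
    rw [e1']
    linarith
  · intro u j huj
    have h2 := (hw j)
    have e1' : ((nb G (phi u) ∩ cell j).card : ℝ) / wt cell j * wt cell j =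
        ((nb G (phi u) ∩ cell j).card : ℝ) := div_mul_cancel₀ _ h2.ne'
    have e4 : (1 + q) * wt cell j ≤ (1 + 2 * eta) * wt cell j :=
      mul_le_mul_of_nonneg_right (by linarith [par.a9]) h2.le
    rw [e1']
    linarith [hqU3 u j]
  · intro i hi hki
    have h1 := cell_sum_w w0 hz0 hGP par hP hcuts h hz1 hnear M hM Q hQ1 hQ2 i
    have h2 : ∑ j, qJ i j = (∑ l ∈ univ.filter (fun l => Poor k eta cell adj hadj l ∧ adj i l),
        rs i l) / wt cell i := by
      rw [sum_div, sum_filter]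
      refine sum_congr rfl (fun j _ => ?_)
      rw [hqJ]
      simp only
      by_cases hj : Poor k eta cell adj hadj j ∧ adj i j
      · rw [if_pos hj, if_pos ⟨hki, hi, hj.1, hj.2⟩]
      · rw [if_neg hj, if_neg (fun hc => hj ⟨hc.2.2.1, hc.2.2.2⟩)]
    rw [h2]
    have h3 := hw i
    have h4 : DJ i = (∑ x ∈ cell i, ((nb G x).card : ℝ)) / wt cell i := rfl
    rw [h4, div_le_iff₀ h3]
    have h5 : (k + (∑ l ∈ univ.filter (fun l => Poor k eta cell adj hadj l ∧ adj i l),
        rs i l) / wt cell i + (7 * eta * k + (C + 1) * k * Bd / wt cell i)) * wt cell i =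
        wt cell i * (k + 7 * eta * k) +
          ∑ l ∈ univ.filter (fun l => Poor k eta cell adj hadj l ∧ adj i l), rs i l +
          (C + 1) * k * Bd := by
      exact gc_three h3.ne'
    rw [h5]
    exact h1

end LCS
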