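import Mathlib

/-! # Polynomial inequalities (Bernstein certificates) -/

namespace LCS

theorem bD_1 (P σ : ℝ) (h1 : 59/200 ≤ P) (h2 : P ≤ 613/1600)
    (h3 : 0 ≤ σ) (h4 : σ ≤ 1/8) :
    0 ≤ 4 * ((16 - 4 * σ) * P - σ * (P - 59 / 200)) * (P ^ 2 * (16 - 4 * σ + σ ^ 2)) -
      ((16 - 4 * σ) * P * (1 + P) - (259 / 200 - P) * (1 - σ * P) - σ * (P - 59 / 200)) ^ 2 := by
  have key : ∀ a b c d : ℝ, 0 ≤ a → 0 ≤ b → 0 ≤ c → 0 ≤ d → 0 ≤
      (6291590217728/4879681) * b ^ 4 * d ^ 3 +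
      (144890956611584/43917129) * b ^ 4 * c * d ^ 2 +
      (1171745330954240/395254161) * b ^ 4 * c ^ 2 * d +
      (374653585457152/395254161) * b ^ 4 * c ^ 3 +
      (383506286903296/131751387) * a * b ^ 3 * d ^ 3 +
      (86329214894080/14639043) * a * b ^ 3 * c * d ^ 2 +
      (1665480628207616/395254161) * a * b ^ 3 * c ^ 2 * d +
      (471729388601344/395254161) * a * b ^ 3 * c ^ 3 +
      (169910984507392/43917129) * a ^ 2 * b ^ 2 * d ^ 3 +
      (89519648079872/14639043) * a ^ 2 * b ^ 2 * c * d ^ 2 +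
      (361256493283840/131751387) * a ^ 2 * b ^ 2 * c ^ 2 * d +
      (57034939386368/131751387) * a ^ 2 * b ^ 2 * c ^ 3 +
      (228210179571712/43917129) * a ^ 3 * b * d ^ 3 +
      (472764463603712/43917129) * a ^ 3 * b * c * d ^ 2 +
      (3029953949320832/395254161) * a ^ 3 * b * c ^ 2 * d +
      (808585761768832/395254161) * a ^ 3 * b * c ^ 3 +
      (371262018420736/131751387) * a ^ 4 * d ^ 3 +
      (100494333679616/14639043) * a ^ 4 * c * d ^ 2 +
      (2292515260935992/395254161) * a ^ 4 * c ^ 2 * d +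
      (686718345139768/395254161) * a ^ 4 * c ^ 3 := by
    intro a b c d ha hb hc hd
    positivity
  have := key (P - 59/200) (613/1600 - P) (σ - 0) (1/8 - σ)
    (by linarith) (by linarith) (by linarith) (by linarith)
  refine this.trans (le_of_eq ?_)
  ring

theorem bD_2 (P σ : ℝ) (h1 : 613/1600 ≤ P) (h2 : P ≤ 377/800)
    (h3 : 0 ≤ σ) (h4 : σ ≤ 1/8) :
    0 ≤ 4 * ((16 - 4 * σ) * P - σ * (P - 59 / 200)) * (P ^ 2 * (16 - 4 * σ + σ ^ 2)) -
      ((16 - 4 * σ) * P * (1 + P) - (259 / 200 - P) * (1 - σ * P) - σ * (P - 59 / 200)) ^ 2 := by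
  have key : ∀ a b c d : ℝ, 0 ≤ a → 0 ≤ b → 0 ≤ c → 0 ≤ d → 0 ≤
      (371262018420736/131751387) * b ^ 4 * d ^ 3 +
      (100494333679616/14639043) * b ^ 4 * c * d ^ 2 +
      (2292515260935992/395254161) * b ^ 4 * c ^ 2 * d +
      (686718345139768/395254161) * b ^ 4 * c ^ 3 +
      (2285465608650752/131751387) * a * b ^ 3 * d ^ 3 +
      (1939099544707072/43917129) * a * b ^ 3 * c * d ^ 2 +
      (15310168138167104/395254161) * a * b ^ 3 * c ^ 2 * d +
      (4685160999349312/395254161) * a * b ^ 3 * c ^ 3 +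
      (590248684814336/14639043) * a ^ 2 * b ^ 2 * d ^ 3 +
      (1555854729183232/14639043) * a ^ 2 * b ^ 2 * c * d ^ 2 +
      (12641470682130112/131751387) * a ^ 2 * b ^ 2 * c ^ 2 * d +
      (3933610176966848/131751387) * a ^ 2 * b ^ 2 * c ^ 3 +
      (5320243652067328/131751387) * a ^ 3 * b * d ^ 3 +
      (532170066919424/4879681) * a ^ 3 * b * c * d ^ 2 +
      (39670638249300224/395254161) * a ^ 3 * b * c ^ 2 * d +
      (12484647787281664/395254161) * a ^ 3 * b * c ^ 3 +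
      (1904940161171456/131751387) * a ^ 4 * d ^ 3 +
      (1742763751997440/43917129) * a ^ 4 * c * d ^ 2 +
      (14616474574354304/395254161) * a ^ 4 * c ^ 2 * d +
      (4634421508976512/395254161) * a ^ 4 * c ^ 3 := by
    intro a b c d ha hb hc hd
    positivity
  have := key (P - 613/1600) (377/800 - P) (σ - 0) (1/8 - σ)
    (by linarith) (by linarith) (by linarith) (by linarith)
  refine this.trans (le_of_eq ?_)
  ring

theorem bD_3 (P σ : ℝ) (h1 : 59/200 ≤ P) (h2 : P ≤ 613/1600)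
    (h3 : 1/8 ≤ σ) (h4 : σ ≤ 3/16) :
    0 ≤ 4 * ((16 - 4 * σ) * P - σ * (P - 59 / 200)) * (P ^ 2 * (16 - 4 * σ + σ ^ 2)) -
      ((16 - 4 * σ) * P * (1 + P) - (259 / 200 - P) * (1 - σ * P) - σ * (P - 59 / 200)) ^ 2 := by
  have key : ∀ a b c d : ℝ, 0 ≤ a → 0 ≤ b → 0 ≤ c → 0 ≤ d → 0 ≤
      (2997228683657216/395254161) * b ^ 4 * d ^ 3 +
      (8800547752640512/395254161) * b ^ 4 * c * d ^ 2 +
      (2926128954081280/131751387) * b ^ 4 * c ^ 2 * d +
      (330263983292416/43917129) * b ^ 4 * c ^ 3 +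
      (3773835108810752/395254161) * a * b ^ 3 * d ^ 3 +
      (10320335476817920/395254161) * a * b ^ 3 * c * d ^ 2 +
      (3383132350087168/131751387) * a * b ^ 3 * c ^ 2 * d +
      (1196505128026112/131751387) * a * b ^ 3 * c ^ 3 +
      (456279515090944/131751387) * a ^ 2 * b ^ 2 * d ^ 3 +
      (608231844773888/131751387) * a ^ 2 * b ^ 2 * c * d ^ 2 +
      (118720824298496/43917129) * a ^ 2 * b ^ 2 * c ^ 2 * d +
      (65310822837248/43917129) * a ^ 2 * b ^ 2 * c ^ 3 +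
      (6468686094150656/395254161) * a ^ 3 * b * d ^ 3 +
      (16989271626394624/395254161) * a ^ 3 * b * c * d ^ 2 +
      (5271314696177920/131751387) * a ^ 3 * b * c ^ 2 * d +
      (65098505247232/4879681) * a ^ 3 * b * c ^ 3 +
      (5493746761118144/395254161) * a ^ 4 * d ^ 3 +
      (15551799381287680/395254161) * a ^ 4 * c * d ^ 2 +
      (4999767175004944/131751387) * a ^ 4 * c ^ 2 * d +
      (1645004314378832/131751387) * a ^ 4 * c ^ 3 := by
    intro a b c d ha hb hc hd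
    positivity
  have := key (P - 59/200) (613/1600 - P) (σ - 1/8) (3/16 - σ)
    (by linarith) (by linarith) (by linarith) (by linarith)
  refine this.trans (le_of_eq ?_)
  ring

theorem bD_4 (P σ : ℝ) (h1 : 59/200 ≤ P) (h2 : P ≤ 613/1600)
    (h3 : 3/16 ≤ σ) (h4 : σ ≤ 1/4) :
    0 ≤ 4 * ((16 - 4 * σ) * P - σ * (P - 59 / 200)) * (P ^ 2 * (16 - 4 * σ + σ ^ 2)) -
      ((16 - 4 * σ) * P * (1 + P) - (259 / 200 - P) * (1 - σ * P) - σ * (P - 59 / 200)) ^ 2 := by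
  have key : ∀ a b c d : ℝ, 0 ≤ a → 0 ≤ b → 0 ≤ c → 0 ≤ d → 0 ≤
      (330263983292416/43917129) * b ^ 4 * d ^ 3 +
      (3018622745182208/131751387) * b ^ 4 * c * d ^ 2 +
      (9355510499246080/395254161) * b ^ 4 * c ^ 2 * d +
      (1089775389900800/131751387) * b ^ 4 * c ^ 3 +
      (1196505128026112/131751387) * a * b ^ 3 * d ^ 3 +
      (3795898418069504/131751387) * a * b ^ 3 * c * d ^ 2 +
      (12796931884711936/395254161) * a * b ^ 3 * c ^ 2 * d +
      (184643359866880/14639043) * a * b ^ 3 * c ^ 3 +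
      (65310822837248/43917129) * a ^ 2 * b ^ 2 * d ^ 3 +
      (273144112724992/43917129) * a ^ 2 * b ^ 2 * c * d ^ 2 +
      (1534771575332864/131751387) * a ^ 2 * b ^ 2 * c ^ 2 * d +
      (33444223369216/4879681) * a ^ 2 * b ^ 2 * c ^ 3 +
      (65098505247232/4879681) * a ^ 3 * b * d ^ 3 +
      (5274643153873664/131751387) * a ^ 3 * b * c * d ^ 2 +
      (17009242372569088/395254161) * a ^ 3 * b * c ^ 2 * d +
      (2145970734903296/131751387) * a ^ 3 * b * c ^ 3 +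
      (1645004314378832/131751387) * a ^ 4 * d ^ 3 +
      (4870258711268048/131751387) * a ^ 4 * c * d ^ 2 +
      (14774748598866304/395254161) * a ^ 4 * c ^ 2 * d +
      (565861049609984/43917129) * a ^ 4 * c ^ 3 := by
    intro a b c d ha hb hc hd
    positivity
  have := key (P - 59/200) (613/1600 - P) (σ - 3/16) (1/4 - σ)
    (by linarith) (by linarith) (by linarith) (by linarith)
  refine this.trans (le_of_eq ?_)
  ring

theorem bD_5 (P σ : ℝ) (h1 : 613/1600 ≤ P) (h2 : P ≤ 377/800)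
    (h3 : 1/8 ≤ σ) (h4 : σ ≤ 1/4) :
    0 ≤ 4 * ((16 - 4 * σ) * P - σ * (P - 59 / 200)) * (P ^ 2 * (16 - 4 * σ + σ ^ 2)) -
      ((16 - 4 * σ) * P * (1 + P) - (259 / 200 - P) * (1 - σ * P) - σ * (P - 59 / 200)) ^ 2 := by
  have key : ∀ a b c d : ℝ, 0 ≤ a → 0 ≤ b → 0 ≤ c → 0 ≤ d → 0 ≤
      (686718345139768/395254161) * b ^ 4 * d ^ 3 +
      (1827794809902616/395254161) * b ^ 4 * c * d ^ 2 +
      (1783906107282880/395254161) * b ^ 4 * c ^ 2 * d +
      (70732631201248/43917129) * b ^ 4 * c ^ 3 +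
      (4685160999349312/395254161) * a * b ^ 3 * d ^ 3 +
      (12800797857928768/395254161) * a * b ^ 3 * c * d ^ 2 +
      (12433155341886976/395254161) * a * b ^ 3 * c ^ 2 * d +
      (1429336806967040/131751387) * a * b ^ 3 * c ^ 3 +
      (3933610176966848/131751387) * a ^ 2 * b ^ 2 * d ^ 3 +
      (10960190379670976/131751387) * a ^ 2 * b ^ 2 * c * d ^ 2 +
      (10640131957730816/131751387) * a ^ 2 * b ^ 2 * c ^ 2 * d +
      (1198715216394496/43917129) * a ^ 2 * b ^ 2 * c ^ 3 +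
      (12484647787281664/395254161) * a ^ 3 * b * d ^ 3 +
      (35237248474389760/395254161) * a ^ 3 * b * c * d ^ 2 +
      (34238995870652416/395254161) * a ^ 3 * b * c ^ 2 * d +
      (1271716576199680/43917129) * a ^ 3 * b * c ^ 3 +
      (4634421508976512/395254161) * a ^ 4 * d ^ 3 +
      (13190054479504768/395254161) * a ^ 4 * c * d ^ 2 +
      (12832033578277888/395254161) * a ^ 4 * c ^ 2 * d +
      (1421466942278144/131751387) * a ^ 4 * c ^ 3 := by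
    intro a b c d ha hb hc hd
    positivity
  have := key (P - 613/1600) (377/800 - P) (σ - 1/8) (1/4 - σ)
    (by linarith) (by linarith) (by linarith) (by linarith)
  refine this.trans (le_of_eq ?_)
  ring

theorem bD_6 (P σ : ℝ) (h1 : 377/800 ≤ P) (h2 : P ≤ 259/400)
    (h3 : 0 ≤ σ) (h4 : σ ≤ 1/4) :
    0 ≤ 4 * ((16 - 4 * σ) * P - σ * (P - 59 / 200)) * (P ^ 2 * (16 - 4 * σ + σ ^ 2)) -
      ((16 - 4 * σ) * P * (1 + P) - (259 / 200 - P) * (1 - σ * P) - σ * (P - 59 / 200)) ^ 2 := by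
  have key : ∀ a b c d : ℝ, 0 ≤ a → 0 ≤ b → 0 ≤ c → 0 ≤ d → 0 ≤
      (14882345009152/131751387) * b ^ 4 * d ^ 3 +
      (4116112871936/14639043) * b ^ 4 * c * d ^ 2 +
      (100553630281660/395254161) * b ^ 4 * c ^ 2 * d +
      (11105210486548/131751387) * b ^ 4 * c ^ 3 +
      (95459333046272/131751387) * a * b ^ 3 * d ^ 3 +
      (81636039132160/43917129) * a * b ^ 3 * c * d ^ 2 +
      (673180373006272/395254161) * a * b ^ 3 * c ^ 2 * d +
      (2727807827008/4879681) * a * b ^ 3 * c ^ 3 +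
      (8203511463936/4879681) * a ^ 2 * b ^ 2 * d ^ 3 +
      (64543128684544/14639043) * a ^ 2 * b ^ 2 * c * d ^ 2 +
      (537445366696160/131751387) * a ^ 2 * b ^ 2 * c ^ 2 * d +
      (58518495742112/43917129) * a ^ 2 * b ^ 2 * c ^ 3 +
      (216018525356032/131751387) * a ^ 3 * b * d ^ 3 +
      (21297554190336/4879681) * a ^ 3 * b * c * d ^ 2 +
      (1607796135963904/395254161) * a ^ 3 * b * c ^ 2 * d +
      (174790199580928/131751387) * a ^ 3 * b * c ^ 3 +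
      (72942089142272/131751387) * a ^ 4 * d ^ 3 +
      (65290115301376/43917129) * a ^ 4 * c * d ^ 2 +
      (550643421966784/395254161) * a ^ 4 * c ^ 2 * d +
      (6660645209408/14639043) * a ^ 4 * c ^ 3 := by
    intro a b c d ha hb hc hd
    positivity
  have := key (P - 377/800) (259/400 - P) (σ - 0) (1/4 - σ)
    (by linarith) (by linarith) (by linarith) (by linarith)
  refine this.trans (le_of_eq ?_)
  ring

theorem bD_7 (P σ : ℝ) (h1 : 59/200 ≤ P) (h2 : P ≤ 613/1600)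
    (h3 : 1/4 ≤ σ) (h4 : σ ≤ 3/8) :
    0 ≤ 4 * ((16 - 4 * σ) * P - σ * (P - 59 / 200)) * (P ^ 2 * (16 - 4 * σ + σ ^ 2)) -
      ((16 - 4 * σ) * P * (1 + P) - (259 / 200 - P) * (1 - σ * P) - σ * (P - 59 / 200)) ^ 2 := by
  have key : ∀ a b c d : ℝ, 0 ≤ a → 0 ≤ b → 0 ≤ c → 0 ≤ d → 0 ≤
      (136221923737600/131751387) * b ^ 4 * d ^ 3 +
      (1339114316103680/395254161) * b ^ 4 * c * d ^ 2 +
      (509548063883264/131751387) * b ^ 4 * c ^ 2 * d +
      (66167078125568/43917129) * b ^ 4 * c ^ 3 +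
      (23080419983360/14639043) * a * b ^ 3 * d ^ 3 +
      (2409309084778496/395254161) * a * b ^ 3 * c * d ^ 2 +
      (1108025322635264/131751387) * a * b ^ 3 * c ^ 2 * d +
      (508185641500672/131751387) * a * b ^ 3 * c ^ 3 +
      (4180527921152/4879681) * a ^ 2 * b ^ 2 * d ^ 3 +
      (632175391006720/131751387) * a ^ 2 * b ^ 2 * c * d ^ 2 +
      (385054553536000/43917129) * a ^ 2 * b ^ 2 * c ^ 2 * d +
      (209194949590528/43917129) * a ^ 2 * b ^ 2 * c ^ 3 +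
      (268246341862912/131751387) * a ^ 3 * b * d ^ 3 +
      (2990340637156352/395254161) * a ^ 3 * b * c * d ^ 2 +
      (1375351620950912/131751387) * a ^ 3 * b * c ^ 2 * d +
      (71113837778560/14639043) * a ^ 3 * b * c ^ 3 +
      (70732631201248/43917129) * a ^ 4 * d ^ 3 +
      (2035655977584512/395254161) * a ^ 4 * c * d ^ 2 +
      (777098183501960/131751387) * a ^ 4 * c ^ 2 * d +
      (308665430674600/131751387) * a ^ 4 * c ^ 3 := by
    intro a b c d ha hb hc hd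
    positivity
  have := key (P - 59/200) (613/1600 - P) (σ - 1/4) (3/8 - σ)
    (by linarith) (by linarith) (by linarith) (by linarith)
  refine this.trans (le_of_eq ?_)
  ring

theorem bD_8 (P σ : ℝ) (h1 : 613/1600 ≤ P) (h2 : P ≤ 377/800)
    (h3 : 1/4 ≤ σ) (h4 : σ ≤ 3/8) :
    0 ≤ 4 * ((16 - 4 * σ) * P - σ * (P - 59 / 200)) * (P ^ 2 * (16 - 4 * σ + σ ^ 2)) -
      ((16 - 4 * σ) * P * (1 + P) - (259 / 200 - P) * (1 - σ * P) - σ * (P - 59 / 200)) ^ 2 := by
  have key : ∀ a b c d : ℝ, 0 ≤ a → 0 ≤ b → 0 ≤ c → 0 ≤ d → 0 ≤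
      (70732631201248/43917129) * b ^ 4 * d ^ 3 +
      (2035655977584512/395254161) * b ^ 4 * c * d ^ 2 +
      (777098183501960/131751387) * b ^ 4 * c ^ 2 * d +
      (308665430674600/131751387) * b ^ 4 * c ^ 3 +
      (1429336806967040/131751387) * a * b ^ 3 * d ^ 3 +
      (13294907183519744/395254161) * a * b ^ 3 * c * d ^ 2 +
      (4841433847064768/131751387) * a * b ^ 3 * c ^ 2 * d +
      (1829298905389760/131751387) * a * b ^ 3 * c ^ 3 +
      (1198715216394496/43917129) * a ^ 2 * b ^ 2 * d ^ 3 +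
      (10936741937370112/131751387) * a ^ 2 * b ^ 2 * c * d ^ 2 +
      (3851136779649856/43917129) * a ^ 2 * b ^ 2 * c ^ 2 * d +
      (155385479441472/4879681) * a ^ 2 * b ^ 2 * c ^ 3 +
      (1271716576199680/43917129) * a ^ 3 * b * d ^ 3 +
      (34433699244130304/395254161) * a ^ 3 * b * c * d ^ 2 +
      (11875551740448512/131751387) * a ^ 3 * b * c ^ 2 * d +
      (4199153055088384/131751387) * a ^ 3 * b * c ^ 3 +
      (1421466942278144/131751387) * a ^ 4 * d ^ 3 +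
      (12754371382728704/395254161) * a ^ 4 * c * d ^ 2 +
      (4344910029468800/131751387) * a ^ 4 * c ^ 2 * d +
      (1510919917198976/131751387) * a ^ 4 * c ^ 3 := by
    intro a b c d ha hb hc hd
    positivity
  have := key (P - 613/1600) (377/800 - P) (σ - 1/4) (3/8 - σ)
    (by linarith) (by linarith) (by linarith) (by linarith)
  refine this.trans (le_of_eq ?_)
  ring

theorem bD_9 (P σ : ℝ) (h1 : 59/200 ≤ P) (h2 : P ≤ 377/800)
    (h3 : 3/8 ≤ σ) (h4 : σ ≤ 1/2) :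
    0 ≤ 4 * ((16 - 4 * σ) * P - σ * (P - 59 / 200)) * (P ^ 2 * (16 - 4 * σ + σ ^ 2)) -
      ((16 - 4 * σ) * P * (1 + P) - (259 / 200 - P) * (1 - σ * P) - σ * (P - 59 / 200)) ^ 2 := by
  have key : ∀ a b c d : ℝ, 0 ≤ a → 0 ≤ b → 0 ≤ c → 0 ≤ d → 0 ≤
      (4135442382848/43917129) * b ^ 4 * d ^ 3 +
      (42591208898560/131751387) * b ^ 4 * c * d ^ 2 +
      (148161374191616/395254161) * b ^ 4 * c ^ 2 * d +
      (57438482464768/395254161) * b ^ 4 * c ^ 3 +
      (13897896593408/131751387) * a * b ^ 3 * d ^ 3 +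
      (72271230201856/131751387) * a * b ^ 3 * c * d ^ 2 +
      (333315541630976/395254161) * a * b ^ 3 * c ^ 2 * d +
      (157195864440832/395254161) * a * b ^ 3 * c ^ 3 +
      (13588186507136/43917129) * a ^ 2 * b ^ 2 * d ^ 3 +
      (60075138002816/43917129) * a ^ 2 * b ^ 2 * c * d ^ 2 +
      (255996443444224/131751387) * a ^ 2 * b ^ 2 * c ^ 2 * d +
      (115802339600384/131751387) * a ^ 2 * b ^ 2 * c ^ 3 +
      (49054717528768/43917129) * a ^ 3 * b * d ^ 3 +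
      (484768455328960/131751387) * a ^ 3 * b * c * d ^ 2 +
      (1634931530674688/395254161) * a ^ 3 * b * c ^ 2 * d +
      (620000317957120/395254161) * a ^ 3 * b * c ^ 3 +
      (94432494824936/131751387) * a ^ 4 * d ^ 3 +
      (295038092107816/131751387) * a ^ 4 * c * d ^ 2 +
      (938035503016640/395254161) * a ^ 4 * c ^ 2 * d +
      (335468724860800/395254161) * a ^ 4 * c ^ 3 := by
    intro a b c d ha hb hc hd
    positivity
  have := key (P - 59/200) (377/800 - P) (σ - 3/8) (1/2 - σ)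
    (by linarith) (by linarith) (by linarith) (by linarith)
  refine this.trans (le_of_eq ?_)
  ring

theorem bD_10 (P σ : ℝ) (h1 : 377/800 ≤ P) (h2 : P ≤ 259/400)
    (h3 : 1/4 ≤ σ) (h4 : σ ≤ 1/2) :
    0 ≤ 4 * ((16 - 4 * σ) * P - σ * (P - 59 / 200)) * (P ^ 2 * (16 - 4 * σ + σ ^ 2)) -
      ((16 - 4 * σ) * P * (1 + P) - (259 / 200 - P) * (1 - σ * P) - σ * (P - 59 / 200)) ^ 2 := by
  have key : ∀ a b c d : ℝ, 0 ≤ a → 0 ≤ b → 0 ≤ c → 0 ≤ d → 0 ≤
      (11105210486548/131751387) * b ^ 4 * d ^ 3 +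
      (99340158476204/395254161) * b ^ 4 * c * d ^ 2 +
      (108708103931360/395254161) * b ^ 4 * c ^ 2 * d +
      (41933590607600/395254161) * b ^ 4 * c ^ 3 +
      (2727807827008/4879681) * a * b ^ 3 * d ^ 3 +
      (652534230919616/395254161) * a * b ^ 3 * c * d ^ 2 +
      (693432068016128/395254161) * a * b ^ 3 * c ^ 2 * d +
      (257968685116160/395254161) * a * b ^ 3 * c ^ 3 +
      (58518495742112/43917129) * a ^ 2 * b ^ 2 * d ^ 3 +
      (515887556661856/131751387) * a ^ 2 * b ^ 2 * c * d ^ 2 +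
      (537772538092288/131751387) * a ^ 2 * b ^ 2 * c ^ 2 * d +
      (194943937821568/131751387) * a ^ 2 * b ^ 2 * c ^ 3 +
      (174790199580928/131751387) * a ^ 3 * b * d ^ 3 +
      (1538427456492800/395254161) * a ^ 3 * b * c * d ^ 2 +
      (1586364530475008/395254161) * a ^ 3 * b * c ^ 2 * d +
      (565928448852992/395254161) * a ^ 3 * b * c ^ 3 +
      (6660645209408/14639043) * a ^ 4 * d ^ 3 +
      (528381101957312/395254161) * a ^ 4 * c * d ^ 2 +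
      (543086397693440/395254161) * a ^ 4 * c ^ 2 * d +
      (192521485362944/395254161) * a ^ 4 * c ^ 3 := by
    intro a b c d ha hb hc hd
    positivity
  have := key (P - 377/800) (259/400 - P) (σ - 1/4) (1/2 - σ)
    (by linarith) (by linarith) (by linarith) (by linarith)
  refine this.trans (le_of_eq ?_)
  ring

theorem bD_11 (P σ : ℝ) (h1 : 259/400 ≤ P) (h2 : P ≤ 1)
    (h3 : 0 ≤ σ) (h4 : σ ≤ 1/2) :
    0 ≤ 4 * ((16 - 4 * σ) * P - σ * (P - 59 / 200)) * (P ^ 2 * (16 - 4 * σ + σ ^ 2)) -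
      ((16 - 4 * σ) * P * (1 + P) - (259 / 200 - P) * (1 - σ * P) - σ * (P - 59 / 200)) ^ 2 := by
  have key : ∀ a b c d : ℝ, 0 ≤ a → 0 ≤ b → 0 ≤ c → 0 ≤ d → 0 ≤
      (569860071424/131751387) * b ^ 4 * d ^ 3 +
      (150099326720/14639043) * b ^ 4 * c * d ^ 2 +
      (3973502650766/395254161) * b ^ 4 * c ^ 2 * d +
      (1504074104398/395254161) * b ^ 4 * c ^ 3 +
      (3463031398400/131751387) * a * b ^ 3 * d ^ 3 +
      (2788928104576/43917129) * a * b ^ 3 * c * d ^ 2 +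
      (24636036271832/395254161) * a * b ^ 3 * c ^ 2 * d +
      (9206257239448/395254161) * a * b ^ 3 * c ^ 3 +
      (812950169600/14639043) * a ^ 2 * b ^ 2 * d ^ 3 +
      (1988128614400/14639043) * a ^ 2 * b ^ 2 * c * d ^ 2 +
      (17719850561704/131751387) * a ^ 2 * b ^ 2 * c ^ 2 * d +
      (6637435896104/131751387) * a ^ 2 * b ^ 2 * c ^ 3 +
      (5976140800000/131751387) * a ^ 3 * b * d ^ 3 +
      (542126835200/4879681) * a ^ 3 * b * c * d ^ 2 +
      (44612737011200/395254161) * a ^ 3 * b * c ^ 2 * d +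
      (17221861120000/395254161) * a ^ 3 * b * c ^ 3 +
      (1282933760000/131751387) * a ^ 4 * d ^ 3 +
      (1011665920000/43917129) * a ^ 4 * c * d ^ 2 +
      (10173440000000/395254161) * a ^ 4 * c ^ 2 * d +
      (4435456000000/395254161) * a ^ 4 * c ^ 3 := by
    intro a b c d ha hb hc hd
    positivity
  have := key (P - 259/400) (1 - P) (σ - 0) (1/2 - σ)
    (by linarith) (by linarith) (by linarith) (by linarith)
  refine this.trans (le_of_eq ?_)
  ring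

theorem poly_D3 (P σ : ℝ) (h1 : 59/200 ≤ P) (h2 : P ≤ 1)
    (h3 : 0 ≤ σ) (h4 : σ ≤ 1/2) :
    0 ≤ 4 * ((16 - 4 * σ) * P - σ * (P - 59 / 200)) * (P ^ 2 * (16 - 4 * σ + σ ^ 2)) -
      ((16 - 4 * σ) * P * (1 + P) - (259 / 200 - P) * (1 - σ * P) - σ * (P - 59 / 200)) ^ 2 := by
  rcases le_total P (259/400) with g0 | g0
  · rcases le_total σ (1/4) with g1 | g1
    · rcases le_total P (377/800) with g2 | g2
      · rcases le_total σ (1/8) with g3 | g3
        · rcases le_total P (613/1600) with g4 | g4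
          · exact bD_1 P σ h1 g4 h3 g3
          · exact bD_2 P σ g4 g2 h3 g3
        · rcases le_total P (613/1600) with g4 | g4
          · rcases le_total σ (3/16) with g5 | g5
            · exact bD_3 P σ h1 g4 g3 g5
            · exact bD_4 P σ h1 g4 g5 g1
          · exact bD_5 P σ g4 g2 g3 g1
      · exact bD_6 P σ g2 g0 h3 g1
    · rcases le_total P (377/800) with g2 | g2
      · rcases le_total σ (3/8) with g3 | g3
        · rcases le_total P (613/1600) with g4 | g4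
          · exact bD_7 P σ h1 g4 g1 g3
          · exact bD_8 P σ g4 g2 g1 g3
        · exact bD_9 P σ h1 g2 g3 h4
      · exact bD_10 P σ g2 g0 g1 h4
  · exact bD_11 P σ g0 h2 h3 h4

theorem bf_1 (P A : ℝ) (h1 : 0 ≤ P) (h2 : P ≤ 1/4)
    (h3 : 3/4 ≤ A) (h4 : A ≤ 7/8) :
    0 ≤ 8 * P ^ 2 + A - 16 * P * A * (1 - P) * (1 - A + P) := by
  have key : ∀ a b c d : ℝ, 0 ≤ a → 0 ≤ b → 0 ≤ c → 0 ≤ d → 0 ≤
      (3072) * b ^ 3 * d ^ 2 +
      (6656) * b ^ 3 * c * d +
      (3584) * b ^ 3 * c ^ 2 +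
      (6144) * a * b ^ 2 * d ^ 2 +
      (14848) * a * b ^ 2 * c * d +
      (8960) * a * b ^ 2 * c ^ 2 +
      (2816) * a ^ 2 * b * d ^ 2 +
      (8448) * a ^ 2 * b * c * d +
      (6080) * a ^ 2 * b * c ^ 2 +
      (512) * a ^ 3 * d ^ 2 +
      (1920) * a ^ 3 * c * d +
      (1600) * a ^ 3 * c ^ 2 := by
    intro a b c d ha hb hc hd
    positivity
  have := key (P - 0) (1/4 - P) (A - 3/4) (7/8 - A)
    (by linarith) (by linarith) (by linarith) (by linarith)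
  refine this.trans (le_of_eq ?_)
  ring

theorem bf_2 (P A : ℝ) (h1 : 1/4 ≤ P) (h2 : P ≤ 1/2)
    (h3 : 3/4 ≤ A) (h4 : A ≤ 7/8) :
    0 ≤ 8 * P ^ 2 + A - 16 * P * A * (1 - P) * (1 - A + P) := by
  have key : ∀ a b c d : ℝ, 0 ≤ a → 0 ≤ b → 0 ≤ c → 0 ≤ d → 0 ≤
      (512) * b ^ 3 * d ^ 2 +
      (1920) * b ^ 3 * c * d +
      (1600) * b ^ 3 * c ^ 2 +
      (256) * a * b ^ 2 * d ^ 2 +
      (3072) * a * b ^ 2 * c * d +
      (3520) * a * b ^ 2 * c ^ 2 +
      (1024) * a ^ 2 * b * d ^ 2 +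
      (4096) * a ^ 2 * b * c * d +
      (3840) * a ^ 2 * b * c ^ 2 +
      (2048) * a ^ 3 * d ^ 2 +
      (4608) * a ^ 3 * c * d +
      (2816) * a ^ 3 * c ^ 2 := by
    intro a b c d ha hb hc hd
    positivity
  have := key (P - 1/4) (1/2 - P) (A - 3/4) (7/8 - A)
    (by linarith) (by linarith) (by linarith) (by linarith)
  refine this.trans (le_of_eq ?_)
  ring

theorem bf_3 (P A : ℝ) (h1 : 0 ≤ P) (h2 : P ≤ 1/4)
    (h3 : 7/8 ≤ A) (h4 : A ≤ 1) :
    0 ≤ 8 * P ^ 2 + A - 16 * P * A * (1 - P) * (1 - A + P) := by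
  have key : ∀ a b c d : ℝ, 0 ≤ a → 0 ≤ b → 0 ≤ c → 0 ≤ d → 0 ≤
      (3584) * b ^ 3 * d ^ 2 +
      (7680) * b ^ 3 * c * d +
      (4096) * b ^ 3 * c ^ 2 +
      (8960) * a * b ^ 2 * d ^ 2 +
      (20992) * a * b ^ 2 * c * d +
      (12288) * a * b ^ 2 * c ^ 2 +
      (6080) * a ^ 2 * b * d ^ 2 +
      (15872) * a ^ 2 * b * c * d +
      (10240) * a ^ 2 * b * c ^ 2 +
      (1600) * a ^ 3 * d ^ 2 +
      (4480) * a ^ 3 * c * d +
      (3072) * a ^ 3 * c ^ 2 := by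
    intro a b c d ha hb hc hd
    positivity
  have := key (P - 0) (1/4 - P) (A - 7/8) (1 - A)
    (by linarith) (by linarith) (by linarith) (by linarith)
  refine this.trans (le_of_eq ?_)
  ring

theorem bf_4 (P A : ℝ) (h1 : 1/4 ≤ P) (h2 : P ≤ 1/2)
    (h3 : 7/8 ≤ A) (h4 : A ≤ 1) :
    0 ≤ 8 * P ^ 2 + A - 16 * P * A * (1 - P) * (1 - A + P) := by
  have key : ∀ a b c d : ℝ, 0 ≤ a → 0 ≤ b → 0 ≤ c → 0 ≤ d → 0 ≤
      (1600) * b ^ 3 * d ^ 2 +
      (4480) * b ^ 3 * c * d +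
      (3072) * b ^ 3 * c ^ 2 +
      (3520) * a * b ^ 2 * d ^ 2 +
      (11008) * a * b ^ 2 * c * d +
      (8192) * a * b ^ 2 * c ^ 2 +
      (3840) * a ^ 2 * b * d ^ 2 +
      (11264) * a ^ 2 * b * c * d +
      (8192) * a ^ 2 * b * c ^ 2 +
      (2816) * a ^ 3 * d ^ 2 +
      (6656) * a ^ 3 * c * d +
      (4096) * a ^ 3 * c ^ 2 := by
    intro a b c d ha hb hc hd
    positivity
  have := key (P - 1/4) (1/2 - P) (A - 7/8) (1 - A)
    (by linarith) (by linarith) (by linarith) (by linarith)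
  refine this.trans (le_of_eq ?_)
  ring

theorem bf_5 (P A : ℝ) (h1 : 1/2 ≤ P) (h2 : P ≤ 1)
    (h3 : 3/4 ≤ A) (h4 : A ≤ 1) :
    0 ≤ 8 * P ^ 2 + A - 16 * P * A * (1 - P) * (1 - A + P) := by
  have key : ∀ a b c d : ℝ, 0 ≤ a → 0 ≤ b → 0 ≤ c → 0 ≤ d → 0 ≤
      (64) * b ^ 3 * d ^ 2 +
      (160) * b ^ 3 * c * d +
      (128) * b ^ 3 * c ^ 2 +
      (512) * a * b ^ 2 * d ^ 2 +
      (1056) * a * b ^ 2 * c * d +
      (640) * a * b ^ 2 * c ^ 2 +
      (1376) * a ^ 2 * b * d ^ 2 +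
      (2720) * a ^ 2 * b * c * d +
      (1408) * a ^ 2 * b * c ^ 2 +
      (1120) * a ^ 3 * d ^ 2 +
      (2272) * a ^ 3 * c * d +
      (1152) * a ^ 3 * c ^ 2 := by
    intro a b c d ha hb hc hd
    positivity
  have := key (P - 1/2) (1 - P) (A - 3/4) (1 - A)
    (by linarith) (by linarith) (by linarith) (by linarith)
  refine this.trans (le_of_eq ?_)
  ring

theorem poly_f1 (P A : ℝ) (h1 : 0 ≤ P) (h2 : P ≤ 1)
    (h3 : 3/4 ≤ A) (h4 : A ≤ 1) :
    0 ≤ 8 * P ^ 2 + A - 16 * P * A * (1 - P) * (1 - A + P) := by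
  rcases le_total P (1/2) with g0 | g0
  · rcases le_total A (7/8) with g1 | g1
    · rcases le_total P (1/4) with g2 | g2
      · exact bf_1 P A h1 g2 h3 g1
      · exact bf_2 P A g2 g0 h3 g1
    · rcases le_total P (1/4) with g2 | g2
      · exact bf_3 P A h1 g2 g1 h4
      · exact bf_4 P A g2 g0 g1 h4
  · exact bf_5 P A g0 h2 h3 h4

theorem bg_1 (P A : ℝ) (h1 : 0 ≤ P) (h2 : P ≤ 1/8)
    (h3 : 0 ≤ A) (h4 : A ≤ 3/16) :
    0 ≤ 32 * P ^ 2 * (1 - A) + A - 16 * P * A * (1 - P) * (1 - A + P) := by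
  have key : ∀ a b c d : ℝ, 0 ≤ a → 0 ≤ b → 0 ≤ c → 0 ≤ d → 0 ≤
      (8192/3) * b ^ 3 * c * d +
      (8192/3) * b ^ 3 * c ^ 2 +
      (8192/3) * a * b ^ 2 * c * d +
      (11264/3) * a * b ^ 2 * c ^ 2 +
      (65536/9) * a ^ 2 * b * d ^ 2 +
      (94208/9) * a ^ 2 * b * c * d +
      (45952/9) * a ^ 2 * b * c ^ 2 +
      (65536/9) * a ^ 3 * d ^ 2 +
      (94976/9) * a ^ 3 * c * d +
      (37504/9) * a ^ 3 * c ^ 2 := by
    intro a b c d ha hb hc hd
    positivity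
  have := key (P - 0) (1/8 - P) (A - 0) (3/16 - A)
    (by linarith) (by linarith) (by linarith) (by linarith)
  refine this.trans (le_of_eq ?_)
  ring

theorem bg_2 (P A : ℝ) (h1 : 1/8 ≤ P) (h2 : P ≤ 1/4)
    (h3 : 0 ≤ A) (h4 : A ≤ 3/16) :
    0 ≤ 32 * P ^ 2 * (1 - A) + A - 16 * P * A * (1 - P) * (1 - A + P) := by
  have key : ∀ a b c d : ℝ, 0 ≤ a → 0 ≤ b → 0 ≤ c → 0 ≤ d → 0 ≤
      (65536/9) * b ^ 3 * d ^ 2 +
      (94976/9) * b ^ 3 * c * d +
      (37504/9) * b ^ 3 * c ^ 2 +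
      (327680/9) * a * b ^ 2 * d ^ 2 +
      (475648/9) * a * b ^ 2 * c * d +
      (179072/9) * a * b ^ 2 * c ^ 2 +
      (524288/9) * a ^ 2 * b * d ^ 2 +
      (787456/9) * a ^ 2 * b * c * d +
      (300032/9) * a ^ 2 * b * c ^ 2 +
      (262144/9) * a ^ 3 * d ^ 2 +
      (407552/9) * a ^ 3 * c * d +
      (159232/9) * a ^ 3 * c ^ 2 := by
    intro a b c d ha hb hc hd
    positivity
  have := key (P - 1/8) (1/4 - P) (A - 0) (3/16 - A)
    (by linarith) (by linarith) (by linarith) (by linarith)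
  refine this.trans (le_of_eq ?_)
  ring

theorem bg_3 (P A : ℝ) (h1 : 0 ≤ P) (h2 : P ≤ 1/8)
    (h3 : 3/16 ≤ A) (h4 : A ≤ 3/8) :
    0 ≤ 32 * P ^ 2 * (1 - A) + A - 16 * P * A * (1 - P) * (1 - A + P) := by
  have key : ∀ a b c d : ℝ, 0 ≤ a → 0 ≤ b → 0 ≤ c → 0 ≤ d → 0 ≤
      (8192/3) * b ^ 3 * d ^ 2 +
      (8192) * b ^ 3 * c * d +
      (16384/3) * b ^ 3 * c ^ 2 +
      (11264/3) * a * b ^ 2 * d ^ 2 +
      (12288) * a * b ^ 2 * c * d +
      (28672/3) * a * b ^ 2 * c ^ 2 +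
      (45952/9) * a ^ 2 * b * d ^ 2 +
      (89600/9) * a ^ 2 * b * c * d +
      (60928/9) * a ^ 2 * b * c ^ 2 +
      (37504/9) * a ^ 3 * d ^ 2 +
      (55040/9) * a ^ 3 * c * d +
      (25600/9) * a ^ 3 * c ^ 2 := by
    intro a b c d ha hb hc hd
    positivity
  have := key (P - 0) (1/8 - P) (A - 3/16) (3/8 - A)
    (by linarith) (by linarith) (by linarith) (by linarith)
  refine this.trans (le_of_eq ?_)
  ring

theorem bg_4 (P A : ℝ) (h1 : 1/8 ≤ P) (h2 : P ≤ 1/4)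
    (h3 : 3/16 ≤ A) (h4 : A ≤ 3/8) :
    0 ≤ 32 * P ^ 2 * (1 - A) + A - 16 * P * A * (1 - P) * (1 - A + P) := by
  have key : ∀ a b c d : ℝ, 0 ≤ a → 0 ≤ b → 0 ≤ c → 0 ≤ d → 0 ≤
      (37504/9) * b ^ 3 * d ^ 2 +
      (55040/9) * b ^ 3 * c * d +
      (25600/9) * b ^ 3 * c ^ 2 +
      (179072/9) * a * b ^ 2 * d ^ 2 +
      (240640/9) * a * b ^ 2 * c * d +
      (92672/9) * a * b ^ 2 * c ^ 2 +
      (300032/9) * a ^ 2 * b * d ^ 2 +
      (412672/9) * a ^ 2 * b * c * d +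
      (149504/9) * a ^ 2 * b * c ^ 2 +
      (159232/9) * a ^ 3 * d ^ 2 +
      (229376/9) * a ^ 3 * c * d +
      (83968/9) * a ^ 3 * c ^ 2 := by
    intro a b c d ha hb hc hd
    positivity
  have := key (P - 1/8) (1/4 - P) (A - 3/16) (3/8 - A)
    (by linarith) (by linarith) (by linarith) (by linarith)
  refine this.trans (le_of_eq ?_)
  ring

theorem bg_5 (P A : ℝ) (h1 : 1/4 ≤ P) (h2 : P ≤ 1/2)
    (h3 : 0 ≤ A) (h4 : A ≤ 3/8) :
    0 ≤ 32 * P ^ 2 * (1 - A) + A - 16 * P * A * (1 - P) * (1 - A + P) := by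
  have key : ∀ a b c d : ℝ, 0 ≤ a → 0 ≤ b → 0 ≤ c → 0 ≤ d → 0 ≤
      (8192/9) * b ^ 3 * d ^ 2 +
      (9088/9) * b ^ 3 * c * d +
      (2624/9) * b ^ 3 * c ^ 2 +
      (40960/9) * a * b ^ 2 * d ^ 2 +
      (48896/9) * a * b ^ 2 * c * d +
      (14272/9) * a * b ^ 2 * c ^ 2 +
      (65536/9) * a ^ 2 * b * d ^ 2 +
      (84992/9) * a ^ 2 * b * c * d +
      (26368/9) * a ^ 2 * b * c ^ 2 +
      (32768/9) * a ^ 3 * d ^ 2 +
      (45568/9) * a ^ 3 * c * d +
      (15104/9) * a ^ 3 * c ^ 2 := by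
    intro a b c d ha hb hc hd
    positivity
  have := key (P - 1/4) (1/2 - P) (A - 0) (3/8 - A)
    (by linarith) (by linarith) (by linarith) (by linarith)
  refine this.trans (le_of_eq ?_)
  ring

theorem bg_6 (P A : ℝ) (h1 : 0 ≤ P) (h2 : P ≤ 1/4)
    (h3 : 3/8 ≤ A) (h4 : A ≤ 3/4) :
    0 ≤ 32 * P ^ 2 * (1 - A) + A - 16 * P * A * (1 - P) * (1 - A + P) := by
  have key : ∀ a b c d : ℝ, 0 ≤ a → 0 ≤ b → 0 ≤ c → 0 ≤ d → 0 ≤
      (512/3) * b ^ 3 * d ^ 2 +
      (512) * b ^ 3 * c * d +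
      (1024/3) * b ^ 3 * c ^ 2 +
      (256/3) * a * b ^ 2 * d ^ 2 +
      (512) * a * b ^ 2 * c * d +
      (2048/3) * a * b ^ 2 * c ^ 2 +
      (1472/9) * a ^ 2 * b * d ^ 2 +
      (256/9) * a ^ 2 * b * c * d +
      (2816/9) * a ^ 2 * b * c ^ 2 +
      (2624/9) * a ^ 3 * d ^ 2 +
      (1408/9) * a ^ 3 * c * d +
      (512/9) * a ^ 3 * c ^ 2 := by
    intro a b c d ha hb hc hd
    positivity
  have := key (P - 0) (1/4 - P) (A - 3/8) (3/4 - A)
    (by linarith) (by linarith) (by linarith) (by linarith)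
  refine this.trans (le_of_eq ?_)
  ring

theorem bg_7 (P A : ℝ) (h1 : 1/4 ≤ P) (h2 : P ≤ 1/2)
    (h3 : 3/8 ≤ A) (h4 : A ≤ 3/4) :
    0 ≤ 32 * P ^ 2 * (1 - A) + A - 16 * P * A * (1 - P) * (1 - A + P) := by
  have key : ∀ a b c d : ℝ, 0 ≤ a → 0 ≤ b → 0 ≤ c → 0 ≤ d → 0 ≤
      (2624/9) * b ^ 3 * d ^ 2 +
      (1408/9) * b ^ 3 * c * d +
      (512/9) * b ^ 3 * c ^ 2 +
      (14272/9) * a * b ^ 2 * d ^ 2 +
      (8192/9) * a * b ^ 2 * c * d +
      (256/9) * a * b ^ 2 * c ^ 2 +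
      (26368/9) * a ^ 2 * b * d ^ 2 +
      (20480/9) * a ^ 2 * b * c * d +
      (1024/9) * a ^ 2 * b * c ^ 2 +
      (15104/9) * a ^ 3 * d ^ 2 +
      (14848/9) * a ^ 3 * c * d +
      (2048/9) * a ^ 3 * c ^ 2 := by
    intro a b c d ha hb hc hd
    positivity
  have := key (P - 1/4) (1/2 - P) (A - 3/8) (3/4 - A)
    (by linarith) (by linarith) (by linarith) (by linarith)
  refine this.trans (le_of_eq ?_)
  ring

theorem bg_8 (P A : ℝ) (h1 : 1/2 ≤ P) (h2 : P ≤ 1)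
    (h3 : 0 ≤ A) (h4 : A ≤ 3/4) :
    0 ≤ 32 * P ^ 2 * (1 - A) + A - 16 * P * A * (1 - P) * (1 - A + P) := by
  have key : ∀ a b c d : ℝ, 0 ≤ a → 0 ≤ b → 0 ≤ c → 0 ≤ d → 0 ≤
      (1024/9) * b ^ 3 * d ^ 2 +
      (800/9) * b ^ 3 * c * d +
      (64/9) * b ^ 3 * c ^ 2 +
      (5120/9) * a * b ^ 2 * d ^ 2 +
      (4768/9) * a * b ^ 2 * c * d +
      (512/9) * a * b ^ 2 * c ^ 2 +
      (8192/9) * a ^ 2 * b * d ^ 2 +
      (8992/9) * a ^ 2 * b * c * d +
      (1376/9) * a ^ 2 * b * c ^ 2 +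
      (4096/9) * a ^ 3 * d ^ 2 +
      (5216/9) * a ^ 3 * c * d +
      (1120/9) * a ^ 3 * c ^ 2 := by
    intro a b c d ha hb hc hd
    positivity
  have := key (P - 1/2) (1 - P) (A - 0) (3/4 - A)
    (by linarith) (by linarith) (by linarith) (by linarith)
  refine this.trans (le_of_eq ?_)
  ring

theorem poly_f2 (P A : ℝ) (h1 : 0 ≤ P) (h2 : P ≤ 1)
    (h3 : 0 ≤ A) (h4 : A ≤ 3/4) :
    0 ≤ 32 * P ^ 2 * (1 - A) + A - 16 * P * A * (1 - P) * (1 - A + P) := by
  rcases le_total P (1/2) with g0 | g0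
  · rcases le_total A (3/8) with g1 | g1
    · rcases le_total P (1/4) with g2 | g2
      · rcases le_total A (3/16) with g3 | g3
        · rcases le_total P (1/8) with g4 | g4
          · exact bg_1 P A h1 g4 h3 g3
          · exact bg_2 P A g4 g2 h3 g3
        · rcases le_total P (1/8) with g4 | g4
          · exact bg_3 P A h1 g4 g3 g1
          · exact bg_4 P A g4 g2 g3 g1
      · exact bg_5 P A g2 g0 h3 g1
    · rcases le_total P (1/4) with g2 | g2
      · exact bg_6 P A h1 g2 g1 h4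
      · exact bg_7 P A g2 g0 g1 h4
  · exact bg_8 P A g0 h2 h3 h4

theorem bh_1 (P : ℝ) (h1 : 149/500 ≤ P) (h2 : P ≤ 619/1000) :
    0 ≤ 4 * (16 * P ^ 2 * (1 - P)) - (259 / 200 - P + 16 * P ^ 2 * (1 - P)) ^ 2 := by
  have key : ∀ a b : ℝ, 0 ≤ a → 0 ≤ b → 0 ≤
      (11969158948745216/1094032426497921) * b ^ 6 +
      (457017019755421696/364677475499307) * a * b ^ 5 +
      (1598640850120990720/364677475499307) * a ^ 2 * b ^ 4 +
      (5227232604634224640/1094032426497921) * a ^ 3 * b ^ 3 +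
      (619507157091220480/364677475499307) * a ^ 4 * b ^ 2 +
      (206854952050686976/364677475499307) * a ^ 5 * b +
      (272363038283704064/1094032426497921) * a ^ 6 := by
    intro a b ha hb
    positivity
  have := key (P - 149/500) (619/1000 - P)
    (by linarith) (by linarith)
  refine this.trans (le_of_eq ?_)
  ring

theorem bh_2 (P : ℝ) (h1 : 619/1000 ≤ P) (h2 : P ≤ 47/50) :
    0 ≤ 4 * (16 * P ^ 2 * (1 - P)) - (259 / 200 - P + 16 * P ^ 2 * (1 - P)) ^ 2 := by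
  have key : ∀ a b : ℝ, 0 ≤ a → 0 ≤ b → 0 ≤
      (272363038283704064/1094032426497921) * b ^ 6 +
      (882597201084129280/364677475499307) * a * b ^ 5 +
      (3998218402258432000/364677475499307) * a ^ 2 * b ^ 4 +
      (28396431044865280000/1094032426497921) * a ^ 3 * b ^ 3 +
      (11252994309683200000/364677475499307) * a ^ 4 * b ^ 2 +
      (5735683275212800000/364677475499307) * a ^ 5 * b +
      (1945198998464000000/1094032426497921) * a ^ 6 := by
    intro a b ha hb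
    positivity
  have := key (P - 619/1000) (47/50 - P)
    (by linarith) (by linarith)
  refine this.trans (le_of_eq ?_)
  ring

theorem poly_h (P : ℝ) (h1 : 149/500 ≤ P) (h2 : P ≤ 47/50) :
    0 ≤ 4 * (16 * P ^ 2 * (1 - P)) - (259 / 200 - P + 16 * P ^ 2 * (1 - P)) ^ 2 := by
  rcases le_total P (619/1000) with g0 | g0
  · exact bh_1 P h1 g0
  · exact bh_2 P g0 h2

end LCS
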