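import Pool.Agent.Lib_MP_0bab5c_s.TLoc
import Pool.Agent.Lib_MP_0bab5c_x.XCoreA

/-! # Payments

A cell `l` pays `W l * b l / FF (Q l)` to each hub in the boundary of `Q l`, and to the other hubs
of which `l` is in a class `W l * min (t / k * a p) (E p)`, `t` the weight of the payers `v` of
the class with `v` in the boundary of `Q l` and `l` in `Q v`.
-/

namespace LCS

open Finset LCX
open scoped Classical

variable {J U H : Type} [Fintype J] [Fintype U]

/-- normalised payment of a class with boundary `p` in which `T` is the measure of the payers -/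
noncomputable def Fn (K : ℝ) (a E : ℝ → ℝ) (p T : ℝ) : ℝ :=
  T * (K / p) + min (T / p) (min (T * a p) (E p)) * max 0 (1 - T - p)

/-- payers in the boundary of `Q l` whose closure contains `l` -/
noncomputable def TT (adj : J → J → Prop) (Q : J → Finset J) (P : Finset J) (l : J) : Finset J :=
  P.filter (fun v => v ∈ bdJ adj (Q l) ∧ l ∈ Q v)

/-- what `l` pays to `u` for a class with payers `P` and boundary `p` -/
noncomputable def payc (W : J → ℕ) (adj : J → J → Prop) (hadj : U → J → Prop) (hm : J → H)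
    (r0 : ℕ) (Q : J → Finset J) (k : ℝ) (a E : ℝ → ℝ) (b : J → ℝ) (u : U) (P : Finset J) (p : ℝ)
    (l : J) : ℝ :=
  if u ∈ bdU hadj (Q l) then
    (W l : ℝ) * (b l / FF (fun j => (W j : ℝ)) adj hadj hm r0 (Q l))
  else (W l : ℝ) * min ((∑ v ∈ TT adj Q P l, (W v : ℝ)) / k * a p) (E p)

theorem FF_submod (w : J → ℝ) (hw : ∀ j, 0 ≤ w j) (adj : J → J → Prop) (hadj : U → J → Prop)
    (hm : J → H) (r0 : ℕ) (A B : Finset J) :
    FF w adj hadj hm r0 (A ∪ B) + FF w adj hadj hm r0 (A ∩ B) ≤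
      FF w adj hadj hm r0 A + FF w adj hadj hm r0 B := by
  have h1 := beta_submod w hw adj hadj A B
  have h2 := pen_submod (fun _ : J => (0 : ℝ)) (fun _ => le_rfl) hm (r0 : ℝ) (Nat.cast_nonneg _) A B
  unfold pen at h2
  simp only [sum_const_zero, zero_add] at h2
  unfold FF
  linarith

theorem FF_nonneg (w : J → ℝ) (hw : ∀ j, 0 ≤ w j) (adj : J → J → Prop) (hadj : U → J → Prop)
    (hm : J → H) (r0 : ℕ) (A : Finset J) : 0 ≤ FF w adj hadj hm r0 A := by
  unfold FF beta
  have h1 : 0 ≤ ∑ l ∈ bdJ adj A, w l := sum_nonneg (fun l _ => hw l)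
  positivity

theorem beta_le_FF (w : J → ℝ) (adj : J → J → Prop) (hadj : U → J → Prop)
    (hm : J → H) (r0 : ℕ) (A : Finset J) : beta w adj hadj A ≤ FF w adj hadj hm r0 A := by
  unfold FF
  have : (0 : ℝ) ≤ (r0 : ℝ) * ((A.image hm).card : ℝ) := by positivity
  linarith

theorem one_le_FF (w : J → ℝ) (hw : ∀ j, 0 ≤ w j) (adj : J → J → Prop) (hadj : U → J → Prop)
    (hm : J → H) (r0 : ℕ) (A : Finset J) (u : U) (hu : u ∈ bdU hadj A) :
    1 ≤ FF w adj hadj hm r0 A := by
  refine le_trans ?_ (beta_le_FF w adj hadj hm r0 A)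
  have hc : 1 ≤ (bdU hadj A).card := card_pos.2 ⟨u, hu⟩
  have hc' : (1 : ℝ) ≤ ((bdU hadj A).card : ℝ) := by exact_mod_cast hc
  have : 0 ≤ ∑ l ∈ bdJ adj A, w l := sum_nonneg (fun l _ => hw l)
  unfold beta
  linarith

theorem payc_nonneg (W : J → ℕ) (adj : J → J → Prop) (hadj : U → J → Prop) (hm : J → H)
    (r0 : ℕ) (Q : J → Finset J) (k : ℝ) (hk : 0 < k) (a E : ℝ → ℝ) (ha0 : ∀ p, 0 ≤ a p)
    (hE0 : ∀ p, 0 ≤ E p) (b : J → ℝ) (hb : ∀ j, 0 ≤ b j) (u : U) (P : Finset J) (p : ℝ)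
    (l : J) : 0 ≤ payc W adj hadj hm r0 Q k a E b u P p l := by
  have hWl : (0 : ℝ) ≤ (W l : ℝ) := Nat.cast_nonneg _
  unfold payc
  split_ifs
  · exact mul_nonneg hWl (div_nonneg (hb l) (FF_nonneg _ (fun j => Nat.cast_nonneg _) _ _ _ _ _))
  · refine mul_nonneg hWl (le_min (mul_nonneg (div_nonneg ?_ hk.le) (ha0 p)) (hE0 p))
    exact sum_nonneg (fun j _ => Nat.cast_nonneg _)

/-- the payment lemma -/
theorem pay_class_t (k K : ℝ) (hk : 0 < k) (hK : 0 ≤ K) (a E : ℝ → ℝ) (ha0 : ∀ p, 0 ≤ a p)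
    (hE0 : ∀ p, 0 ≤ E p) (hE : ∀ p p', 0 < p → p ≤ p' → E p' ≤ E p)
    (hR : ∀ q P, 0 < q → q ≤ P → E P + (P - q) * a P ≤ K / q)
    (W : J → ℕ) (hW : ∀ j, 0 < W j) (adj : J → J → Prop) (hsymm : ∀ i j, adj i j → adj j i)
    (hadj : U → J → Prop) (hm : J → H) (r0 : ℕ) (Q : J → Finset J) (hQ : ∀ j, j ∈ Q j)
    (hQQ : ∀ j l, l ∈ Q j → Q l ⊆ Q j)
    (hmin : ∀ j A, j ∈ A → FF (fun j => (W j : ℝ)) adj hadj hm r0 (Q j) ≤
      FF (fun j => (W j : ℝ)) adj hadj hm r0 A)
    (b : J → ℝ) (hb : ∀ j, b j = K * k + max 0 (k - sigma (fun j => (W j : ℝ)) adj hadj j))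
    (u : U) (Z : Finset J) (p : ℝ) (hp : FF (fun j => (W j : ℝ)) adj hadj hm r0 Z ≤ p * k) :
    k * Fn K a E p ((∑ l ∈ payers hadj Q u Z, (W l : ℝ)) / k) ≤
      ∑ l ∈ Z, payc W adj hadj hm r0 Q k a E b u (payers hadj Q u Z) p l := by
  have hWR : ∀ j, (0 : ℝ) < (W j : ℝ) := fun j => by exact_mod_cast hW j
  have hW0 : ∀ j, (0 : ℝ) ≤ (W j : ℝ) := fun j => Nat.cast_nonneg _
  have hKk : 0 ≤ K * k := mul_nonneg hK hk.le
  have hb0 : ∀ j, 0 ≤ b j := fun j => by rw [hb]; exact add_nonneg hKk (le_max_left _ _)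
  have hbK : ∀ j, K * k ≤ b j := fun j => by
    rw [hb]; linarith [le_max_left 0 (k - sigma (fun j => (W j : ℝ)) adj hadj j)]
  set P := payers hadj Q u Z with hP
  set F : Finset J → ℝ := fun A => FF (fun j => (W j : ℝ)) adj hadj hm r0 A with hF
  have hnn : ∀ l, 0 ≤ payc W adj hadj hm r0 Q k a E b u P p l := fun l =>
    payc_nonneg W adj hadj hm r0 Q k hk a E ha0 hE0 b hb0 u P p l
  rcases P.eq_empty_or_nonempty with hemp | hne
  · have h1 : Fn K a E p 0 ≤ 0 := by
      unfold Fn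
      rw [zero_mul, zero_div, zero_mul, zero_add]
      exact mul_nonpos_of_nonpos_of_nonneg (min_le_left _ _) (le_max_left _ _)
    rw [hemp, sum_empty, zero_div]
    rw [hemp] at hnn
    exact (mul_nonpos_of_nonneg_of_nonpos hk.le h1).trans (sum_nonneg (fun l _ => hnn l))
  have hPZ : P ⊆ Z := filter_subset _ _
  -- payers
  have hPu : ∀ v ∈ P, u ∈ bdU hadj (Q v) := by
    intro v hv
    rw [hP, payers, mem_filter] at hv
    obtain ⟨_, l, hl, _, hul⟩ := hv
    simp only [bdU, mem_filter, mem_univ, true_and]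
    exact ⟨l, hl, hul⟩
  have hF1 : ∀ l, u ∈ bdU hadj (Q l) → 1 ≤ F (Q l) := fun l hl =>
    one_le_FF _ hW0 adj hadj hm r0 (Q l) u hl
  have hFZ : ∀ v ∈ Z, F (Q v) ≤ p * k := fun v hv => (hmin v Z hv).trans hp
  have hpk : 0 < p * k := by
    obtain ⟨v, hv⟩ := hne
    have := hF1 v (hPu v hv)
    have := hFZ v (hPZ hv)
    linarith
  have hp0 : 0 < p := by
    by_contra h
    have : p * k ≤ 0 := mul_nonpos_of_nonpos_of_nonneg (not_lt.1 h) hk.le
    linarith
  set t : ℝ := ∑ l ∈ P, (W l : ℝ) with ht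
  have ht0 : 0 < t := by
    obtain ⟨v, hv⟩ := hne
    exact lt_of_lt_of_le (hWR v) (single_le_sum (f := fun j => (W j : ℝ)) (fun j _ => hW0 j) hv)
  set T : ℝ := t / k with hT
  have hT0 : 0 < T := div_pos ht0 hk
  set D : ℝ := min (1 / p) (min (a p) (E p / T)) with hD
  have hD0 : 0 ≤ D := le_min (by positivity) (le_min (ha0 p) (div_nonneg (hE0 p) hT0.le))
  have hFn : Fn K a E p T = T * (K / p + D * max 0 (1 - T - p)) := by
    have h1 : T * D = min (T / p) (min (T * a p) (E p)) := by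
      rw [hD, mul_min_of_nonneg _ _ hT0.le, mul_min_of_nonneg _ _ hT0.le]
      congr 1
      · ring
      · congr 1
        field_simp
    unfold Fn
    rw [← h1]
    ring
  set y : J → ℝ := fun v => ∑ l ∈ ((Q v ∩ Z) \ P).filter (fun l => adj l v), (W l : ℝ) with hy
  have hy0 : ∀ v, 0 ≤ y v := fun v => sum_nonneg (fun l _ => hW0 l)
  -- the payers
  have hpayP : ∀ v ∈ P, (W v : ℝ) * (K / p + max 0 (k - t - p * k - y v) / (p * k)) ≤
      payc W adj hadj hm r0 Q k a E b u P p v := by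
    intro v hv
    have hvZ := hPZ hv
    unfold payc
    rw [if_pos (hPu v hv)]
    refine mul_le_mul_of_nonneg_left ?_ (hW0 v)
    have h1 := hF1 v (hPu v hv)
    have h2 := hFZ v hvZ
    have h3 : b v / (p * k) ≤ b v / F (Q v) :=
      div_le_div_of_nonneg_left (hb0 v) (by linarith) h2
    refine le_trans ?_ h3
    -- sigma
    have hX : F (Q v ∩ Z) ≤ p * k := by
      have h4 := FF_submod _ hW0 adj hadj hm r0 (Q v) Z
      have h5 := hmin v (Q v ∪ Z) (mem_union_left _ (hQ v))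
      have h6 : F (Q v ∩ Z) ≤ F Z := by
        rw [hF]
        simp only
        linarith
      exact h6.trans hp
    have hσ := sigma_le (fun j => (W j : ℝ)) hWR adj hsymm hadj (Q v ∩ Z) P v
      (mem_inter.2 ⟨hQ v, hvZ⟩)
    have hβ := beta_le_FF (fun j => (W j : ℝ)) adj hadj hm r0 (Q v ∩ Z)
    have h7 : k - t - p * k - y v ≤ k - sigma (fun j => (W j : ℝ)) adj hadj v := by
      have h8 : F (Q v ∩ Z) = FF (fun j => (W j : ℝ)) adj hadj hm r0 (Q v ∩ Z) := rfl
      rw [h8] at hX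
      have h9 : y v = ∑ l ∈ ((Q v ∩ Z) \ P).filter (fun l => adj l v), (W l : ℝ) := rfl
      linarith
    have h10 : K / p + max 0 (k - t - p * k - y v) / (p * k) =
        (K * k + max 0 (k - t - p * k - y v)) / (p * k) := by
      field_simp
    rw [h10]
    refine div_le_div_of_nonneg_right ?_ hpk.le
    rw [hb]
    exact add_le_add_right (max_le_max le_rfl h7) _
  -- the others
  have hpayY : ∀ l ∈ Z \ P, (W l : ℝ) * ((∑ v ∈ TT adj Q P l, (W v : ℝ)) / k * D) ≤
      payc W adj hadj hm r0 Q k a E b u P p l := by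
    intro l hl
    rw [mem_sdiff] at hl
    have htl : ∑ v ∈ TT adj Q P l, (W v : ℝ) ≤ t :=
      sum_le_sum_of_subset_of_nonneg (filter_subset _ _) (fun j _ _ => hW0 j)
    have htl0 : 0 ≤ ∑ v ∈ TT adj Q P l, (W v : ℝ) := sum_nonneg (fun j _ => hW0 j)
    have h1 : (∑ v ∈ TT adj Q P l, (W v : ℝ)) / k * D ≤
        (∑ v ∈ TT adj Q P l, (W v : ℝ)) / k * a p :=
      mul_le_mul_of_nonneg_left ((min_le_right _ _).trans (min_le_left _ _))
        (div_nonneg htl0 hk.le)
    have h2 : (∑ v ∈ TT adj Q P l, (W v : ℝ)) / k * D ≤ E p := by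
      have h3 : (∑ v ∈ TT adj Q P l, (W v : ℝ)) / k ≤ T :=
        div_le_div_of_nonneg_right htl hk.le
      have h4 : D ≤ E p / T := (min_le_right _ _).trans (min_le_right _ _)
      calc (∑ v ∈ TT adj Q P l, (W v : ℝ)) / k * D ≤ T * (E p / T) :=
            mul_le_mul h3 h4 hD0 hT0.le
        _ = E p := by field_simp
    unfold payc
    split_ifs with hu
    · refine mul_le_mul_of_nonneg_left ?_ (hW0 l)
      have h3 := hF1 l hu
      have h4 : F (Q l) / k ≤ p := by
        rw [div_le_iff₀ hk]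
        exact hFZ l hl.1
      have h5 : 0 < F (Q l) / k := div_pos (by linarith) hk
      have h6 := hE _ p h5 h4
      have h7 := hR _ _ h5 le_rfl
      rw [sub_self, zero_mul, add_zero] at h7
      have h8 : K / (F (Q l) / k) = K * k / F (Q l) := by
        field_simp
      rw [h8] at h7
      have h9 : K * k / F (Q l) ≤ b l / F (Q l) :=
        div_le_div_of_nonneg_right (hbK l) (by linarith)
      exact h2.trans (h6.trans (h7.trans h9))
    · exact mul_le_mul_of_nonneg_left (le_min h1 h2) (hW0 l)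
  -- double counting
  have hdc : ∑ v ∈ P, (W v : ℝ) * y v ≤
      ∑ l ∈ Z \ P, (W l : ℝ) * ∑ v ∈ TT adj Q P l, (W v : ℝ) := by
    have e1 : ∀ l ∈ Z \ P, (W l : ℝ) * ∑ v ∈ TT adj Q P l, (W v : ℝ) =
        ∑ v ∈ P, if v ∈ bdJ adj (Q l) ∧ l ∈ Q v then (W v : ℝ) * (W l : ℝ) else 0 := by
      intro l _
      unfold TT
      rw [sum_filter, mul_sum]
      refine sum_congr rfl (fun v _ => ?_)
      split_ifs
      · ring
      · ring
    rw [sum_congr rfl e1, sum_comm]
    refine sum_le_sum (fun v hv => ?_)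
    rw [hy]
    simp only
    rw [mul_sum, ← sum_filter]
    refine sum_le_sum_of_subset_of_nonneg ?_ (fun j _ _ => mul_nonneg (hW0 v) (hW0 j))
    intro l hl
    rw [mem_filter, mem_sdiff, mem_inter] at hl
    obtain ⟨⟨⟨hlQ, hlZ⟩, hlP⟩, hlv⟩ := hl
    rw [mem_filter, mem_sdiff]
    refine ⟨⟨hlZ, hlP⟩, ?_, hlQ⟩
    simp only [bdJ, mem_filter, mem_univ, true_and]
    refine ⟨fun hvl => hlP ?_, l, hQ l, hlv⟩
    rw [hP, payers, mem_filter] at hv ⊢
    obtain ⟨_, l', hl', hl'Z, hul'⟩ := hv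
    exact ⟨hlZ, l', hQQ l v hvl hl', hl'Z, hul'⟩
  -- together
  have hsplit : ∑ l ∈ Z, payc W adj hadj hm r0 Q k a E b u P p l =
      ∑ l ∈ P, payc W adj hadj hm r0 Q k a E b u P p l +
      ∑ l ∈ Z \ P, payc W adj hadj hm r0 Q k a E b u P p l := by
    rw [add_comm, sum_sdiff hPZ]
  rw [hsplit, hFn]
  have h1 := sum_le_sum hpayP
  have h2 := sum_le_sum hpayY
  have h3 : ∑ l ∈ Z \ P, (W l : ℝ) * ((∑ v ∈ TT adj Q P l, (W v : ℝ)) / k * D) =
      D / k * ∑ l ∈ Z \ P, (W l : ℝ) * ∑ v ∈ TT adj Q P l, (W v : ℝ) := by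
    rw [mul_sum]
    refine sum_congr rfl (fun l _ => ?_)
    ring
  rw [h3] at h2
  have h4 : D / k * ∑ v ∈ P, (W v : ℝ) * y v ≤
      D / k * ∑ l ∈ Z \ P, (W l : ℝ) * ∑ v ∈ TT adj Q P l, (W v : ℝ) :=
    mul_le_mul_of_nonneg_left hdc (div_nonneg hD0 hk.le)
  have h5 : ∑ v ∈ P, (W v : ℝ) * (K / p + D * max 0 (1 - T - p)) ≤
      ∑ v ∈ P, ((W v : ℝ) * (K / p + max 0 (k - t - p * k - y v) / (p * k)) +
        D / k * ((W v : ℝ) * y v)) := by
    refine sum_le_sum (fun v _ => ?_)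
    have h6 : D * max 0 (1 - T - p) ≤ max 0 (k - t - p * k - y v) / (p * k) + D / k * y v := by
      have h7 : max 0 (1 - T - p) = max 0 (k - t - p * k) / k := by
        rw [← max_div_div_right hk.le, zero_div]
        congr 1
        rw [hT]
        field_simp
      have h8 : max 0 (k - t - p * k) ≤ max 0 (k - t - p * k - y v) + y v := by
        refine max_le (add_nonneg (le_max_left _ _) (hy0 v)) ?_
        have := le_max_right 0 (k - t - p * k - y v)
        linarith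
      have h9 : D * (max 0 (k - t - p * k - y v) / k) ≤
          max 0 (k - t - p * k - y v) / (p * k) := by
        have h10 : D ≤ 1 / p := min_le_left _ _
        have h11 : 0 ≤ max 0 (k - t - p * k - y v) / k := div_nonneg (le_max_left _ _) hk.le
        refine (mul_le_mul_of_nonneg_right h10 h11).trans (le_of_eq ?_)
        field_simp
      rw [h7]
      have h12 : D * (max 0 (k - t - p * k) / k) ≤
          D * ((max 0 (k - t - p * k - y v) + y v) / k) :=
        mul_le_mul_of_nonneg_left (div_le_div_of_nonneg_right h8 hk.le) hD0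
      have h13 : D * ((max 0 (k - t - p * k - y v) + y v) / k) =
          D * (max 0 (k - t - p * k - y v) / k) + D / k * y v := by
        ring
      linarith
    have h14 := mul_le_mul_of_nonneg_left h6 (hW0 v)
    have h15 : (W v : ℝ) * (K / p + D * max 0 (1 - T - p)) =
        (W v : ℝ) * (K / p) + (W v : ℝ) * (D * max 0 (1 - T - p)) := by ring
    have h16 : (W v : ℝ) * (K / p + max 0 (k - t - p * k - y v) / (p * k)) +
        D / k * ((W v : ℝ) * y v) = (W v : ℝ) * (K / p) +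
        (W v : ℝ) * (max 0 (k - t - p * k - y v) / (p * k) + D / k * y v) := by ring
    rw [h15, h16]
    linarith
  rw [sum_add_distrib, ← mul_sum, ← sum_mul] at h5
  have h6 : k * (T * (K / p + D * max 0 (1 - T - p))) =
      (∑ v ∈ P, (W v : ℝ)) * (K / p + D * max 0 (1 - T - p)) := by
    rw [← ht, hT]
    field_simp
  rw [h6]
  linarith

end LCS
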