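import Pool.Agent.Lib_MP_0bab5c_s.TNum
import Pool.Agent.Lib_MP_0bab5c_s.TPay

/-! # The inequality of one class and the inequality of a hub
-/

namespace LCS

open Finset LCX
open scoped Classical

/-- the slope of the payments -/
noncomputable def aa (R : ℝ) (p : ℝ) : ℝ := max 0 (1 - R * p)

/-- the bound on the payments -/
noncomputable def EE (K R : ℝ) (p : ℝ) : ℝ := max 0 (K * min 1 (259 / 200 - R * p) / p)

theorem aa_nonneg (R p : ℝ) : 0 ≤ aa R p := le_max_left _ _

theorem EE_nonneg (K R p : ℝ) : 0 ≤ EE K R p := le_max_left _ _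

theorem aa_anti (R : ℝ) (hR : 0 ≤ R) (p p' : ℝ) (h : p ≤ p') : aa R p' ≤ aa R p := by
  unfold aa
  have := mul_le_mul_of_nonneg_left h hR
  exact max_le_max le_rfl (by linarith)

theorem EE_anti (K R : ℝ) (hK : 0 ≤ K) (hR : 0 ≤ R) (p p' : ℝ) (hp : 0 < p) (h : p ≤ p') :
    EE K R p' ≤ EE K R p := by
  unfold EE
  refine max_le (le_max_left _ _) ?_
  have hp' : 0 < p' := lt_of_lt_of_le hp h
  have hm : min 1 (259 / 200 - R * p') ≤ min 1 (259 / 200 - R * p) := by
    have := mul_le_mul_of_nonneg_left h hR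
    exact min_le_min le_rfl (by linarith)
  rcases le_total (min 1 (259 / 200 - R * p')) 0 with h0 | h0
  · refine le_trans ?_ (le_max_left _ _)
    exact div_nonpos_of_nonpos_of_nonneg (mul_nonpos_of_nonneg_of_nonpos hK h0) hp'.le
  · refine le_trans ?_ (le_max_right _ _)
    have h1 : 0 ≤ K * min 1 (259 / 200 - R * p') := mul_nonneg hK h0
    exact (div_le_div_of_nonneg_left h1 hp h).trans
      (div_le_div_of_nonneg_right (mul_le_mul_of_nonneg_left hm hK) hp.le)

theorem EE_le (K R : ℝ) (hK : 0 ≤ K) (p : ℝ) (hp : 0 < p) : EE K R p ≤ K / p := by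
  unfold EE
  refine max_le (div_nonneg hK hp.le) (div_le_div_of_nonneg_right ?_ hp.le)
  have := mul_le_mul_of_nonneg_left (min_le_left 1 (259 / 200 - R * p)) hK
  linarith

theorem EE_eq (K R : ℝ) (hK : 0 ≤ K) (p : ℝ) (hp : 0 < p) (h : R * p ≤ 1) :
    EE K R p = K * min 1 (259 / 200 - R * p) / p := by
  unfold EE
  refine max_eq_right (div_nonneg (mul_nonneg hK (le_min zero_le_one (by linarith))) hp.le)

/-- the constant -/
theorem Kconst (R : ℝ) (hR : 2 ≤ R) : 0 < 1 / (4 * R * (4 * R - 1)) ∧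
    1 / (4 * R * (4 * R - 1)) * (16 - 4 * (1 / R)) = (1 / R) ^ 2 ∧
    1 ≤ 16 * R ^ 2 * (1 / (4 * R * (4 * R - 1))) := by
  have h1 : 0 < 4 * R * (4 * R - 1) := mul_pos (by linarith) (by linarith)
  have h2 : R ≠ 0 := by linarith
  have h3 : 4 * R - 1 ≠ 0 := by linarith
  refine ⟨by positivity, ?_, ?_⟩
  · field_simp
    ring
  · rw [mul_one_div, le_div_iff₀ h1]
    nlinarith

theorem hR_t (R K : ℝ) (hR : 2 ≤ R) (hK : K = 1 / (4 * R * (4 * R - 1))) (q p : ℝ)
    (hq : 0 < q) (hqp : q ≤ p) : EE K R p + (p - q) * aa R p ≤ K / q := by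
  obtain ⟨hK0, _, hK2⟩ := Kconst R hR
  rw [← hK] at hK0 hK2
  have hp : 0 < p := lt_of_lt_of_le hq hqp
  rcases le_total 1 (R * p) with h | h
  · have h1 : aa R p = 0 := max_eq_left (by linarith)
    rw [h1, mul_zero, add_zero]
    exact (EE_le K R hK0.le p hp).trans (div_le_div_of_nonneg_left hK0.le hq hqp)
  · have h1 : aa R p = 1 - R * p := max_eq_right (by linarith)
    rw [h1, EE_eq K R hK0.le p hp h]
    set m := min 1 (259 / 200 - R * p) with hm
    have h4 := num4 (R * p) (q / p) (by positivity) h (by positivity) ((div_le_one hp).2 hqp)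
    rw [← hm] at h4
    have h5 : 0 ≤ q / p * (1 - q / p) * (p ^ 2 * (1 - R * p)) := by
      have : q / p ≤ 1 := (div_le_one hp).2 hqp
      exact mul_nonneg (mul_nonneg (by positivity) (by linarith))
        (mul_nonneg (by positivity) (by linarith))
    have h6 : 0 ≤ (16 * R ^ 2 * K - 1) * (q / p * (1 - q / p) * (p ^ 2 * (1 - R * p))) :=
      mul_nonneg (by linarith) h5
    have h7 : 0 ≤ K * (1 - (m + 16 * (R * p) ^ 2 * (1 - R * p)) * (q / p) +
        16 * (R * p) ^ 2 * (1 - R * p) * (q / p) ^ 2) := mul_nonneg hK0.le h4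
    have h8 : 0 ≤ 1 / q * (K * (1 - m * (q / p)) - q / p * (1 - q / p) * (p ^ 2 * (1 - R * p))) := by
      refine mul_nonneg (by positivity) ?_
      have e : K * (1 - m * (q / p)) - q / p * (1 - q / p) * (p ^ 2 * (1 - R * p)) =
          K * (1 - (m + 16 * (R * p) ^ 2 * (1 - R * p)) * (q / p) +
            16 * (R * p) ^ 2 * (1 - R * p) * (q / p) ^ 2) +
          (16 * R ^ 2 * K - 1) * (q / p * (1 - q / p) * (p ^ 2 * (1 - R * p))) := by ring
      rw [e]
      exact add_nonneg h7 h6
    have e2 : 1 / q * (K * (1 - m * (q / p)) - q / p * (1 - q / p) * (p ^ 2 * (1 - R * p))) =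
        K / q - (K * m / p + (p - q) * (1 - R * p)) := by
      field_simp
      ring
    rw [e2] at h8
    linarith

theorem Fn_nonneg (K : ℝ) (hK : 0 ≤ K) (a E : ℝ → ℝ) (ha0 : ∀ p, 0 ≤ a p)
    (hE0 : ∀ p, 0 ≤ E p) (p T : ℝ) (hp : 0 ≤ p) (hT : 0 ≤ T) : 0 ≤ Fn K a E p T := by
  unfold Fn
  exact add_nonneg (mul_nonneg hT (div_nonneg hK hp))
    (mul_nonneg (le_min (div_nonneg hT hp) (le_min (mul_nonneg hT (ha0 p)) (hE0 p)))
      (le_max_left _ _))

/-- the inequality of one class -/
theorem class_ineq (R K : ℝ) (hR : 2 ≤ R) (hK : K = 1 / (4 * R * (4 * R - 1))) (p x T : ℝ)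
    (hp : 0 < p) (hx : 0 ≤ x) (hxT : x ≤ T) (hx1 : R * x < 1) :
    x - p * ((R * x + K) / (1 - R * x)) ≤ Fn K (aa R) (EE K R) p T := by
  obtain ⟨hK0, hK1, hK2⟩ := Kconst R hR
  rw [← hK] at hK0 hK1 hK2
  have hR0 : 0 < R := by linarith
  have hRne : R ≠ 0 := hR0.ne'
  have hA : 0 < 1 - R * x := by linarith
  have hRx : 0 ≤ R * x := by positivity
  have hT : 0 ≤ T := hx.trans hxT
  set Φ := x - p * ((R * x + K) / (1 - R * x)) with hΦ
  have hΦA : Φ * (1 - R * x) = x * (1 - R * x) - p * (R * x + K) := by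
    rw [hΦ, sub_mul, mul_assoc, div_mul_cancel₀ _ hA.ne']
  rcases le_or_gt (1 - R * x) (R * p) with h | h
  · refine le_trans ?_ (Fn_nonneg K hK0.le _ _ (aa_nonneg R) (EE_nonneg K R) p T hp.le hT)
    have h1 : x * (1 - R * x) ≤ x * (R * p) := mul_le_mul_of_nonneg_left h hx
    have h2 : Φ * (1 - R * x) ≤ 0 := by
      rw [hΦA]
      nlinarith [mul_pos hp hK0]
    by_contra hc
    have := mul_pos (not_le.1 hc) hA
    linarith
  -- P < A
  have hP0 : 0 < R * p := by positivity
  have hP1 : R * p ≤ 1 := by linarith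
  have hσ0 : 0 ≤ 1 / R := by positivity
  have hσ : 1 / R ≤ 1 / 2 := one_div_le_one_div_of_le (by norm_num) hR
  have hAp : 0 < (1 - R * x) * p := mul_pos hA hp
  have hΦAp : Φ * ((1 - R * x) * p) = p * (x * (1 - R * x)) - p ^ 2 * (R * x + K) := by
    rw [← mul_assoc, hΦA]
    ring
  have hpp : R * (1 / R) = 1 := by field_simp
  have hsp : 1 / R * (R * p) = p := by field_simp
  -- C1
  have hC1 : Φ ≤ (1 - p) * (K / p) := by
    have h1 := num1 (1 / R) (R * p) (1 - R * x) hσ0 hσ hP0 hA.le (by linarith) h.le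
    have h2 := mul_le_mul_of_nonneg_left h1 hK0.le
    have e1 : K * ((16 - 4 * (1 / R)) * (R * p) * ((1 - (1 - R * x)) * (1 - R * x - R * p))) =
        p * x * (1 - R * x - R * p) := by
      have : K * ((16 - 4 * (1 / R)) * (R * p) * ((1 - (1 - R * x)) * (1 - R * x - R * p))) =
          (K * (16 - 4 * (1 / R))) * (R * p) * ((R * x) * (1 - R * x - R * p)) := by ring
      rw [this, hK1]
      field_simp
    have e2 : K * ((1 - 1 / R * (R * p)) * (1 - R * x) + (1 / R) ^ 2 * (R * p) ^ 2) =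
        K * ((1 - p) * (1 - R * x) + p ^ 2) := by
      rw [hsp, ← mul_pow, hsp]
    rw [e1, e2] at h2
    refine le_of_mul_le_mul_right ?_ hAp
    rw [hΦAp]
    have e3 : (1 - p) * (K / p) * ((1 - R * x) * p) = (1 - p) * K * (1 - R * x) := by
      field_simp
    rw [e3]
    nlinarith
  unfold Fn
  rcases le_or_gt (1 - p) T with hT1 | hT1
  · have h1 : max 0 (1 - T - p) = 0 := max_eq_left (by linarith)
    rw [h1, mul_zero, add_zero]
    exact hC1.trans (mul_le_mul_of_nonneg_right hT1 (by positivity))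
  have h1 : max 0 (1 - T - p) = 1 - T - p := max_eq_right (by linarith)
  rw [h1]
  -- the three options
  have o1 : Φ ≤ T * (K / p) + T / p * (1 - T - p) := by
    have h2 := concave_quad (1 / p) ((K + 1 - p) / p) 0 x (1 - p) T Φ (by positivity) hxT hT1.le
      (by
        have h3 : Φ ≤ x := by
          have : 0 ≤ p * ((R * x + K) / (1 - R * x)) :=
            mul_nonneg hp.le (div_nonneg (by linarith) hA.le)
          linarith
        have h4 : x + 2 * p ≤ 1 := by
          nlinarith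
        have h5 : x ≤ x / p * (1 - x - p) := by
          rw [div_mul_eq_mul_div, le_div_iff₀ hp]
          exact mul_le_mul_of_nonneg_left (by linarith) hx
        have h6 : 0 ≤ x * (K / p) := by positivity
        have h7 : -(1 / p) * x ^ 2 + (K + 1 - p) / p * x + 0 =
            x * (K / p) + x / p * (1 - x - p) := by
          field_simp
          ring
        rw [h7]
        linarith)
      (by
        have h7 : -(1 / p) * (1 - p) ^ 2 + (K + 1 - p) / p * (1 - p) + 0 =
            (1 - p) * (K / p) := by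
          field_simp
          ring
        rw [h7]
        exact hC1)
    have h7 : -(1 / p) * T ^ 2 + (K + 1 - p) / p * T + 0 = T * (K / p) + T / p * (1 - T - p) := by
      field_simp
      ring
    rw [h7] at h2
    exact h2
  have haa : aa R p = 1 - R * p := max_eq_right (by linarith)
  have o2 : Φ ≤ T * (K / p) + T * aa R p * (1 - T - p) := by
    rw [haa]
    have h2 := concave_quad (1 - R * p) (K / p + (1 - R * p) * (1 - p)) 0 x (1 - p) T Φ
      (by linarith) hxT hT1.le
      (by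
        have h3 := num2 (1 / R) (R * p) (1 - R * x) hσ0 hσ hP0.le hP1 hA.le (by linarith)
        have h4 := mul_le_mul_of_nonneg_left h3 hK0.le
        have e1 : K * (1 / R * (16 - 4 * (1 / R)) * (R * p) * (1 - R * x) * (1 - (1 - R * x)) *
            (1 - R * p) * (1 - (1 - R * x) + R * p)) =
            p * x * (1 - R * x) * (1 - R * p) * (x + p) := by
          have : K * (1 / R * (16 - 4 * (1 / R)) * (R * p) * (1 - R * x) * (1 - (1 - R * x)) *
            (1 - R * p) * (1 - (1 - R * x) + R * p)) =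
            (K * (16 - 4 * (1 / R))) * (1 / R) * (R * p) * (1 - R * x) * (R * x) *
            (1 - R * p) * (R * (x + p)) := by ring
          rw [this, hK1]
          field_simp
        have e2 : K * ((16 - 4 * (1 / R)) * (R * p) ^ 2 * (1 - (1 - R * x)) ^ 2 +
            1 / R * (1 - R * x) * (1 - (1 - R * x)) + (1 / R) ^ 2 * (R * p) ^ 2) =
            R ^ 2 * p ^ 2 * x ^ 2 + K * ((1 - R * x) * x + p ^ 2) := by
          have : K * ((16 - 4 * (1 / R)) * (R * p) ^ 2 * (1 - (1 - R * x)) ^ 2 +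
            1 / R * (1 - R * x) * (1 - (1 - R * x)) + (1 / R) ^ 2 * (R * p) ^ 2) =
            (K * (16 - 4 * (1 / R))) * (R * p) ^ 2 * (R * x) ^ 2 +
            K * (1 / R * (1 - R * x) * (R * x) + (1 / R) ^ 2 * (R * p) ^ 2) := by ring
          rw [this, hK1]
          field_simp
        rw [e1, e2] at h4
        refine le_of_mul_le_mul_right ?_ hAp
        rw [hΦAp]
        have e3 : (-(1 - R * p) * x ^ 2 + (K / p + (1 - R * p) * (1 - p)) * x + 0) *
            ((1 - R * x) * p) = x * K * (1 - R * x) +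
            p * x * (1 - R * x) * (1 - R * p) * (1 - x - p) := by
          field_simp
          ring
        rw [e3]
        nlinarith)
      (by
        have h7 : -(1 - R * p) * (1 - p) ^ 2 + (K / p + (1 - R * p) * (1 - p)) * (1 - p) + 0 =
            (1 - p) * (K / p) := by
          ring
        rw [h7]
        exact hC1)
    have h7 : -(1 - R * p) * T ^ 2 + (K / p + (1 - R * p) * (1 - p)) * T + 0 =
        T * (K / p) + T * (1 - R * p) * (1 - T - p) := by
      ring
    rw [h7] at h2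
    exact h2
  have o3 : Φ ≤ T * (K / p) + EE K R p * (1 - T - p) := by
    have h2 := concave_quad 0 (K / p - EE K R p) (EE K R p * (1 - p)) x (1 - p) T Φ
      le_rfl hxT hT1.le
      (by
        have e0 : -0 * x ^ 2 + (K / p - EE K R p) * x + EE K R p * (1 - p) =
            x * (K / p) + EE K R p * (1 - x - p) := by ring
        rw [e0, EE_eq K R hK0.le p hp hP1]
        rcases le_total 1 (259 / 200 - R * p) with h3 | h3
        · rw [min_eq_left h3]
          have : x * (K / p) + K * 1 / p * (1 - x - p) = (1 - p) * (K / p) := by ring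
          rw [this]
          exact hC1
        · rw [min_eq_right h3]
          have h3 := num3 (1 / R) (R * p) (1 - R * x) hσ0 hσ (by linarith) hP1
          have h4 := mul_nonneg hK0.le h3
          have e1 : K * ((1 - R * x) * (1 / R * (1 - (1 - R * x)) * (R * p - 59 / 200) +
              (259 / 200 - R * p) * (1 - 1 / R * (R * p))) -
              (16 - 4 * (1 / R)) * (R * p) * (1 - R * x) * (1 - (1 - R * x)) +
              (16 - 4 * (1 / R)) * (R * p) ^ 2 * (1 - (1 - R * x)) +
              (1 / R) ^ 2 * (R * p) ^ 2) =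
              K * (1 - R * x) * (x * (R * p - 59 / 200) + (259 / 200 - R * p) * (1 - p)) -
              p * x * (1 - R * x) + R * p ^ 2 * x + K * p ^ 2 := by
            have : K * ((1 - R * x) * (1 / R * (1 - (1 - R * x)) * (R * p - 59 / 200) +
              (259 / 200 - R * p) * (1 - 1 / R * (R * p))) -
              (16 - 4 * (1 / R)) * (R * p) * (1 - R * x) * (1 - (1 - R * x)) +
              (16 - 4 * (1 / R)) * (R * p) ^ 2 * (1 - (1 - R * x)) +
              (1 / R) ^ 2 * (R * p) ^ 2) =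
              K * ((1 - R * x) * (1 / R * (R * x) * (R * p - 59 / 200) +
              (259 / 200 - R * p) * (1 - 1 / R * (R * p)))) -
              (K * (16 - 4 * (1 / R))) * (R * p) * (1 - R * x) * (R * x) +
              (K * (16 - 4 * (1 / R))) * (R * p) ^ 2 * (R * x) +
              K * ((1 / R) ^ 2 * (R * p) ^ 2) := by ring
            rw [this, hK1]
            have e4 : 1 / R * (R * x) = x := by field_simp
            have e5 : (1 / R) ^ 2 * (R * p) ^ 2 = p ^ 2 := by rw [← mul_pow, hsp]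
            have e6 : (1 / R) ^ 2 * (R * p) * (1 - R * x) * (R * x) = p * x * (1 - R * x) := by
              field_simp
            have e7 : (1 / R) ^ 2 * (R * p) ^ 2 * (R * x) = R * p ^ 2 * x := by
              field_simp
            rw [e4, e6, e7, e5, hsp]
            ring
          rw [e1] at h4
          refine le_of_mul_le_mul_right ?_ hAp
          rw [hΦAp]
          have e3 : (x * (K / p) + K * (259 / 200 - R * p) / p * (1 - x - p)) *
              ((1 - R * x) * p) = x * K * (1 - R * x) +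
              K * (259 / 200 - R * p) * (1 - x - p) * (1 - R * x) := by
            field_simp
          rw [e3]
          nlinarith)
      (by
        have h7 : -0 * (1 - p) ^ 2 + (K / p - EE K R p) * (1 - p) + EE K R p * (1 - p) =
            (1 - p) * (K / p) := by
          ring
        rw [h7]
        exact hC1)
    have h7 : -0 * T ^ 2 + (K / p - EE K R p) * T + EE K R p * (1 - p) =
        T * (K / p) + EE K R p * (1 - T - p) := by
      ring
    rw [h7] at h2
    exact h2
  rcases min_choice (T / p) (min (T * aa R p) (EE K R p)) with e | e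
  · rw [e]
    exact o1
  · rw [e]
    rcases min_choice (T * aa R p) (EE K R p) with e' | e'
    · rw [e']
      exact o2
    · rw [e']
      exact o3

/-- small classes -/
theorem class_small (R K : ℝ) (hK : 0 ≤ K) (p x T : ℝ) (hx : 0 ≤ x) (hxT : x ≤ T)
    (hp0 : 0 ≤ p) (hp : x ≠ 0 → 0 < p) (hpK : p ≤ K) : x ≤ Fn K (aa R) (EE K R) p T := by
  by_cases h : x = 0
  · rw [h]
    exact Fn_nonneg K hK _ _ (aa_nonneg R) (EE_nonneg K R) p T hp0 (hx.trans hxT)
  · have hp' := hp h
    have hT : 0 ≤ T := hx.trans hxT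
    have h1 : 1 ≤ K / p := by
      rw [le_div_iff₀ hp']
      linarith
    unfold Fn
    have h2 : 0 ≤ min (T / p) (min (T * aa R p) (EE K R p)) * max 0 (1 - T - p) :=
      mul_nonneg (le_min (div_nonneg hT hp0) (le_min (mul_nonneg hT (aa_nonneg R p))
        (EE_nonneg K R p))) (le_max_left _ _)
    have h3 : T * 1 ≤ T * (K / p) := mul_le_mul_of_nonneg_left h1 hT
    linarith

/-- an `r`-subset with the largest values and its least value -/
theorem exists_top {iota : Type} (s : Finset iota) (x : iota → ℝ) (r : ℕ) (hr : 0 < r)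
    (hs : r ≤ s.card) : ∃ S ⊆ s, S.card = r ∧ ∃ τ, (∃ a ∈ S, x a = τ) ∧ (∀ a ∈ S, τ ≤ x a) ∧
      ∀ a ∈ s \ S, x a ≤ τ := by
  have hne : (powersetCard r s).Nonempty := powersetCard_nonempty.2 hs
  obtain ⟨S, hS, hmax⟩ := exists_max_image (powersetCard r s) (fun S => ∑ a ∈ S, x a) hne
  rw [mem_powersetCard] at hS
  have hSne : S.Nonempty := by
    rw [← card_pos, hS.2]
    exact hr
  obtain ⟨m, hm, hmin⟩ := exists_min_image S x hSne
  refine ⟨S, hS.1, hS.2, x m, ⟨m, hm, rfl⟩, hmin, ?_⟩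
  intro a ha
  rw [mem_sdiff] at ha
  by_contra hc
  have hc := not_le.1 hc
  have haS : a ∉ S.erase m := fun h => ha.2 (mem_of_mem_erase h)
  have h1 := hmax (insert a (S.erase m)) (by
    rw [mem_powersetCard]
    refine ⟨insert_subset_iff.2 ⟨ha.1, (erase_subset _ _).trans hS.1⟩, ?_⟩
    rw [card_insert_of_notMem haS, card_erase_of_mem hm, hS.2]
    omega)
  rw [sum_insert haS] at h1
  have h2 := add_sum_erase S x hm
  linarith

/-- the inequality of a hub -/
theorem numeric_t {iota : Type} (r : ℕ) (hr : 2 ≤ r) (s s2 : Finset iota) (hd : Disjoint s s2)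
    (p x T : iota → ℝ) (g : ℝ) (hp : ∀ a ∈ s ∪ s2, 0 ≤ p a)
    (hx : ∀ a ∈ s ∪ s2, 0 ≤ x a) (hxT : ∀ a ∈ s ∪ s2, x a ≤ T a)
    (hxp : ∀ a ∈ s ∪ s2, x a ≠ 0 → 0 < p a) (hS : ∀ S ⊆ s, S.card ≤ r → ∑ a ∈ S, x a ≤ g)
    (hp2 : ∀ a ∈ s2, p a ≤ Kr r) (hps : ∑ a ∈ s, p a ≤ 1 - g) :
    ∑ a ∈ s, x a + ∑ a ∈ s2, x a - g ≤
      Kr r + ∑ a ∈ s ∪ s2, Fn (Kr r) (aa r) (EE (Kr r) r) (p a) (T a) := by
  have hR : (2 : ℝ) ≤ (r : ℝ) := by exact_mod_cast hr
  obtain ⟨hK0, _, _⟩ := Kconst (r : ℝ) hR
  have hKe : Kr r = 1 / (4 * (r : ℝ) * (4 * (r : ℝ) - 1)) := rfl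
  rw [← hKe] at hK0
  set K := Kr r with hKK
  set R : ℝ := (r : ℝ) with hRR
  have hFn0 : ∀ a ∈ s ∪ s2, 0 ≤ Fn K (aa R) (EE K R) (p a) (T a) := fun a ha =>
    Fn_nonneg K hK0.le _ _ (aa_nonneg R) (EE_nonneg K R) _ _ (hp a ha) ((hx a ha).trans (hxT a ha))
  rw [sum_union hd]
  have h2 : ∑ a ∈ s2, x a ≤ ∑ a ∈ s2, Fn K (aa R) (EE K R) (p a) (T a) := by
    refine sum_le_sum (fun a ha => ?_)
    have ha' := mem_union_right s ha
    exact class_small R K hK0.le _ _ _ (hx a ha') (hxT a ha') (hp a ha') (hxp a ha') (hp2 a ha)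
  have hFs : 0 ≤ ∑ a ∈ s, Fn K (aa R) (EE K R) (p a) (T a) :=
    sum_nonneg (fun a ha => hFn0 a (mem_union_left _ ha))
  suffices h1 : ∑ a ∈ s, x a - g ≤ K + ∑ a ∈ s, Fn K (aa R) (EE K R) (p a) (T a) by linarith
  rcases le_or_gt s.card r with hc | hc
  · have := hS s subset_rfl hc
    linarith
  obtain ⟨S, hSs, hSr, τ, ⟨m, hm, hmτ⟩, hτ1, hτ2⟩ := exists_top s x r (by omega) hc.le
  have hτ0 : 0 ≤ τ := by
    rw [← hmτ]
    exact hx m (mem_union_left _ (hSs hm))
  have hSg := hS S hSs hSr.le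
  have hRτ : R * τ ≤ ∑ a ∈ S, x a := by
    have h3 : S.card • τ ≤ ∑ a ∈ S, x a := card_nsmul_le_sum S x τ hτ1
    rw [hSr, nsmul_eq_mul] at h3
    exact h3
  have hsum : ∑ a ∈ s, x a = ∑ a ∈ s \ S, x a + ∑ a ∈ S, x a := (sum_sdiff hSs).symm
  rcases le_or_gt 1 (R * τ) with h3 | h3
  · exfalso
    have h4 : ∑ a ∈ s, p a ≤ 0 := by linarith
    have h5 : p m ≤ 0 := le_trans (single_le_sum (f := p)
      (fun a ha => hp a (mem_union_left _ ha)) (hSs hm)) h4
    have h6 : x m ≠ 0 := by
      rw [hmτ]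
      intro h
      rw [h, mul_zero] at h3
      linarith
    have := hxp m (mem_union_left _ (hSs hm)) h6
    linarith
  set lam : ℝ := (R * τ + K) / (1 - R * τ) with hlam
  have hA : 0 < 1 - R * τ := by linarith
  have hRτ0 : 0 ≤ R * τ := by positivity
  have hlam0 : 0 ≤ lam := div_nonneg (by linarith) hA.le
  have hin : ∀ a ∈ S, τ - lam * p a ≤ Fn K (aa R) (EE K R) (p a) (T a) := by
    intro a ha
    have ha' := mem_union_left s2 (hSs ha)
    by_cases h4 : x a = 0
    · have h5 := hτ1 a ha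
      have h6 := hFn0 a ha'
      have h7 := mul_nonneg hlam0 (hp a ha')
      linarith
    · have h5 := class_ineq R K hR hKe (p a) τ (T a) (hxp a ha' h4) hτ0
        ((hτ1 a ha).trans (hxT a ha')) h3
      rw [mul_comm] at h5
      exact h5
  have hout : ∀ a ∈ s \ S, x a - lam * p a ≤ Fn K (aa R) (EE K R) (p a) (T a) := by
    intro a ha
    have ha' := mem_union_left s2 (mem_sdiff.1 ha).1
    by_cases h4 : x a = 0
    · have h6 := hFn0 a ha'
      have h7 := mul_nonneg hlam0 (hp a ha')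
      linarith
    · have h8 : R * x a ≤ R * τ := mul_le_mul_of_nonneg_left (hτ2 a ha) (by positivity)
      have h5 := class_ineq R K hR hKe (p a) (x a) (T a) (hxp a ha' h4) (hx a ha') (hxT a ha')
        (by linarith)
      have h9 : 0 ≤ R * x a := mul_nonneg (by positivity) (hx a ha')
      have h10 : (R * x a + K) / (1 - R * x a) ≤ lam := by
        rw [hlam]
        exact div_le_div₀ (by linarith) (by linarith) hA (by linarith)
      have h11 := mul_le_mul_of_nonneg_left h10 (hp a ha')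
      rw [mul_comm lam]
      linarith
  have h4 := sum_le_sum hin
  have h5 := sum_le_sum hout
  rw [sum_sub_distrib, ← mul_sum] at h4 h5
  rw [sum_const, hSr, nsmul_eq_mul] at h4
  have h6 : ∑ a ∈ s, p a = ∑ a ∈ s \ S, p a + ∑ a ∈ S, p a := (sum_sdiff hSs).symm
  have h7 : ∑ a ∈ s, Fn K (aa R) (EE K R) (p a) (T a) =
      ∑ a ∈ s \ S, Fn K (aa R) (EE K R) (p a) (T a) +
      ∑ a ∈ S, Fn K (aa R) (EE K R) (p a) (T a) := (sum_sdiff hSs).symm
  have h8 : lam * (∑ a ∈ s, p a) ≤ lam * (1 - R * τ) :=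
    mul_le_mul_of_nonneg_left (by linarith) hlam0
  have h9 : lam * (1 - R * τ) = R * τ + K := by
    rw [hlam]
    field_simp
  have h10 : lam * (∑ a ∈ s, p a) = lam * (∑ a ∈ s \ S, p a) + lam * (∑ a ∈ S, p a) := by
    rw [h6]
    ring
  linarith

end LCS
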