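import Pool.Agent.Lib_MP_0bab5c_x.XClos
import Pool.Agent.Lib_MP_0bab5c_x.XRed

/-! # The transition range: definitions for the core

`Kr r = 1 / (4 r (4 r - 1))`. Closures minimise `FF = beta + r0 * (number of homes met)`, `r0` a
natural number. `HubOKt`: what the core needs from a hub; the sets of at most `r` big classes have
total excess at most `g`.
-/

namespace LCS

open Finset LCX
open scoped Classical

variable {J U H : Type} [Fintype J] [Fintype U]

/-- the constant -/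
noncomputable def Kr (r : ℕ) : ℝ := 1 / (4 * (r : ℝ) * (4 * (r : ℝ) - 1))

/-- boundary plus `r0` times the number of homes met -/
noncomputable def FF (w : J → ℝ) (adj : J → J → Prop) (hadj : U → J → Prop) (hm : J → H)
    (r0 : ℕ) (A : Finset J) : ℝ :=
  beta w adj hadj A + (r0 : ℝ) * ((A.image hm).card : ℝ)

/-- what `core_t` needs from a hub `u` of degree `D` (after subtracting requests and errors) -/
def HubOKt (iota : Type) (r : ℕ) (K k : ℝ) (w : J → ℝ) (adj : J → J → Prop)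
    (hadj : U → J → Prop) (hm : J → H) (r0 : ℕ) (u : U) (D : ℝ) : Prop :=
  ∃ (s s2 : Finset iota) (Z : iota → Finset J) (p x : iota → ℝ) (g : ℝ),
    0 ≤ g ∧ Disjoint s s2 ∧
    (∀ a ∈ s ∪ s2, ∀ c ∈ s ∪ s2, a ≠ c → Disjoint (Z a) (Z c)) ∧
    (∀ a ∈ s ∪ s2, 0 ≤ p a ∧ FF w adj hadj hm r0 (Z a) ≤ p a * k ∧ 0 ≤ x a ∧
      k * x a ≤ ∑ j ∈ (Z a).filter (fun j => hadj u j), w j) ∧
    (∀ S ⊆ s, S.card ≤ r → ∑ a ∈ S, x a ≤ g) ∧ (∀ a ∈ s2, p a ≤ K) ∧
    ∑ a ∈ s, p a ≤ 1 - g ∧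
    D ≤ k + k * (∑ a ∈ s, x a + ∑ a ∈ s2, x a - g)

end LCS
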