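import Mathlib

/-! # Disjoint paths from Hall's theorem

`A`: vertices, `B`: hubs, `ra`, `rb`: adjacency. `Q` is a set of vertices such that every larger
set has a boundary which is at least as large. Then there is a relation `lk` between the boundary
vertices of `Q` and hubs outside the boundary (`lk x b`: the path of `x` ends in `b`), one to one,
such that for every `X ⊇ Q` at most `F X - F Q` new hubs in the boundary of `X` are not linked to
a member of `X`.
-/

namespace LCS

open Finset
open scoped Classical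

variable {A B : Type} [Fintype A] [Fintype B]

/-- boundary vertices -/
noncomputable def bA (ra : A → A → Prop) (X : Finset A) : Finset A :=
  univ.filter (fun y => y ∉ X ∧ ∃ x ∈ X, ra x y)

/-- boundary hubs -/
noncomputable def bB (rb : A → B → Prop) (X : Finset A) : Finset B :=
  univ.filter (fun b => ∃ x ∈ X, rb x b)

/-- size of the boundary -/
noncomputable def Fv (ra : A → A → Prop) (rb : A → B → Prop) (X : Finset A) : ℕ :=
  (bA ra X).card + (bB rb X).card

omit [Fintype B] in
@[simp] theorem mem_bA (ra : A → A → Prop) (X : Finset A) (y : A) :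
    y ∈ bA ra X ↔ y ∉ X ∧ ∃ x ∈ X, ra x y := by simp [bA]

omit [Fintype A] in
@[simp] theorem mem_bB (rb : A → B → Prop) (X : Finset A) (b : B) :
    b ∈ bB rb X ↔ ∃ x ∈ X, rb x b := by simp [bB]

/-- the matching -/
theorem exists_matching (ra : A → A → Prop) (rb : A → B → Prop) (Q : Finset A)
    (hmin : ∀ X, Q ⊆ X → Fv ra rb Q ≤ Fv ra rb X) :
    ∃ m : {x // x ∉ Q} → A ⊕ B, Function.Injective m ∧
      (∀ x y, m x = Sum.inl y → y ∉ Q ∧ y ∉ bA ra Q ∧ (y = x.1 ∨ ra x.1 y)) ∧
      (∀ x b, m x = Sum.inr b → b ∉ bB rb Q ∧ rb x.1 b) := by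
  set t : {x // x ∉ Q} → Finset (A ⊕ B) := fun x =>
    (univ.filter (fun y => y ∉ Q ∧ y ∉ bA ra Q ∧ (y = x.1 ∨ ra x.1 y))).disjSum
      (univ.filter (fun b => b ∉ bB rb Q ∧ rb x.1 b)) with ht
  have hall : ∀ s : Finset {x // x ∉ Q}, s.card ≤ (s.biUnion t).card := by
    intro s
    set S : Finset A := s.map (Function.Embedding.subtype _) with hS
    have hSs : s.card = S.card := (card_map _).symm
    have hSQ : ∀ x ∈ S, x ∉ Q := by
      intro x hx
      rw [hS, mem_map] at hx
      obtain ⟨y, _, rfl⟩ := hx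
      exact y.2
    set X := Q ∪ S with hX
    have h0 := hmin X subset_union_left
    -- the union of the targets
    set T1 : Finset A := univ.filter (fun y => y ∉ Q ∧ y ∉ bA ra Q ∧ (y ∈ S ∨ ∃ x ∈ S, ra x y))
      with hT1
    set T2 : Finset B := univ.filter (fun b => b ∉ bB rb Q ∧ ∃ x ∈ S, rb x b) with hT2
    have hU : T1.disjSum T2 ⊆ s.biUnion t := by
      intro z hz
      rw [mem_biUnion]
      rcases z with y | b
      · rw [inl_mem_disjSum, hT1, mem_filter] at hz
        obtain ⟨_, h1, h2, h3⟩ := hz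
        rcases h3 with h3 | ⟨x, hx, hxy⟩
        · refine ⟨⟨y, h1⟩, ?_, ?_⟩
          · rw [hS, mem_map] at h3
            obtain ⟨y', hy', he⟩ := h3
            have : y' = ⟨y, h1⟩ := Subtype.ext he
            rwa [← this]
          · rw [ht]
            simp only [inl_mem_disjSum, mem_filter, mem_univ, true_and]
            exact ⟨h1, h2, Or.inl trivial⟩
        · rw [hS, mem_map] at hx
          obtain ⟨x', hx', he⟩ := hx
          refine ⟨x', hx', ?_⟩
          rw [ht]
          simp only [inl_mem_disjSum, mem_filter, mem_univ, true_and]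
          refine ⟨h1, h2, Or.inr ?_⟩
          have : x'.1 = x := he
          rwa [this]
      · rw [inr_mem_disjSum, hT2, mem_filter] at hz
        obtain ⟨_, h1, x, hx, hxb⟩ := hz
        rw [hS, mem_map] at hx
        obtain ⟨x', hx', he⟩ := hx
        refine ⟨x', hx', ?_⟩
        rw [ht]
        simp only [inr_mem_disjSum, mem_filter, mem_univ, true_and]
        have : x'.1 = x := he
        exact ⟨h1, by rwa [this]⟩
    have hc := card_le_card hU
    rw [card_disjSum] at hc
    -- `T1` contains `S \ bA Q` and `bA X \ bA Q`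
    have h1 : (S \ bA ra Q).card + (bA ra X \ bA ra Q).card ≤ T1.card := by
      rw [← card_union_of_disjoint]
      · refine card_le_card ?_
        intro y hy
        rw [mem_union, mem_sdiff, mem_sdiff] at hy
        rw [hT1, mem_filter]
        rcases hy with ⟨ha, hb⟩ | ⟨ha, hb⟩
        · exact ⟨mem_univ _, hSQ y ha, hb, Or.inl ha⟩
        · rw [mem_bA] at ha
          obtain ⟨hc1, x, hx, hxy⟩ := ha
          have hyQ : y ∉ Q := fun h => hc1 (mem_union_left _ h)
          refine ⟨mem_univ _, hyQ, hb, ?_⟩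
          rcases mem_union.1 hx with hx | hx
          · exact absurd ((mem_bA ra Q y).2 ⟨hyQ, x, hx, hxy⟩) hb
          · exact Or.inr ⟨x, hx, hxy⟩
      · rw [Finset.disjoint_left]
        intro y hy hy'
        rw [mem_sdiff] at hy hy'
        exact ((mem_bA ra X y).1 hy'.1).1 (mem_union_right _ hy.1)
    have h2 : (bA ra X).card ≤ (bA ra Q \ S).card + (bA ra X \ bA ra Q).card := by
      rw [← card_union_of_disjoint]
      · refine card_le_card ?_
        intro y hy
        rw [mem_union, mem_sdiff, mem_sdiff]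
        by_cases hq : y ∈ bA ra Q
        · exact Or.inl ⟨hq, fun h => ((mem_bA ra X y).1 hy).1 (mem_union_right _ h)⟩
        · exact Or.inr ⟨hy, hq⟩
      · rw [Finset.disjoint_left]
        intro y hy hy'
        rw [mem_sdiff] at hy hy'
        exact hy'.2 hy.1
    have h3 : (bB rb X).card ≤ (bB rb Q).card + T2.card := by
      refine (card_le_card ?_).trans (card_union_le _ _)
      intro b hb
      rw [mem_union]
      by_cases hq : b ∈ bB rb Q
      · exact Or.inl hq
      · right
        rw [mem_bB] at hb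
        obtain ⟨x, hx, hxb⟩ := hb
        rw [hT2, mem_filter]
        refine ⟨mem_univ _, hq, ?_⟩
        rcases mem_union.1 hx with hx | hx
        · exact absurd ((mem_bB rb Q b).2 ⟨x, hx, hxb⟩) hq
        · exact ⟨x, hx, hxb⟩
    have h4 : (bA ra Q \ S).card + (bA ra Q ∩ S).card = (bA ra Q).card :=
      card_sdiff_add_card_inter _ _
    have h5 : (S \ bA ra Q).card + (S ∩ bA ra Q).card = S.card :=
      card_sdiff_add_card_inter _ _
    rw [inter_comm] at h5
    unfold Fv at h0
    omega
  obtain ⟨f, hf, hft⟩ := (Finset.all_card_le_biUnion_card_iff_exists_injective t).1 hall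
  refine ⟨f, hf, fun x y hxy => ?_, fun x b hxb => ?_⟩
  · have := hft x
    rw [hxy, ht] at this
    simp only [inl_mem_disjSum, mem_filter, mem_univ, true_and] at this
    exact this
  · have := hft x
    rw [hxb, ht] at this
    simp only [inr_mem_disjSum, mem_filter, mem_univ, true_and] at this
    exact this

/-- one step along the matching -/
noncomputable def st (Q : Finset A) (m : {x // x ∉ Q} → A ⊕ B) : A ⊕ B → A ⊕ B
  | .inl x => if h : x ∉ Q then m ⟨x, h⟩ else .inl x
  | .inr b => .inr b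

omit [Fintype A] [Fintype B] in
theorem st_inr (Q : Finset A) (m : {x // x ∉ Q} → A ⊕ B) (n : ℕ) (b : B) :
    (st Q m)^[n] (.inr b) = .inr b := by
  induction n with
  | zero => rfl
  | succ n ih => rw [Function.iterate_succ_apply', ih]; rfl

omit [Fintype A] [Fintype B] in
theorem st_inl (Q : Finset A) (m : {x // x ∉ Q} → A ⊕ B) (x : A) (h : x ∉ Q) :
    st Q m (.inl x) = m ⟨x, h⟩ := by
  simp only [st]
  rw [dif_pos h]

omit [Fintype A] [Fintype B] in
theorem st_notMem (Q : Finset A) (m : {x // x ∉ Q} → A ⊕ B)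
    (hm : ∀ x y, m x = Sum.inl y → y ∉ Q) (x : A) (hx : x ∉ Q) (n : ℕ) (a : A)
    (h : (st Q m)^[n] (.inl x) = .inl a) : a ∉ Q := by
  induction n generalizing a with
  | zero =>
    have : x = a := Sum.inl_injective h
    rwa [← this]
  | succ n ih =>
    rw [Function.iterate_succ_apply'] at h
    rcases hz : (st Q m)^[n] (.inl x) with a' | b
    · rw [hz, st_inl Q m a' (ih a' hz)] at h
      exact hm _ _ h
    · rw [hz] at h
      exact absurd h (by simp [st])

omit [Fintype A] [Fintype B] in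
theorem st_inj_aux (Q : Finset A) (bQ : Finset A) (hbQ : ∀ x ∈ bQ, x ∉ Q)
    (m : {x // x ∉ Q} → A ⊕ B) (hinj : Function.Injective m)
    (hm : ∀ x y, m x = Sum.inl y → y ∉ Q ∧ y ∉ bQ) (x x' : A) (hx : x ∈ bQ) (hx' : x' ∈ bQ)
    (i j : ℕ) (hij : i ≤ j) (h : (st Q m)^[i] (.inl x) = (st Q m)^[j] (.inl x'))
    (hi : ∀ t < i, ∃ a, (st Q m)^[t] (.inl x) = .inl a)
    (hj : ∀ t < j, ∃ a, (st Q m)^[t] (.inl x') = .inl a) : i = j ∧ x = x' := by
  induction i generalizing j with
  | zero =>
    cases j with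
    | zero => exact ⟨rfl, Sum.inl_injective h⟩
    | succ j =>
      obtain ⟨a, ha⟩ := hj j (Nat.lt_succ_self j)
      have haQ := st_notMem Q m (fun x y h => (hm x y h).1) x' (hbQ x' hx') j a ha
      rw [Function.iterate_succ_apply', ha, st_inl Q m a haQ] at h
      exact absurd hx (hm _ _ h.symm).2
  | succ i ih =>
    cases j with
    | zero => omega
    | succ j =>
      obtain ⟨a, ha⟩ := hi i (Nat.lt_succ_self i)
      obtain ⟨a', ha'⟩ := hj j (Nat.lt_succ_self j)
      have haQ := st_notMem Q m (fun x y h => (hm x y h).1) x (hbQ x hx) i a ha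
      have haQ' := st_notMem Q m (fun x y h => (hm x y h).1) x' (hbQ x' hx') j a' ha'
      rw [Function.iterate_succ_apply', Function.iterate_succ_apply', ha, ha', st_inl Q m a haQ,
        st_inl Q m a' haQ'] at h
      have he : a = a' := congrArg Subtype.val (hinj h)
      have := ih j (by omega) (by rw [ha, ha', he]) (fun t ht => hi t (by omega))
        (fun t ht => hj t (by omega))
      exact ⟨by omega, this.2⟩

omit [Fintype A] [Fintype B] in
theorem st_inj (Q : Finset A) (bQ : Finset A) (hbQ : ∀ x ∈ bQ, x ∉ Q)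
    (m : {x // x ∉ Q} → A ⊕ B) (hinj : Function.Injective m)
    (hm : ∀ x y, m x = Sum.inl y → y ∉ Q ∧ y ∉ bQ) (x x' : A) (hx : x ∈ bQ) (hx' : x' ∈ bQ)
    (i j : ℕ) (h : (st Q m)^[i] (.inl x) = (st Q m)^[j] (.inl x'))
    (hi : ∀ t < i, ∃ a, (st Q m)^[t] (.inl x) = .inl a)
    (hj : ∀ t < j, ∃ a, (st Q m)^[t] (.inl x') = .inl a) : i = j ∧ x = x' := by
  rcases le_total i j with hij | hij
  · exact st_inj_aux Q bQ hbQ m hinj hm x x' hx hx' i j hij h hi hj
  · have := st_inj_aux Q bQ hbQ m hinj hm x' x hx' hx j i hij h.symm hj hi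
    exact ⟨this.1.symm, this.2.symm⟩

/-- the linked hubs -/
theorem paths (ra : A → A → Prop) (rb : A → B → Prop) (Q : Finset A)
    (hmin : ∀ X, Q ⊆ X → Fv ra rb Q ≤ Fv ra rb X) :
    ∃ lk : A → B → Prop, (∀ x b, lk x b → x ∈ bA ra Q) ∧
      (∀ x b b', lk x b → lk x b' → b = b') ∧ (∀ x x' b, lk x b → lk x' b → x = x') ∧
      ∀ (X : Finset A) (N : Finset B), Q ⊆ X →
        (∀ b ∈ N, b ∈ bB rb X ∧ b ∉ bB rb Q ∧ ¬ ∃ x ∈ X, lk x b) →
        Fv ra rb Q + N.card ≤ Fv ra rb X := by
  obtain ⟨m, hinj, hm1, hm2⟩ := exists_matching ra rb Q hmin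
  have hbQ : ∀ x ∈ bA ra Q, x ∉ Q := fun x hx => ((mem_bA ra Q x).1 hx).1
  have hm : ∀ x y, m x = Sum.inl y → y ∉ Q ∧ y ∉ bA ra Q := fun x y h =>
    ⟨(hm1 x y h).1, (hm1 x y h).2.1⟩
  have hmQ : ∀ x y, m x = Sum.inl y → y ∉ Q := fun x y h => (hm x y h).1
  refine ⟨fun x b => x ∈ bA ra Q ∧ ∃ n, (st Q m)^[n] (.inl x) = .inr b, fun x b h => h.1,
    ?_, ?_, ?_⟩
  · rintro x b b' ⟨_, n, hn⟩ ⟨_, n', hn'⟩
    have aux : ∀ n n' b b', n ≤ n' → (st Q m)^[n] (.inl x) = .inr b →
        (st Q m)^[n'] (.inl x) = .inr b' → b = b' := by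
      intro n n' b b' hle h1 h2
      obtain ⟨d, rfl⟩ := Nat.exists_eq_add_of_le hle
      rw [Nat.add_comm, Function.iterate_add_apply, h1, st_inr] at h2
      exact Sum.inr_injective h2
    rcases le_total n n' with h | h
    · exact aux n n' b b' h hn hn'
    · exact (aux n' n b' b h hn' hn).symm
  · rintro x x' b ⟨hx, h1⟩ ⟨hx', h2⟩
    -- the first time the path is at a hub
    have key : ∀ y, (∃ n, (st Q m)^[n] (.inl y) = (.inr b : A ⊕ B)) →
        ∃ n, (st Q m)^[n] (.inl y) = (.inr b : A ⊕ B) ∧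
          ∀ t < n, ∃ a, (st Q m)^[t] (.inl y) = .inl a := by
      intro y hy
      refine ⟨Nat.find hy, Nat.find_spec hy, fun t ht => ?_⟩
      rcases hz : (st Q m)^[t] (.inl y) with a | b'
      · exact ⟨a, rfl⟩
      · exfalso
        have h3 := Nat.find_spec hy
        obtain ⟨d, hd⟩ := Nat.exists_eq_add_of_le ht.le
        rw [hd, Nat.add_comm, Function.iterate_add_apply, hz, st_inr] at h3
        have h4 : b' = b := Sum.inr_injective h3
        rw [h4] at hz
        exact Nat.find_min hy ht hz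
    obtain ⟨n, hn, hn'⟩ := key x h1
    obtain ⟨n2, hn2, hn2'⟩ := key x' h2
    exact (st_inj Q (bA ra Q) hbQ m hinj hm x x' hx hx' n n2 (by rw [hn, hn2]) hn' hn2').2
  · intro X N hQX hN
    -- first exit
    have hexit : ∀ x ∈ bA ra Q, x ∈ X → ∃ n, (∀ t ≤ n, ∃ a ∈ X, (st Q m)^[t] (.inl x) = .inl a) ∧
        ∀ a ∈ X, (st Q m)^[n + 1] (.inl x) ≠ (.inl a : A ⊕ B) := by
      intro x hx hxX
      by_contra hcon
      push Not at hcon
      have hall : ∀ t, ∃ a ∈ X, (st Q m)^[t] (.inl x) = (.inl a : A ⊕ B) := by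
        intro t
        induction t using Nat.strong_induction_on with
        | _ t ih =>
          cases t with
          | zero => exact ⟨x, hxX, rfl⟩
          | succ t => exact hcon t (fun t' ht' => ih t' (by omega))
      choose f hf1 hf2 using hall
      have hfinj : Function.Injective f := by
        intro i j hij
        have h3 : (st Q m)^[i] (.inl x) = (st Q m)^[j] (.inl x) := by rw [hf2, hf2, hij]
        exact (st_inj Q (bA ra Q) hbQ m hinj hm x x hx hx i j h3 (fun t _ => ⟨f t, hf2 t⟩)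
          (fun t _ => ⟨f t, hf2 t⟩)).1
      exact not_injective_infinite_finite f hfinj
    choose! n hn1 hn2 using hexit
    set z : A → A ⊕ B := fun x => (st Q m)^[n x + 1] (.inl x) with hz
    have hz1 : ∀ x ∈ bA ra Q ∩ X, ∃ a, ∃ h : a ∉ Q, a ∈ X ∧ z x = m ⟨a, h⟩ := by
      intro x hx
      rw [mem_inter] at hx
      obtain ⟨a, ha, hxa⟩ := hn1 x hx.1 hx.2 (n x) le_rfl
      have haQ := st_notMem Q m hmQ x (hbQ x hx.1) (n x) a hxa
      refine ⟨a, haQ, ha, ?_⟩
      rw [hz]
      simp only
      rw [Function.iterate_succ_apply', hxa, st_inl Q m a haQ]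
    set Hit : Finset B := (bB rb X \ bB rb Q).filter (fun b => ∃ x ∈ bA ra Q ∩ X, z x = .inr b)
      with hHit
    have hsub : (bA ra Q ∩ X).image z ⊆ (bA ra X \ bA ra Q).disjSum Hit := by
      intro w hw
      rw [mem_image] at hw
      obtain ⟨x, hx, rfl⟩ := hw
      obtain ⟨a, haQ, haX, hxa⟩ := hz1 x hx
      have hx' := mem_inter.1 hx
      rcases hzx : z x with y | b
      · rw [hzx] at hxa
        obtain ⟨h1, h2, h3⟩ := hm1 ⟨a, haQ⟩ y hxa.symm
        have hyX : y ∉ X := by
          intro hy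
          exact hn2 x hx'.1 hx'.2 y hy (by rw [← hzx])
        rw [inl_mem_disjSum, mem_sdiff, mem_bA]
        refine ⟨⟨hyX, ?_⟩, h2⟩
        rcases h3 with h3 | h3
        · exact absurd (h3 ▸ haX) hyX
        · exact ⟨a, haX, h3⟩
      · rw [hzx] at hxa
        obtain ⟨h1, h2⟩ := hm2 ⟨a, haQ⟩ b hxa.symm
        rw [inr_mem_disjSum, hHit, mem_filter, mem_sdiff, mem_bB]
        exact ⟨⟨⟨a, haX, h2⟩, h1⟩, x, hx, hzx⟩
    have hzinj : Set.InjOn z (bA ra Q ∩ X : Finset A) := by
      intro x hx x' hx' hxx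
      rw [mem_coe, mem_inter] at hx hx'
      refine (st_inj Q (bA ra Q) hbQ m hinj hm x x' hx.1 hx'.1 (n x + 1) (n x' + 1) hxx ?_ ?_).2
      · intro t ht
        obtain ⟨a, _, ha⟩ := hn1 x hx.1 hx.2 t (by omega)
        exact ⟨a, ha⟩
      · intro t ht
        obtain ⟨a, _, ha⟩ := hn1 x' hx'.1 hx'.2 t (by omega)
        exact ⟨a, ha⟩
    have hc := card_le_card hsub
    rw [card_image_of_injOn hzinj, card_disjSum] at hc
    have hN2 : Hit.card + N.card ≤ (bB rb X \ bB rb Q).card := by
      rw [← card_union_of_disjoint]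
      · refine card_le_card (union_subset (filter_subset _ _) ?_)
        intro b hb
        exact mem_sdiff.2 ⟨(hN b hb).1, (hN b hb).2.1⟩
      · rw [Finset.disjoint_left]
        intro b hb hb'
        rw [hHit, mem_filter] at hb
        obtain ⟨_, x, hx, hxb⟩ := hb
        rw [mem_inter] at hx
        exact (hN b hb').2.2 ⟨x, hx.2, hx.1, n x + 1, hxb⟩
    have h1 : (bA ra Q \ X).card + (bA ra X \ bA ra Q).card ≤ (bA ra X).card := by
      rw [← card_union_of_disjoint]
      · refine card_le_card (union_subset ?_ sdiff_subset)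
        intro y hy
        rw [mem_sdiff, mem_bA] at hy
        rw [mem_bA]
        obtain ⟨⟨_, x, hx, hxy⟩, h2⟩ := hy
        exact ⟨h2, x, hQX hx, hxy⟩
      · rw [Finset.disjoint_left]
        intro y hy hy'
        rw [mem_sdiff] at hy hy'
        exact hy'.2 hy.1
    have h2 : (bA ra Q \ X).card + (bA ra Q ∩ X).card = (bA ra Q).card :=
      card_sdiff_add_card_inter _ _
    have h3 : (bB rb X \ bB rb Q).card + (bB rb Q).card ≤ (bB rb X).card := by
      rw [← card_union_of_disjoint sdiff_disjoint]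
      refine card_le_card (union_subset sdiff_subset ?_)
      intro b hb
      rw [mem_bB] at hb ⊢
      obtain ⟨x, hx, hxb⟩ := hb
      exact ⟨x, hQX hx, hxb⟩
    unfold Fv
    omega

end LCS
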