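import Pool.Agent.Lib_MP_0bab5c_s.TDef
import Pool.Agent.Lib_MP_0bab5c_s.TPath

/-! # The local inequality at a cell

Vertices: `Σ j, Fin (W j)`; hubs: the hubs and `r0` virtual hubs for every home.
-/

namespace LCS

open Finset LCX
open scoped Classical

variable {J U H : Type} [Fintype J] [Fintype U]

/-- the hubs and the virtual hubs -/
abbrev HB (U : Type) {J H : Type} [Fintype J] (hm : J → H) (r0 : ℕ) : Type :=
  U ⊕ ({h : H // h ∈ (univ : Finset J).image hm} × Fin r0)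

/-- adjacency of vertices -/
def rA (W : J → ℕ) (adj : J → J → Prop) (x y : Σ j, Fin (W j)) : Prop := adj x.1 y.1

/-- adjacency of vertices and hubs -/
def rB (W : J → ℕ) (hadj : U → J → Prop) (hm : J → H) (r0 : ℕ) (x : Σ j, Fin (W j)) :
    HB U hm r0 → Prop
  | .inl u => hadj u x.1
  | .inr h => hm x.1 = h.1.1

/-- the vertices of a set of cells -/
noncomputable def VC (W : J → ℕ) (C : Finset J) : Finset (Σ j, Fin (W j)) :=
  univ.filter (fun x => x.1 ∈ C)

@[simp] theorem mem_VC (W : J → ℕ) (C : Finset J) (x : Σ j, Fin (W j)) :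
    x ∈ VC W C ↔ x.1 ∈ C := by simp [VC]

theorem sum_VC (W : J → ℕ) (C : Finset J) (f : J → ℝ) :
    ∑ x ∈ VC W C, f x.1 = ∑ j ∈ C, (W j : ℝ) * f j := by
  unfold VC
  rw [sum_filter, Fintype.sum_sigma]
  rw [← sum_filter_add_sum_filter_not univ (fun j => j ∈ C)]
  have h2 : ∑ j ∈ univ.filter (fun j => ¬ j ∈ C), ∑ y : Fin (W j),
      (if (⟨j, y⟩ : Σ j, Fin (W j)).1 ∈ C then f (⟨j, y⟩ : Σ j, Fin (W j)).1 else 0) = 0 := by
    refine sum_eq_zero (fun j hj => sum_eq_zero (fun y _ => ?_))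
    rw [mem_filter] at hj
    exact if_neg hj.2
  rw [h2, add_zero]
  have h3 : (univ : Finset J).filter (fun j => j ∈ C) = C := by ext; simp
  rw [h3]
  refine sum_congr rfl (fun j hj => ?_)
  have h4 : ∀ y : Fin (W j), (if (⟨j, y⟩ : Σ j, Fin (W j)).1 ∈ C then
      f (⟨j, y⟩ : Σ j, Fin (W j)).1 else 0) = f j := fun y => if_pos hj
  rw [sum_congr rfl (fun y _ => h4 y), sum_const, card_univ, Fintype.card_fin, nsmul_eq_mul]

theorem card_VC (W : J → ℕ) (C : Finset J) : ((VC W C).card : ℝ) = ∑ j ∈ C, (W j : ℝ) := by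
  have := sum_VC W C (fun _ => 1)
  simp only [sum_const, nsmul_eq_mul, mul_one] at this
  exact this

theorem bA_VC (W : J → ℕ) (hW : ∀ j, 0 < W j) (adj : J → J → Prop) (C : Finset J) :
    bA (rA W adj) (VC W C) = VC W (bdJ adj C) := by
  ext y
  rw [mem_bA, mem_VC, mem_VC]
  simp only [bdJ, mem_filter, mem_univ, true_and]
  constructor
  · rintro ⟨h1, x, hx, hxy⟩
    exact ⟨h1, x.1, (mem_VC W C x).1 hx, hxy⟩
  · rintro ⟨h1, j, hj, hjy⟩
    exact ⟨h1, ⟨j, ⟨0, hW j⟩⟩, (mem_VC W C _).2 hj, hjy⟩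

theorem card_bB_VC (W : J → ℕ) (hW : ∀ j, 0 < W j) (hadj : U → J → Prop) (hm : J → H) (r0 : ℕ)
    (C : Finset J) :
    (bB (rB W hadj hm r0) (VC W C)).card = (bdU hadj C).card + r0 * (C.image hm).card := by
  have h1 : bB (rB W hadj hm r0) (VC W C) = (bdU hadj C).disjSum
      ((univ.filter (fun h : {h : H // h ∈ (univ : Finset J).image hm} => h.1 ∈ C.image hm)) ×ˢ
        (univ : Finset (Fin r0))) := by
    ext b
    rw [mem_bB]
    rcases b with u | h
    · rw [inl_mem_disjSum]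
      simp only [bdU, mem_filter, mem_univ, true_and]
      constructor
      · rintro ⟨x, hx, hxu⟩
        exact ⟨x.1, (mem_VC W C x).1 hx, hxu⟩
      · rintro ⟨j, hj, hju⟩
        exact ⟨⟨j, ⟨0, hW j⟩⟩, (mem_VC W C _).2 hj, hju⟩
    · rw [inr_mem_disjSum, mem_product, mem_filter, mem_image]
      constructor
      · rintro ⟨x, hx, hxh⟩
        exact ⟨⟨mem_univ _, x.1, (mem_VC W C x).1 hx, hxh⟩, mem_univ _⟩
      · rintro ⟨⟨_, j, hj, hjh⟩, _⟩
        exact ⟨⟨j, ⟨0, hW j⟩⟩, (mem_VC W C _).2 hj, hjh⟩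
  rw [h1, card_disjSum, card_product, card_univ, Fintype.card_fin, Nat.mul_comm r0]
  congr 2
  have h2 : ((univ.filter (fun h : {h : H // h ∈ (univ : Finset J).image hm} =>
      h.1 ∈ C.image hm)).map (Function.Embedding.subtype _)) = C.image hm := by
    ext h
    rw [mem_map]
    constructor
    · rintro ⟨h', hh', rfl⟩
      exact (mem_filter.1 hh').2
    · intro hh
      obtain ⟨j, _, hj⟩ := mem_image.1 hh
      exact ⟨⟨h, mem_image.2 ⟨j, mem_univ _, hj⟩⟩, mem_filter.2 ⟨mem_univ _, hh⟩, rfl⟩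
  have h3 := card_map (s := univ.filter (fun h : {h : H // h ∈ (univ : Finset J).image hm} =>
      h.1 ∈ C.image hm)) (Function.Embedding.subtype _)
  rw [h2] at h3
  exact h3.symm

theorem Fv_VC (W : J → ℕ) (hW : ∀ j, 0 < W j) (adj : J → J → Prop) (hadj : U → J → Prop)
    (hm : J → H) (r0 : ℕ) (C : Finset J) :
    ((Fv (rA W adj) (rB W hadj hm r0) (VC W C) : ℕ) : ℝ) =
      FF (fun j => (W j : ℝ)) adj hadj hm r0 C := by
  unfold Fv FF beta
  rw [bA_VC W hW, card_bB_VC W hW]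
  push_cast
  rw [card_VC]
  ring

theorem hmin_V (W : J → ℕ) (hW : ∀ j, 0 < W j) (adj : J → J → Prop) (hadj : U → J → Prop)
    (hm : J → H) (r0 : ℕ) (Q : J → Finset J) (hQ : ∀ j, j ∈ Q j)
    (hmin : ∀ j A, j ∈ A → FF (fun j => (W j : ℝ)) adj hadj hm r0 (Q j) ≤
      FF (fun j => (W j : ℝ)) adj hadj hm r0 A) (l : J) (X : Finset (Σ j, Fin (W j)))
    (hX : VC W (Q l) ⊆ X) :
    Fv (rA W adj) (rB W hadj hm r0) (VC W (Q l)) ≤ Fv (rA W adj) (rB W hadj hm r0) X := by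
  set C : Finset J := X.image (fun x => x.1) with hC
  have hXC : X ⊆ VC W C := fun x hx => (mem_VC W C x).2 (mem_image_of_mem _ hx)
  have hl : l ∈ C := by
    have : (⟨l, ⟨0, hW l⟩⟩ : Σ j, Fin (W j)) ∈ X := hX ((mem_VC W _ _).2 (hQ l))
    exact mem_image_of_mem _ this
  have h1 := hmin l C hl
  rw [← Fv_VC W hW, ← Fv_VC W hW] at h1
  have h2 : Fv (rA W adj) (rB W hadj hm r0) (VC W (Q l)) ≤
      Fv (rA W adj) (rB W hadj hm r0) (VC W C) := by exact_mod_cast h1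
  refine h2.trans ?_
  unfold Fv
  refine Nat.add_le_add (card_le_card ?_) (card_le_card ?_)
  · intro y hy
    rw [mem_bA] at hy ⊢
    obtain ⟨h3, x, hx, hxy⟩ := hy
    refine ⟨fun h => h3 (hXC h), ?_⟩
    rw [mem_VC, hC, mem_image] at hx
    obtain ⟨x', hx', he⟩ := hx
    refine ⟨x', hx', ?_⟩
    unfold rA at hxy ⊢
    rwa [he]
  · intro b hb
    rw [mem_bB] at hb ⊢
    obtain ⟨x, hx, hxb⟩ := hb
    rw [mem_VC, hC, mem_image] at hx
    obtain ⟨x', hx', he⟩ := hx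
    refine ⟨x', hx', ?_⟩
    rcases b with u | h
    · unfold rB at hxb ⊢
      simp only at hxb ⊢
      rwa [he]
    · unfold rB at hxb ⊢
      simp only at hxb ⊢
      rwa [he]

/-- the local inequality at the cell `l` -/
theorem loc_ineq (k K : ℝ) (hk : 0 < k) (a E : ℝ → ℝ) (ha0 : ∀ p, 0 ≤ a p)
    (ha : ∀ p p', p ≤ p' → a p' ≤ a p) (hE0 : ∀ p, 0 ≤ E p)
    (hE : ∀ p p', 0 < p → p ≤ p' → E p' ≤ E p)
    (hR : ∀ q P, 0 < q → q ≤ P → E P + (P - q) * a P ≤ K / q)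
    (W : J → ℕ) (hW : ∀ j, 0 < W j) (adj : J → J → Prop) (hadj : U → J → Prop)
    (hm : J → H) (r0 : ℕ) (Q : J → Finset J) (hQ : ∀ j, j ∈ Q j)
    (hQQ : ∀ j l, l ∈ Q j → Q l ⊆ Q j)
    (hmin : ∀ j A, j ∈ A → FF (fun j => (W j : ℝ)) adj hadj hm r0 (Q j) ≤
      FF (fun j => (W j : ℝ)) adj hadj hm r0 A) (l : J) (Hs : Finset U) (p : U → ℝ)
    (T : U → Finset J) (h1 : ∀ u ∈ Hs, u ∉ bdU hadj (Q l))
    (h2 : ∀ u ∈ Hs, FF (fun j => (W j : ℝ)) adj hadj hm r0 (Q l) ≤ p u * k)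
    (h3 : ∀ u ∈ Hs, ∀ v ∈ T u, v ∈ bdJ adj (Q l) ∧ l ∈ Q v ∧ u ∈ bdU hadj (Q v) ∧
      FF (fun j => (W j : ℝ)) adj hadj hm r0 (Q v) ≤ p u * k) :
    ∑ u ∈ Hs, min ((∑ v ∈ T u, (W v : ℝ)) / k * a (p u)) (E (p u)) ≤
      (∑ v ∈ bdJ adj (Q l), (W v : ℝ)) *
        (K * k / FF (fun j => (W j : ℝ)) adj hadj hm r0 (Q l)) := by
  set F : J → ℝ := fun j => FF (fun j => (W j : ℝ)) adj hadj hm r0 (Q j) with hF
  have hWR : ∀ j, (0 : ℝ) < W j := fun j => by exact_mod_cast hW j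
  set D := bdJ adj (Q l) with hD
  -- the trivial case
  rcases D.eq_empty_or_nonempty with hemp | hne
  · rw [hemp, sum_empty, zero_mul]
    refine sum_nonpos (fun u hu => ?_)
    have : T u = ∅ := by
      rw [eq_empty_iff_forall_notMem]
      intro v hv
      have := (h3 u hu v hv).1
      rw [hemp] at this
      exact absurd this (notMem_empty _)
    rw [this, sum_empty, zero_div, zero_mul]
    exact min_le_left _ _
  have hnon : Nonempty (Σ j, Fin (W j)) := by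
    obtain ⟨v, _⟩ := hne
    exact ⟨⟨v, ⟨0, hW v⟩⟩⟩
  have hFl : 0 < F l := by
    obtain ⟨v, hv⟩ := hne
    have h4 : (W v : ℝ) ≤ ∑ l ∈ bdJ adj (Q l), (W l : ℝ) :=
      single_le_sum (f := fun j => (W j : ℝ)) (fun j _ => (hWR j).le) hv
    have h5 : (0 : ℝ) ≤ ((bdU hadj (Q l)).card : ℝ) := Nat.cast_nonneg _
    have h6 : (0 : ℝ) ≤ (r0 : ℝ) * (((Q l).image hm).card : ℝ) := by positivity
    have := hWR v
    rw [hF]
    simp only
    unfold FF beta
    linarith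
  set q : ℝ := F l / k with hq
  have hq0 : 0 < q := div_pos hFl hk
  obtain ⟨lk, lk1, lk2, lk3, lk4⟩ := paths (rA W adj) (rB W hadj hm r0) (VC W (Q l))
    (hmin_V W hW adj hadj hm r0 Q hQ hmin l)
  rw [bA_VC W hW] at lk1
  -- linked hubs
  obtain ⟨Lk, hLk⟩ : ∃ Lk : U → Prop, ∀ u, Lk u ↔ ∃ x, lk x (.inl u) ∧ F x.1 ≤ p u * k :=
    ⟨fun u => ∃ x, lk x (.inl u) ∧ F x.1 ≤ p u * k, fun u => Iff.rfl⟩
  set E' : J → ℝ := fun v => E (max (F v) (F l) / k) with hE'
  -- the linked part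
  have hlink : ∑ u ∈ Hs.filter Lk, E (p u) ≤ ∑ v ∈ D, (W v : ℝ) * E' v := by
    have hch : ∀ u ∈ Hs.filter Lk, ∃ x, lk x (.inl u) ∧ F x.1 ≤ p u * k := fun u hu =>
      (hLk u).1 (mem_filter.1 hu).2
    choose! x hx1 hx2 using hch
    have h4 : ∑ u ∈ Hs.filter Lk, E (p u) ≤ ∑ u ∈ Hs.filter Lk, E' (x u).1 := by
      refine sum_le_sum (fun u hu => ?_)
      have h5 := h2 u (mem_filter.1 hu).1
      refine hE _ _ (div_pos (lt_max_of_lt_right hFl) hk) ?_
      rw [div_le_iff₀ hk]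
      exact max_le (hx2 u hu) h5
    refine h4.trans ?_
    rw [← sum_VC W D E']
    have hinj : Set.InjOn x (Hs.filter Lk : Finset U) := by
      intro u hu u' hu' he
      have h5 := hx1 u hu
      have h6 := hx1 u' hu'
      rw [he] at h5
      exact Sum.inl_injective (lk2 _ _ _ h5 h6)
    rw [← sum_image (f := fun y : Σ j, Fin (W j) => E' y.1) hinj]
    refine sum_le_sum_of_subset_of_nonneg ?_ (fun y _ _ => hE0 _)
    intro y hy
    obtain ⟨u, hu, rfl⟩ := mem_image.1 hy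
    exact lk1 _ _ (hx1 u hu)
  -- the number of hubs that are not linked
  have hcount : ∀ v ∈ D, l ∈ Q v → (((Hs.filter (fun u => ¬ Lk u)).filter
      (fun u => v ∈ T u)).card : ℝ) ≤ F v - F l := by
    intro v hv hlv
    obtain ⟨S, hS⟩ : ∃ S : Finset U, S = (Hs.filter (fun u => ¬ Lk u)).filter
      (fun u => v ∈ T u) := ⟨_, rfl⟩
    have h4 := lk4 (VC W (Q v)) (S.map ⟨Sum.inl, Sum.inl_injective⟩) (by
      intro y hy
      rw [mem_VC] at hy ⊢
      exact hQQ v l hlv hy) (by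
      intro b hb
      rw [mem_map] at hb
      obtain ⟨u, hu, rfl⟩ := hb
      rw [hS, mem_filter, mem_filter] at hu
      obtain ⟨⟨hu1, hu2⟩, hu3⟩ := hu
      obtain ⟨_, _, h6, h7⟩ := h3 u hu1 v hu3
      rw [mem_bB, mem_bB]
      simp only [bdU, mem_filter, mem_univ, true_and] at h6
      refine ⟨?_, ?_, ?_⟩
      · obtain ⟨j, hj, hju⟩ := h6
        exact ⟨⟨j, ⟨0, hW j⟩⟩, (mem_VC W _ _).2 hj, hju⟩
      · rintro ⟨x, hx, hxu⟩
        apply h1 u hu1
        simp only [bdU, mem_filter, mem_univ, true_and]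
        exact ⟨x.1, (mem_VC W _ _).1 hx, hxu⟩
      · rintro ⟨x, hx, hxu⟩
        apply hu2
        rw [hLk]
        exact ⟨x, hxu, (hmin x.1 (Q v) ((mem_VC W _ _).1 hx)).trans h7⟩)
    rw [card_map] at h4
    have h6 := Fv_VC W hW adj hadj hm r0 (Q v)
    have h7 := Fv_VC W hW adj hadj hm r0 (Q l)
    have h8 : (Fv (rA W adj) (rB W hadj hm r0) (VC W (Q l)) : ℝ) + (S.card : ℝ) ≤
        (Fv (rA W adj) (rB W hadj hm r0) (VC W (Q v)) : ℝ) := by
      exact_mod_cast h4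
    rw [h6, h7] at h8
    rw [← hS]
    have h9 : F v = FF (fun j => (W j : ℝ)) adj hadj hm r0 (Q v) := rfl
    have h10 : F l = FF (fun j => (W j : ℝ)) adj hadj hm r0 (Q l) := rfl
    rw [h9, h10]
    linarith
  -- the part that is not linked
  set G : J → ℝ := fun v => if l ∈ Q v then (F v / k - q) * a (F v / k) else 0 with hG
  have hfree : ∑ u ∈ Hs.filter (fun u => ¬ Lk u), (∑ v ∈ T u, (W v : ℝ)) / k * a (p u) ≤
      ∑ v ∈ D, (W v : ℝ) * G v := by
    have e1 : ∀ u ∈ Hs.filter (fun u => ¬ Lk u), (∑ v ∈ T u, (W v : ℝ)) / k * a (p u) =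
        ∑ v ∈ D, if v ∈ T u then (W v : ℝ) * (a (p u) / k) else 0 := by
      intro u hu
      rw [← sum_filter]
      have : D.filter (fun v => v ∈ T u) = T u := by
        ext v
        rw [mem_filter]
        exact ⟨fun h => h.2, fun h => ⟨(h3 u (mem_filter.1 hu).1 v h).1, h⟩⟩
      rw [this, ← sum_mul]
      ring
    rw [sum_congr rfl e1, sum_comm]
    refine sum_le_sum (fun v hv => ?_)
    rw [← sum_filter, ← mul_sum]
    refine mul_le_mul_of_nonneg_left ?_ (hWR v).le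
    rw [hG]
    simp only
    by_cases hlv : l ∈ Q v
    · rw [if_pos hlv]
      have h4 := hcount v hv hlv
      have h5 : ∑ u ∈ (Hs.filter (fun u => ¬ Lk u)).filter (fun u => v ∈ T u), a (p u) / k ≤
          (((Hs.filter (fun u => ¬ Lk u)).filter (fun u => v ∈ T u)).card : ℝ) *
            (a (F v / k) / k) := by
        refine (sum_le_card_nsmul _ _ (a (F v / k) / k) (fun u hu => ?_)).trans
          (le_of_eq (nsmul_eq_mul _ _))
        rw [mem_filter, mem_filter] at hu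
        have h6 := (h3 u hu.1.1 v hu.2).2.2.2
        refine div_le_div_of_nonneg_right (ha _ _ ?_) hk.le
        rw [div_le_iff₀ hk]
        exact h6
      refine h5.trans ?_
      have h6 : 0 ≤ a (F v / k) / k := div_nonneg (ha0 _) hk.le
      refine (mul_le_mul_of_nonneg_right h4 h6).trans (le_of_eq ?_)
      rw [hq]
      field_simp
    · rw [if_neg hlv]
      have : (Hs.filter (fun u => ¬ Lk u)).filter (fun u => v ∈ T u) = ∅ := by
        rw [eq_empty_iff_forall_notMem]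
        intro u hu
        rw [mem_filter, mem_filter] at hu
        exact hlv (h3 u hu.1.1 v hu.2).2.1
      rw [this, sum_empty]
  -- together
  have hsplit : ∑ u ∈ Hs, min ((∑ v ∈ T u, (W v : ℝ)) / k * a (p u)) (E (p u)) ≤
      ∑ u ∈ Hs.filter Lk, E (p u) +
        ∑ u ∈ Hs.filter (fun u => ¬ Lk u), (∑ v ∈ T u, (W v : ℝ)) / k * a (p u) := by
    rw [← sum_filter_add_sum_filter_not Hs Lk]
    exact add_le_add (sum_le_sum (fun u _ => min_le_right _ _))
      (sum_le_sum (fun u _ => min_le_left _ _))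
  refine hsplit.trans ((add_le_add hlink hfree).trans ?_)
  rw [← sum_add_distrib, sum_mul]
  refine sum_le_sum (fun v _ => ?_)
  rw [← mul_add]
  refine mul_le_mul_of_nonneg_left ?_ (hWR v).le
  have hKq : K * k / F l = K / q := by
    rw [hq]
    field_simp
  rw [hKq, hE', hG]
  simp only
  by_cases hlv : l ∈ Q v
  · rw [if_pos hlv]
    have h4 : F l ≤ F v := hmin l (Q v) hlv
    rw [max_eq_left h4]
    exact hR q (F v / k) hq0 (div_le_div_of_nonneg_right h4 hk.le)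
  · rw [if_neg hlv, add_zero]
    have h4 := hR q q hq0 le_rfl
    rw [sub_self, zero_mul, add_zero] at h4
    refine le_trans (hE q _ hq0 ?_) h4
    exact div_le_div_of_nonneg_right (le_max_right _ _) hk.le

end LCS
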