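import Pool.Agent.Lib_MP_0bab5c_s.TBern

/-! # The inequality of one class, in scaled variables

`s = 1 / r`, `c = 16 - 4 s`, `K c = s ^ 2`; the boundary is `s P`, the excess `s X`, `A = 1 - X`.
-/

namespace LCS

/-- discriminant -/
theorem quad_nonneg (α β γ A : ℝ) (hα : 0 < α) (hD : β ^ 2 ≤ 4 * α * γ) :
    0 ≤ α * A ^ 2 - β * A + γ := by
  have h : 0 ≤ 4 * α * (α * A ^ 2 - β * A + γ) := by nlinarith [sq_nonneg (2 * α * A - β)]
  exact nonneg_of_mul_nonneg_right h (by linarith)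

/-- concave quadratics are at least the value at the ends -/
theorem concave_quad (α β γ x y T Φ : ℝ) (hα : 0 ≤ α) (hxT : x ≤ T) (hTy : T ≤ y)
    (h1 : Φ ≤ -α * x ^ 2 + β * x + γ) (h2 : Φ ≤ -α * y ^ 2 + β * y + γ) :
    Φ ≤ -α * T ^ 2 + β * T + γ := by
  rcases hxT.eq_or_lt with rfl | h
  · exact h1
  have hxy : 0 < y - x := by linarith
  have key : 0 ≤ (y - x) * (-α * T ^ 2 + β * T + γ - Φ) := by
    have e : (y - x) * (-α * T ^ 2 + β * T + γ - Φ) =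
        (y - T) * (-α * x ^ 2 + β * x + γ - Φ) + (T - x) * (-α * y ^ 2 + β * y + γ - Φ) +
          α * (y - x) * ((T - x) * (y - T)) := by ring
    rw [e]
    have a1 : 0 ≤ (y - T) * (-α * x ^ 2 + β * x + γ - Φ) :=
      mul_nonneg (by linarith) (by linarith)
    have a2 : 0 ≤ (T - x) * (-α * y ^ 2 + β * y + γ - Φ) :=
      mul_nonneg (by linarith) (by linarith)
    have a3 : 0 ≤ α * (y - x) * ((T - x) * (y - T)) :=
      mul_nonneg (mul_nonneg hα hxy.le) (mul_nonneg (by linarith) (by linarith))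
    linarith
  have := nonneg_of_mul_nonneg_right key hxy
  linarith

/-- (N1) -/
theorem num1 (σ P A : ℝ) (hσ0 : 0 ≤ σ) (hσ : σ ≤ 1 / 2) (hP : 0 < P) (hA0 : 0 ≤ A)
    (hA : A ≤ 1) (hPA : P ≤ A) :
    (16 - 4 * σ) * P * ((1 - A) * (A - P)) ≤ (1 - σ * P) * A + σ ^ 2 * P ^ 2 := by
  rcases le_total P (1 / 4) with h | h
  · have h1 : P * (A - P) ≤ A ^ 2 / 4 := by nlinarith [sq_nonneg (A - 2 * P)]
    have h2 : A * (1 - A) ≤ 1 / 4 := by nlinarith [sq_nonneg (A - 1 / 2)]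
    have h3 : (16 - 4 * σ) * P * ((1 - A) * (A - P)) ≤ (16 - 4 * σ) * ((1 - A) * (A ^ 2 / 4)) := by
      have : (16 - 4 * σ) * P * ((1 - A) * (A - P)) =
          (16 - 4 * σ) * ((1 - A) * (P * (A - P))) := by ring
      rw [this]
      exact mul_le_mul_of_nonneg_left (mul_le_mul_of_nonneg_left h1 (by linarith)) (by linarith)
    have h4 : (16 - 4 * σ) * ((1 - A) * (A ^ 2 / 4)) ≤ (16 - 4 * σ) * (A / 16) := by
      refine mul_le_mul_of_nonneg_left ?_ (by linarith)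
      have : (1 - A) * (A ^ 2 / 4) = A / 4 * (A * (1 - A)) := by ring
      rw [this]
      have := mul_le_mul_of_nonneg_left h2 (show 0 ≤ A / 4 by linarith)
      linarith
    have h5 : (16 - 4 * σ) * (A / 16) ≤ (1 - σ * P) * A := by
      have : 0 ≤ σ * A * (1 / 4 - P) := mul_nonneg (mul_nonneg hσ0 hA0) (by linarith)
      nlinarith
    have h6 : 0 ≤ σ ^ 2 * P ^ 2 := by positivity
    linarith
  · have hP1 : P ≤ 1 := by linarith
    have hS : 0 < 24 * P - 16 * P ^ 2 - 1 := by nlinarith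
    have hTS : (13 - 16 * (1 - P) ^ 2) ^ 2 ≤
        (24 * P - 16 * P ^ 2 - 1) * (96 * P - 16 * P ^ 2 - 9) := by
      have h1 : 0 ≤ 13 - 16 * (1 - P) ^ 2 := by nlinarith
      have h2 : 13 - 16 * (1 - P) ^ 2 ≤ 2 * (24 * P - 16 * P ^ 2 - 1) := by nlinarith
      have h3 : 2 * (13 - 16 * (1 - P) ^ 2) ≤ 96 * P - 16 * P ^ 2 - 9 := by nlinarith
      nlinarith [mul_nonneg h1 (sub_nonneg.2 h3), mul_nonneg (sub_nonneg.2 h2)
        (show (0 : ℝ) ≤ 96 * P - 16 * P ^ 2 - 9 by nlinarith)]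
    have hD : ((16 - 4 * σ) * P * (1 + P) - (1 - σ * P)) ^ 2 ≤
        4 * ((16 - 4 * σ) * P) * (P ^ 2 * (16 - 4 * σ + σ ^ 2)) := by
      have e : 4 * ((16 - 4 * σ) * P) * (P ^ 2 * (16 - 4 * σ + σ ^ 2)) -
          ((16 - 4 * σ) * P * (1 + P) - (1 - σ * P)) ^ 2 =
          (4 * P - 1) ^ 2 * (24 * P - 16 * P ^ 2 - 1) -
          2 * (σ * P) * (4 * P - 1) * (13 - 16 * (1 - P) ^ 2) +
          (σ * P) ^ 2 * (96 * P - 16 * P ^ 2 - 9) + (σ * P) ^ 2 * (8 * P) * (1 - 2 * σ) := by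
        ring
      have h1 : 0 ≤ (σ * P) ^ 2 * (8 * P) * (1 - 2 * σ) :=
        mul_nonneg (by positivity) (by linarith)
      have h2 : 0 ≤ (24 * P - 16 * P ^ 2 - 1) * ((4 * P - 1) ^ 2 * (24 * P - 16 * P ^ 2 - 1) -
          2 * (σ * P) * (4 * P - 1) * (13 - 16 * (1 - P) ^ 2) +
          (σ * P) ^ 2 * (96 * P - 16 * P ^ 2 - 9)) := by
        have e2 : (24 * P - 16 * P ^ 2 - 1) * ((4 * P - 1) ^ 2 * (24 * P - 16 * P ^ 2 - 1) -
          2 * (σ * P) * (4 * P - 1) * (13 - 16 * (1 - P) ^ 2) +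
          (σ * P) ^ 2 * (96 * P - 16 * P ^ 2 - 9)) =
          ((4 * P - 1) * (24 * P - 16 * P ^ 2 - 1) - (σ * P) * (13 - 16 * (1 - P) ^ 2)) ^ 2 +
          (σ * P) ^ 2 * ((24 * P - 16 * P ^ 2 - 1) * (96 * P - 16 * P ^ 2 - 9) -
            (13 - 16 * (1 - P) ^ 2) ^ 2) := by ring
        rw [e2]
        exact add_nonneg (sq_nonneg _) (mul_nonneg (sq_nonneg _) (by linarith))
      have h3 := nonneg_of_mul_nonneg_right h2 hS
      linarith
    have hq := quad_nonneg ((16 - 4 * σ) * P) ((16 - 4 * σ) * P * (1 + P) - (1 - σ * P))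
      (P ^ 2 * (16 - 4 * σ + σ ^ 2)) A (mul_pos (by linarith) hP) hD
    nlinarith

/-- (N2) -/
theorem num2 (σ P A : ℝ) (hσ0 : 0 ≤ σ) (hσ : σ ≤ 1 / 2) (hP : 0 ≤ P) (hP1 : P ≤ 1)
    (hA0 : 0 ≤ A) (hA : A ≤ 1) :
    σ * (16 - 4 * σ) * P * A * (1 - A) * (1 - P) * (1 - A + P) ≤
      (16 - 4 * σ) * P ^ 2 * (1 - A) ^ 2 + σ * A * (1 - A) + σ ^ 2 * P ^ 2 := by
  have hM : 0 ≤ 16 * P ^ 2 * (1 - A) ^ 2 + σ ^ 2 * P ^ 2 + σ * A * (1 - A) -
      16 * σ * P * A * (1 - A) * (1 - P) * (1 - A + P) := by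
    rcases le_total A (3 / 4) with h | h
    · have h1 := poly_f2 P A hP hP1 hA0 h
      have h2 : 0 ≤ σ * (1 - A) * (32 * P ^ 2 * (1 - A) + A - 16 * P * A * (1 - P) * (1 - A + P)) :=
        mul_nonneg (mul_nonneg hσ0 (by linarith)) h1
      have h3 : 0 ≤ P ^ 2 * (1 - A) ^ 2 * (16 - 32 * σ) := mul_nonneg (by positivity) (by linarith)
      have h4 : 0 ≤ σ ^ 2 * P ^ 2 := by positivity
      nlinarith
    · have h1 := poly_f1 P A hP hP1 h hA
      have h2 : 0 ≤ σ * (1 - A) * (8 * P ^ 2 + A - 16 * P * A * (1 - P) * (1 - A + P)) :=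
        mul_nonneg (mul_nonneg hσ0 (by linarith)) h1
      have h3 : 0 ≤ P ^ 2 * (4 * (1 - A) - σ) ^ 2 := by positivity
      nlinarith
  have h5 : 0 ≤ (16 - 4 * σ) / 16 * (16 * P ^ 2 * (1 - A) ^ 2 + σ ^ 2 * P ^ 2 +
      σ * A * (1 - A) - 16 * σ * P * A * (1 - A) * (1 - P) * (1 - A + P)) :=
    mul_nonneg (by linarith) hM
  have h6 : 0 ≤ σ / 4 * (σ ^ 2 * P ^ 2 + σ * A * (1 - A)) := by
    refine mul_nonneg (by linarith) (add_nonneg (by positivity) (mul_nonneg (by positivity) ?_))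
    linarith
  nlinarith

/-- (N3) -/
theorem num3 (σ P A : ℝ) (hσ0 : 0 ≤ σ) (hσ : σ ≤ 1 / 2) (hP : 59 / 200 ≤ P) (hP1 : P ≤ 1) :
    0 ≤ A * (σ * (1 - A) * (P - 59 / 200) + (259 / 200 - P) * (1 - σ * P)) -
      (16 - 4 * σ) * P * A * (1 - A) + (16 - 4 * σ) * P ^ 2 * (1 - A) + σ ^ 2 * P ^ 2 := by
  have hD := poly_D3 P σ hP hP1 hσ0 hσ
  have hα : 0 < (16 - 4 * σ) * P - σ * (P - 59 / 200) := by nlinarith
  have hq := quad_nonneg ((16 - 4 * σ) * P - σ * (P - 59 / 200))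
    ((16 - 4 * σ) * P * (1 + P) - (259 / 200 - P) * (1 - σ * P) - σ * (P - 59 / 200))
    (P ^ 2 * (16 - 4 * σ + σ ^ 2)) A hα (by linarith)
  nlinarith

/-- the exchange of the two payments -/
theorem num4 (P y : ℝ) (hP : 0 ≤ P) (hP1 : P ≤ 1) (hy : 0 ≤ y) (hy1 : y ≤ 1) :
    0 ≤ 1 - (min 1 (259 / 200 - P) + 16 * P ^ 2 * (1 - P)) * y +
      16 * P ^ 2 * (1 - P) * y ^ 2 := by
  set z : ℝ := 16 * P ^ 2 * (1 - P) with hz
  have hz0 : 0 ≤ z := by
    rw [hz]; exact mul_nonneg (by positivity) (by linarith)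
  have triv : z ≤ 1 → 0 ≤ 1 - (min 1 (259 / 200 - P) + z) * y + z * y ^ 2 := by
    intro h
    have h1 : min 1 (259 / 200 - P) * y ≤ 1 * y := mul_le_mul_of_nonneg_right (min_le_left _ _) hy
    have h2 : 0 ≤ (1 - y) * (1 - z * y) := mul_nonneg (by linarith) (by nlinarith)
    nlinarith
  rcases le_total P (298 / 1000) with h | h
  · apply triv
    have h1 : P ^ 2 ≤ (298 / 1000) ^ 2 := pow_le_pow_left₀ hP h 2
    have h2 : P ^ 2 * (1 - P) ≤ (298 / 1000) ^ 2 * (1 - 298 / 1000) := by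
      nlinarith [mul_nonneg hP (sub_nonneg.2 h)]
    rw [hz]
    nlinarith
  rcases le_total P (94 / 100) with h' | h'
  · have h1 := poly_h P (by linarith) (by linarith)
    have h2 : min 1 (259 / 200 - P) * y ≤ (259 / 200 - P) * y :=
      mul_le_mul_of_nonneg_right (min_le_right _ _) hy
    have hzp : 0 < z := by
      rw [hz]; exact mul_pos (by nlinarith) (by linarith)
    have h3 := quad_nonneg z (259 / 200 - P + z) 1 y hzp (by linarith)
    nlinarith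
  · apply triv
    have h1 : P ^ 2 ≤ 1 := by nlinarith
    have h2 : P ^ 2 * (1 - P) ≤ 1 * (1 - 94 / 100) :=
      mul_le_mul h1 (by linarith) (by linarith) (by norm_num)
    rw [hz]
    nlinarith

end LCS
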